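import Pool.Agent.Work.MP_5d318d_nt.Z.Disp

/-!
# The basic inequality with a second test function
-/

noncomputable section

open Finset Real ArithmeticFunction

namespace Pool.Agent.Work.MP_5d318d_nt.Zh

open Pool.Agent.Lib.LargeSieve Pool.Agent.Lib.ANT

variable {Q R1 R : ℕ}

/-- the contribution of a second test function `F2` -/
def Ext (Q N : ℕ) (a F1 F2 : ℕ → ℝ) (τ δ Y : ℝ) : ℝ :=
  2 * τ * (∑ A ∈ red Q, F2 A * ∑ n ∈ (Icc 1 N).filter (fun n => n % Q = A), a n -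
    Y * ∑ A ∈ red Q, F2 A) -
  (1 + δ) * τ ^ 2 * (2 * ∑ A ∈ red Q, F1 A * F2 A + ∑ A ∈ red Q, F2 A ^ 2)

theorem core2 (hQ : 0 < Q) (a : ℕ → ℝ) {N H : ℕ} (hH : 0 < H) {B O M P τ δ Y w : ℝ}
    (F2 : ℕ → ℝ)
    (ha0 : ∀ n, 0 ≤ a n) (ha1 : ∀ n, a n ≤ vonMangoldt n) (hc : ∀ n, a n ≠ 0 → n.Coprime Q)
    (hr : ∀ n, a n ≠ 0 → ∀ r ∈ RR Q R1 R, IsCoprime (n : ℤ) r)
    (hB : ∑ n ∈ Icc 1 N, (vonMangoldt n - a n) ≤ B)
    (hO : |∑ n ∈ Icc 1 N, a n *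
      ∑ k ∈ (Icc (-(((N + 2 * H) / Q : ℕ) : ℤ)) ((N + 2 * H) / Q : ℕ)).erase 0,
        ww N H (n + k * Q) * lam (RR Q R1 R) (n + k * Q)| ≤ O)
    (hM : ∀ t, |∑ m ∈ (II N H t).filter (fun m => IsCoprime m (Q : ℤ)), lam (RR Q R1 R) m| ≤ M)
    (hP : ∀ t, ∑ A ∈ red Q, FF Q (RR Q R1 R) (II N H t) A ^ 2 ≤ P)
    (hτ : 0 ≤ τ) (hδ : 0 < δ) (hY : 0 ≤ Y)
    (hw : ∀ t ∈ range (2 * H), w ≤ Ext Q N a (FF Q (RR Q R1 R) (II N H t)) F2 τ δ Y) :
    2 * τ * (Sg (RR Q R1 R) * ∑ n ∈ Icc 1 N, a n - O - Y * M) - (1 + δ) * τ ^ 2 * P -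
      ((N / Q + 1) * Real.log N * B / δ - w) ≤ ∑ A ∈ red Q, (psiAP N Q A - Y) ^ 2 := by
  set S := RR Q R1 R with hS
  set T := (N + 2 * H) / Q with hT
  set α : ℕ → ℝ := fun A => ∑ n ∈ (Icc 1 N).filter (fun n => n % Q = A), a n with hα
  set β : ℕ → ℝ := fun A => ∑ n ∈ (Icc 1 N).filter (fun n => n % Q = A),
    (vonMangoldt n - a n) with hβ
  have e1 : ∀ A, psiAP N Q A = α A + β A := fun A => by
    simp only [hα, hβ, psiAP, sum_sub_distrib]; ring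
  have hβ0 : ∀ A, 0 ≤ β A := fun A => sum_nonneg fun n _ => sub_nonneg.mpr (ha1 n)
  have hC : 0 ≤ ((N : ℝ) / Q + 1) * Real.log N :=
    mul_nonneg (by positivity) (Real.log_natCast_nonneg N)
  have h1 : ∑ A ∈ red Q, β A ^ 2 ≤ (N / Q + 1) * Real.log N * B := by
    clear * - Q β N B hQ α a ha0 e1 hβ0 ha1 hB hC
    calc _ ≤ ∑ A ∈ red Q, (N / Q + 1) * Real.log N * β A := by
          refine sum_le_sum fun A _ => ?_
          have := psiAP_le N hQ A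
          have h0 : 0 ≤ α A := sum_nonneg fun n _ => ha0 n
          rw [sq]
          exact mul_le_mul_of_nonneg_right (by linarith only [this, h0, e1, e1 A]) (hβ0 A)
      _ ≤ _ := by
          rw [← mul_sum, sum_red_fiber N Q hQ]
          exact mul_le_mul_of_nonneg_left ((sum_le_sum_of_subset_of_nonneg (filter_subset _ _)
            fun n _ _ => sub_nonneg.mpr (ha1 n)).trans hB) hC
  have h2 : ∀ t ∈ range (2 * H), 2 * τ * (∑ n ∈ Icc 1 N, a n * (∑ k ∈ Icc (-(T : ℤ)) T,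
      if n + k * Q ∈ II N H t then lam S (n + k * Q) else 0) - Y * M) - (1 + δ) * τ ^ 2 * P -
      ((N / Q + 1) * Real.log N * B / δ - w) ≤ ∑ A ∈ red Q, (psiAP N Q A - Y) ^ 2 := by
    intro t ht
    have a1 : ∑ A ∈ red Q, ((2 * τ * (FF Q S (II N H t) A * α A - Y * FF Q S (II N H t) A) -
        (1 + δ) * τ ^ 2 * FF Q S (II N H t) A ^ 2 - β A ^ 2 / δ) +
        (2 * τ * (F2 A * α A - Y * F2 A) - (1 + δ) * τ ^ 2 *
          (2 * (FF Q S (II N H t) A * F2 A) + F2 A ^ 2))) ≤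
        ∑ A ∈ red Q, (psiAP N Q A - Y) ^ 2 := by
      clear * - τ Q S N H t α Y δ β F2 e1 hδ
      refine sum_le_sum fun A _ => ?_
      rw [e1]
      generalize FF Q S (II N H t) A = F1
      obtain ⟨F, hF⟩ : ∃ F, F = F1 + F2 A := ⟨_, rfl⟩
      have b1 := sq_nonneg (α A + β A - Y - τ * F)
      have b2 : 0 ≤ (δ * (τ * F) + β A) ^ 2 / δ := by positivity
      have b3 : (δ * (τ * F) + β A) ^ 2 / δ =
        δ * (τ * F) ^ 2 + 2 * (τ * F) * β A + β A ^ 2 / δ := by field_simp; ring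
      have b4 : 2 * τ * (F * α A - Y * F) - (1 + δ) * τ ^ 2 * F ^ 2 - β A ^ 2 / δ ≤
        (α A + β A - Y) ^ 2 := by linarith only [b2, b3, sq_nonneg (α A + β A - Y - τ * F)]
      refine le_trans (le_of_eq ?_) b4
      rw [hF]; ring
    have a0 : ∑ A ∈ red Q, (2 * τ * (F2 A * α A - Y * F2 A) - (1 + δ) * τ ^ 2 *
          (2 * (FF Q S (II N H t) A * F2 A) + F2 A ^ 2)) =
        Ext Q N a (FF Q S (II N H t)) F2 τ δ Y := by
      rw [Ext, sum_sub_distrib, ← mul_sum, ← mul_sum, sum_sub_distrib, ← mul_sum, sum_add_distrib,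
        ← mul_sum]
    rw [sum_add_distrib, a0, sum_sub_distrib, sum_sub_distrib, ← mul_sum, ← mul_sum, ← sum_div,
      sum_sub_distrib, ← mul_sum, sum_FF_mul hQ S a hc ht] at a1
    have a2 : ∑ A ∈ red Q, FF Q S (II N H t) A ≤ M := by
      unfold FF
      rw [sum_red_fiber_int hQ]
      exact (le_abs_self _).trans (hM t)
    refine le_trans ?_ a1
    have a3 := hP t
    rw [← sub_add]
    exact add_le_add (by clear * - τ N a T H t Q S Y M δ P β B a2 hY hτ a3 hδ h1 ht hw; gcongr) (hw t ht)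
  have h3 : ∑ t ∈ range (2 * H), tri H t / H ^ 2 * ∑ n ∈ Icc 1 N, a n *
      (∑ k ∈ Icc (-(T : ℤ)) T, if n + k * Q ∈ II N H t then lam S (n + k * Q) else 0) =
      Sg S * ∑ n ∈ Icc 1 N, a n + ∑ n ∈ Icc 1 N, a n * ∑ k ∈ (Icc (-(T : ℤ)) T).erase 0,
        ww N H (n + k * Q) * lam S (n + k * Q) := by
    clear * - H N a T Q S hH R1 R hr
    simp_rw [mul_sum (Icc 1 N)]
    rw [sum_comm, ← sum_add_distrib]
    refine sum_congr rfl fun n hn => ?_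
    by_cases h0 : a n = 0
    · simp [h0]
    have b1 : Sg S = ww N H (n + 0 * Q) * lam S (n + 0 * Q) := by
      rw [zero_mul, add_zero, ww_eq_one hH (mem_Icc.mp hn).2, lam_of_coprime (hr n h0), one_mul]
    rw [mul_comm (Sg S), ← mul_add, b1, add_sum_erase _
      (fun k : ℤ => ww N H (n + k * Q) * lam S (n + k * Q)) (mem_Icc.mpr
        ⟨neg_nonpos.mpr (Int.natCast_nonneg _), Int.natCast_nonneg _⟩)]
    simp_rw [ww, sum_mul, mul_sum]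
    rw [sum_comm]
    refine sum_congr rfl fun k _ => sum_congr rfl fun t _ => ?_
    split_ifs <;> ring
  have h4 := sum_le_sum fun t ht => mul_le_mul_of_nonneg_left (h2 t ht)
    (show 0 ≤ tri H t / H ^ 2 from div_nonneg (tri_nonneg (Nat.cast_nonneg _) _) (by positivity))
  rw [← sum_mul, sum_tri_div hH, one_mul] at h4
  refine le_trans ?_ h4
  have h5 : ∀ (x : ℕ → ℝ) (c1 c2 : ℝ), ∑ t ∈ range (2 * H), tri H t / H ^ 2 *
      (2 * τ * (x t - Y * M) - c1 - c2) =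
      2 * τ * (∑ t ∈ range (2 * H), tri H t / H ^ 2 * x t - Y * M) - c1 - c2 := by
    intro x c1 c2
    have : ∀ t : ℕ, tri H t / H ^ 2 * (2 * τ * (x t - Y * M) - c1 - c2) =
      2 * τ * (tri H t / H ^ 2 * x t) - tri H t / H ^ 2 * (2 * τ * (Y * M) + c1 + c2) :=
      fun t => by ring
    simp_rw [this]
    rw [sum_sub_distrib, ← mul_sum, ← sum_mul, sum_tri_div hH]; ring
  rw [h5, h3]
  have := (abs_le.mp hO).1
  gcongr
  linarith only [this]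

theorem numeric2 {X Z k p : ℝ} (c : Par X Z k p Q) {δ : ℝ} (hδ1 : δ ≤ 1 / 10) (hδZ : 1 ≤ δ * Z)
    (hψ : (1 - δ) * X ≤ ∑ n ∈ Icc 1 ⌊X⌋₊, vonMangoldt n) (F2 : ℕ → ℝ) {w : ℝ}
    (hw : ∀ H R R1 t : ℕ, ((⌊X⌋₊ + 2 * H : ℕ) : ℝ) ≤ 2 * X → t ∈ range (2 * H) →
      p ≤ 2 * R * Z ^ 40 → (R : ℝ) ≤ p → (R1 : ℝ) ≤ 2 * (k ^ 2 * Z ^ 82) →
      (1 - 2 * δ) * X ≤ ∑ n ∈ Icc 1 ⌊X⌋₊, aa Q R n →
      w ≤ Ext Q ⌊X⌋₊ (aa Q R) (FF Q (RR Q R1 R) (II ⌊X⌋₊ H t)) F2 (Q / Q.totient) δ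
        (X / Q.totient)) :
    (1 - 10 * δ) * X * (Real.log (p / k ^ 2) - 129 * Real.log Z - 5) - 4 * X + w ≤ G X Q := by
  have hZ := c.hZ
  have hZ1 : 1 ≤ Z := by linarith only [hZ]
  have hk := c.hk
  have hp := c.one_le_p
  have hkp := c.kp_le
  have hpk := c.p_le
  have hX : 0 < X := by linarith only [hp, hkp, hpk]
  have hδ : 0 < δ := by (refine lt_of_not_ge fun h_nl => ?_; linarith only [h_nl, hδZ, hZ, mul_nonneg_of_nonpos_of_nonpos (Mathlib.Tactic.Linarith.sub_nonpos_of_le hZ) (Mathlib.Tactic.Linarith.sub_nonpos_of_le h_nl)])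
  have hQ' : (1 : ℝ) ≤ Q := by rw [c.hQ]; exact one_le_pow₀ hp
  have hQ : 0 < Q := by exact_mod_cast hQ'
  have hQX : (Q : ℝ) ≤ X := by
    rw [c.hQ, c.hX]; exact le_mul_of_one_le_left (by positivity) (one_le_pow₀ hk)
  have hpw : ∀ (C : ℝ) (j : ℕ), C ≤ 100 → j ≠ 0 → C ≤ Z ^ j := fun C j hC hj =>
    (hC.trans hZ).trans (le_self_pow₀ hZ1 hj)
  have hZp : Z ^ 40 ≤ p := by
    simpa using c.le_p (C := 1) (i := 0) (j := 40) (by norm_num) (by norm_num) (by norm_num)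
  have hZX : Z ≤ X := by linarith only [hkp, hpk, hZp, hZ1, le_self_pow₀ hZ1 (show 40 ≠ 0 by norm_num)]
  obtain ⟨H, hH1, hH2⟩ := exists_ceil (y := X / Z) ((one_le_div (by positivity)).mpr hZX)
  obtain ⟨R, hR1, hR2⟩ := exists_floor (y := p / Z ^ 40) ((one_le_div (by positivity)).mpr hZp)
  obtain ⟨R1, hS1, hS2⟩ := exists_ceil (y := k ^ 2 * Z ^ 82)
    (one_le_mul_of_one_le_of_one_le (one_le_pow₀ hk) (one_le_pow₀ hZ1))
  obtain ⟨D0, hD1, hD2⟩ := exists_ceil (y := Z ^ 37) (one_le_pow₀ hZ1)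
  obtain ⟨W, hW1, hW2⟩ := exists_ceil (y := Z ^ 2) (one_le_pow₀ hZ1)
  have hH0 : (0 : ℝ) < H := lt_of_lt_of_le (by positivity) hH1
  have hR0 : (0 : ℝ) < R := by
    have : 0 < p / Z ^ 40 := by positivity
    linarith only [hR2, this]
  have hS0 : (0 : ℝ) < R1 := lt_of_lt_of_le (by positivity) hS1
  have hD0 : (0 : ℝ) < D0 := lt_of_lt_of_le (by positivity) hD1
  have hW0 : (0 : ℝ) < W := lt_of_lt_of_le (by positivity) hW1
  rw [le_div_iff₀ (by positivity)] at hR1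
  have hRp : (R : ℝ) ≤ p := le_trans (le_mul_of_one_le_right hR0.le (one_le_pow₀ hZ1)) hR1
  have hXZ : X / Z ≤ δ * X := by clear * - X Z δ hZ p k hδZ hp hkp hpk; rw [div_le_iff₀ (by positivity)]; linarith only [hδZ, hp, hkp, hpk, mul_nonneg_of_nonpos_of_nonpos (Mathlib.Tactic.Linarith.sub_nonpos_of_le hδZ) (Mathlib.Tactic.Linarith.sub_nonpos_of_le hp), mul_nonneg_of_nonpos_of_nonpos (Mathlib.Tactic.Linarith.sub_nonpos_of_le hδZ) (Mathlib.Tactic.Linarith.sub_nonpos_of_le hkp), mul_nonneg_of_nonpos_of_nonpos (Mathlib.Tactic.Linarith.sub_nonpos_of_le hδZ) (Mathlib.Tactic.Linarith.sub_nonpos_of_le hpk)]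
  have hNX : (⌊X⌋₊ : ℝ) ≤ X := Nat.floor_le hX.le
  have hN1 : 1 ≤ ⌊X⌋₊ := Nat.le_floor (by push_cast; linarith only [hδ1, hZ, hδ, hZX])
  have hL0 : ((⌊X⌋₊ + 2 * H : ℕ) : ℝ) ≤ (1 + 4 * δ) * X := by push_cast; linarith only [hH2, hXZ, hNX]
  have hL : ((⌊X⌋₊ + 2 * H : ℕ) : ℝ) ≤ 2 * X := by clear * - X H δ Z p k hδ1 hZ hδ hZX hL0 hp hkp hpk; linarith only [hδ1, hZ, hδ, hZX, hL0, hp, hkp, hpk, mul_nonneg_of_nonpos_of_nonpos (Mathlib.Tactic.Linarith.sub_nonpos_of_le hδ1) (Mathlib.Tactic.Linarith.sub_nonpos_of_le hp), mul_nonneg_of_nonpos_of_nonpos (Mathlib.Tactic.Linarith.sub_nonpos_of_le hδ1) (Mathlib.Tactic.Linarith.sub_nonpos_of_le hkp), mul_nonneg_of_nonpos_of_nonpos (Mathlib.Tactic.Linarith.sub_nonpos_of_le hδ1) (Mathlib.Tactic.Linarith.sub_nonpos_of_le hpk)]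
  have hτR : ∀ r ≤ R, (r.divisors.card : ℝ) ≤ Z := fun r hr => c.hτ r (by
    have : (r : ℝ) ≤ R := by exact_mod_cast hr
    linarith only [hδ1, hZ, hkp, hpk, hδ, hZX, hRp, this])
  have hτQ := c.hτ Q (by linarith only [hδ1, hZ, hδ, hQX, hZX])
  have hHR := c.hH R (by linarith only [hδ1, hZ, hkp, hpk, hδ, hZX, hRp])
  have hlog : ∀ n : ℕ, (n : ℝ) ≤ X → Real.log n ≤ Z := fun n hn => by
    clear * - n Z δ hδ1 hδ X k p Q c hZ hZX hn
    linarith only [hδ1, hδ, c, hZ, hZX, hn, c.hH n (by linarith), log_le_HH n]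
  have ha0 : ∀ n, 0 ≤ aa Q R n := fun n => by
    unfold aa; split_ifs; exacts [vonMangoldt_nonneg, le_rfl]
  have ha1 : ∀ n, aa Q R n ≤ vonMangoldt n := fun n => by
    unfold aa; split_ifs; exacts [le_rfl, vonMangoldt_nonneg]
  have ha2 : ∀ n, aa Q R n ≠ 0 → n.Prime ∧ R < n ∧ n.Coprime Q := fun n h =>
    (ite_ne_right_iff.mp h).1
  have ha3 : ∀ n, aa Q R n ≠ 0 → ∀ r ∈ RR Q R1 R, IsCoprime (n : ℤ) r := fun n h r hr =>
    Nat.isCoprime_iff_coprime.mpr (((ha2 n h).1.coprime_iff_not_dvd).mpr fun hd =>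
      absurd ((Nat.le_of_dvd (RR_pos hr) hd).trans (RR_le hr)) (not_le.mpr (ha2 n h).2.1))
  have hB : ∑ n ∈ Icc 1 ⌊X⌋₊, (vonMangoldt n - aa Q R n) ≤ k * p * Z ^ 2 := by
    clear * - X Q R k p Z hN1 hQ hNX c hlog hQX hk hp hpk hZ hZ1 δ hδ1 hδ hRp
    refine (sum_sub_aa_le R hN1 hQ).trans ?_
    have a1 : √(⌊X⌋₊ : ℝ) ≤ k * p := c.sqrt_X ▸ Real.sqrt_le_sqrt hNX
    have a2 := hlog _ hNX
    have a3 := hlog _ hQX
    have a4 : 4 * √(⌊X⌋₊ : ℝ) * Real.log ⌊X⌋₊ ≤ 4 * (k * p) * Z := by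
      have := Real.log_natCast_nonneg ⌊X⌋₊
      gcongr
    have a5 : 1 * Z ≤ k * p * Z := by gcongr; linarith only [hp, hpk]
    have a6 : k * p * 1 ≤ k * p * Z := by gcongr
    have a7 : k * p * Z * 11 ≤ k * p * Z * Z := by gcongr; linarith only [hδ1, hZ, hδ]
    linarith only [hpk, hRp, a3, a4, a5, a6, a7]
  have hT : (((⌊X⌋₊ + 2 * H) / Q : ℕ) : ℝ) ≤ 2 * k ^ 2 := by
    refine Nat.cast_div_le.trans ?_
    rw [div_le_iff₀ (by positivity), c.hQ, mul_assoc, ← c.hX]; exact hL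
  have hO := off_le (Q := Q) (R1 := R1) (R := R) (Z := Z) (aa Q R) (N := ⌊X⌋₊) (H := H) (D0 := D0)
    (A := 6 * X) (E := X / Z ^ 8) (by exact_mod_cast hH0) (by exact_mod_cast hS0)
    (by exact_mod_cast hD0) hτR hHR ha3
    (by
      refine le_trans (sum_le_sum fun n _ => ?_) ((sum_vonMangoldt_Icc_le _).trans (by linarith only [hNX]))
      rw [abs_of_nonneg (ha0 n)]; exact ha1 n)
    (by positivity) (fun e he D h1 h2 x hx y hy => c.mv _ hH1 hL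
      (Nat.le_mul_of_pos_right _ (mem_Icc.mp he).1) (hD1.trans (by exact_mod_cast h1.le))
      (le_trans (by gcongr) hR1) (le_trans (le_of_eq (sum_congr rfl fun n _ => by
        rw [abs_sub_comm, abs_of_nonneg (sub_nonneg.mpr (ha1 n))])) hB) hx hy)
  have hφ : (0 : ℝ) < Q.totient := by exact_mod_cast Nat.totient_pos.mpr hQ
  have hτ : (Q : ℝ) / Q.totient ≤ Z := (div_totient_le_card_divisors Q).trans hτQ
  have e7 : k * p * Z ^ 2 ≤ δ * X := by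
    clear * - k Z p X Q c δ hk hp hZ hδZ hpk hδ hX
    have a4 := c.le_p (C := 1) (i := 0) (j := 3) (by norm_num) (by norm_num) (by norm_num)
    calc _ ≤ k * p * Z ^ 2 * (δ * Z) := le_mul_of_one_le_right (by positivity) hδZ
      _ = δ * (k * p * (1 * k ^ 0 * Z ^ 3)) := by ring
      _ ≤ δ * (k * p * (k * p)) := by have := a4.trans hpk; gcongr
      _ = _ := by rw [c.hX]; ring
  have main := core2 hQ (aa Q R) (N := ⌊X⌋₊) (H := H) (by exact_mod_cast hH0) F2 ha0 ha1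
    (fun n h => (ha2 n h).2.2) ha3 hB hO
    (fun t => abs_sum_lam_le hQ (by exact_mod_cast hS0) hτQ hτR _ _)
    (fun t => sum_FF_sq_le hQ hτQ hτR _ _) (τ := Q / Q.totient) (Y := X / Q.totient)
    (by positivity) hδ (by positivity) (fun t ht => hw H R R1 t hL ht
      (by rwa [div_le_iff₀ (by positivity)] at hR2) hRp hS2
      (by clear * - δ X Q R k p Z hψ hB e7; rw [sum_sub_distrib] at hB; linarith only [hψ, hB, e7]))
  have hSg := le_Sg (R1 := R1) hQ (show 0 < W by exact_mod_cast hW0) hτQ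
    (show HH R ≤ Z by clear * - R Z δ hδ1 hδ hHR; linarith only [hδ1, hδ, hHR])
  rw [sum_sub_distrib] at hB
  refine le_trans ?_ main
  have hS := Sg_nonneg (RR Q R1 R)
  generalize Sg (RR Q R1 R) = S at hS hSg
  generalize ∑ n ∈ Icc 1 ⌊X⌋₊, aa Q R n = Ψ at hB
  have hT0 : (0 : ℝ) ≤ (((⌊X⌋₊ + 2 * H) / Q : ℕ) : ℝ) := Nat.cast_nonneg _
  generalize (((⌊X⌋₊ + 2 * H) / Q : ℕ) : ℝ) = T at hT hT0
  have hY : X / Q.totient = k ^ 2 * (Q / Q.totient) := by rw [c.hX, c.hQ]; ring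
  have hτ' : (Q.totient : ℝ) / Q = (Q / Q.totient : ℝ)⁻¹ := by rw [inv_div]
  have hτ0 : (0 : ℝ) < Q / Q.totient := by positivity
  rw [hY, hτ']
  generalize (Q : ℝ) / Q.totient = τ at hτ hτ0 hSg
  have hXe : k ^ 2 * p ^ 2 = X := c.hX.symm
  have e1 : 2 * τ * (4 * D0 ^ 2 * (6 * X) * T * Z ^ 3 / R1) ≤ X / 2 := by
    clear * - τ D0 X T Z R1 k hτ hZ hX hk hD0 hD2 hT hT0 hS1 hS0 hpw
    calc _ ≤ 2 * Z * (4 * (2 * Z ^ 37) ^ 2 * (6 * X) * (2 * k ^ 2) * Z ^ 3 / (k ^ 2 * Z ^ 82)) := by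
          gcongr
      _ = X / 2 * (8 * 96 / (Z ^ 2 * Z ^ 2)) := by field_simp; ring
      _ ≤ X / 2 * 1 := by
          gcongr; rw [div_le_one (by positivity)]
          gcongr <;> exact hpw _ _ (by norm_num) (by norm_num)
      _ = _ := mul_one _
  have e2 : 2 * τ * (4 * (2 * ⌊X⌋₊ + 2 * H + 1) / H * (X / Z ^ 8) * Z ^ 4) ≤ X / 2 := by
    clear * - X H δ Z hδ1 hZ hδ hZX hNX hL τ hτ hX hH1 hN1 hH0 hpw
    have a1 : 2 * (⌊X⌋₊ : ℝ) + 2 * H + 1 ≤ 4 * X := by push_cast at hL; linarith only [hδ1, hZ, hδ, hZX, hNX, hL]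
    calc _ ≤ 2 * Z * (4 * (4 * X) / (X / Z) * (X / Z ^ 8) * Z ^ 4) := by gcongr
      _ = X / 2 * (64 / Z ^ 2) := by field_simp; ring
      _ ≤ X / 2 * 1 := by
          gcongr; rw [div_le_one (by positivity)]; exact hpw _ _ (by norm_num) (by norm_num)
      _ = _ := mul_one _
  have e3 : 2 * τ * (k ^ 2 * τ * (R * Z ^ 3)) ≤ X := by
    clear * - τ k R Z p X hpw hτ hτ0 hZ hk hR0 hR1 hp hXe
    calc _ ≤ Z ^ 35 * Z * (k ^ 2 * Z * (R * Z ^ 3)) := by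
          gcongr; exact hpw _ _ (by norm_num) (by norm_num)
      _ = k ^ 2 * (R * Z ^ 40 * 1) := by ring
      _ ≤ k ^ 2 * (p * p) := by gcongr
      _ = X := by rw [← hXe]; ring
  have e4 : (1 + δ) * τ ^ 2 * (4 * ((⌊X⌋₊ + 2 * H : ℕ) : ℝ) * T * Z ^ 3 / (R1 + 1)) ≤ X / 2 := by
    clear * - δ τ X H T Z R1 k hδ1 hδ hτ0 hτ hX hk hZ hL hT hT0 hS1 hN1 hS0 hpw
    calc _ ≤ 2 * Z ^ 2 * (4 * (2 * X) * (2 * k ^ 2) * Z ^ 3 / (k ^ 2 * Z ^ 82)) := by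
          gcongr <;> linarith only [hδ1, hδ, hS1]
      _ = X / 2 * (64 / Z ^ 77) := by field_simp; ring
      _ ≤ X / 2 * 1 := by
          gcongr; rw [div_le_one (by positivity)]; exact hpw _ _ (by norm_num) (by norm_num)
      _ = _ := mul_one _
  have e5 : (1 + δ) * τ ^ 2 * ((2 * T + 1) * (R ^ 2 * Z ^ 5)) ≤ X / 2 := by
    clear * - T k hT hk δ τ R Z p X hδ1 hδ hτ0 hτ hR0 hZ hT0 hpw hR1 hXe
    have a1 : 2 * T + 1 ≤ 5 * k ^ 2 := by linarith only [hT, hk, one_le_pow₀ (n := 2) hk]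
    calc _ ≤ 2 * Z ^ 2 * (5 * k ^ 2 * (R ^ 2 * Z ^ 5)) := by gcongr; linarith only [hδ1, hδ]
      _ = k ^ 2 / 2 * (R ^ 2 * Z ^ 7 * 20) := by ring
      _ ≤ k ^ 2 / 2 * (R ^ 2 * Z ^ 7 * Z ^ 73) := by
          gcongr; exact hpw _ _ (by norm_num) (by norm_num)
      _ = k ^ 2 / 2 * (R * Z ^ 40) ^ 2 := by ring
      _ ≤ k ^ 2 / 2 * p ^ 2 := by gcongr
      _ = _ := by rw [← hXe]; ring
  have e6 : (⌊X⌋₊ / Q + 1) * Real.log ⌊X⌋₊ * (k * p * Z ^ 2) / δ ≤ X := by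
    clear * - X Q k hQ p Z c hXe hNX hk hlog δ hδ hp hZ hδZ
    have a1 : (⌊X⌋₊ : ℝ) / Q + 1 ≤ 2 * k ^ 2 := by
      have : (⌊X⌋₊ : ℝ) / Q ≤ k ^ 2 := by rw [div_le_iff₀ (by positivity), c.hQ, hXe]; exact hNX
      linarith only [this, hk, one_le_pow₀ (n := 2) hk]
    have a2 := hlog _ hNX
    have a3 := Real.log_natCast_nonneg ⌊X⌋₊
    have a4 := c.le_p (C := 2) (i := 1) (j := 4) (by norm_num) (by norm_num) (by norm_num)
    rw [div_le_iff₀ hδ]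
    calc _ ≤ 2 * k ^ 2 * Z * (k * p * Z ^ 2) := by gcongr
      _ ≤ 2 * k ^ 2 * Z * (k * p * Z ^ 2) * (δ * Z) := le_mul_of_one_le_right (by positivity) hδZ
      _ = k ^ 2 * p * (2 * k ^ 1 * Z ^ 4) * δ := by ring
      _ ≤ k ^ 2 * p * p * δ := by gcongr
      _ = _ := by rw [← hXe]; ring
  have e8 : Real.log (p / k ^ 2) - 129 * Real.log Z - 5 ≤ τ * S := by
    clear * - Z W hW0 hW1 R R1 p k hZ hR2 hk hS2 hW2 hS0 hR0 δ hδ1 hδ hp τ S hSg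
    have a1 : 4 * Z ^ 2 / W ≤ 4 := by rw [div_le_iff₀ hW0]; linarith only [hW1]
    have a2 := log_le_HH R
    have a3 := HH_le (R1 * W ^ 3)
    have a4 : p / k ^ 2 * (R1 * W ^ 3 : ℕ) ≤ R * Z ^ 129 := by
      rw [div_le_iff₀ (by positivity)] at hR2
      push_cast
      calc _ ≤ 2 * R * Z ^ 40 / k ^ 2 * (2 * (k ^ 2 * Z ^ 82) * (2 * Z ^ 2) ^ 3) := by clear * - p k R Z R1 W hR2 hk hS2 hW0 hW2 hZ hS0 hR0; gcongr
        _ = R * (Z ^ 128 * 32) := by field_simp; ring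
        _ ≤ R * (Z ^ 128 * Z) := by clear * - R Z δ hδ1 hZ hδ hR0; gcongr; linarith only [hδ1, hZ, hδ]
        _ = _ := by ring
    have a5 : (0 : ℝ) < (R1 * W ^ 3 : ℕ) := by push_cast; positivity
    have a6 := Real.log_le_log (by positivity) a4
    rw [Real.log_mul (by positivity) a5.ne', Real.log_mul hR0.ne' (by positivity),
      Real.log_pow] at a6
    push_cast at a3 a6
    linarith only [hSg, a1, a2, a3, a6]
  have e9 : (1 - 10 * δ) * X ≤ 2 * Ψ - (1 + δ) * ((⌊X⌋₊ + 2 * H : ℕ) : ℝ) := by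
    clear * - δ X H hL0 hδ hδ1 hX Ψ Z k p hψ hH2 hH0 hXZ e7 hB
    have a1 : (1 + δ) * ((⌊X⌋₊ + 2 * H : ℕ) : ℝ) ≤ (1 + δ) * ((1 + 4 * δ) * X) := by gcongr
    have a2 : δ * (δ * X) ≤ 1 / 10 * (δ * X) := by gcongr
    have a3 : 0 ≤ δ * X := by positivity
    linarith only [hψ, hH2, hH0, hXZ, e7, hB, a1, a2]
  have f1 : (1 - 10 * δ) * X * (Real.log (p / k ^ 2) - 129 * Real.log Z - 5) ≤
      (2 * Ψ - (1 + δ) * ((⌊X⌋₊ + 2 * H : ℕ) : ℝ)) * (τ * S) :=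
    (mul_le_mul_of_nonneg_left e8 (mul_nonneg (by clear * - δ hδ1 e8 e9 hX; linarith only [hδ1]) hX.le)).trans
      (mul_le_mul_of_nonneg_right e9 (by positivity))
  have f2 : τ ^ 2 * (((⌊X⌋₊ + 2 * H : ℕ) : ℝ) * τ⁻¹ * S) =
      ((⌊X⌋₊ + 2 * H : ℕ) : ℝ) * (τ * S) := by clear * - τ X H S hN1 hτ0; field_simp
  have f3 := congrArg (fun x => (1 + δ) * x) f2
  linarith only [e1, e2, e3, e4, e5, e6, f1, f3]

end Pool.Agent.Work.MP_5d318d_nt.Zh
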