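import Pool.Agent.Work.MP_5d318d_nt.Final
import Pool.Agent.Lib.Weil.Rational

-- merged part: Pool.Agent.Work.MP_5d318d_nt.Z.Defs
section
/-!
# Definitions for the bound beyond one half

Paper proof: team store, h90_5d318d_beyond.md.  Parameters: `J = 300`, `A = 1200`, `T = 720000`,
`v ^ (T - 1) ≤ X ≤ v ^ T`, primes in `(v ^ A, v ^ (A + 1)]`, moduli = products of `J` such primes.
-/

noncomputable section

open Finset Real ArithmeticFunction

namespace Pool.Agent.Work.MP_5d318d_nt.Zh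

open Pool.Agent.Lib.LargeSieve Pool.Agent.Lib.ANT

/-- discrepancy kernel of the class `a` modulo `q` -/
def kz (q : ℕ) (a x : ℤ) : ℝ :=
  (if (q : ℤ) ∣ x - a then 1 else 0) - (if IsCoprime x (q : ℤ) then (q.totient : ℝ)⁻¹ else 0)

/-- symmetric residue system modulo `s` -/
def Rep (s : ℕ) : Finset ℤ := (Icc (-(s : ℤ)) s).filter (fun h => -(s : ℤ) < 2 * h ∧ 2 * h ≤ s)

/-- finite Fourier transform modulo `s` -/
def ft (s : ℕ) (F : ℤ → ℂ) (h : ℤ) : ℂ :=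
  ∑ x ∈ range s, F x * ee (-((h : ℝ) * x / s))

/-- exponential sum over an interval -/
def wI (u : ℤ) (L : ℕ) (θ : ℝ) : ℂ := ∑ m ∈ Ioc u (u + L), ee (m * θ)

/-- an inverse of `x` modulo `r` -/
def iv (r : ℕ) (x : ℤ) : ℤ := (((x : ZMod r)⁻¹).val : ℕ)

/-- `e(c / n mod r)` for `n` prime to `r`, else `0` -/
def kE (r : ℕ) (c n : ℤ) : ℂ :=
  if IsCoprime n (r : ℤ) then ee (((c * iv r n : ℤ) : ℝ) / r) else 0

/-- product of `kE` over a list of pairs (shift, sign) -/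
def EE (r : ℕ) (c : ℤ) (ν : List (ℤ × ℤ)) (n : ℤ) : ℂ :=
  (ν.map fun x => kE r (x.2 * c) (n + x.1)).prod

/-- one difference step on lists of poles -/
def dif (t t' : ℤ) (ν : List (ℤ × ℤ)) : List (ℤ × ℤ) :=
  ν.map (fun x => (x.1 + t, x.2)) ++ ν.map (fun x => (x.1 + t', -x.2))

/-- iterated difference steps on lists of poles -/
def cub : List (ℤ × ℤ) → List (ℤ × ℤ) → List (ℤ × ℤ)
  | [], ν => ν
  | x :: ts, ν => cub ts (dif x.1 x.2 ν)

/-- one difference step on functions -/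
def dlt (t t' : ℤ) (φ : ℤ → ℂ) (n : ℤ) : ℂ := φ (n + t) * (starRingEnd ℂ) (φ (n + t'))

/-- iterated difference steps on functions -/
def cubeF : List (ℤ × ℤ) → (ℤ → ℂ) → ℤ → ℂ
  | [], φ => φ
  | x :: ts, φ => cubeF ts (dlt x.1 x.2 φ)

/-- product of the periodic factors -/
def prodP (ps : List (ℕ × (ℤ → ℂ))) (n : ℤ) : ℂ := (ps.map fun x => x.2 n).prod

/-- product of the gcds of the shift differences with `r` -/
def gcdP (r : ℕ) (ts : List (ℤ × ℤ)) : ℝ := (ts.map fun x => (Int.gcd (x.1 - x.2) r : ℝ)).prod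

/-- hypotheses on the periodic factors -/
def PerOK (r L N : ℕ) (ps : List (ℕ × (ℤ → ℂ))) : Prop :=
  ∀ x ∈ ps, 0 < x.1 ∧ x.1.Coprime r ∧ L * x.1 ≤ N ∧ (∀ n, x.2 (n + x.1) = x.2 n) ∧
    ∀ n, ‖x.2 n‖ ≤ 1

/-- hypotheses of the dispersion estimate -/
structure DH (RS QS : Finset ℕ) (a : ℤ) (R0 R1 Q0 Q1 P0 M N : ℕ) (Z : ℝ) (β : ℕ → ℂ)
    (c : ℕ → ℕ → ℂ) : Prop where
  hR : ∀ r ∈ RS, Squarefree r ∧ (∀ p ∈ r.primeFactors, P0 < p) ∧ R0 ≤ r ∧ r ≤ R1 ∧
    IsCoprime a (r : ℤ)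
  hQ : ∀ q ∈ QS, Squarefree q ∧ (∀ p ∈ q.primeFactors, P0 < p) ∧ Q0 ≤ q ∧ q ≤ Q1 ∧
    IsCoprime a (q : ℤ)
  hP0 : 16 ≤ P0
  hR0 : 0 < R0
  hQ0 : 0 < Q0
  hβ : ∀ n, ‖β n‖ ≤ 1
  hnd : ∀ n : ℕ, β n ≠ 0 → ¬ (n : ℤ) ∣ a
  hc : ∀ r q, ‖c r q‖ ≤ 1
  hcop : ∀ r q, c r q ≠ 0 → r.Coprime q
  hZ : 1 ≤ Z
  hτ : ∀ n : ℕ, n ≤ M * N + a.natAbs + R1 * Q1 ^ 4 + R1 + Q1 →
    (n.divisors.card : ℝ) ≤ Z ∧ 1 + HH n ≤ Z

/-- the kernel `1[r ∣ x - a] * kz q a x` -/
def kr (r q : ℕ) (a x : ℤ) : ℝ := if (r : ℤ) ∣ x - a then kz q a x else 0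

/-- inner sum of the dispersion method -/
def VV (QS : Finset ℕ) (a : ℤ) (N : ℕ) (β : ℕ → ℂ) (c : ℕ → ℕ → ℂ) (r m : ℕ) : ℂ :=
  ∑ q ∈ QS, ∑ n ∈ range N, c r q * β n * (kr r q a ((m : ℤ) * n) : ℝ)

/-- one term of the expanded square -/
def trm (a : ℤ) (β : ℕ → ℂ) (c : ℕ → ℕ → ℂ) (r m n1 n2 q1 q2 : ℕ) : ℂ :=
  c r q1 * (starRingEnd ℂ) (c r q2) * (β n1 * (starRingEnd ℂ) (β n2)) *
    ((kr r q1 a ((m : ℤ) * n1) * kr r q2 a ((m : ℤ) * n2) : ℝ) : ℂ)

/-- diagonal terms -/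
def TD (RS QS : Finset ℕ) (a : ℤ) (M N : ℕ) (β : ℕ → ℂ) (c : ℕ → ℕ → ℂ) : ℝ :=
  ∑ r ∈ RS, ∑ m ∈ range M, ∑ n ∈ range N, ∑ q1 ∈ QS, ∑ q2 ∈ QS, ‖trm a β c r m n n q1 q2‖

/-- terms with a common prime -/
def T0 (RS QS : Finset ℕ) (a : ℤ) (M N : ℕ) (β : ℕ → ℂ) (c : ℕ → ℕ → ℂ) : ℝ :=
  ∑ r ∈ RS, ∑ m ∈ range M, ∑ n1 ∈ range N, ∑ n2 ∈ (range N).erase n1, ∑ q1 ∈ QS,
    ∑ q2 ∈ QS.filter (fun q2 => ¬ q1.Coprime q2), ‖trm a β c r m n1 n2 q1 q2‖

/-- the main off-diagonal terms -/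
def T1 (RS QS : Finset ℕ) (a : ℤ) (M N : ℕ) (β : ℕ → ℂ) (c : ℕ → ℕ → ℂ) : ℂ :=
  ∑ r ∈ RS, ∑ m ∈ range M, ∑ n1 ∈ range N, ∑ n2 ∈ (range N).erase n1, ∑ q1 ∈ QS,
    ∑ q2 ∈ QS.filter (fun q2 => q1.Coprime q2), trm a β c r m n1 n2 q1 q2

/-- local Fourier factor at `q` -/
def Gm (q : ℕ) (a h w n : ℤ) : ℂ := ft q (fun x => (kz q a (x * w * n) : ℝ)) h

/-- Fourier coefficient of the interval, with the weights -/
def gm (M : ℕ) (c : ℕ → ℕ → ℂ) (r q1 q2 : ℕ) (h : ℤ) : ℂ :=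
  if q1.Coprime q2 ∧ h ∈ Rep (r * (q1 * q2)) then
    c r q1 * (starRingEnd ℂ) (c r q2) *
      (wI (-1) M ((h : ℝ) / (r * (q1 * q2) : ℕ)) / (r * (q1 * q2) : ℕ))
  else 0

/-- the oscillating factor -/
def osc (a : ℤ) (r q1 q2 : ℕ) (h l n : ℤ) : ℂ :=
  kE r (-(h * a * iv r ((q1 : ℤ) * q2))) n * Gm q1 a h ((q2 : ℤ) * r) n *
    Gm q2 a h ((q1 : ℤ) * r) (n + l * r)

/-- the sum kept inside the second Cauchy-Schwarz step -/
def Psi (QS : Finset ℕ) (a : ℤ) (M Hm : ℕ) (c : ℕ → ℕ → ℂ) (r : ℕ) (l n : ℤ) : ℂ :=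
  ∑ q1 ∈ QS, ∑ q2 ∈ QS, ∑ h ∈ (Icc (-(Hm : ℤ)) Hm).erase 0,
    gm M c r q1 q2 h * osc a r q1 q2 h l n

/-- `β` extended to the integers, cut to `[0, N)` -/
def bz (N : ℕ) (β : ℕ → ℂ) (x : ℤ) : ℂ := if 0 ≤ x ∧ x < N then β x.toNat else 0

/-- products of `j` distinct elements of `Ps` -/
def DD (Ps : Finset ℕ) (j : ℕ) : Finset ℕ := (Ps.powersetCard j).image (fun S => ∏ p ∈ S, p)

/-- products of at most `300` distinct elements of `Ps` -/
def DA (Ps : Finset ℕ) : Finset ℕ := (range 301).biUnion (DD Ps)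

/-- the primes of the family -/
def PP (v Q : ℕ) : Finset ℕ := (Ioc (v ^ 1200) (v ^ 1201)).filter (fun p => p.Prime ∧ ¬ p ∣ Q)

/-- `Ps` consists of primes in the window -/
def PW (v : ℕ) (Ps : Finset ℕ) : Prop := ∀ p ∈ Ps, p.Prime ∧ v ^ 1200 < p ∧ p ≤ v ^ 1201

/-- hypotheses of the equidistribution estimates -/
structure ZP (v Q : ℕ) (Ps : Finset ℕ) (a : ℤ) : Prop where
  hv : 10 ^ 12 ≤ v
  hτ : ∀ n : ℕ, n ≤ v ^ 2160000 → (n.divisors.card : ℝ) ≤ v ∧ 1 + HH n ≤ v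
  hP : PW v Ps
  hPa : ∀ p ∈ Ps, IsCoprime a (p : ℤ)
  ha : a.natAbs ≤ v ^ 720002
  hQ0 : 0 < Q
  hQ1 : Q ≤ v ^ 720000
  hnd : ∀ n : ℕ, v ^ 2 < n → n.Coprime Q → ¬ (n : ℤ) ∣ a
  hne : ∀ n : ℕ, n.Coprime Q → (n : ℤ) ≠ a

/-- total discrepancy of `g` over the family -/
def KK (Q : ℕ) (Ps : Finset ℕ) (a : ℤ) (e y : ℕ) (g : ℕ → ℝ) : ℝ :=
  ∑ d ∈ DA Ps, |∑ n ∈ Icc 1 y,
    if n.Coprime Q ∧ (e : ℤ) ∣ (n : ℤ) - a then g n * kz d a n else 0|

/-- total discrepancy of a bilinear form over the family -/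
def KB (Q : ℕ) (Ps : Finset ℕ) (a : ℤ) (e y : ℕ) (α β : ℕ → ℝ) : ℝ :=
  ∑ d ∈ DA Ps, |∑ m ∈ Icc 1 y, ∑ n ∈ Icc 1 (y / m),
    if (m * n).Coprime Q ∧ (e : ℤ) ∣ ((m * n : ℕ) : ℤ) - a then
      α m * β n * kz d a ((m * n : ℕ) : ℤ) else 0|

/-- a bilinear form on a box with a cut, modulus `d` -/
def BX (M N : ℕ) (α β : ℕ → ℝ) (g : ℕ → ℕ) (κ : ℤ → ℝ) : ℝ :=
  ∑ m ∈ range M, ∑ n ∈ range N, if n ≤ g m then α m * β n * κ ((m : ℤ) * n) else 0

/-- coefficients of `lam S` as a divisor sum -/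
def lc (S : Finset ℕ) (e : ℕ) : ℝ :=
  ∑ r ∈ S.filter (fun r => e ∣ r), muR r / r.totient * (e * muR (r / e))

/-- the new set of denominators -/
def S2 (v Q : ℕ) (Ps : Finset ℕ) : Finset ℕ :=
  ((RR Q 0 v) ×ˢ (DD Ps 300)).image (fun x => x.1 * x.2)

/-- correlation of `g` with the new test function -/
def Phi (v Q : ℕ) (Ps : Finset ℕ) (a : ℤ) (y : ℕ) (g : ℕ → ℝ) : ℝ :=
  ∑ n ∈ Icc 1 y, if n.Coprime Q then g n * lam (S2 v Q Ps) ((n : ℤ) - a) else 0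

/-- Moebius sums with a coprimality condition -/
def Mk (k x : ℕ) : ℝ := ∑ n ∈ Icc 1 x, if n.Coprime k then muR n else 0

/-- weighted Moebius sums with a coprimality condition -/
def Ms (k x : ℕ) : ℝ := ∑ n ∈ Icc 1 x, if n.Coprime k then muR n * (n / n.totient) else 0

/-- logarithmic size hypotheses -/
structure LP (v : ℕ) (Lg ε : ℝ) : Prop where
  hL1 : 1 ≤ Lg
  hLv : Lg ≤ v
  hε : 1 ≤ ε * (v : ℝ) ^ 100000
  hH : ∀ n : ℕ, n ≤ v ^ 720000 → 1 + HH n ≤ Lg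
  hE : ∀ y : ℕ, y ≤ v ^ 720000 →
    ∑ f ∈ (Icc 1 y).filter Squarefree, (8 : ℝ) ^ f.primeFactors.card / f ≤ Lg
  hφ : ∀ k : ℕ, k ≤ v ^ 2160000 → (k : ℝ) / k.totient ≤ Lg
  hμ : ∀ x : ℕ, x ≤ v ^ 720000 → |Mk 1 x| ≤ ε * x + √(x * (v : ℝ) ^ 100000)

/-- global size hypotheses -/
structure GP (X : ℝ) (v Q : ℕ) : Prop where
  hv : 10 ^ 12 ≤ v
  hτ : ∀ n : ℕ, n ≤ v ^ 2160000 → (n.divisors.card : ℝ) ≤ v ∧ 1 + HH n ≤ v
  hX0 : (v : ℝ) ^ 719999 ≤ X
  hX1 : X ≤ (v : ℝ) ^ 720000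
  hQ0 : X ≤ v * Q
  hQ1 : (Q : ℝ) ≤ X

end Pool.Agent.Work.MP_5d318d_nt.Zh
end
end

-- merged part: Pool.Agent.Work.MP_5d318d_nt.Z.Four
section
/-!
# Finite Fourier analysis on periodic functions

PLAN.
* `per_mul`: induction on `k` (`Int.induction_on`).  `sum_range_shift`, `sum_dilate`: a periodic function
  factors through `x % s`; `x ↦ (x * w + b) % s` is a bijection of `range s` when `w` is prime to `s`
  (`sum_bij` or `sum_nbij`, or go through `ZMod s` with `Finset.sum_range`/`ZMod.finEquiv`).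
* `sum_Rep_ee`: `Rep s` is a complete residue system (`Rep s = Ioc u (u + s)` with `u = -((s+1)/2)`,
  by `omega`), so the sum of `ee (h * x / s)` over it is `s` or `0` (geometric sum; compare `sum_ee_orth`).
* `four_inv`: insert the definition of `ft`, swap, use `sum_Rep_ee`; exactly one `x` in `range s` has
  `s ∣ m - x`.
* `norm_wI_le_inv`: shift to `range L`, `norm_sum_ee_le`.  For `h ∈ Rep s`, `dZ (h / s) = |h| / s`
  (only `≥` is needed: `|h / s - n| ≥ |h| / s` for each integer `n`, as `|h / s| ≤ 1 / 2`).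
* `complete_le`: `sum_period`, the term `h = 0` gives `L / s`, the others `1 / (2 |h|)`, `sum_inv_abs_le`.
* `ft_mul`: `x = x1 * s2 + x2 * s1` runs over a complete system modulo `s1 * s2`; the summand of `ft` is
  periodic modulo `s1 * s2`; `ee_add`, `per_mul`.
* `ft_dilate`: substitute `x ↦ x * w'` by `sum_dilate`.
-/

noncomputable section

open Finset Real ArithmeticFunction

namespace Pool.Agent.Work.MP_5d318d_nt.Zh

open Pool.Agent.Lib.LargeSieve Pool.Agent.Lib.ANT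

theorem per_mul {F : ℤ → ℂ} {s : ℕ} (hF : ∀ n, F (n + s) = F n) (n k : ℤ) :
    F (n + s * k) = F n := by
  induction k using Int.induction_on with
  | zero => simp
  | succ k ih => rw [mul_add, mul_one, ← add_assoc, hF, ih]
  | pred k ih =>
    rw [← hF (n + s * (-(k : ℤ) - 1)), ← ih]
    congr 1
    ring

theorem per_of_dvd {F : ℤ → ℂ} {s : ℕ} (hF : ∀ n, F (n + s) = F n) {n n' : ℤ}
    (h : (s : ℤ) ∣ n - n') : F n = F n' := by
  obtain ⟨k, hk⟩ := h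
  rw [← per_mul hF n' k, ← hk, add_sub_cancel]

theorem Four_eq {s : ℕ} {x y : ℤ} (h : (s : ℤ) ∣ x - y) (h1 : x - y < s) (h2 : y - x < s) :
    x = y :=
  sub_eq_zero.1 (Int.eq_zero_of_abs_lt_dvd h (abs_lt.2 ⟨by omega, h1⟩))

theorem Four_crs {ι : Type} {F : ℤ → ℂ} {s : ℕ} (hs : 0 < s) (hF : ∀ n, F (n + s) = F n)
    (T : Finset ι) (g : ι → ℤ) (hc : s ≤ T.card)
    (hg : ∀ i ∈ T, ∀ j ∈ T, (s : ℤ) ∣ g i - g j → i = j) :
    ∑ i ∈ T, F (g i) = ∑ x ∈ range s, F x := by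
  have hs' : (0 : ℤ) < s := by exact_mod_cast hs
  have h0 : ∀ i, (((g i % s).toNat : ℕ) : ℤ) = g i % s := fun i =>
    Int.toNat_of_nonneg (Int.emod_nonneg _ hs'.ne')
  have hm : ∀ i ∈ T, (g i % s).toNat ∈ range s := fun i _ => by
    have h1 := h0 i
    have h2 := Int.emod_lt_of_pos (g i) hs'
    rw [mem_range]
    omega
  have hi : ∀ i ∈ T, ∀ j ∈ T, (g i % s).toNat = (g j % s).toNat → i = j := fun i hi j hj h => by
    refine hg i hi j hj (Int.ModEq.dvd ?_)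
    show g j % s = g i % s
    rw [← h0 i, ← h0 j, h]
  refine sum_bij (fun i _ => (g i % s).toNat) hm hi (fun b hb => ?_) (fun i _ => ?_)
  · obtain ⟨a, ha, h⟩ := surj_on_of_inj_on_of_card_le (s := T) (t := range s)
      (fun i _ => (g i % s).toNat) hm (fun i j h1 h2 h => hi i h1 j h2 h) (by simpa using hc) b hb
    exact ⟨a, ha, h.symm⟩
  · rw [h0]
    exact per_of_dvd hF (Int.ModEq.dvd (Int.mod_modEq _ _))

theorem sum_dilate {F : ℤ → ℂ} {s : ℕ} (hs : 0 < s) (hF : ∀ n, F (n + s) = F n) {w : ℤ}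
    (hw : IsCoprime w (s : ℤ)) (b : ℤ) :
    ∑ x ∈ range s, F (x * w + b) = ∑ x ∈ range s, F x := by
  refine Four_crs hs hF (range s) (fun x => x * w + b) (by simp) fun i hi j hj h => ?_
  rw [mem_range] at hi hj
  have h1 : (s : ℤ) ∣ (i - j) * w := by
    rw [sub_mul]
    simpa using h
  exact_mod_cast Four_eq (hw.symm.dvd_of_dvd_mul_right h1) (by omega) (by omega)

theorem Four_Rep (s : ℕ) : Rep s = Ioc (-(((s : ℤ) + 1) / 2)) (-(((s : ℤ) + 1) / 2) + s) := by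
  ext h
  simp only [Rep, mem_filter, mem_Icc, mem_Ioc]
  omega

theorem Four_ee_per {s : ℕ} (hs : 0 < s) (x h : ℤ) :
    ee (((h + s : ℤ) : ℝ) * x / s) = ee ((h : ℝ) * x / s) := by
  have hs' : (s : ℝ) ≠ 0 := by positivity
  rw [← ee_add_int ((h : ℝ) * x / s) x]
  congr 1
  push_cast
  field_simp

theorem sum_Rep_ee {s : ℕ} (hs : 0 < s) (x : ℤ) :
    ∑ h ∈ Rep s, ee ((h : ℝ) * x / s) = if (s : ℤ) ∣ x then (s : ℂ) else 0 := by
  have hs' : (s : ℝ) ≠ 0 := by positivity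
  have h1 := Four_crs (F := fun h : ℤ => ee ((h : ℝ) * x / s)) hs (Four_ee_per hs x) (Rep s) id
    (by rw [Four_Rep, Int.card_Ioc]; omega) (fun i hi j hj h => by
      rw [Four_Rep, mem_Ioc] at hi hj
      exact Four_eq (s := s) (x := i) (y := j) h (by omega) (by omega))
  simp only [id, Int.cast_natCast, mul_div_assoc, ee_nat_mul] at h1
  simp only [mul_div_assoc]
  rw [h1]
  split_ifs with h
  · obtain ⟨k, rfl⟩ := h
    have : (((s : ℤ) * k : ℤ) : ℝ) / s = k := by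
      push_cast
      field_simp
    rw [this, ee_intCast]
    simp
  · have hne : ee ((x : ℝ) / s) ≠ 1 := fun h2 => h (by
      have h3 := four_dZ_le ((x : ℝ) / s)
      rw [h2, sub_self, norm_zero] at h3
      have h4 : |(x : ℝ) / s - round ((x : ℝ) / s)| = 0 :=
        le_antisymm (by unfold dZ at h3; linarith only [h3]) (abs_nonneg _)
      rw [abs_eq_zero, sub_eq_zero, div_eq_iff hs'] at h4
      exact ⟨round ((x : ℝ) / s), by rw [mul_comm]; exact_mod_cast h4⟩)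
    rw [geom_sum_eq hne, ← ee_nat_mul, mul_div_cancel₀ _ hs', ee_intCast, sub_self, zero_div]

theorem four_inv {F : ℤ → ℂ} {s : ℕ} (hs : 0 < s) (hF : ∀ n, F (n + s) = F n) (m : ℤ) :
    F m = ∑ h ∈ Rep s, ft s F h * (ee (m * ((h : ℝ) / s)) / s) := by
  have hs' : (s : ℂ) ≠ 0 := by exact_mod_cast hs.ne'
  have h1 : ∀ h : ℤ, ft s F h * (ee (m * ((h : ℝ) / s)) / s) =
      ∑ x ∈ range s, F x / s * ee ((h : ℝ) * ((m - x : ℤ) : ℝ) / s) := fun h => by
    rw [ft, sum_mul]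
    refine sum_congr rfl fun x _ => ?_
    have : (h : ℝ) * ((m - x : ℤ) : ℝ) / s = -((h : ℝ) * x / s) + m * ((h : ℝ) / s) := by
      push_cast
      ring
    rw [this, ee_add]
    ring
  simp only [h1]
  rw [sum_comm]
  simp only [← mul_sum, sum_Rep_ee hs]
  have h2 := sum_dilate (F := fun x : ℤ => F x / s * if (s : ℤ) ∣ m - x then (s : ℂ) else 0) hs
    (fun n => by
      rw [hF]
      have : ((s : ℤ) ∣ m - (n + s)) ↔ (s : ℤ) ∣ m - n := by
        rw [← sub_sub]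
        exact dvd_sub_self_right
      simp only [this]) (w := 1) isCoprime_one_left m
  rw [← h2, sum_eq_single 0]
  · simp [hs']
  · intro b hb hb0
    rw [if_neg, mul_zero]
    intro h
    rw [mem_range] at hb
    have := Four_eq h (by omega) (by omega)
    omega
  · intro h
    exact absurd (mem_range.2 hs) h

theorem sum_period {F : ℤ → ℂ} {s : ℕ} (hs : 0 < s) (hF : ∀ n, F (n + s) = F n) (u : ℤ) (L : ℕ) :
    ∑ m ∈ Ioc u (u + L), F m = ∑ h ∈ Rep s, ft s F h * (wI u L ((h : ℝ) / s) / s) := by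
  rw [sum_congr rfl fun m _ => four_inv hs hF m, sum_comm]
  refine sum_congr rfl fun h _ => ?_
  rw [wI, sum_div, mul_sum]

theorem norm_wI_le (u : ℤ) (L : ℕ) (θ : ℝ) : ‖wI u L θ‖ ≤ L := by
  refine (norm_sum_le _ _).trans ?_
  simp

theorem Four_wI (u : ℤ) (L : ℕ) (θ : ℝ) :
    wI u L θ = ee (((u + 1 : ℤ) : ℝ) * θ) * ∑ n ∈ range L, ee (n * θ) := by
  rw [wI, mul_sum]
  symm
  refine sum_bij (fun n _ => u + 1 + (n : ℤ)) (fun n hn => ?_) (fun a _ b _ h => ?_)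
    (fun b hb => ?_) (fun n _ => ?_)
  · rw [mem_range] at hn
    rw [mem_Ioc]
    omega
  · omega
  · rw [mem_Ioc] at hb
    exact ⟨(b - u - 1).toNat, by rw [mem_range]; omega, by omega⟩
  · rw [← ee_add]
    congr 1
    push_cast
    ring

theorem norm_wI_le_inv (u : ℤ) (L : ℕ) {s : ℕ} (hs : 0 < s) {h : ℤ} (hh : h ∈ Rep s)
    (h0 : h ≠ 0) : ‖wI u L ((h : ℝ) / s) / s‖ ≤ 1 / (2 * |(h : ℝ)|) := by
  have hs' : (0 : ℝ) < s := by positivity
  have hh0 : (0 : ℝ) < |(h : ℝ)| := abs_pos.2 (by exact_mod_cast h0)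
  have h1 : |(h : ℝ)| / s ≤ dZ ((h : ℝ) / s) := by
    rw [Four_Rep, mem_Ioc] at hh
    have h2 : ∀ k : ℤ, |h| ≤ |h - s * k| := fun k => by
      rcases lt_trichotomy k 0 with hk | rfl | hk
      · have : (s : ℤ) * k ≤ -s := by linarith only [hk, Int.natCast_nonneg s, mul_nonneg_of_nonpos_of_nonpos (Mathlib.Tactic.Linarith.sub_nonpos_of_le (Mathlib.Tactic.Linarith.natCast_nonneg ℤ s)) (Mathlib.Tactic.Linarith.sub_nonpos_of_le (Int.add_one_le_iff.mpr hk))]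
        exact abs_le.2 ⟨by have := le_abs_self (h - s * k); omega,
          by have := le_abs_self (h - s * k); omega⟩
      · simp
      · have : (s : ℤ) ≤ s * k := by linarith only [hk, Int.natCast_nonneg s, mul_nonneg_of_nonpos_of_nonpos (Mathlib.Tactic.Linarith.sub_nonpos_of_le (Mathlib.Tactic.Linarith.natCast_nonneg ℤ s)) (Mathlib.Tactic.Linarith.sub_nonpos_of_le (Int.add_one_le_iff.mpr hk))]
        exact abs_le.2 ⟨by have := neg_abs_le (h - s * k); omega,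
          by have := neg_abs_le (h - s * k); omega⟩
    have h3 : (h : ℝ) / s - round ((h : ℝ) / s) =
        ((h - s * round ((h : ℝ) / s) : ℤ) : ℝ) / s := by
      push_cast
      field_simp
    rw [dZ, h3, abs_div, abs_of_pos hs']
    exact div_le_div_of_nonneg_right (by exact_mod_cast h2 _) hs'.le
  have h4 : 0 < |(h : ℝ)| / s := by positivity
  have h5 := norm_sum_ee_le L _ (h4.trans_le h1)
  rw [Four_wI, norm_div, norm_mul, norm_ee, one_mul, Complex.norm_natCast, div_le_iff₀ hs']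
  refine h5.trans ((one_div_le_one_div_of_le (by positivity)
    (mul_le_mul_of_nonneg_left h1 zero_le_two)).trans (le_of_eq ?_))
  field_simp

theorem sum_inv_abs_le (B : ℕ) :
    ∑ h ∈ (Icc (-(B : ℤ)) B).erase 0, 1 / (2 * |(h : ℝ)|) ≤ HH B := by
  induction B with
  | zero => simp [HH]
  | succ B ih =>
    have h1 : (Icc (-((B + 1 : ℕ) : ℤ)) (B + 1 : ℕ)).erase 0 =
        insert ((B : ℤ) + 1) (insert (-((B : ℤ) + 1)) ((Icc (-(B : ℤ)) B).erase 0)) := by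
      ext h
      simp only [mem_erase, mem_Icc, mem_insert]
      omega
    have h2 : HH (B + 1) = HH B + 1 / ((B : ℝ) + 1) := by
      rw [HH, HH, sum_Icc_succ_top (by omega)]
      push_cast
      rfl
    rw [h1, sum_insert (by simp only [mem_erase, mem_Icc, mem_insert]; omega),
      sum_insert (by simp only [mem_erase, mem_Icc]; omega), h2]
    push_cast
    rw [abs_neg, abs_of_pos (by positivity : (0 : ℝ) < (B : ℝ) + 1)]
    have : 1 / ((B : ℝ) + 1) = 1 / (2 * ((B : ℝ) + 1)) + 1 / (2 * ((B : ℝ) + 1)) := by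
      field_simp
      ring
    linarith only [ih, this]

theorem complete_le {F : ℤ → ℂ} {s : ℕ} (hs : 0 < s) (hF : ∀ n, F (n + s) = F n) {B : ℝ}
    (hB : ∀ h, ‖ft s F h‖ ≤ B) (u : ℤ) (L : ℕ) :
    ‖∑ m ∈ Ioc u (u + L), F m‖ ≤ B * (L / s + HH s) := by
  have hB0 : 0 ≤ B := (norm_nonneg _).trans (hB 0)
  have h0 : (0 : ℤ) ∈ Rep s := by
    rw [Four_Rep, mem_Ioc]
    omega
  rw [sum_period hs hF]
  refine (norm_sum_le _ _).trans ?_
  refine (sum_le_sum fun h _ => (norm_mul_le _ _).trans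
    (mul_le_mul_of_nonneg_right (hB h) (norm_nonneg _))).trans ?_
  rw [← mul_sum, ← add_sum_erase _ _ h0]
  refine mul_le_mul_of_nonneg_left (add_le_add ?_ ?_) hB0
  · rw [norm_div, Complex.norm_natCast]
    exact div_le_div_of_nonneg_right (norm_wI_le _ _ _) (by positivity)
  · refine (sum_le_sum fun h hh => norm_wI_le_inv u L hs (mem_of_mem_erase hh)
      (ne_of_mem_erase hh)).trans ((sum_le_sum_of_subset_of_nonneg ?_
        fun _ _ _ => by positivity).trans (sum_inv_abs_le s))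
    exact erase_subset_erase _ (filter_subset _ _)

theorem Four_ee_per' {s : ℕ} (hs : 0 < s) (h x : ℤ) :
    ee (-((h : ℝ) * ((x + s : ℤ) : ℝ) / s)) = ee (-((h : ℝ) * x / s)) := by
  have hs' : (s : ℝ) ≠ 0 := by positivity
  rw [← ee_add_int (-((h : ℝ) * x / s)) (-h)]
  congr 1
  push_cast
  field_simp
  ring

theorem ft_mul {F1 F2 : ℤ → ℂ} {s1 s2 : ℕ} (h1 : 0 < s1) (h2 : 0 < s2) (hc : s1.Coprime s2)
    (hF1 : ∀ n, F1 (n + s1) = F1 n) (hF2 : ∀ n, F2 (n + s2) = F2 n) (h : ℤ) :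
    ft (s1 * s2) (fun x => F1 x * F2 x) h =
      ft s1 (fun x => F1 (x * s2)) h * ft s2 (fun x => F2 (x * s1)) h := by
  have hc' : IsCoprime (s1 : ℤ) (s2 : ℤ) := Nat.isCoprime_iff_coprime.2 hc
  have e1 : (s1 : ℝ) ≠ 0 := by positivity
  have e2 : (s2 : ℝ) ≠ 0 := by positivity
  have h3 := Four_crs
    (F := fun x : ℤ => F1 x * F2 x * ee (-((h : ℝ) * x / (s1 * s2 : ℕ)))) (Nat.mul_pos h1 h2)
    (fun n => by
      rw [Four_ee_per' (Nat.mul_pos h1 h2), per_of_dvd hF1 (n := n + (s1 * s2 : ℕ)) (n' := n)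
        (by simp), per_of_dvd hF2 (n := n + (s1 * s2 : ℕ)) (n' := n) (by simp)])
    (range s1 ×ˢ range s2) (fun x => x.1 * s2 + x.2 * s1) (by simp) (fun i hi j hj hd => by
      simp only [mem_product, mem_range] at hi hj
      push_cast at hd
      have d1 : (s1 : ℤ) ∣ (i.1 - j.1) * s2 := by
        have := (dvd_sub ((dvd_mul_right _ _).trans hd) (dvd_mul_left (s1 : ℤ) (i.2 - j.2)))
        rwa [show (i.1 : ℤ) * s2 + i.2 * s1 - (j.1 * s2 + j.2 * s1) - (i.2 - j.2) * s1 =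
          (i.1 - j.1) * s2 by ring] at this
      have d2 : (s2 : ℤ) ∣ (i.2 - j.2) * s1 := by
        have := (dvd_sub ((dvd_mul_left _ _).trans hd) (dvd_mul_left (s2 : ℤ) (i.1 - j.1)))
        rwa [show (i.1 : ℤ) * s2 + i.2 * s1 - (j.1 * s2 + j.2 * s1) - (i.1 - j.1) * s2 =
          (i.2 - j.2) * s1 by ring] at this
      have f1 := Four_eq (hc'.dvd_of_dvd_mul_right d1) (by omega) (by omega)
      have f2 := Four_eq (hc'.symm.dvd_of_dvd_mul_right d2) (by omega) (by omega)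
      exact Prod.ext (by exact_mod_cast f1) (by exact_mod_cast f2))
  simp only [Int.cast_natCast] at h3
  rw [ft, ← h3, ft, ft, sum_mul_sum, sum_product]
  refine sum_congr rfl fun x _ => sum_congr rfl fun y _ => ?_
  have : -((h : ℝ) * (((x : ℤ) * s2 + y * s1 : ℤ) : ℝ) / (s1 * s2 : ℕ)) =
      -((h : ℝ) * x / s1) + -((h : ℝ) * y / s2) := by
    push_cast
    field_simp
    ring
  rw [this, ee_add, per_of_dvd hF1 (n := x * s2 + y * s1) (n' := x * s2) (by simp),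
    per_of_dvd hF2 (n := x * s2 + y * s1) (n' := y * s1) (by simp)]
  ring

theorem ft_dilate {F : ℤ → ℂ} {s : ℕ} (hs : 0 < s) (hF : ∀ n, F (n + s) = F n) {w w' : ℤ}
    (hw : (s : ℤ) ∣ w * w' - 1) (h : ℤ) :
    ft s (fun x => F (x * w)) h = ft s F (h * w') := by
  have hs' : (s : ℝ) ≠ 0 := by positivity
  obtain ⟨k, hk⟩ := hw
  have hc : IsCoprime w' (s : ℤ) := ⟨w, -k, by linarith only [hk]⟩
  have h1 := sum_dilate (F := fun x : ℤ => F (x * w) * ee (-((h : ℝ) * x / s))) hs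
    (fun n => by
      rw [Four_ee_per' hs, per_of_dvd hF (n := (n + s) * w) (n' := n * w) ⟨w, by ring⟩]) hc 0
  simp only [Int.cast_natCast, add_zero] at h1
  rw [ft, ← h1, ft]
  refine sum_congr rfl fun x _ => ?_
  rw [per_of_dvd hF (n := x * w' * w) (n' := x) ⟨x * k, by linear_combination (x : ℤ) * hk⟩]
  congr 2
  push_cast
  ring

theorem norm_ft_le {F : ℤ → ℂ} (s : ℕ) (h : ℤ) : ‖ft s F h‖ ≤ ∑ x ∈ range s, ‖F x‖ := by
  refine (norm_sum_le _ _).trans (le_of_eq (sum_congr rfl fun x _ => ?_))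
  rw [norm_mul, norm_ee, mul_one]

end Pool.Agent.Work.MP_5d318d_nt.Zh
end
end

-- merged part: Pool.Agent.Work.MP_5d318d_nt.Z.Exp1
section
/-!
# The functions `kE` and `EE`

PLAN.
* `iv_spec`: `(x : ZMod r)` is a unit (`ZMod.coe_int_isUnit_iff_isCoprime` or Bezout), `ZMod.mul_inv_of_unit`,
  `ZMod.intCast_cast`/`ZMod.natCast_zmod_val`, `ZMod.intCast_zmod_eq_zero_iff_dvd`.
* `kE_eq`: `r ∣ n * (c * iv - y)`, so `r ∣ c * iv - y`; `ee_add_int`.  All other `kE` lemmas follow from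
  `kE_eq` with the witness `y = c * iv r n` (for `kE_mul`: `1 / (r1 r2) ≡ u1 / r1 + u2 / r2` modulo `1`
  since `r1 r2 ∣ u1 r2 + u2 r1 - 1`; use the witnesses `y u1`, `y u2`).
* `EE_dif`: `List.map_append`, `List.prod_append`, `map_list_prod`, `conj_kE`.  `cubeF_EE`: induction on `ts`.
* `cub_length`, `cub_sign`, `cub_gen`: induction on `ts` generalizing `ν`.
-/

noncomputable section

open Finset Real ArithmeticFunction

namespace Pool.Agent.Work.MP_5d318d_nt.Zh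

open Pool.Agent.Lib.LargeSieve Pool.Agent.Lib.ANT

theorem iv_spec {r : ℕ} (hr : 0 < r) {x : ℤ} (hx : IsCoprime x (r : ℤ)) :
    (r : ℤ) ∣ x * iv r x - 1 := by
  have : NeZero r := ⟨hr.ne'⟩
  rw [← ZMod.intCast_zmod_eq_zero_iff_dvd]
  simp [iv, ZMod.mul_inv_of_unit _ ((ZMod.coe_int_isUnit_iff_isCoprime x r).2 hx.symm)]

theorem kE_eq {r : ℕ} (hr : 0 < r) {c n y : ℤ} (hn : IsCoprime n (r : ℤ))
    (hy : (r : ℤ) ∣ n * y - c) : kE r c n = ee ((y : ℝ) / r) := by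
  have h : (r : ℤ) ∣ n * (c * iv r n - y) := by
    rw [show n * (c * iv r n - y) = c * (n * iv r n - 1) - (n * y - c) by ring]
    exact ((iv_spec hr hn).mul_left c).sub hy
  obtain ⟨k, hk⟩ := hn.symm.dvd_of_dvd_mul_left h
  rw [kE, if_pos hn, ← ee_add_int (y / r) k, eq_add_of_sub_eq' hk]
  refine congrArg ee ?_
  have : (r : ℝ) ≠ 0 := Nat.cast_ne_zero.2 hr.ne'
  push_cast
  field_simp

theorem kE_of_not {r : ℕ} (c : ℤ) {n : ℤ} (hn : ¬ IsCoprime n (r : ℤ)) : kE r c n = 0 := by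
  exact if_neg hn

theorem norm_kE_le (r : ℕ) (c n : ℤ) : ‖kE r c n‖ ≤ 1 := by
  unfold kE
  split_ifs <;> simp

theorem kE_congr {r : ℕ} (hr : 0 < r) {c c' n n' : ℤ} (hc : (r : ℤ) ∣ c - c')
    (hn : (r : ℤ) ∣ n - n') : kE r c n = kE r c' n' := by
  obtain ⟨k, hk⟩ := id hn
  have e : IsCoprime n (r : ℤ) ↔ IsCoprime n' (r : ℤ) := by
    rw [eq_add_of_sub_eq' hk, IsCoprime.add_mul_left_left_iff]
  by_cases h : IsCoprime n' (r : ℤ)
  · rw [kE_eq hr (y := c' * iv r n') (e.2 h), kE, if_pos h]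
    rw [show n * (c' * iv r n') - c =
      (n - n') * (c' * iv r n') + c' * (n' * iv r n' - 1) - (c - c') by ring]
    exact ((hn.mul_right _).add ((iv_spec hr h).mul_left _)).sub hc
  · rw [kE_of_not _ h, kE_of_not _ fun h' => h (e.1 h')]

theorem conj_kE (r : ℕ) (c n : ℤ) : (starRingEnd ℂ) (kE r c n) = kE r (-c) n := by
  unfold kE
  split_ifs
  · rw [conj_ee]
    refine congrArg ee ?_
    push_cast
    ring
  · exact map_zero _

theorem kE_mul_conj (r : ℕ) (c c' n : ℤ) :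
    kE r c n * (starRingEnd ℂ) (kE r c' n) = kE r (c - c') n := by
  rw [conj_kE]
  unfold kE
  split_ifs
  · rw [← ee_add]
    refine congrArg ee ?_
    push_cast
    ring
  · exact mul_zero _

theorem kE_mul {r1 r2 : ℕ} (h1 : 0 < r1) (h2 : 0 < r2) {u1 u2 : ℤ}
    (hu1 : (r1 : ℤ) ∣ (r2 : ℤ) * u1 - 1) (hu2 : (r2 : ℤ) ∣ (r1 : ℤ) * u2 - 1) (c n : ℤ) :
    kE (r1 * r2) c n = kE r1 (c * u1) n * kE r2 (c * u2) n := by
  have e : IsCoprime n ((r1 * r2 : ℕ) : ℤ) ↔ IsCoprime n (r1 : ℤ) ∧ IsCoprime n (r2 : ℤ) := by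
    rw [Nat.cast_mul, IsCoprime.mul_right_iff]
  by_cases h : IsCoprime n ((r1 * r2 : ℕ) : ℤ)
  · have hy := (iv_spec (Nat.mul_pos h1 h2) h).mul_left c
    rw [show c * (n * iv (r1 * r2) n - 1) = n * (c * iv (r1 * r2) n) - c by ring] at hy
    rw [kE_eq (Nat.mul_pos h1 h2) h hy]
    generalize c * iv (r1 * r2) n = y at hy
    rw [Nat.cast_mul] at hy
    have k : ∀ u, n * (y * u) - c * u = (n * y - c) * u := fun u => by ring
    rw [kE_eq h1 (y := y * u1) (e.1 h).1 (k u1 ▸ (dvd_of_mul_right_dvd hy).mul_right _),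
      kE_eq h2 (y := y * u2) (e.1 h).2 (k u2 ▸ (dvd_of_mul_left_dvd hy).mul_right _), ← ee_add]
    obtain ⟨a, ha⟩ := hu1
    obtain ⟨b, hb⟩ := hu2
    rw [← ee_add_int _ (y * (u1 * u2 - a * b))]
    refine congrArg ee ?_
    have n1 : (r1 : ℝ) ≠ 0 := Nat.cast_ne_zero.2 h1.ne'
    have n2 : (r2 : ℝ) ≠ 0 := Nat.cast_ne_zero.2 h2.ne'
    have ha' : (r2 : ℝ) * u1 - 1 = r1 * a := by exact_mod_cast ha
    have hb' : (r1 : ℝ) * u2 - 1 = r2 * b := by exact_mod_cast hb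
    push_cast
    field_simp
    linear_combination y * ((r1 * u2 - 1) * ha' + r1 * a * hb')
  · rw [kE_of_not _ h]
    rcases not_and_or.1 (mt e.2 h) with h | h
    · rw [kE_of_not _ h, zero_mul]
    · rw [kE_of_not _ h, mul_zero]

theorem norm_EE_le (r : ℕ) (c : ℤ) (ν : List (ℤ × ℤ)) (n : ℤ) : ‖EE r c ν n‖ ≤ 1 := by
  unfold EE
  induction ν with
  | nil => simp
  | cons x ν ih =>
    rw [List.map_cons, List.prod_cons, norm_mul]
    exact mul_le_one₀ (norm_kE_le _ _ _) (norm_nonneg _) ih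

theorem EE_per {r : ℕ} (hr : 0 < r) (c : ℤ) (ν : List (ℤ × ℤ)) (n : ℤ) :
    EE r c ν (n + r) = EE r c ν n := by
  exact congrArg List.prod (List.map_congr_left fun x _ => kE_congr hr (by simp) ⟨1, by ring⟩)

theorem EE_mul {r1 r2 : ℕ} (h1 : 0 < r1) (h2 : 0 < r2) {u1 u2 : ℤ}
    (hu1 : (r1 : ℤ) ∣ (r2 : ℤ) * u1 - 1) (hu2 : (r2 : ℤ) ∣ (r1 : ℤ) * u2 - 1) (c : ℤ)
    (ν : List (ℤ × ℤ)) (n : ℤ) :
    EE (r1 * r2) c ν n = EE r1 (c * u1) ν n * EE r2 (c * u2) ν n := by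
  simp only [EE, kE_mul h1 h2 hu1 hu2, List.prod_map_mul, mul_assoc]

theorem EE_one (r : ℕ) (c : ℤ) : EE r c [(0, 1)] = kE r c := by
  funext n
  simp [EE]

theorem EE_dif (r : ℕ) (c t t' : ℤ) (ν : List (ℤ × ℤ)) :
    dlt t t' (EE r c ν) = EE r c (dif t t' ν) := by
  funext n
  simp only [dlt, EE, dif, List.map_append, List.prod_append, List.map_map, map_list_prod,
    Function.comp_def, conj_kE, neg_mul, add_assoc, add_comm t, add_comm t']

theorem cubeF_EE (r : ℕ) (c : ℤ) (ts ν : List (ℤ × ℤ)) :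
    cubeF ts (EE r c ν) = EE r c (cub ts ν) := by
  induction ts generalizing ν with
  | nil => rfl
  | cons x ts ih => rw [cubeF, cub, EE_dif, ih]

theorem cub_length (ts ν : List (ℤ × ℤ)) : (cub ts ν).length = 2 ^ ts.length * ν.length := by
  induction ts generalizing ν with
  | nil => simp [cub]
  | cons x ts ih =>
    simp only [cub, ih, dif, List.length_append, List.length_map, List.length_cons]
    ring

theorem cub_sign (ts ν : List (ℤ × ℤ)) (h : ∀ x ∈ ν, x.2 = 1 ∨ x.2 = -1) :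
    ∀ x ∈ cub ts ν, x.2 = 1 ∨ x.2 = -1 := by
  induction ts generalizing ν with
  | nil => exact h
  | cons x ts ih =>
    refine ih _ fun y hy => ?_
    simp only [dif, List.mem_append, List.mem_map] at hy
    rcases hy with ⟨z, hz, rfl⟩ | ⟨z, hz, rfl⟩
    · exact h z hz
    · have := h z hz
      omega

theorem cub_gen (ts ν : List (ℤ × ℤ)) (θ : ℝ) :
    ((cub ts ν).map fun x => (x.2 : ℂ) * ee (x.1 * θ)).sum =
      (ts.map fun x => ee (x.1 * θ) - ee (x.2 * θ)).prod *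
        (ν.map fun x => (x.2 : ℂ) * ee (x.1 * θ)).sum := by
  induction ts generalizing ν with
  | nil => simp [cub]
  | cons x ts ih =>
    have e : ∀ (t : ℤ) (s : ℂ), (ν.map fun y => s * y.2 * ee ((y.1 + t : ℤ) * θ)).sum =
        s * ee (t * θ) * (ν.map fun y => (y.2 : ℂ) * ee (y.1 * θ)).sum := fun t s => by
      rw [← List.sum_map_mul_left]
      refine congrArg List.sum (List.map_congr_left fun y _ => ?_)
      rw [Int.cast_add, add_mul, ee_add]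
      ring
    have e1 := e x.1 1
    have e2 := e x.2 (-1)
    simp only [one_mul, neg_mul] at e1 e2
    simp only [cub, ih, dif, List.map_append, List.sum_append, List.map_map, Function.comp_def,
      Int.cast_neg, neg_mul, e1, e2, List.map_cons, List.prod_cons]
    ring

end Pool.Agent.Work.MP_5d318d_nt.Zh
end
end

-- merged part: Pool.Agent.Work.MP_5d318d_nt.Z.Disp2
section
/-!
# Dispersion: Fourier expansion of the main terms

PLAN.
* `kz_per`: divisibility and coprimality only depend on the class.  `sum_kz_eq_zero`: for `w` prime to `q` use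
  `sum_dilate`; the first part of `kz` sums to `1`, the second to `φ(q) / φ(q)` (`Nat.totient_eq_card_coprime`).
  `kz_eq_zero`: if `x` is not prime to `q` then `q ∤ x - a`.
* `norm_Gm_le`: `norm_ft_le`; if `w n` is prime to `q` the sum of `|kz|` over a period is at most `1 + 1`; otherwise
  every term vanishes (`kz_eq_zero`).  `Gm_zero`: the same two cases.
* `ft_ind`: if `n` is prime to `r` exactly one `x ∈ range r` has `r ∣ x u n - a`; use `kE_eq` with `y = -h x` and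
  `iv_spec`.  Otherwise no `x` (a prime dividing `n` and `r` would divide `a`; `r = 1` is in the first case).
* `sum_m_eq`: `range M` corresponds to `Ioc (-1) (-1 + M)`; `kr r q2 a (m (n + l r))` has the same indicator as
  `kr r q1 a (m n)`; the summand is a product of three functions of periods `r, q1, q2`; `sum_period`, `ft_mul`
  twice, `ft_ind`; the term `h = 0` vanishes by `Gm_zero`; `Rep s ⊆ Icc (-Hm) Hm`.
* `T1_eq`: swap the sum over `m` inside.  Terms with `c r q1 * conj (c r q2) = 0` vanish on both sides.  If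
  `r ∤ n2 - n1` the term vanishes (`r ∣ m n1 - a`, `r ∣ m n2 - a`, `m` prime to `r`); the `n2` with `r ∣ n2 - n1`,
  `n2 ≠ n1` correspond to `l ≠ 0` with `0 ≤ n1 + l r < N`, and then `|l| ≤ N / R0`.
-/

noncomputable section

open Finset Real ArithmeticFunction

namespace Pool.Agent.Work.MP_5d318d_nt.Zh

open Pool.Agent.Lib.LargeSieve Pool.Agent.Lib.ANT

variable {RS QS : Finset ℕ} {a : ℤ} {R0 R1 Q0 Q1 P0 M N : ℕ} {Z : ℝ} {β : ℕ → ℂ}
  {c : ℕ → ℕ → ℂ}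

theorem kz_per (q : ℕ) (a x k : ℤ) : kz q a (x + q * k) = kz q a x := by
  have e : (q : ℤ) ∣ x + q * k - a ↔ (q : ℤ) ∣ x - a := by
    rw [add_sub_right_comm, dvd_add_left (dvd_mul_right _ _)]
  simp only [kz, e, IsCoprime.add_mul_left_left_iff]

theorem Disp2_cop {q a x : ℤ} (ha : IsCoprime a q) (h : q ∣ x - a) : IsCoprime x q := by
  obtain ⟨k, hk⟩ := h
  rw [show x = a + q * k by linarith only [hk]]
  exact ha.add_mul_left_left k

theorem kz_eq_zero {q : ℕ} {a x : ℤ} (ha : IsCoprime a (q : ℤ)) (hx : ¬ IsCoprime x (q : ℤ)) :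
    kz q a x = 0 := by
  rw [kz, if_neg (mt (Disp2_cop ha) hx), if_neg hx, sub_zero]

theorem Disp2_uniq {q : ℕ} (hq : 0 < q) {w : ℤ} (hw : IsCoprime w (q : ℤ)) (a : ℤ) :
    ∃ y ∈ range q, ∀ x ∈ range q, ((q : ℤ) ∣ x * w - a ↔ x = y) := by
  have hq0 : (0 : ℤ) < q := by exact_mod_cast hq
  obtain ⟨y, hy⟩ := Int.eq_ofNat_of_zero_le (Int.emod_nonneg (a * iv q w) hq0.ne')
  have y1 : y < q := by exact_mod_cast hy ▸ Int.emod_lt_of_pos (a * iv q w) hq0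
  have y2 : (q : ℤ) ∣ y * w - a := by
    have e : (y : ℤ) * w - a = a * (w * iv q w - 1) - q * (a * iv q w / q * w) := by
      rw [← hy, Int.emod_def]
      ring
    rw [e]
    exact ((iv_spec hq hw).mul_left a).sub (dvd_mul_right _ _)
  refine ⟨y, mem_range.2 y1, fun x hx => ⟨fun h => ?_, fun h => h ▸ y2⟩⟩
  have e := y2.sub h
  rw [show (y : ℤ) * w - a - (x * w - a) = (y - x) * w by ring] at e
  exact (Nat.modEq_iff_dvd.2 (hw.symm.dvd_of_dvd_mul_right e)).eq_of_lt_of_lt (mem_range.1 hx) y1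

theorem Disp2_s1 {q : ℕ} (hq : 0 < q) (a : ℤ) :
    ∑ x ∈ range q, (if (q : ℤ) ∣ (x : ℤ) - a then (1 : ℝ) else 0) = 1 := by
  obtain ⟨y, hy, h⟩ := Disp2_uniq hq isCoprime_one_left a
  simp only [mul_one] at h
  rw [sum_eq_single_of_mem y hy fun x hx e => if_neg (mt (h x hx).1 e), if_pos ((h y hy).2 rfl)]

theorem Disp2_s2 {q : ℕ} (hq : 0 < q) :
    ∑ x ∈ range q, (if IsCoprime (x : ℤ) (q : ℤ) then (q.totient : ℝ)⁻¹ else 0) = 1 := by
  have h : (q.totient : ℝ) ≠ 0 := by exact_mod_cast (Nat.totient_pos.2 hq).ne'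
  rw [← sum_filter, sum_const, nsmul_eq_mul, ← mul_inv_cancel₀ h]
  congr 2
  rw [Nat.totient_eq_card_coprime]
  exact congrArg card (filter_congr fun x _ => Nat.isCoprime_iff_coprime.trans Nat.coprime_comm)

theorem Disp2_dil {q : ℕ} (hq : 0 < q) (a : ℤ) {w : ℤ} (hw : IsCoprime w (q : ℤ)) (b : ℤ)
    (φ : ℝ → ℝ) : ∑ x ∈ range q, φ (kz q a (x * w + b)) = ∑ x ∈ range q, φ (kz q a x) := by
  have := sum_dilate (F := fun x => (φ (kz q a x) : ℂ)) hq (fun n => by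
    rw [← kz_per q a n 1, mul_one]) hw b
  exact_mod_cast this

theorem sum_kz_eq_zero {q : ℕ} (hq : 0 < q) (a : ℤ) {w : ℤ} (hw : IsCoprime w (q : ℤ)) (b : ℤ) :
    ∑ x ∈ range q, kz q a (x * w + b) = 0 := by
  refine (Disp2_dil hq a hw b id).trans ?_
  simp only [id, kz]
  rw [sum_sub_distrib, Disp2_s1 hq, Disp2_s2 hq, sub_self]

theorem sum_abs_kz_period {q : ℕ} (hq : 0 < q) (a : ℤ) {w : ℤ} (hw : IsCoprime w (q : ℤ))
    (b : ℤ) : ∑ x ∈ range q, |kz q a (x * w + b)| ≤ 2 := by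
  rw [Disp2_dil hq a hw b abs, ← one_add_one_eq_two]
  refine le_trans (sum_le_sum fun x _ => ?_) (sum_add_distrib.trans
    (congrArg₂ (· + ·) (Disp2_s1 hq a) (Disp2_s2 hq))).le
  refine (abs_sub _ _).trans (add_le_add (abs_of_nonneg ?_).le (abs_of_nonneg ?_).le) <;> positivity

theorem Disp2_nc {q : ℕ} {a w n : ℤ} (ha : IsCoprime a (q : ℤ)) (c : ¬ IsCoprime (w * n) (q : ℤ))
    (h : ℤ) : Gm q a h w n = 0 := by
  rw [Gm, ft]
  refine sum_eq_zero fun x _ => ?_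
  rw [kz_eq_zero ha fun e => c (mul_assoc (x : ℤ) w n ▸ e).of_mul_left_right,
    Complex.ofReal_zero, zero_mul]

theorem norm_Gm_le {q : ℕ} (hq : 0 < q) {a : ℤ} (ha : IsCoprime a (q : ℤ)) (h w n : ℤ) :
    ‖Gm q a h w n‖ ≤ 2 := by
  by_cases c : IsCoprime (w * n) (q : ℤ)
  · refine (norm_ft_le q h).trans (le_trans (le_of_eq (sum_congr rfl fun x _ => ?_))
      (sum_abs_kz_period hq a c 0))
    rw [Complex.norm_real, Real.norm_eq_abs, add_zero, mul_assoc]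
  · rw [Disp2_nc ha c, norm_zero]
    exact zero_le_two

theorem Gm_zero {q : ℕ} (hq : 0 < q) {a : ℤ} (ha : IsCoprime a (q : ℤ)) (w n : ℤ) :
    Gm q a 0 w n = 0 := by
  by_cases c : IsCoprime (w * n) (q : ℤ)
  · have := congrArg Complex.ofReal (sum_kz_eq_zero hq a c 0)
    rw [Complex.ofReal_sum] at this
    refine (sum_congr rfl fun x _ => ?_).trans this
    simp [mul_assoc]
  · exact Disp2_nc ha c 0

theorem Gm_per (q : ℕ) (a h w n : ℤ) : Gm q a h w (n + q) = Gm q a h w n := by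
  rw [Gm, Gm, ft, ft]
  refine sum_congr rfl fun x _ => ?_
  rw [show (x : ℤ) * w * (n + q) = x * w * n + q * (x * w) by ring, kz_per]

theorem ft_ind {r : ℕ} (hr : 0 < r) {a u : ℤ} (ha : IsCoprime a (r : ℤ)) (hu : IsCoprime u (r : ℤ))
    (h n : ℤ) : ft r (fun x => if (r : ℤ) ∣ x * u * n - a then 1 else 0) h =
      kE r (-(h * a * iv r u)) n := by
  by_cases c : IsCoprime n (r : ℤ)
  · obtain ⟨y, hy, e⟩ := Disp2_uniq hr (hu.mul_left c) a
    simp only [← mul_assoc] at e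
    have k := (e y hy).2 rfl
    rw [ft, sum_eq_single_of_mem y hy fun x hx e' => by rw [if_neg (mt (e x hx).1 e'), zero_mul],
      if_pos k, one_mul, kE_eq hr c (y := -(h * y))]
    · congr 1
      push_cast
      ring
    · rw [show n * -(h * y) - -(h * a * iv r u) =
        h * n * y * (u * iv r u - 1) - h * iv r u * (y * u * n - a) by ring]
      exact ((iv_spec hr hu).mul_left _).sub (k.mul_left _)
  · rw [kE_of_not _ c, ft]
    exact sum_eq_zero fun x _ => by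
      rw [if_neg fun e => c (Disp2_cop ha e).of_mul_left_right, zero_mul]

theorem sum_m_eq {r q1 q2 : ℕ} (hr : 0 < r) (h1 : 0 < q1) (h2 : 0 < q2) (c1 : r.Coprime q1)
    (c2 : r.Coprime q2) (c12 : q1.Coprime q2) {a : ℤ} (a0 : IsCoprime a (r : ℤ))
    (a1 : IsCoprime a (q1 : ℤ)) (a2 : IsCoprime a (q2 : ℤ)) (M : ℕ) {Hm : ℕ}
    (hH : r * (q1 * q2) ≤ Hm) (l n : ℤ) :
    ∑ m ∈ range M, ((kr r q1 a ((m : ℤ) * n) * kr r q2 a ((m : ℤ) * (n + l * r)) : ℝ) : ℂ) =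
      ∑ h ∈ (Icc (-(Hm : ℤ)) Hm).erase 0, (if h ∈ Rep (r * (q1 * q2)) then
        wI (-1) M ((h : ℝ) / (r * (q1 * q2) : ℕ)) / (r * (q1 * q2) : ℕ) else 0) *
          osc a r q1 q2 h l n := by
  let F0 : ℤ → ℂ := fun x => if (r : ℤ) ∣ x * n - a then 1 else 0
  let F1 : ℤ → ℂ := fun x => (kz q1 a (x * n) : ℝ)
  let F2 : ℤ → ℂ := fun x => (kz q2 a (x * (n + l * r)) : ℝ)
  have p0 : ∀ x k, F0 (x + r * k) = F0 x := fun x k => if_congr (by
    rw [show (x + r * k) * n - a = x * n - a + r * (k * n) by ring,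
      dvd_add_left (dvd_mul_right _ _)]) rfl rfl
  have p1 : ∀ x k, F1 (x + q1 * k) = F1 x := fun x k => by
    simp only [F1]
    rw [add_mul, mul_assoc, kz_per]
  have p2 : ∀ x k, F2 (x + q2 * k) = F2 x := fun x k => by
    simp only [F2]
    rw [add_mul, mul_assoc, kz_per]
  have p12 : ∀ x k, F1 (x + (q1 * q2 : ℕ) * k) * F2 (x + (q1 * q2 : ℕ) * k) = F1 x * F2 x :=
    fun x k => by
      rw [Nat.cast_mul, ← p1 x (q2 * k), ← p2 x (q1 * k), mul_assoc, mul_left_comm (q1 : ℤ)]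
  have e1 : ∀ m : ℤ, ((kr r q1 a (m * n) * kr r q2 a (m * (n + l * r)) : ℝ) : ℂ) =
      F0 m * (F1 m * F2 m) := fun m => by
    have e : (r : ℤ) ∣ m * (n + l * r) - a ↔ (r : ℤ) ∣ m * n - a := by
      rw [show m * (n + l * r) - a = m * n - a + r * (m * l) by ring,
        dvd_add_left (dvd_mul_right _ _)]
    simp only [kr, e, F0, F1, F2]
    split_ifs <;> simp
  have e2 : ∀ h, ft (r * (q1 * q2)) (fun x => F0 x * (F1 x * F2 x)) h = osc a r q1 q2 h l n := by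
    intro h
    rw [ft_mul (F2 := fun x => F1 x * F2 x) hr (mul_pos h1 h2) (c1.mul_right c2)
        (fun x => by rw [← p0 x 1, mul_one]) fun x => by rw [← p12 x 1, mul_one],
      ft_mul (F1 := fun x => F1 (x * r)) (F2 := fun x => F2 (x * r)) h1 h2 c12
        (fun x => by rw [add_mul, p1]) fun x => by rw [add_mul, p2], osc, ← mul_assoc,
      ← ft_ind hr a0 ((Nat.isCoprime_iff_coprime.2 c1.symm).mul_left
        (Nat.isCoprime_iff_coprime.2 c2.symm))]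
    simp only [Gm, F0, F1, F2, Nat.cast_mul, mul_assoc]
  have e3 : ∀ φ : ℤ → ℂ, ∑ m ∈ range M, φ m = ∑ m ∈ Ioc (-1 : ℤ) (-1 + M), φ m := fun φ => by
    refine sum_nbij (fun m : ℕ => (m : ℤ)) (fun m hm => ?_) Nat.cast_injective.injOn
      (fun m hm => ?_) fun _ _ => rfl
    · have := mem_range.1 hm
      exact mem_Ioc.2 (by omega)
    · have := mem_Ioc.1 (mem_coe.1 hm)
      exact ⟨m.toNat, mem_coe.2 (mem_range.2 (by omega)), by show ((m.toNat : ℕ) : ℤ) = m; omega⟩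
  simp only [e1]
  rw [e3 fun x => F0 x * (F1 x * F2 x), sum_period (mul_pos hr (mul_pos h1 h2)) fun x => by
      rw [Nat.cast_mul, p0, mul_comm (r : ℤ), p12],
    sum_erase _ (by rw [osc, Gm_zero h2 a2, mul_zero, mul_zero])]
  simp only [e2, ite_mul, zero_mul]
  rw [sum_ite_mem, inter_eq_right.2 fun h hh => ?_]
  · exact sum_congr rfl fun h _ => mul_comm _ _
  · have k : ((r * (q1 * q2) : ℕ) : ℤ) ≤ Hm := by exact_mod_cast hH
    exact Icc_subset_Icc (neg_le_neg k) k (mem_filter.1 hh).1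

theorem Disp2_re {R0 r N n : ℕ} (h0 : 0 < R0) (hr : R0 ≤ r) (hn : n < N) (g : ℤ → ℂ)
    (hg : ∀ x, g x ≠ 0 → 0 ≤ x ∧ x < N ∧ (r : ℤ) ∣ x - n) :
    ∑ l ∈ (Icc (-((N / R0 : ℕ) : ℤ)) (N / R0 : ℕ)).erase 0, g (n + l * r) =
      ∑ x ∈ (range N).erase n, g x := by
  have r0 : (r : ℤ) ≠ 0 := by omega
  refine sum_bij_ne_zero (fun l _ _ => ((n : ℤ) + l * r).toNat) (fun l h1 h2 => ?_)
    (fun l h1 h2 l' h3 h4 e => ?_) (fun x h1 h2 => ?_) fun l h1 h2 => ?_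
  · have k := mul_ne_zero (mem_erase.1 h1).1 r0
    have := hg _ h2
    exact mem_erase.2 ⟨by omega, mem_range.2 (by omega)⟩
  · have k1 := (hg _ h2).1
    have k2 := (hg _ h4).1
    exact mul_right_cancel₀ r0 (by omega)
  · obtain ⟨-, -, l, hl⟩ := hg _ h2
    obtain ⟨x1, x2⟩ := mem_erase.1 h1
    have x3 := mem_range.1 x2
    have e : (n : ℤ) + l * r = x := by linarith only [hl]
    have k : l.natAbs ≤ N / R0 := by
      have k1 := congrArg Int.natAbs hl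
      rw [Int.natAbs_mul, Int.natAbs_natCast] at k1
      have k2 := Nat.mul_le_mul_right l.natAbs hr
      rw [Nat.le_div_iff_mul_le h0, mul_comm]
      omega
    refine ⟨l, mem_erase.2 ⟨?_, mem_Icc.2 (by omega)⟩, e ▸ h2, by rw [e, Int.toNat_natCast]⟩
    rintro rfl
    omega
  · rw [Int.toNat_of_nonneg (hg _ h2).1]

theorem T1_eq (H : DH RS QS a R0 R1 Q0 Q1 P0 M N Z β c) :
    T1 RS QS a M N β c = ∑ r ∈ RS, ∑ l ∈ (Icc (-((N / R0 : ℕ) : ℤ)) (N / R0 : ℕ)).erase 0,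
      ∑ n ∈ range N, β n * (starRingEnd ℂ) (bz N β (n + l * r)) *
        Psi QS a M (R1 * Q1 ^ 2) c r l n := by
  refine sum_congr rfl fun r hr => ?_
  obtain ⟨-, -, r1, r2, r3⟩ := H.hR r hr
  let Y : ℤ → ℤ → ℂ := fun n x => ∑ q1 ∈ QS, ∑ q2 ∈ QS.filter (fun q2 => q1.Coprime q2),
    c r q1 * (starRingEnd ℂ) (c r q2) *
      ∑ m ∈ range M, ((kr r q1 a ((m : ℤ) * n) * kr r q2 a ((m : ℤ) * x) : ℝ) : ℂ)
  have e1 : ∀ l n, Psi QS a M (R1 * Q1 ^ 2) c r l n = Y n (n + l * r) := fun l n => by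
    refine sum_congr rfl fun q1 h1 => ?_
    rw [sum_filter]
    refine sum_congr rfl fun q2 h2 => ?_
    obtain ⟨-, -, a1, a2, a3⟩ := H.hQ q1 h1
    obtain ⟨-, -, b1, b2, b3⟩ := H.hQ q2 h2
    split_ifs with k
    · by_cases z1 : c r q1 = 0
      · simp [gm, z1]
      by_cases z2 : c r q2 = 0
      · simp [gm, z2]
      rw [sum_m_eq (H.hR0.trans_le r1) (H.hQ0.trans_le a1) (H.hQ0.trans_le b1) (H.hcop _ _ z1)
        (H.hcop _ _ z2) k r3 a3 b3 M (Hm := R1 * Q1 ^ 2)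
        (Nat.mul_le_mul r2 (sq Q1 ▸ Nat.mul_le_mul a2 b2)), mul_sum]
      refine sum_congr rfl fun h _ => ?_
      by_cases z : h ∈ Rep (r * (q1 * q2))
      · rw [gm, if_pos ⟨k, z⟩, if_pos z, mul_assoc]
      · rw [gm, if_neg fun e => z e.2, if_neg z, zero_mul, mul_zero]
    · exact sum_eq_zero fun h _ => by rw [gm, if_neg fun e => k e.1, zero_mul]
  have e2 : ∀ n x, Y n x ≠ 0 → (r : ℤ) ∣ x - n := fun n x h => by
    obtain ⟨q1, -, h⟩ := exists_ne_zero_of_sum_ne_zero h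
    obtain ⟨q2, -, h⟩ := exists_ne_zero_of_sum_ne_zero h
    obtain ⟨m, -, h⟩ := exists_ne_zero_of_sum_ne_zero (right_ne_zero_of_mul h)
    have h' := Complex.ofReal_ne_zero.1 h
    have k1 : (r : ℤ) ∣ m * n - a := by_contra fun e => left_ne_zero_of_mul h' (if_neg e)
    have k2 : (r : ℤ) ∣ m * x - a := by_contra fun e => right_ne_zero_of_mul h' (if_neg e)
    have k3 := k2.sub k1
    rw [show (m : ℤ) * x - a - (m * n - a) = m * (x - n) by ring] at k3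
    exact (Disp2_cop r3 k1).of_mul_left_left.symm.dvd_of_dvd_mul_left k3
  rw [sum_comm, sum_comm (t := range N)]
  refine sum_congr rfl fun n hn => ?_
  simp only [e1]
  rw [Disp2_re H.hR0 r1 (mem_range.1 hn) (fun x => β n * (starRingEnd ℂ) (bz N β x) * Y n x)
    fun x h => ?_, sum_comm]
  · refine sum_congr rfl fun x hx => ?_
    have x1 := mem_range.1 (mem_erase.1 hx).2
    rw [bz, if_pos (by omega), Int.toNat_natCast, sum_comm, mul_sum]
    refine sum_congr rfl fun q1 _ => ?_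
    rw [sum_comm, mul_sum]
    refine sum_congr rfl fun q2 _ => ?_
    rw [mul_left_comm, ← mul_assoc, mul_sum]
    rfl
  · have k : 0 ≤ x ∧ x < N := by_contra fun e => h (by simp [bz, e])
    exact ⟨k.1, k.2, e2 n x (right_ne_zero_of_mul h)⟩

end Pool.Agent.Work.MP_5d318d_nt.Zh
end
end

-- merged part: Pool.Agent.Work.MP_5d318d_nt.Z.Disp1
section
/-!
# Dispersion: the trivial terms

PLAN.
* `abs_kz_le`: both parts are nonnegative.  `card_dvd_le_tau`: the elements of `S` dividing `y ≠ 0` lie in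
  `y.natAbs.divisors`.  `inv_tot_le`: `le_totient_mul_card_divisors`.
* `sum_inv_tot_dvd_le`: `q = p q'`, `1 / φ(q) ≤ Z / q`, `∑ 1 / q' ≤ HH Q1 ≤ Z`.
* `sum_abs_kz_le`: at most `Z` moduli divide `x - a`, and `∑ 1 / φ(q) ≤ Z ^ 2`.
* `TD_le`: a term vanishes unless `β n ≠ 0`, so `m n ≠ a`; `|m n - a| ≤ M N + |a|`; at most `Z` values of `r`
  divide `m n - a`; the sum over `q1, q2` is at most `(2 Z ^ 2) ^ 2`.
* `nc_le` (fixed `x ≠ a`, `y ≠ a`): bound the indicator of `¬ q1.Coprime q2` by the sum over `p ∈ q1.primeFactors` of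
  the indicator of `p ∣ q2`; `∑_{q2, p ∣ q2} |kz q2 a y| ≤ Z * 1[p ∣ y - a] + Z ^ 2 / P0`; for the part
  `1 / φ(q1)` swap the sums: primes `p > P0` dividing `y - a` (at most `Z`), `sum_inv_tot_dvd_le`.
* `T0_le`: fix `m, n1, r` with `r ∣ m n1 - a` (at most `Z` such `r`).  A nonzero term has `r ∣ m n2 - a`, hence
  `r ∣ n2 - n1` (`m` is prime to `r` since `a` is); there are at most `2 N / R0` such `n2 ≠ n1`.  Insert the condition
  `r.Coprime q1` (from `hcop`).  In the last sum of `nc_le`: `p ∣ m n1 - a`, `p ∣ m n2 - a`, `p ∤ m`, so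
  `p r ∣ n2 - n1`: at most `2 N / (R0 P0)` values of `n2` for each of at most `Z * Z` pairs `(q1, p)`.
-/

noncomputable section

open Finset Real ArithmeticFunction

namespace Pool.Agent.Work.MP_5d318d_nt.Zh

open Pool.Agent.Lib.LargeSieve Pool.Agent.Lib.ANT

variable {RS QS : Finset ℕ} {a : ℤ} {R0 R1 Q0 Q1 P0 M N : ℕ} {Z : ℝ} {β : ℕ → ℂ}
  {c : ℕ → ℕ → ℂ}

theorem abs_kz_le (q : ℕ) (a x : ℤ) :
    |kz q a x| ≤ (if (q : ℤ) ∣ x - a then 1 else 0) + (q.totient : ℝ)⁻¹ := by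
  unfold kz
  have h0 : (0 : ℝ) ≤ (q.totient : ℝ)⁻¹ := by positivity
  split_ifs <;> rw [abs_le] <;> constructor <;> linarith only [h0]

theorem card_dvd_le_tau (S : Finset ℕ) {y : ℤ} (hy : y ≠ 0) :
    (S.filter fun q : ℕ => (q : ℤ) ∣ y).card ≤ y.natAbs.divisors.card := by
  refine card_le_card fun q hq => ?_
  rw [Nat.mem_divisors]
  exact ⟨Int.natCast_dvd.mp (mem_filter.mp hq).2, Int.natAbs_ne_zero.mpr hy⟩

theorem inv_tot_le {q : ℕ} {Z : ℝ} (hq : 0 < q) (h : (q.divisors.card : ℝ) ≤ Z) :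
    (q.totient : ℝ)⁻¹ ≤ Z / q := by
  have h1 : (q : ℝ) ≤ q.totient * q.divisors.card := by
    exact_mod_cast le_totient_mul_card_divisors q
  have h2 : (0 : ℝ) < q.totient := by exact_mod_cast Nat.totient_pos.mpr hq
  have h3 : (0 : ℝ) < q := by exact_mod_cast hq
  rw [le_div_iff₀ h3, inv_mul_le_iff₀ h2]
  exact h1.trans (mul_le_mul_of_nonneg_left h h2.le)

theorem Disp1_q (H : DH RS QS a R0 R1 Q0 Q1 P0 M N Z β c) {q : ℕ} (hq : q ∈ QS) :
    0 < q ∧ (q.divisors.card : ℝ) ≤ Z ∧ (q.primeFactors.card : ℝ) ≤ Z := by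
  have h1 := H.hQ q hq
  have h0 : 0 < q := H.hQ0.trans_le h1.2.2.1
  have h2 := (H.hτ q (by have := h1.2.2.2.1; omega)).1
  refine ⟨h0, h2, le_trans ?_ h2⟩
  have : q.primeFactors ⊆ q.divisors := fun p hp =>
    Nat.mem_divisors.mpr ⟨Nat.dvd_of_mem_primeFactors hp, h0.ne'⟩
  exact_mod_cast card_le_card this

theorem Disp1_cnt (H : DH RS QS a R0 R1 Q0 Q1 P0 M N Z β c) (S : Finset ℕ) {x : ℤ} (hx : x ≠ a)
    (hx' : (x - a).natAbs ≤ M * N + a.natAbs) :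
    ((S.filter fun q : ℕ => (q : ℤ) ∣ x - a).card : ℝ) ≤ Z := by
  refine le_trans ?_ (H.hτ (x - a).natAbs (by omega)).1
  exact_mod_cast card_dvd_le_tau S (sub_ne_zero.mpr hx)

theorem sum_inv_tot_dvd_le (H : DH RS QS a R0 R1 Q0 Q1 P0 M N Z β c) {p : ℕ} (hp : 0 < p) :
    ∑ q ∈ QS.filter (fun q => p ∣ q), (q.totient : ℝ)⁻¹ ≤ Z ^ 2 / p := by
  have hZ : 0 ≤ Z := zero_le_one.trans H.hZ
  have hp' : (0 : ℝ) < p := by exact_mod_cast hp
  have hsub : QS.filter (fun q => p ∣ q) ⊆ (Icc 1 Q1).image (fun k => p * k) := by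
    intro q hq
    obtain ⟨hq, k, rfl⟩ := mem_filter.mp hq
    have h1 := Disp1_q H hq
    refine mem_image.mpr ⟨k, mem_Icc.mpr ⟨Nat.pos_of_mul_pos_left h1.1, ?_⟩, rfl⟩
    exact (Nat.le_mul_of_pos_left k hp).trans (H.hQ _ hq).2.2.2.1
  have hH : HH Q1 ≤ Z := by
    have := (H.hτ Q1 (by omega)).2
    linarith only [this]
  calc ∑ q ∈ QS.filter (fun q => p ∣ q), (q.totient : ℝ)⁻¹
      ≤ ∑ q ∈ QS.filter (fun q => p ∣ q), Z / q :=
        sum_le_sum fun q hq => inv_tot_le (Disp1_q H (mem_filter.mp hq).1).1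
          (Disp1_q H (mem_filter.mp hq).1).2.1
    _ ≤ ∑ q ∈ (Icc 1 Q1).image (fun k => p * k), Z / q :=
        sum_le_sum_of_subset_of_nonneg hsub fun _ _ _ => by positivity
    _ = ∑ k ∈ Icc 1 Q1, Z / ((p * k : ℕ) : ℝ) :=
        sum_image fun x _ y _ h => Nat.eq_of_mul_eq_mul_left hp h
    _ = Z / p * HH Q1 := by
        rw [HH, mul_sum]
        refine sum_congr rfl fun k _ => ?_
        push_cast
        rw [div_mul_div_comm, mul_one]
    _ ≤ Z / p * Z := mul_le_mul_of_nonneg_left hH (by positivity)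
    _ = Z ^ 2 / p := by ring

theorem sum_abs_kz_le (H : DH RS QS a R0 R1 Q0 Q1 P0 M N Z β c) {x : ℤ} (hx : x ≠ a)
    (hx' : (x - a).natAbs ≤ M * N + a.natAbs) : ∑ q ∈ QS, |kz q a x| ≤ 2 * Z ^ 2 := by
  have h1 := Disp1_cnt H QS hx hx'
  have h2 := sum_inv_tot_dvd_le H one_pos
  simp only [one_dvd, filter_true, Nat.cast_one, div_one] at h2
  have h3 := sum_le_sum fun q (_ : q ∈ QS) => abs_kz_le q a x
  rw [sum_add_distrib, sum_boole] at h3
  linarith only [h2, h3, h1, H, H.hZ, mul_nonneg_of_nonpos_of_nonpos (Mathlib.Tactic.Linarith.sub_nonpos_of_le (Mathlib.Tactic.Linarith.natCast_nonneg ℝ #({q ∈ QS | ↑q ∣ x - a}))) (Mathlib.Tactic.Linarith.sub_nonpos_of_le h1), mul_nonneg_of_nonpos_of_nonpos (Mathlib.Tactic.Linarith.sub_nonpos_of_le (Mathlib.Tactic.Linarith.natCast_nonneg ℝ #({q ∈ QS | ↑q ∣ x - a}))) (Mathlib.Tactic.Linarith.sub_nonpos_of_le H.hZ), mul_nonneg_of_nonpos_of_nonpos (Mathlib.Tactic.Linarith.sub_nonpos_of_le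 h1) (Mathlib.Tactic.Linarith.sub_nonpos_of_le h1)]

theorem Disp1_x (H : DH RS QS a R0 R1 Q0 Q1 P0 M N Z β c) {m n : ℕ} (hm : m ∈ range M)
    (hn : n ∈ range N) (hb : β n ≠ 0) :
    (m : ℤ) * n ≠ a ∧ ((m : ℤ) * n - a).natAbs ≤ M * N + a.natAbs := by
  refine ⟨fun h => H.hnd n hb (h ▸ dvd_mul_left _ _), (Int.natAbs_sub_le _ _).trans ?_⟩
  rw [Int.natAbs_mul, Int.natAbs_natCast, Int.natAbs_natCast]
  exact Nat.add_le_add_right (Nat.mul_le_mul (mem_range.mp hm).le (mem_range.mp hn).le) _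

theorem Disp1_trm (H : DH RS QS a R0 R1 Q0 Q1 P0 M N Z β c) (r m n1 n2 q1 q2 : ℕ) :
    ‖trm a β c r m n1 n2 q1 q2‖ ≤
      if (β n1 ≠ 0 ∧ (r : ℤ) ∣ (m : ℤ) * n1 - a) ∧ (β n2 ≠ 0 ∧ (r : ℤ) ∣ (m : ℤ) * n2 - a) ∧
        r.Coprime q1 then |kz q1 a ((m : ℤ) * n1)| * |kz q2 a ((m : ℤ) * n2)| else 0 := by
  unfold trm kr
  split_ifs with h1 h2 h3 h3 h2 h3 h3
  · rw [norm_mul, norm_mul, norm_mul, norm_mul, Complex.norm_real, Real.norm_eq_abs, abs_mul,
      Complex.norm_conj, Complex.norm_conj]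
    refine mul_le_of_le_one_left (by positivity) ?_
    exact mul_le_one₀ (mul_le_one₀ (H.hc _ _) (norm_nonneg _) (H.hc _ _)) (by positivity)
      (mul_le_one₀ (H.hβ _) (norm_nonneg _) (H.hβ _))
  · by_cases b1 : β n1 = 0
    · simp [b1]
    by_cases b2 : β n2 = 0
    · simp [b2]
    by_cases b3 : c r q1 = 0
    · simp [b3]
    exact absurd ⟨⟨b1, h1⟩, ⟨b2, h2⟩, H.hcop _ _ b3⟩ h3
  all_goals first | (simp; done) | (simp; positivity)

theorem Disp1_outer (H : DH RS QS a R0 R1 Q0 Q1 P0 M N Z β c) (F : ℕ → ℕ → ℕ → ℝ) {B : ℝ}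
    (hB : 0 ≤ B) (hF : ∀ r ∈ RS, ∀ m ∈ range M, ∀ n ∈ range N,
      F r m n ≤ if β n ≠ 0 ∧ (r : ℤ) ∣ (m : ℤ) * n - a then B else 0) :
    ∑ r ∈ RS, ∑ m ∈ range M, ∑ n ∈ range N, F r m n ≤ Z * B * (M * N) := by
  have hZ : 0 ≤ Z := zero_le_one.trans H.hZ
  rw [sum_comm]
  calc ∑ m ∈ range M, ∑ r ∈ RS, ∑ n ∈ range N, F r m n
      ≤ ∑ m ∈ range M, ∑ n ∈ range N, Z * B := by
        refine sum_le_sum fun m hm => ?_
        rw [sum_comm]
        refine sum_le_sum fun n hn => (sum_le_sum fun r hr => hF r hr m hm n hn).trans ?_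
        by_cases hb : β n = 0
        · simp only [hb, ne_eq, not_true_eq_false, false_and, if_false, sum_const_zero]
          positivity
        · obtain ⟨hx, hx'⟩ := Disp1_x H hm hn hb
          simp only [hb, ne_eq, not_false_eq_true, true_and]
          rw [← sum_filter, sum_const, nsmul_eq_mul]
          exact mul_le_mul_of_nonneg_right (Disp1_cnt H RS hx hx') hB
    _ = Z * B * (M * N) := by
        simp only [sum_const, card_range, nsmul_eq_mul]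
        ring

theorem TD_le (H : DH RS QS a R0 R1 Q0 Q1 P0 M N Z β c) :
    TD RS QS a M N β c ≤ 4 * Z ^ 5 * (M * N) := by
  have hZ : 0 ≤ Z := zero_le_one.trans H.hZ
  refine (Disp1_outer H _ (B := 4 * Z ^ 4) (by positivity) ?_).trans_eq (by ring)
  intro r _ m hm n hn
  split_ifs with h
  · obtain ⟨hx, hx'⟩ := Disp1_x H hm hn h.1
    have h1 := sum_abs_kz_le H hx hx'
    have h0 : 0 ≤ ∑ q ∈ QS, |kz q a ((m : ℤ) * n)| := sum_nonneg fun _ _ => abs_nonneg _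
    calc _ ≤ ∑ q1 ∈ QS, ∑ q2 ∈ QS, |kz q1 a ((m : ℤ) * n)| * |kz q2 a ((m : ℤ) * n)| := by
          refine sum_le_sum fun q1 _ => sum_le_sum fun q2 _ => (Disp1_trm H r m n n q1 q2).trans ?_
          split_ifs
          · exact le_rfl
          · positivity
      _ = (∑ q ∈ QS, |kz q a ((m : ℤ) * n)|) * ∑ q ∈ QS, |kz q a ((m : ℤ) * n)| :=
          (sum_mul_sum _ _ _ _).symm
      _ ≤ (2 * Z ^ 2) * (2 * Z ^ 2) := mul_le_mul h1 h1 h0 (by positivity)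
      _ = 4 * Z ^ 4 := by ring
  · refine sum_nonpos fun q1 _ => sum_nonpos fun q2 _ => (Disp1_trm H r m n n q1 q2).trans ?_
    rw [if_neg fun h' => h h'.1]

theorem Disp1_p (H : DH RS QS a R0 R1 Q0 Q1 P0 M N Z β c) {q p : ℕ} (hq : q ∈ QS)
    (hp : p ∈ q.primeFactors) :
    ∑ q ∈ QS.filter (fun q => p ∣ q), (q.totient : ℝ)⁻¹ ≤ Z ^ 2 / P0 := by
  have h1 : P0 < p := (H.hQ q hq).2.1 p hp
  have hP : (0 : ℝ) < P0 := by have := H.hP0; positivity
  refine (sum_inv_tot_dvd_le H (by omega)).trans ?_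
  exact div_le_div_of_nonneg_left (by positivity) hP (by exact_mod_cast h1.le)

theorem Disp1_nc (H : DH RS QS a R0 R1 Q0 Q1 P0 M N Z β c) {q1 : ℕ} (hq1 : q1 ∈ QS) {y : ℤ}
    (hy : y ≠ a) (hy' : (y - a).natAbs ≤ M * N + a.natAbs) :
    ∑ q2 ∈ QS.filter (fun q2 => ¬ q1.Coprime q2), |kz q2 a y| ≤
      Z * (∑ p ∈ q1.primeFactors, if (p : ℤ) ∣ y - a then 1 else 0) + Z ^ 3 / P0 := by
  have hZ : 0 ≤ Z := zero_le_one.trans H.hZ
  calc ∑ q2 ∈ QS.filter (fun q2 => ¬ q1.Coprime q2), |kz q2 a y|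
      ≤ ∑ q2 ∈ QS, ∑ p ∈ q1.primeFactors, if p ∣ q2 then |kz q2 a y| else 0 := by
        rw [sum_filter]
        refine sum_le_sum fun q2 _ => ?_
        have h0 : ∀ p ∈ q1.primeFactors, 0 ≤ if p ∣ q2 then |kz q2 a y| else 0 := fun p _ => by
          split_ifs
          · exact abs_nonneg _
          · exact le_rfl
        by_cases h : q1.Coprime q2
        · rw [if_neg (not_not.mpr h)]
          exact sum_nonneg h0
        · obtain ⟨p, hp, h1, h2⟩ := Nat.Prime.not_coprime_iff_dvd.mp h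
          have := single_le_sum h0 (Nat.mem_primeFactors.mpr ⟨hp, h1, (Disp1_q H hq1).1.ne'⟩)
          rwa [if_pos h, if_pos h2] at *
    _ ≤ ∑ p ∈ q1.primeFactors, (Z * (if (p : ℤ) ∣ y - a then 1 else 0) + Z ^ 2 / P0) := by
        rw [sum_comm]
        refine sum_le_sum fun p hp => ?_
        rw [← sum_filter]
        refine (sum_le_sum fun q _ => abs_kz_le q a y).trans ?_
        rw [sum_add_distrib, sum_boole]
        refine add_le_add ?_ (Disp1_p H hq1 hp)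
        split_ifs with h
        · rw [mul_one]
          exact Disp1_cnt H _ hy hy'
        · rw [filter_eq_empty_iff.mpr fun q hq h' =>
            h ((Int.natCast_dvd_natCast.mpr (mem_filter.mp hq).2).trans h')]
          simp
    _ ≤ _ := by
        rw [sum_add_distrib, ← mul_sum, sum_const, nsmul_eq_mul]
        refine add_le_add le_rfl ?_
        exact (mul_le_mul_of_nonneg_right (Disp1_q H hq1).2.2 (by positivity)).trans_eq (by ring)

theorem nc_le (H : DH RS QS a R0 R1 Q0 Q1 P0 M N Z β c) (r : ℕ) {x y : ℤ} (hx : x ≠ a)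
    (hx' : (x - a).natAbs ≤ M * N + a.natAbs) (hy : y ≠ a)
    (hy' : (y - a).natAbs ≤ M * N + a.natAbs) :
    ∑ q1 ∈ QS.filter (fun q1 => r.Coprime q1), ∑ q2 ∈ QS.filter (fun q2 => ¬ q1.Coprime q2),
      |kz q1 a x| * |kz q2 a y| ≤ 3 * Z ^ 5 / P0 +
        Z * ∑ q1 ∈ QS.filter (fun q1 => r.Coprime q1 ∧ (q1 : ℤ) ∣ x - a),
          ∑ p ∈ q1.primeFactors, if (p : ℤ) ∣ y - a then 1 else 0 := by
  have hZ1 := H.hZ
  have hZ : 0 ≤ Z := zero_le_one.trans hZ1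
  have hP : (0 : ℝ) < P0 := by have := H.hP0; positivity
  set E : ℕ → ℝ := fun q1 => ∑ p ∈ q1.primeFactors, if (p : ℤ) ∣ y - a then 1 else 0 with hE
  have hE0 : ∀ q1, 0 ≤ E q1 := fun q1 => sum_nonneg fun _ _ => by split_ifs <;> norm_num
  have h1 : ∑ q1 ∈ QS.filter (fun q1 => r.Coprime q1), |kz q1 a x| * (Z ^ 3 / P0) ≤
      2 * Z ^ 5 / P0 := by
    rw [← sum_mul]
    have := (sum_le_sum_of_subset_of_nonneg (filter_subset (fun q1 => r.Coprime q1) QS)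
      fun q _ _ => abs_nonneg (kz q a x)).trans (sum_abs_kz_le H hx hx')
    exact (mul_le_mul_of_nonneg_right this (by positivity)).trans_eq (by ring)
  have h2 : ∑ q1 ∈ QS, (q1.totient : ℝ)⁻¹ * E q1 ≤ Z ^ 3 / P0 := by
    set S := (QS.biUnion Nat.primeFactors).filter (fun p : ℕ => (p : ℤ) ∣ y - a) with hS
    calc ∑ q1 ∈ QS, (q1.totient : ℝ)⁻¹ * E q1
        ≤ ∑ q1 ∈ QS, ∑ p ∈ S, if p ∣ q1 then (q1.totient : ℝ)⁻¹ else 0 := by
          refine sum_le_sum fun q1 hq1 => ?_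
          simp only [hE]
          rw [sum_boole, ← sum_filter, sum_const, nsmul_eq_mul, mul_comm]
          refine mul_le_mul_of_nonneg_right (Nat.cast_le.mpr (card_le_card fun p hp => ?_))
            (by positivity)
          obtain ⟨hp1, hp2⟩ := mem_filter.mp hp
          exact mem_filter.mpr ⟨mem_filter.mpr ⟨mem_biUnion.mpr ⟨q1, hq1, hp1⟩, hp2⟩,
            Nat.dvd_of_mem_primeFactors hp1⟩
      _ ≤ ∑ p ∈ S, Z ^ 2 / P0 := by
          rw [sum_comm]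
          refine sum_le_sum fun p hp => ?_
          obtain ⟨q, hq, hpq⟩ := mem_biUnion.mp (mem_filter.mp hp).1
          rw [← sum_filter]
          exact Disp1_p H hq hpq
      _ ≤ Z * (Z ^ 2 / P0) := by
          rw [sum_const, nsmul_eq_mul]
          exact mul_le_mul_of_nonneg_right (Disp1_cnt H _ hy hy') (by positivity)
      _ = Z ^ 3 / P0 := by ring
  have h3 : ∑ q1 ∈ QS.filter (fun q1 => r.Coprime q1), |kz q1 a x| * E q1 ≤
      ∑ q1 ∈ QS.filter (fun q1 => r.Coprime q1 ∧ (q1 : ℤ) ∣ x - a), E q1 + Z ^ 3 / P0 := by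
    refine (sum_le_sum fun q1 _ =>
      mul_le_mul_of_nonneg_right (abs_kz_le q1 a x) (hE0 q1)).trans ?_
    simp only [add_mul, sum_add_distrib, ite_mul, one_mul, zero_mul]
    rw [← sum_filter, filter_filter]
    refine add_le_add le_rfl (le_trans ?_ h2)
    exact sum_le_sum_of_subset_of_nonneg (filter_subset _ _)
      fun q _ _ => mul_nonneg (by positivity) (hE0 q)
  have h4 : Z * (Z ^ 3 / P0) ≤ Z ^ 5 / P0 := by
    rw [← mul_div_assoc]
    refine div_le_div_of_nonneg_right ?_ hP.le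
    calc Z * Z ^ 3 = Z ^ 4 := by ring
      _ ≤ Z ^ 5 := pow_le_pow_right₀ hZ1 (by norm_num)
  calc _ ≤ ∑ q1 ∈ QS.filter (fun q1 => r.Coprime q1), |kz q1 a x| * (Z * E q1 + Z ^ 3 / P0) := by
        refine sum_le_sum fun q1 hq1 => ?_
        rw [← mul_sum]
        exact mul_le_mul_of_nonneg_left (Disp1_nc H (mem_filter.mp hq1).1 hy hy') (abs_nonneg _)
    _ = Z * ∑ q1 ∈ QS.filter (fun q1 => r.Coprime q1), |kz q1 a x| * E q1 +
        ∑ q1 ∈ QS.filter (fun q1 => r.Coprime q1), |kz q1 a x| * (Z ^ 3 / P0) := by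
        rw [mul_sum, ← sum_add_distrib]
        exact sum_congr rfl fun _ _ => by ring
    _ ≤ _ := by
        have h5 := mul_le_mul_of_nonneg_left h3 hZ
        have h6 : 3 * Z ^ 5 / P0 = 2 * Z ^ 5 / P0 + Z ^ 5 / P0 := by ring
        rw [mul_add] at h5
        linarith only [h1, h4, h5, h6]

theorem Disp1_card {d m n1 : ℕ} (hd : 0 < d) (hn1 : n1 ∈ range N) (ha : IsCoprime a (d : ℤ))
    (h1 : (d : ℤ) ∣ (m : ℤ) * n1 - a) :
    ((((range N).erase n1).filter fun n2 : ℕ => (d : ℤ) ∣ (m : ℤ) * n2 - a).card : ℝ) ≤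
      2 * (N / d) := by
  have hm : IsCoprime (d : ℤ) (m : ℤ) := by
    obtain ⟨k, hk⟩ := h1
    obtain ⟨u, v, huv⟩ := ha
    exact ⟨v - u * k, u * n1, by linear_combination huv + u * hk⟩
  have hsub : (((range N).erase n1).filter fun n2 : ℕ => (d : ℤ) ∣ (m : ℤ) * n2 - a) ⊆
      ((Icc (-((N / d : ℕ) : ℤ)) (N / d : ℕ)).erase 0).image
        (fun k : ℤ => ((n1 : ℤ) + d * k).toNat) := by
    intro n2 hn2
    obtain ⟨h2, h3⟩ := mem_filter.mp hn2
    obtain ⟨h4, h5⟩ := mem_erase.mp h2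
    have h6 : (d : ℤ) ∣ (m : ℤ) * ((n2 : ℤ) - n1) := by
      have := dvd_sub h3 h1
      rwa [show (m : ℤ) * n2 - a - ((m : ℤ) * n1 - a) = m * ((n2 : ℤ) - n1) by ring] at this
    obtain ⟨k, hk⟩ := hm.dvd_of_dvd_mul_left h6
    rw [mem_range] at h5 hn1
    have h7 : k.natAbs ≤ N / d := by
      rw [Nat.le_div_iff_mul_le hd]
      have := congrArg Int.natAbs hk
      rw [Int.natAbs_mul, Int.natAbs_natCast, mul_comm] at this
      omega
    refine mem_image.mpr ⟨k, mem_erase.mpr ⟨?_, mem_Icc.mpr (by omega)⟩, by omega⟩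
    rintro rfl
    omega
  have h3 : ((N / d : ℕ) : ℝ) ≤ N / d := Nat.cast_div_le
  generalize N / d = K at hsub h3
  have h2 := (card_le_card hsub).trans card_image_le
  rw [card_erase_of_mem (mem_Icc.mpr (by omega)), Int.card_Icc] at h2
  have h4 : (((range N).erase n1).filter fun n2 : ℕ => (d : ℤ) ∣ (m : ℤ) * n2 - a).card ≤
      2 * K := by omega
  have h5 := (Nat.cast_le (α := ℝ)).mpr h4
  push_cast at h5
  linarith only [h3, h5]

theorem T0_le (H : DH RS QS a R0 R1 Q0 Q1 P0 M N Z β c) :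
    T0 RS QS a M N β c ≤ 8 * Z ^ 6 * (M * N) * (N / R0) / P0 := by
  have hZ1 := H.hZ
  have hZ : 0 ≤ Z := zero_le_one.trans hZ1
  have hP : (0 : ℝ) < P0 := by have := H.hP0; positivity
  have hR : (0 : ℝ) < R0 := by have := H.hR0; positivity
  refine (Disp1_outer H _ (B := 8 * Z ^ 5 * (N / R0) / P0) (by positivity) ?_).trans_eq (by ring)
  intro r hr m hm n1 hn1
  split_ifs with h
  swap
  · refine sum_nonpos fun n2 _ => sum_nonpos fun q1 _ => sum_nonpos fun q2 _ =>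
      (Disp1_trm H r m n1 n2 q1 q2).trans ?_
    rw [if_neg fun h' => h h'.1]
  obtain ⟨hx, hx'⟩ := Disp1_x H hm hn1 h.1
  obtain ⟨-, -, hr0, -, hra⟩ := H.hR r hr
  have hr0' : (R0 : ℝ) ≤ r := by exact_mod_cast hr0
  set T := ((range N).erase n1).filter (fun n2 : ℕ => (r : ℤ) ∣ (m : ℤ) * n2 - a) with hT
  set S := QS.filter (fun q1 => r.Coprime q1 ∧ (q1 : ℤ) ∣ (m : ℤ) * n1 - a) with hS
  have hT1 : (T.card : ℝ) ≤ 2 * (N / R0) := by
    refine (Disp1_card (H.hR0.trans_le hr0) hn1 hra h.2).trans ?_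
    gcongr
  have hT2 : ∀ q1 ∈ S, ∀ p ∈ q1.primeFactors,
      (∑ n2 ∈ T, if (p : ℤ) ∣ (m : ℤ) * n2 - a then (1 : ℝ) else 0) ≤ 2 * (N / R0) / P0 := by
    intro q1 hq1 p hp
    obtain ⟨hq, hc, hd⟩ := mem_filter.mp hq1
    have hpq := Nat.dvd_of_mem_primeFactors hp
    have hpq' : (p : ℤ) ∣ q1 := Int.natCast_dvd_natCast.mpr hpq
    have hp0 : P0 < p := (H.hQ q1 hq).2.1 p hp
    have hp0' : (P0 : ℝ) ≤ p := by exact_mod_cast hp0.le
    have hrp : IsCoprime (r : ℤ) (p : ℤ) := Nat.isCoprime_iff_coprime.mpr (hc.coprime_dvd_right hpq)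
    have hap : IsCoprime a (p : ℤ) := (H.hQ q1 hq).2.2.2.2.of_isCoprime_of_dvd_right hpq'
    have h1 := Disp1_card (d := r * p) (Nat.mul_pos (H.hR0.trans_le hr0) (by omega)) hn1
      (by push_cast; exact hra.mul_right hap) (by push_cast; exact hrp.mul_dvd h.2 (hpq'.trans hd))
    rw [sum_boole]
    refine le_trans (Nat.cast_le.mpr (card_le_card fun n2 hn2 => ?_)) (h1.trans ?_)
    · obtain ⟨h2, h3⟩ := mem_filter.mp hn2
      obtain ⟨h4, h5⟩ := mem_filter.mp h2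
      exact mem_filter.mpr ⟨h4, by push_cast; exact hrp.mul_dvd h5 h3⟩
    · push_cast
      rw [mul_div_assoc, div_div]
      clear * - N r p R0 P0 hR hP hr0' hp0'; gcongr
  have hS1 : (S.card : ℝ) ≤ Z := by
    rw [hS, ← filter_filter]
    exact Disp1_cnt H _ hx hx'
  calc _ ≤ ∑ n2 ∈ T, (3 * Z ^ 5 / P0 + Z * ∑ q1 ∈ S, ∑ p ∈ q1.primeFactors,
          if (p : ℤ) ∣ (m : ℤ) * n2 - a then 1 else 0) := by
        rw [hT, sum_filter]
        refine sum_le_sum fun n2 hn2 => ?_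
        by_cases h2 : β n2 ≠ 0 ∧ (r : ℤ) ∣ (m : ℤ) * n2 - a
        · obtain ⟨hy, hy'⟩ := Disp1_x H hm (mem_of_mem_erase hn2) h2.1
          rw [if_pos h2.2]
          refine le_trans ?_ (nc_le H r hx hx' hy hy')
          rw [sum_filter (fun q1 => r.Coprime q1)]
          refine sum_le_sum fun q1 _ => (sum_le_sum fun q2 _ =>
            Disp1_trm H r m n1 n2 q1 q2).trans_eq ?_
          simp only [h, h2, ne_eq, not_false_eq_true, and_self, true_and]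
          split_ifs
          · rfl
          · exact sum_const_zero
        · refine le_trans (sum_nonpos fun q1 _ => sum_nonpos fun q2 _ =>
            (Disp1_trm H r m n1 n2 q1 q2).trans (by rw [if_neg fun h' => h2 h'.2.1])) ?_
          split_ifs
          · refine add_nonneg (by positivity) (mul_nonneg hZ (sum_nonneg fun _ _ =>
              sum_nonneg fun _ _ => ?_))
            split_ifs <;> norm_num
          · exact le_rfl
    _ = T.card * (3 * Z ^ 5 / P0) + Z * ∑ q1 ∈ S, ∑ p ∈ q1.primeFactors, ∑ n2 ∈ T,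
          if (p : ℤ) ∣ (m : ℤ) * n2 - a then 1 else 0 := by
        rw [sum_add_distrib, sum_const, nsmul_eq_mul, ← mul_sum, sum_comm]
        simp only [sum_comm (s := T)]
    _ ≤ 2 * (N / R0) * (3 * Z ^ 5 / P0) + Z * (Z * (Z * (2 * (N / R0) / P0))) := by
        refine add_le_add (mul_le_mul_of_nonneg_right hT1 (by positivity))
          (mul_le_mul_of_nonneg_left ?_ hZ)
        refine (sum_le_sum (g := fun _ => Z * (2 * (N / R0) / P0)) fun q1 hq1 => ?_).trans ?_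
        · refine (sum_le_sum (hT2 q1 hq1)).trans ?_
          rw [sum_const, nsmul_eq_mul]
          exact mul_le_mul_of_nonneg_right (Disp1_q H (mem_filter.mp hq1).1).2.2 (by positivity)
        · rw [sum_const, nsmul_eq_mul]
          exact mul_le_mul_of_nonneg_right hS1 (by positivity)
    _ = (6 * Z ^ 5 + 2 * Z ^ 3) * (N / R0) / P0 := by ring
    _ ≤ _ := by
        clear * - Z hZ1 N R0 P0 hR hP
        have : Z ^ 3 ≤ Z ^ 5 := pow_le_pow_right₀ hZ1 (by norm_num)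
        gcongr
        linarith only [this]

end Pool.Agent.Work.MP_5d318d_nt.Zh
end
end

-- merged part: Pool.Agent.Work.MP_5d318d_nt.Z.Exp2
section
/-!
# Complete sums

PLAN.
* `exists_class`: put `ν = cub ts [(0,1)]`.  If every class sum `cls b` (sum of the signs of the poles with
  shift `≡ b` modulo `p`) vanished, grouping by classes gives `∑ sign * ee (shift / p) = 0`, against
  `cub_gen` with `θ = 1 / p` (each factor `ee (t / p) - ee (t' / p)` is nonzero since `p ∤ t - t'`;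
  `four_dZ_le`, `inv_le_dZ_div`).  `|cls b| ≤ 16 < p` by `cub_length`, `cub_sign`.
* `ft_EE_prime`: for `x : ZMod p` outside `S = image (-shift)`, `EE p c ν x = stdAddChar (∑ s ∈ S, c s * (x - s)⁻¹)`
  with `c s = c * cls (-s)`, and `EE = 0` on `S`; `ee (y / p) = ZMod.stdAddChar (y : ZMod p)`
  (`ZMod.stdAddChar_coe`); the sum over `range p` is the sum over `ZMod p`; apply
  `Pool.Agent.Lib.Weil.weil_rational_field` with `ZMod.isPrimitive_stdAddChar`, `S.card ≤ 16`.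
* `ft_EE_le`: induction on `r` (`Nat.recOnPrimeCoprime`, `induction_on_primes` or over the finset of
  primes), generalizing `t` and `h`.  `r = p * r'`: `EE_mul` with `iv`, `ft_mul`, `ft_dilate` (the norm bound
  holds for every frequency).  At `p`: if `p ∤ Δ` and `p ∤ t_i - t_i'` use `ft_EE_prime` (`p ∤ t u1 Δ`), else
  `norm_ft_le` gives `p ≤ √p * p` and one gcd factor equals `p`.  gcd is multiplicative in coprime `p, r'`
  (`Nat.Coprime.gcd_mul`).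
-/

noncomputable section

open Finset Real ArithmeticFunction

namespace Pool.Agent.Work.MP_5d318d_nt.Zh

open Pool.Agent.Lib.LargeSieve Pool.Agent.Lib.ANT

theorem Exp2_ee (p : ℕ) [NeZero p] (y : ℤ) :
    ee ((y : ℝ) / p) = ZMod.stdAddChar (y : ZMod p) := by
  rw [ZMod.stdAddChar_coe, ee]
  congr 1
  push_cast
  ring

theorem Exp2_grp {α κ R : Type} [DecidableEq κ] [CommSemiring R] (k : α → κ) (w : α → R) (g : κ → R)
    (S : Finset κ) (ν : List α) (h : ∀ x ∈ ν, k x ∈ S) :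
    (ν.map fun x => w x * g (k x)).sum = ∑ s ∈ S, ((ν.filter fun x => k x = s).map w).sum * g s := by
  induction ν with
  | nil => simp
  | cons a ν ih =>
    have e : w a * g (k a) = ∑ s ∈ S, (if k a = s then w a else 0) * g s := by
      simp [h a List.mem_cons_self]
    rw [List.map_cons, List.sum_cons, ih fun x hx => h x (List.mem_cons_of_mem _ hx), e,
      ← sum_add_distrib]
    refine sum_congr rfl fun s _ => ?_
    by_cases q : k a = s <;> simp [q, add_mul]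

theorem Exp2_abs (ν : List (ℤ × ℤ)) (h : ∀ x ∈ ν, x.2 = 1 ∨ x.2 = -1) :
    |(ν.map fun x => x.2).sum| ≤ ν.length := by
  induction ν with
  | nil => simp
  | cons a ν ih =>
    have := ih fun x hx => h x (List.mem_cons_of_mem _ hx)
    rw [List.map_cons, List.sum_cons, List.length_cons, abs_le] at *
    push_cast
    rcases h a List.mem_cons_self with e | e <;> rw [e] <;> constructor <;> linarith only [this]

theorem Exp2_cast {R : Type} [Ring R] (ν : List (ℤ × ℤ)) :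
    (ν.map fun x => (x.2 : R)).sum = ((ν.map fun x => x.2).sum : ℤ) := by
  induction ν with
  | nil => simp
  | cons a ν ih => simp [ih]

theorem Exp2_prod {α A : Type} [AddMonoid A] (ψ : AddChar A ℂ) (f : α → A) (l : List α) :
    (l.map fun x => ψ (f x)).prod = ψ (l.map f).sum := by
  induction l with
  | nil => simp
  | cons a l ih => simp [ih, ψ.map_add_eq_mul]

theorem exists_class {p : ℕ} (hp : p.Prime) (h16 : 16 < p) (ts : List (ℤ × ℤ))
    (hlen : ts.length = 4) (hts : ∀ x ∈ ts, ¬ (p : ℤ) ∣ x.1 - x.2) :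
    ∃ b : ZMod p, (∃ x ∈ cub ts [(0, 1)], (x.1 : ZMod p) = b) ∧
      ((((cub ts [(0, 1)]).filter fun x => (x.1 : ZMod p) = b).map fun x => x.2).sum : ZMod p) ≠ 0 := by
  have := Fact.mk hp
  by_contra! k
  have hl : (cub ts [(0, 1)]).length = 16 := by rw [cub_length, hlen]; rfl
  have hs := cub_sign ts [(0, 1)] (by simp)
  have z : ∀ b : ZMod p,
      (((cub ts [(0, 1)]).filter fun x => (x.1 : ZMod p) = b).map fun x => x.2).sum = 0 := fun b => by
    by_cases e : ∃ x ∈ cub ts [(0, 1)], (x.1 : ZMod p) = b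
    · have d := k b e
      rw [Exp2_cast, ZMod.intCast_zmod_eq_zero_iff_dvd] at d
      refine Int.eq_zero_of_abs_lt_dvd d ((Exp2_abs _ fun x hx =>
        hs x (List.mem_of_mem_filter hx)).trans_lt ?_)
      exact_mod_cast ((List.length_filter_le _ _).trans hl.le).trans_lt h16
    · rw [List.filter_eq_nil_iff.2 fun x hx q => e ⟨x, hx, by simpa using q⟩]
      rfl
  have g := cub_gen ts [(0, 1)] (p : ℝ)⁻¹
  simp only [← div_eq_mul_inv, Exp2_ee] at g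
  rw [Exp2_grp (fun x : ℤ × ℤ => (x.1 : ZMod p)) (fun x => (x.2 : ℂ)) ZMod.stdAddChar univ _
    fun _ _ => mem_univ _, sum_eq_zero fun b _ => by rw [Exp2_cast, z b, Int.cast_zero, zero_mul]] at g
  refine mul_ne_zero (List.prod_ne_zero fun q => ?_) (by simp) g.symm
  obtain ⟨x, hx, e⟩ := List.mem_map.1 q
  exact hts x hx ((ZMod.intCast_eq_intCast_iff_dvd_sub _ _ _).1
    (ZMod.injective_stdAddChar (sub_eq_zero.1 e)).symm)

theorem ft_EE_prime {p : ℕ} (hp : p.Prime) (h16 : 16 < p) (ts : List (ℤ × ℤ))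
    (hlen : ts.length = 4) (hts : ∀ x ∈ ts, ¬ (p : ℤ) ∣ x.1 - x.2) {c : ℤ} (hc : ¬ (p : ℤ) ∣ c)
    (h : ℤ) : ‖ft p (EE p c (cub ts [(0, 1)])) h‖ ≤ 32 * √p := by
  have := Fact.mk hp
  obtain ⟨b, ⟨x0, hx0, e0⟩, hb⟩ := exists_class hp h16 ts hlen hts
  have hl : (cub ts [(0, 1)]).length = 16 := by rw [cub_length, hlen]; rfl
  generalize cub ts [(0, 1)] = ν at hx0 hb hl
  obtain ⟨S, hS⟩ : ∃ S : Finset (ZMod p), S = ν.toFinset.image fun x => -(x.1 : ZMod p) := ⟨_, rfl⟩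
  have mS : ∀ s, s ∈ S ↔ ∃ x ∈ ν, -(x.1 : ZMod p) = s := fun s => by simp [hS]
  have cS : (S.card : ℝ) ≤ 16 := by
    exact_mod_cast hS ▸ card_image_le.trans ((List.toFinset_card_le _).trans hl.le)
  have W := Pool.Agent.Lib.Weil.weil_rational_field ZMod.stdAddChar S
    (fun s => c * ((ν.filter fun x => -(x.1 : ZMod p) = s).map fun x => (x.2 : ZMod p)).sum)
    (-h : ℤ) (ZMod.isPrimitive_stdAddChar p) ⟨-b, (mS _).2 ⟨x0, hx0, by rw [e0]⟩,
      mul_ne_zero (mt (ZMod.intCast_zmod_eq_zero_iff_dvd _ _).1 hc) (by simpa using hb)⟩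
  rw [ZMod.card] at W
  have cop : ∀ y : ℤ, IsCoprime y (p : ℤ) ↔ (y : ZMod p) ≠ 0 := fun y => by
    rw [isCoprime_comm, (Nat.prime_iff_prime_int.1 hp).coprime_iff_not_dvd, Ne,
      ZMod.intCast_zmod_eq_zero_iff_dvd]
  refine le_trans (le_of_eq (congrArg _ ?_)) (W.trans (by gcongr; linarith only [cS]))
  rw [sdiff_eq_filter, sum_filter, ft]
  refine sum_nbij' (fun x => (x : ZMod p)) ZMod.val (fun _ _ => mem_univ _)
    (fun x _ => mem_range.2 x.val_lt) (fun x hx => ZMod.val_cast_of_lt (mem_range.1 hx))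
    (fun x _ => ZMod.natCast_zmod_val x) fun n _ => ?_
  by_cases q : (n : ZMod p) ∈ S
  · obtain ⟨x, hx, e⟩ := (mS _).1 q
    rw [if_neg (not_not.2 q), EE, List.prod_eq_zero (List.mem_map.2 ⟨x, hx, kE_of_not _ fun w =>
      (cop _).1 w (by push_cast; rw [← e, neg_add_cancel])⟩), zero_mul]
  · have e1 : EE p c ν n = (ν.map fun x => ZMod.stdAddChar
        ((x.2 : ZMod p) * ((c : ZMod p) * ((n : ZMod p) - -(x.1 : ZMod p))⁻¹))).prod := by
      refine congrArg _ (List.map_congr_left fun x hx => ?_)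
      rw [kE, if_pos ((cop _).2 fun w => q ((mS _).2 ⟨x, hx, by
        push_cast at w
        linear_combination -w⟩)), Exp2_ee]
      simp [iv, mul_assoc]
    have e2 : -((h : ℝ) * n / p) = ((-h * n : ℤ) : ℝ) / p := by
      push_cast
      ring
    rw [if_pos q, e1, Exp2_prod, Exp2_grp (fun x : ℤ × ℤ => -(x.1 : ZMod p))
      (fun x => (x.2 : ZMod p)) (fun s => (c : ZMod p) * ((n : ZMod p) - s)⁻¹) S ν fun x hx => (mS _).2 ⟨x, hx, rfl⟩, e2,
      Exp2_ee, ← AddChar.map_add_eq_mul]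
    congr 2
    · exact sum_congr rfl fun s _ => by ring
    · push_cast
      rfl

theorem Exp2_one (l : List ℝ) (h : ∀ x ∈ l, 1 ≤ x) : 1 ≤ l.prod ∧ ∀ x ∈ l, x ≤ l.prod := by
  induction l with
  | nil => simp
  | cons a l ih =>
    obtain ⟨h1, h2⟩ := ih fun x hx => h x (List.mem_cons_of_mem _ hx)
    have h3 := h a List.mem_cons_self
    rw [List.prod_cons]
    refine ⟨by linarith only [h1, h3, mul_nonneg_of_nonpos_of_nonpos (Mathlib.Tactic.Linarith.sub_nonpos_of_le h1) (Mathlib.Tactic.Linarith.sub_nonpos_of_le h3)], fun x hx => ?_⟩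
    rcases List.mem_cons.1 hx with rfl | hx
    · nlinarith
    · nlinarith [h2 x hx]

theorem Exp2_triv (r : ℕ) (c h : ℤ) (ν : List (ℤ × ℤ)) : ‖ft r (EE r c ν) h‖ ≤ r :=
  (norm_ft_le r h).trans (by
    simpa using sum_le_card_nsmul (range r) (fun x : ℕ => ‖EE r c ν x‖) 1 fun x _ =>
      norm_EE_le r c ν x)

theorem Exp2_prime {p : ℕ} (hp : p.Prime) (h16 : 16 < p) (ts : List (ℤ × ℤ))
    (hlen : ts.length = 4) (Δ : ℤ) {t : ℤ} (ht : IsCoprime t (p : ℤ)) (h : ℤ) :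
    ‖ft p (EE p (t * Δ) (cub ts [(0, 1)])) h‖ ≤ 32 * √p * (Int.gcd Δ p * gcdP p ts) := by
  have g1 : ∀ y : ℤ, (1 : ℝ) ≤ Int.gcd y p := fun y => by
    exact_mod_cast Int.gcd_pos_of_ne_zero_right y (Int.natCast_ne_zero.2 hp.ne_zero)
  have g2 : ∀ y : ℤ, (p : ℤ) ∣ y → (Int.gcd y p : ℝ) = p := fun y hy => by
    rw [Int.gcd_eq_natAbs_right_iff_dvd.2 hy, Int.natAbs_natCast]
  obtain ⟨a1, a2⟩ := Exp2_one (ts.map fun x => (Int.gcd (x.1 - x.2) p : ℝ)) fun y hy => by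
    obtain ⟨x, -, rfl⟩ := List.mem_map.1 hy
    exact g1 _
  have s1 : (1 : ℝ) ≤ √p := Real.one_le_sqrt.2 (by exact_mod_cast hp.one_le)
  have p0 : (0 : ℝ) ≤ p := by positivity
  have big : (p : ℝ) ≤ Int.gcd Δ p * gcdP p ts →
      ‖ft p (EE p (t * Δ) (cub ts [(0, 1)])) h‖ ≤ 32 * √p * (Int.gcd Δ p * gcdP p ts) :=
    fun k => (Exp2_triv ..).trans (by linarith only [k, s1, mul_nonneg_of_nonpos_of_nonpos (Mathlib.Tactic.Linarith.sub_nonpos_of_le (Mathlib.Tactic.Linarith.natCast_nonneg ℝ p)) (Mathlib.Tactic.Linarith.sub_nonpos_of_le s1), mul_nonneg_of_nonpos_of_nonpos (Mathlib.Tactic.Linarith.sub_nonpos_of_le s1) (Mathlib.Tactic.Linarith.sub_nonpos_of_le k)])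
  by_cases d1 : (p : ℤ) ∣ Δ
  · exact big (g2 Δ d1 ▸ le_mul_of_one_le_right (by positivity) a1)
  by_cases d2 : ∀ x ∈ ts, ¬ (p : ℤ) ∣ x.1 - x.2
  · refine (ft_EE_prime hp h16 ts hlen d2 (fun w => d1 (ht.symm.dvd_of_dvd_mul_left w)) h).trans
      (le_mul_of_one_le_right (by positivity) (one_le_mul_of_one_le_of_one_le (g1 Δ) a1))
  · push Not at d2
    obtain ⟨x, hx, d⟩ := d2
    exact big (((g2 _ d).symm.le.trans (a2 _ (List.mem_map.2 ⟨x, hx, rfl⟩))).trans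
      (le_mul_of_one_le_left (zero_le_one.trans a1) (g1 Δ)))

theorem ft_EE_le (ts : List (ℤ × ℤ)) (hlen : ts.length = 4) (Δ : ℤ) {r : ℕ} (hr : Squarefree r)
    (hp : ∀ p ∈ r.primeFactors, 16 < p) {t : ℤ} (ht : IsCoprime t (r : ℤ)) (h : ℤ) :
    ‖ft r (EE r (t * Δ) (cub ts [(0, 1)])) h‖ ≤
      32 ^ r.primeFactors.card * √r * (Int.gcd Δ r * gcdP r ts) := by
  induction r using induction_on_primes generalizing t h with
  | zero => exact absurd hr not_squarefree_zero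
  | one => exact (Exp2_triv ..).trans (by simp [gcdP])
  | prime_mul p a pp ih =>
    obtain ⟨cp, -, sa⟩ := Nat.squarefree_mul_iff.1 hr
    have a0 := Nat.pos_of_ne_zero sa.ne_zero
    have c1 := Nat.isCoprime_iff_coprime.2 cp
    have u1 := iv_spec pp.pos c1.symm
    have u2 := iv_spec a0 c1
    have cu : ∀ {r x u : ℤ}, r ∣ x * u - 1 → IsCoprime u r := fun {r x u} ⟨k, e⟩ =>
      ⟨x, -k, by linear_combination e⟩
    rw [Nat.cast_mul, IsCoprime.mul_right_iff] at ht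
    rw [cp.primeFactors_mul] at hp
    have b1 := Exp2_prime pp (hp p (mem_union_left _ (by simp [pp]))) ts hlen Δ
      (ht.1.mul_left (cu u1)) (h * iv p a)
    have b2 := ih sa (fun q hq => hp q (mem_union_right _ hq)) (ht.2.mul_left (cu u2)) (h * iv a p)
    have gm : ∀ y : ℤ, (Int.gcd y (p * a : ℕ) : ℝ) = Int.gcd y p * Int.gcd y a := fun y => by
      rw [Int.gcd, Int.gcd, Int.gcd, Int.natAbs_natCast, Int.natAbs_natCast, Int.natAbs_natCast,
        cp.gcd_mul, Nat.cast_mul]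
    have gp : gcdP (p * a) ts = gcdP p ts * gcdP a ts := by
      simp only [gcdP, gm, List.prod_map_mul]
    rw [funext (EE_mul pp.pos a0 u1 u2 _ _), ft_mul pp.pos a0 cp (EE_per pp.pos _ _) (EE_per a0 _ _),
      ft_dilate pp.pos (EE_per pp.pos _ _) u1, ft_dilate a0 (EE_per a0 _ _) u2, norm_mul,
      mul_right_comm t Δ, mul_right_comm t Δ, gm, gp, cp.primeFactors_mul,
      card_union_of_disjoint cp.disjoint_primeFactors, pp.primeFactors, card_singleton,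
      Nat.cast_mul, Real.sqrt_mul (Nat.cast_nonneg p)]
    refine (mul_le_mul b1 b2 (norm_nonneg _) ((norm_nonneg _).trans b1)).trans (le_of_eq ?_)
    ring

end Pool.Agent.Work.MP_5d318d_nt.Zh
end
end

-- merged part: Pool.Agent.Work.MP_5d318d_nt.Z.Vdc
section
/-!
# Van der Corput shifts

PLAN.
* `sum_gcd_le`: `gcd u r ≤ ∑ g ∈ r.divisors, if g ∣ u then g else 0`, at most `L / g` multiples.
* `sum_gcd_pair_le`: `gcd ((l - l') q) r = gcd |l - l'| r`; for fixed `l` each value of `|l - l'|` occurs at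
  most twice.
* `vdc_step`: put `f = φ` cut to the interval.  `L * S = ∑ n ∈ Ioc (u - N) (u + N), ψ n * ∑ l ∈ range L, f (n + l q)`
  (shift invariance, `ψ` periodic), Cauchy-Schwarz (`sq_sum_le_card_mul_sum_sq` or `inner_mul_le_norm_mul_norm`),
  `normSq_sum_eq`.  The pair `(l, l')` gives the sum of `dlt (l q) (l' q) φ` over the intersection of two
  shifted intervals, which is `Ioc u' (u' + N'')` with `N'' ≤ N'`; the diagonal is at most `N`.
* `vdc_iter`: induction on the length of `ps` (state it as `∀ j, ∀ ps, ps.length = j → ∀ φ θ u N', ...`).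
  Apply `vdc_step` to `φ * prodP rest`; `dlt` of a product is the product of the `dlt`; the differenced
  factors are again periodic and bounded; the induction hypothesis is used with `θ * gcd`.  With `m = 2 ^ j`,
  `σ = ‖S‖ / N`: `σ ^ 2 ≤ 2 / L + 2 * avg`, `(a + b) ^ m ≤ 2 ^ m * (a ^ m + b ^ m)`, power mean
  (`pow_sum_div_card_le_sum_pow` or Jensen `inner_le_nnorm_mul_nnorm`; weights `1 / L ^ 2` of total mass at most `1`),
  `sum_gcd_pair_le`, `2 * 4 ^ m * 16 ^ m ≤ 16 ^ (2 * m)`.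
-/

noncomputable section

open Finset Real ArithmeticFunction

namespace Pool.Agent.Work.MP_5d318d_nt.Zh

open Pool.Agent.Lib.LargeSieve Pool.Agent.Lib.ANT

theorem sum_gcd_le {r : ℕ} (hr : 0 < r) (L : ℕ) :
    ∑ u ∈ Icc 1 L, (Nat.gcd u r : ℝ) ≤ L * r.divisors.card := by
  have h : ∑ u ∈ Icc 1 L, Nat.gcd u r ≤ L * r.divisors.card := by
    calc ∑ u ∈ Icc 1 L, Nat.gcd u r
        ≤ ∑ u ∈ Icc 1 L, ∑ g ∈ r.divisors, if g ∣ u then g else 0 := by
          refine sum_le_sum fun u _ => ?_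
          have := single_le_sum (f := fun g => if g ∣ u then g else 0) (s := r.divisors)
            (fun _ _ => Nat.zero_le _) (Nat.mem_divisors.2 ⟨Nat.gcd_dvd_right u r, hr.ne'⟩)
          rwa [if_pos (Nat.gcd_dvd_left u r)] at this
      _ = ∑ g ∈ r.divisors, L / g * g := by
          rw [sum_comm]
          refine sum_congr rfl fun g _ => ?_
          have e : Icc 1 L = Ioc 0 L := by
            ext x
            simp only [mem_Icc, mem_Ioc]
            omega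
          rw [← sum_filter, sum_const, e, Nat.Ioc_filter_dvd_card_eq_div, smul_eq_mul]
      _ ≤ ∑ _g ∈ r.divisors, L := sum_le_sum fun g _ => Nat.div_mul_le_self L g
      _ = _ := by rw [sum_const, smul_eq_mul, mul_comm]
  exact_mod_cast h

theorem sum_gcd_pair_le {r q : ℕ} (hr : 0 < r) (hq : q.Coprime r) (L : ℕ) :
    ∑ l ∈ range L, ∑ l' ∈ (range L).erase l,
      (Int.gcd ((l : ℤ) * q - (l' : ℤ) * q) r : ℝ) ≤ 2 * L ^ 2 * r.divisors.card := by
  refine (sum_le_card_nsmul _ _ (2 * (L * r.divisors.card) : ℝ) fun l hl => ?_).trans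
    (le_of_eq (by rw [card_range, nsmul_eq_mul]; ring))
  have hl' := mem_range.1 hl
  have e : ∀ l' : ℕ, Int.gcd ((l : ℤ) * q - (l' : ℤ) * q) r =
      Nat.gcd ((l : ℤ) - l').natAbs r := fun l' => by
    rw [← sub_mul, Int.gcd, Int.natAbs_mul, Int.natAbs_natCast, Int.natAbs_natCast,
      hq.gcd_mul_right_cancel]
  simp only [e]
  rw [← sum_fiberwise_of_maps_to' (t := Icc 1 L) (g := fun l' : ℕ => ((l : ℤ) - l').natAbs)
    (fun l' h => by
      have := mem_erase.1 h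
      have := mem_range.1 this.2
      exact mem_Icc.2 (by omega)) (fun u => (Nat.gcd u r : ℝ))]
  refine le_trans ?_ (mul_le_mul_of_nonneg_left (sum_gcd_le hr L) zero_le_two)
  rw [mul_sum]
  refine sum_le_sum fun u _ => ?_
  rw [sum_const, nsmul_eq_mul]
  refine mul_le_mul_of_nonneg_right ?_ (Nat.cast_nonneg _)
  have : #{l' ∈ (range L).erase l | ((l : ℤ) - (l' : ℕ)).natAbs = u} ≤ 2 := by
    refine (card_le_card (t := {l - u, l + u}) fun x hx => ?_).trans card_le_two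
    have := (mem_filter.1 hx).2
    simp only [mem_insert, mem_singleton]
    omega
  exact_mod_cast this

theorem Vdc_shift {N N' : ℕ} (hN' : N' ≤ N) (u : ℤ) {t : ℤ} (h0 : 0 ≤ t) (h1 : t ≤ N)
    (G : ℤ → ℂ) : ∑ n ∈ Ioc (u - N) (u + N), (if n + t ∈ Ioc u (u + N') then G (n + t) else 0) =
      ∑ n ∈ Ioc u (u + N'), G n := by
  rw [← sum_filter]
  refine sum_bij' (fun n _ => n + t) (fun n _ => n - t) (fun n hn => (mem_filter.1 hn).2)
    (fun n hn => ?_) (fun n _ => by ring) (fun n _ => by ring) fun _ _ => rfl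
  simp only [mem_filter, mem_Ioc] at hn ⊢
  omega

theorem Vdc_pair {N N' : ℕ} (hN' : N' ≤ N) (u : ℤ) {t t' : ℤ} (h0 : 0 ≤ t) (h1 : t ≤ N)
    (φ : ℤ → ℂ) : ∃ (u' : ℤ) (N'' : ℕ), N'' ≤ N ∧
      ∑ n ∈ Ioc (u - N) (u + N), (if n + t ∈ Ioc u (u + N') then φ (n + t) else 0) *
        (starRingEnd ℂ) (if n + t' ∈ Ioc u (u + N') then φ (n + t') else 0) =
      ∑ n ∈ Ioc u' (u' + N''), dlt t t' φ n := by
  refine ⟨u - min t t', (N' - max t t' + min t t').toNat, by omega, ?_⟩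
  have e : Ioc (u - min t t') (u - min t t' + (N' - max t t' + min t t').toNat) =
      (Ioc (u - N) (u + N)).filter fun n => n + t ∈ Ioc u (u + N') ∧ n + t' ∈ Ioc u (u + N') := by
    ext n
    simp only [mem_filter, mem_Ioc]
    omega
  rw [e, sum_filter]
  refine sum_congr rfl fun n _ => ?_
  by_cases a : n + t ∈ Ioc u (u + N') <;> by_cases b : n + t' ∈ Ioc u (u + N') <;>
    simp only [a, b, if_true, if_false, and_self, and_false, false_and, _root_.map_zero, mul_zero,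
      zero_mul, dlt]

theorem Vdc_dlt {φ : ℤ → ℂ} (hφ : ∀ n, ‖φ n‖ ≤ 1) (t t' n : ℤ) : ‖dlt t t' φ n‖ ≤ 1 := by
  rw [dlt, norm_mul, Complex.norm_conj]
  exact mul_le_one₀ (hφ _) (norm_nonneg _) (hφ _)

theorem vdc_step {q L N N' : ℕ} (hL : L * q ≤ N) (hN' : N' ≤ N) (φ ψ : ℤ → ℂ)
    (hφ : ∀ n, ‖φ n‖ ≤ 1) (hψ : ∀ n, ‖ψ n‖ ≤ 1) (hper : ∀ n, ψ (n + q) = ψ n) (u : ℤ)
    (B : ℕ → ℕ → ℝ)
    (hB : ∀ l ∈ range L, ∀ l' ∈ (range L).erase l, ∀ (u' : ℤ) (N'' : ℕ), N'' ≤ N →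
      ‖∑ n ∈ Ioc u' (u' + N''), dlt ((l : ℤ) * q) ((l' : ℤ) * q) φ n‖ ≤ B l l') :
    (L : ℝ) ^ 2 * ‖∑ n ∈ Ioc u (u + N'), φ n * ψ n‖ ^ 2 ≤
      2 * N * (L * N + ∑ l ∈ range L, ∑ l' ∈ (range L).erase l, B l l') := by
  set f : ℕ → ℤ → ℂ := fun l n =>
    if n + (l : ℤ) * q ∈ Ioc u (u + N') then φ (n + (l : ℤ) * q) else 0 with hf
  have hlq : ∀ l ∈ range L, (0 : ℤ) ≤ (l : ℤ) * q ∧ (l : ℤ) * q ≤ N := fun l hl =>
    ⟨by positivity, by exact_mod_cast (Nat.mul_le_mul_right q (mem_range.1 hl).le).trans hL⟩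
  have e1 : (L : ℂ) * ∑ n ∈ Ioc u (u + N'), φ n * ψ n =
      ∑ n ∈ Ioc (u - N) (u + N), (∑ l ∈ range L, f l n) * ψ n := by
    simp only [sum_mul]
    rw [sum_comm, ← nsmul_eq_mul]
    nth_rewrite 1 [← card_range L]
    rw [← sum_const]
    refine sum_congr rfl fun l hl => ?_
    rw [← Vdc_shift hN' u (hlq l hl).1 (hlq l hl).2]
    refine sum_congr rfl fun n _ => ?_
    rw [show ψ (n + (l : ℤ) * q) = ψ n from (Function.Periodic.nat_mul hper l) n, hf]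
    simp only [ite_mul, zero_mul]
  have e2 : (L : ℝ) * ‖∑ n ∈ Ioc u (u + N'), φ n * ψ n‖ ≤
      ∑ n ∈ Ioc (u - N) (u + N), ‖∑ l ∈ range L, f l n‖ := by
    rw [← Complex.norm_natCast, ← norm_mul, e1]
    refine (norm_sum_le _ _).trans (sum_le_sum fun n _ => ?_)
    rw [norm_mul]
    exact mul_le_of_le_one_right (norm_nonneg _) (hψ n)
  have e3 : ∑ n ∈ Ioc (u - N) (u + N), ‖∑ l ∈ range L, f l n‖ ^ 2 ≤
      L * N + ∑ l ∈ range L, ∑ l' ∈ (range L).erase l, B l l' := by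
    have h1 : ((∑ n ∈ Ioc (u - N) (u + N), ‖∑ l ∈ range L, f l n‖ ^ 2 : ℝ) : ℂ) =
        ∑ l ∈ range L, ∑ l' ∈ range L, ∑ n ∈ Ioc (u - N) (u + N),
          f l n * (starRingEnd ℂ) (f l' n) := by
      rw [Complex.ofReal_sum]
      simp only [normSq_sum_eq]
      rw [sum_comm]
      exact sum_congr rfl fun l _ => sum_comm
    refine (le_abs_self _).trans ?_
    rw [← Real.norm_eq_abs, ← Complex.norm_real, h1]
    rw [show (L : ℝ) * N = ∑ _l ∈ range L, (N : ℝ) by simp, ← sum_add_distrib]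
    refine (norm_sum_le _ _).trans (sum_le_sum fun l hl => (norm_sum_le _ _).trans ?_)
    rw [← add_sum_erase _ _ hl]
    refine add_le_add ?_ (sum_le_sum fun l' hl' => ?_)
    · obtain ⟨u', N'', h2, h3⟩ := Vdc_pair (t' := (l : ℤ) * q) hN' u (hlq l hl).1 (hlq l hl).2 φ
      rw [h3]
      refine (norm_sum_le _ _).trans ((sum_le_card_nsmul _ _ 1 fun n _ => Vdc_dlt hφ _ _ n).trans ?_)
      simpa using h2
    · obtain ⟨u', N'', h2, h3⟩ := Vdc_pair (t' := (l' : ℤ) * q) hN' u (hlq l hl).1 (hlq l hl).2 φ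
      rw [h3]
      exact hB l hl l' hl' u' N'' h2
  have e4 : (#(Ioc (u - N) (u + N)) : ℝ) = 2 * N := by
    have : #(Ioc (u - N) (u + N)) = 2 * N := by
      rw [Int.card_Ioc]
      omega
    exact_mod_cast this
  rw [← mul_pow]
  refine (pow_le_pow_left₀ (by positivity) e2 2).trans (sq_sum_le_card_mul_sum_sq.trans ?_)
  rw [e4]
  exact mul_le_mul_of_nonneg_left e3 (by positivity)

theorem Vdc_pow (L k : ℕ) (B : ℕ → ℕ → ℝ) (hB : ∀ l l', 0 ≤ B l l') :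
    (∑ l ∈ range L, ∑ l' ∈ (range L).erase l, B l l') ^ (k + 1) ≤
      (L : ℝ) ^ k * (L ^ k * ∑ l ∈ range L, ∑ l' ∈ (range L).erase l, B l l' ^ (k + 1)) := by
  refine (pow_sum_le_card_mul_sum_pow (fun l _ => sum_nonneg fun l' _ => hB l l') k).trans ?_
  rw [card_range]
  refine mul_le_mul_of_nonneg_left ?_ (by positivity)
  rw [mul_sum]
  refine sum_le_sum fun l _ => ?_
  refine (pow_sum_le_card_mul_sum_pow (fun l' _ => hB l l') k).trans ?_
  refine mul_le_mul_of_nonneg_right (pow_le_pow_left₀ (Nat.cast_nonneg _) ?_ k)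
    (sum_nonneg fun l' _ => pow_nonneg (hB l l') _)
  exact_mod_cast card_erase_le.trans (card_range L).le

theorem Vdc_num {s n l T w : ℝ} {k : ℕ} (hn : 0 ≤ n) (hl : 1 ≤ l) (hT : 0 ≤ T) (hw : 0 ≤ w)
    (h1 : l ^ 2 * s ^ 2 ≤ 2 * n * (l * n + T))
    (h2 : T ^ (k + 1) ≤ l ^ k * (l ^ k * (16 ^ (k + 1) * n ^ (k + 1) * (l + 2 * l ^ 2 * w)))) :
    s ^ ((k + 1) * 2) ≤ 16 ^ ((k + 1) * 2) * n ^ ((k + 1) * 2) * (1 / l + w) := by
  have hl0 : 0 < l := by linarith only [hl]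
  have a1 := pow_le_pow_left₀ (mul_nonneg (sq_nonneg l) (sq_nonneg s)) h1 (k + 1)
  have a2 := add_pow_le (mul_nonneg hl0.le hn) hT (k + 1)
  rw [Nat.add_sub_cancel] at a2
  have a3 : (l * n) ^ (k + 1) ≤ l ^ k * (l ^ k * (16 ^ (k + 1) * n ^ (k + 1) * l)) := by
    have : (1 : ℝ) ≤ l ^ k * 16 ^ (k + 1) :=
      one_le_mul_of_one_le_of_one_le (one_le_pow₀ hl) (one_le_pow₀ (by norm_num))
    calc (l * n) ^ (k + 1) = 1 * (l * n) ^ (k + 1) := (one_mul _).symm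
      _ ≤ l ^ k * 16 ^ (k + 1) * (l * n) ^ (k + 1) :=
        mul_le_mul_of_nonneg_right this (by positivity)
      _ = _ := by ring
  have a4 : (2 : ℝ) ^ (k + 1) * 2 ^ (k + 1) ≤ 16 ^ (k + 1) := by
    rw [← mul_pow]
    exact pow_le_pow_left₀ (by norm_num) (by norm_num) _
  refine le_of_mul_le_mul_left ?_ (pow_pos hl0 ((k + 1) * 2))
  calc l ^ ((k + 1) * 2) * s ^ ((k + 1) * 2) = (l ^ 2 * s ^ 2) ^ (k + 1) := by ring
    _ ≤ (2 * n) ^ (k + 1) * (l * n + T) ^ (k + 1) := a1.trans_eq (mul_pow _ _ _)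
    _ ≤ (2 * n) ^ (k + 1) * (2 ^ k * (l ^ k * (l ^ k * (16 ^ (k + 1) * n ^ (k + 1) * l)) +
          l ^ k * (l ^ k * (16 ^ (k + 1) * n ^ (k + 1) * (l + 2 * l ^ 2 * w))))) :=
        mul_le_mul_of_nonneg_left (a2.trans (mul_le_mul_of_nonneg_left (add_le_add a3 h2)
          (by positivity))) (by positivity)
    _ = 2 ^ (k + 1) * 2 ^ (k + 1) *
          (l ^ ((k + 1) * 2) * (16 ^ (k + 1) * n ^ ((k + 1) * 2) * (1 / l + w))) := by
        field_simp
        ring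
    _ ≤ 16 ^ (k + 1) *
          (l ^ ((k + 1) * 2) * (16 ^ (k + 1) * n ^ ((k + 1) * 2) * (1 / l + w))) :=
        mul_le_mul_of_nonneg_right a4 (by positivity)
    _ = _ := by
        rw [pow_mul (16 : ℝ), sq]
        ring

theorem Vdc_prod (t t' : ℤ) (ps : List (ℕ × (ℤ → ℂ))) (n : ℤ) :
    prodP (ps.map fun y => (y.1, dlt t t' y.2)) n = dlt t t' (prodP ps) n := by
  induction ps with
  | nil => simp [prodP, dlt]
  | cons y ps ih =>
    simp only [prodP, dlt, List.map_cons, List.prod_cons, map_mul] at ih ⊢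
    rw [ih]
    ring

theorem Vdc_prod_le {ps : List (ℕ × (ℤ → ℂ))} (h : ∀ x ∈ ps, ∀ n, ‖x.2 n‖ ≤ 1) (n : ℤ) :
    ‖prodP ps n‖ ≤ 1 := by
  induction ps with
  | nil => simp [prodP]
  | cons y ps ih =>
    simp only [prodP, List.map_cons, List.prod_cons, norm_mul] at ih ⊢
    exact mul_le_one₀ (h y List.mem_cons_self n) (norm_nonneg _)
      (ih fun x hx => h x (List.mem_cons_of_mem _ hx))

theorem vdc_iter {r : ℕ} (hr : 0 < r) {Z : ℝ} (hZ : (r.divisors.card : ℝ) ≤ Z) {N L : ℕ}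
    (hL : 0 < L) (ps : List (ℕ × (ℤ → ℂ))) (hps : PerOK r L N ps) (φ : ℤ → ℂ)
    (hφ : ∀ n, ‖φ n‖ ≤ 1) {θ : ℝ} (hθ : 0 ≤ θ)
    (h : ∀ ts : List (ℤ × ℤ), ts.length = ps.length → (∀ x ∈ ts, x.1 ≠ x.2) →
      ∀ (u : ℤ) (N' : ℕ), N' ≤ N →
        ‖∑ n ∈ Ioc u (u + N'), cubeF ts φ n‖ ≤ θ * N * gcdP r ts)
    (u : ℤ) {N' : ℕ} (hN' : N' ≤ N) :
    ‖∑ n ∈ Ioc u (u + N'), φ n * prodP ps n‖ ^ (2 ^ ps.length) ≤
      16 ^ (2 ^ ps.length) * (N : ℝ) ^ (2 ^ ps.length) * (1 / L + θ * Z ^ ps.length) := by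
  have hZ0 : 0 ≤ Z := (Nat.cast_nonneg _).trans hZ
  have hL1 : (1 : ℝ) ≤ L := by exact_mod_cast hL
  generalize hj : ps.length = j at h ⊢
  induction j generalizing ps φ θ u N' with
  | zero =>
    obtain rfl := List.length_eq_zero_iff.1 hj
    have h1 := h [] rfl (by simp) u N' hN'
    simp only [cubeF, gcdP, prodP, List.map_nil, List.prod_nil, mul_one, pow_zero,
      pow_one] at h1 ⊢
    have h2 : 0 ≤ θ * N := by positivity
    have h3 : (0 : ℝ) ≤ N * (1 / L) := by positivity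
    linarith only [h1, h2, h3]
  | succ j ih =>
    obtain ⟨x, ps, rfl⟩ := List.exists_cons_of_length_eq_add_one hj
    obtain ⟨hx0, hx1, hx2, hx3, hx4⟩ := hps x List.mem_cons_self
    have hps' : PerOK r L N ps := fun y hy => hps y (List.mem_cons_of_mem _ hy)
    obtain ⟨k, hk⟩ : ∃ k, 2 ^ j = k + 1 := ⟨2 ^ j - 1, by have := Nat.two_pow_pos j; omega⟩
    set A : ℕ → ℕ → ℝ := fun l l' => 16 ^ (k + 1) * (N : ℝ) ^ (k + 1) *
      (1 / L + θ * (Int.gcd ((l : ℤ) * x.1 - (l' : ℤ) * x.1) r : ℝ) * Z ^ j) with hA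
    have hA0 : ∀ l l', 0 ≤ A l l' := fun l l' => by simp only [hA]; positivity
    set B : ℕ → ℕ → ℝ := fun l l' => A l l' ^ (((k + 1 : ℕ) : ℝ)⁻¹) with hB
    have hB0 : ∀ l l', 0 ≤ B l l' := fun l l' => Real.rpow_nonneg (hA0 l l') _
    have hBA : ∀ l l', B l l' ^ (k + 1) = A l l' := fun l l' =>
      Real.rpow_inv_natCast_pow (hA0 l l') (Nat.succ_ne_zero k)
    have h1 := vdc_step hx2 hN' (fun n => φ n * prodP ps n) x.2
      (fun n => by
        rw [norm_mul]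
        exact mul_le_one₀ (hφ n) (norm_nonneg _) (Vdc_prod_le (fun y hy => (hps' y hy).2.2.2.2) n))
      hx4 hx3 u B (fun l _ l' hl' u' N'' hN'' => by
        refine le_of_pow_le_pow_left₀ (Nat.succ_ne_zero k) (hB0 l l') ?_
        have hne : (l : ℤ) * x.1 ≠ (l' : ℤ) * x.1 := fun e =>
          (mem_erase.1 hl').1 (Nat.eq_of_mul_eq_mul_right hx0 (by exact_mod_cast e)).symm
        have := ih (ps.map fun y => (y.1, dlt ((l : ℤ) * x.1) ((l' : ℤ) * x.1) y.2))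
          (fun y hy => by
            obtain ⟨z, hz, rfl⟩ := List.mem_map.1 hy
            obtain ⟨b0, b1, b2, b3, b4⟩ := hps' z hz
            refine ⟨b0, b1, b2, fun n => ?_, Vdc_dlt b4 _ _⟩
            simp only [dlt]
            rw [add_right_comm, b3, add_right_comm, b3])
          (dlt ((l : ℤ) * x.1) ((l' : ℤ) * x.1) φ) (Vdc_dlt hφ _ _)
          (θ := θ * (Int.gcd ((l : ℤ) * x.1 - (l' : ℤ) * x.1) r : ℝ)) (by positivity) u' hN''
          (by simpa using hj) fun ts b1 b2 v M hM => by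
            refine (h (((l : ℤ) * x.1, (l' : ℤ) * x.1) :: ts) (by simp [b1])
              (List.forall_mem_cons.2 ⟨hne, b2⟩) v M hM).trans (le_of_eq ?_)
            simp only [gcdP, List.map_cons, List.prod_cons]
            ring
        rw [hk] at this
        rw [Nat.succ_eq_add_one, hBA]
        refine le_trans (le_of_eq ?_) this
        congr 2
        refine sum_congr rfl fun n _ => ?_
        rw [Vdc_prod]
        simp only [dlt, map_mul]
        ring)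
    have e : ∑ n ∈ Ioc u (u + N'), φ n * prodP (x :: ps) n =
        ∑ n ∈ Ioc u (u + N'), φ n * prodP ps n * x.2 n := by
      refine sum_congr rfl fun n _ => ?_
      simp only [prodP, List.map_cons, List.prod_cons]
      ring
    rw [e, pow_succ 2 j, hk]
    refine Vdc_num (Nat.cast_nonneg N) hL1 (sum_nonneg fun l _ => sum_nonneg fun l' _ => hB0 l l')
      (by positivity) h1 ((Vdc_pow L k B hB0).trans ?_)
    refine mul_le_mul_of_nonneg_left (mul_le_mul_of_nonneg_left ?_ (by positivity)) (by positivity)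
    simp only [hBA, hA, ← mul_sum]
    refine mul_le_mul_of_nonneg_left ?_ (by positivity)
    simp only [sum_add_distrib, ← sum_mul, ← mul_sum]
    refine add_le_add ?_ ?_
    · refine (sum_le_card_nsmul _ _ 1 fun l _ => ?_).trans (by simp)
      rw [sum_const, nsmul_eq_mul, mul_one_div, div_le_one (by linarith only [hL1])]
      exact_mod_cast card_erase_le.trans (card_range L).le
    · have h2 := (sum_gcd_pair_le hr hx1 L).trans
        (mul_le_mul_of_nonneg_left hZ (by positivity))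
      refine (mul_le_mul_of_nonneg_right (mul_le_mul_of_nonneg_left h2 hθ) (by positivity)).trans
        (le_of_eq (by ring))

end Pool.Agent.Work.MP_5d318d_nt.Zh
end
end

-- merged part: Pool.Agent.Work.MP_5d318d_nt.Z.Exp
section
/-!
# The incomplete exponential sum

PLAN.
* `two_pow_card`: for squarefree `r`, `2 ^ ω(r) = τ(r)` (`Nat.Squarefree` divisors and subsets of primes,
  `Nat.card_divisors`, `Squarefree.natFactorization_le_one`); only `≤` is needed and it holds for all `r ≠ 0`.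
* `exp_sum`: `vdc_iter` with `φ = kE r (t * Δ) = EE r (t * Δ) [(0,1)]`,
  `θ = Z ^ 5 * (1 / √r + Z * √r / N) * gcd Δ r`; the hypothesis follows from `cubeF_EE`, `complete_le`
  (`EE_per`, `ft_EE_le`, `32 ^ ω = (2 ^ ω) ^ 5 ≤ Z ^ 5`, `√r * (N' / r) ≤ N / √r`).  Then
  `gcd ≤ gcd ^ 16`, `1 ≤ gcd`, and `pow_le_pow_left₀`/`le_of_pow_le_pow_left₀` (`pow_le_pow_iff_left₀`).
-/

noncomputable section

open Finset Real ArithmeticFunction

namespace Pool.Agent.Work.MP_5d318d_nt.Zh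

open Pool.Agent.Lib.LargeSieve Pool.Agent.Lib.ANT

theorem two_pow_card_le {r : ℕ} (hr : r ≠ 0) :
    (2 : ℝ) ^ r.primeFactors.card ≤ r.divisors.card := by
  rw [Nat.card_divisors hr, ← prod_const, Nat.cast_prod]
  refine prod_le_prod (fun _ _ => zero_le_two) fun p hp => ?_
  have := (Nat.prime_of_mem_primeFactors hp).factorization_pos_of_dvd hr
    (Nat.dvd_of_mem_primeFactors hp)
  exact_mod_cast Nat.succ_le_succ this

theorem exp_sum {r : ℕ} (hr : Squarefree r) (hp : ∀ p ∈ r.primeFactors, 16 < p) {Z η : ℝ}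
    (hτ : (r.divisors.card : ℝ) ≤ Z) (hH : HH r ≤ Z) {N L : ℕ} (hL : 0 < L) (hN : 0 < N)
    (hη0 : 0 ≤ η) (hη : 16 ^ 16 * (1 / L + Z ^ 9 * (1 / √r + Z * √r / N)) ≤ η ^ 16)
    (ps : List (ℕ × (ℤ → ℂ))) (hlen : ps.length = 4) (hps : PerOK r L N ps) {t : ℤ}
    (ht : IsCoprime t (r : ℤ)) (Δ u : ℤ) {N' : ℕ} (hN' : N' ≤ N) :
    ‖∑ n ∈ Ioc u (u + N'), kE r (t * Δ) n * prodP ps n‖ ≤ η * N * Int.gcd Δ r := by
  have r0 : 0 < r := Nat.pos_of_ne_zero hr.ne_zero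
  have hs : 0 < √(r : ℝ) := sqrt_pos.2 (Nat.cast_pos.2 r0)
  have N0 : (0 : ℝ) < N := Nat.cast_pos.2 hN
  have Z0 : 0 ≤ Z := (Nat.cast_nonneg _).trans hτ
  have g1 : (1 : ℝ) ≤ Int.gcd Δ r := by
    exact_mod_cast Int.gcd_pos_of_ne_zero_right Δ (Nat.cast_ne_zero.2 r0.ne')
  have h32 : (32 : ℝ) ^ r.primeFactors.card ≤ Z ^ 5 := by
    rw [show (32 : ℝ) = 2 ^ 5 by norm_num, ← pow_mul, mul_comm, pow_mul]
    exact pow_le_pow_left₀ (by positivity) ((two_pow_card_le r0.ne').trans hτ) 5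
  obtain ⟨w, hw⟩ : ∃ w, w = 1 / √(r : ℝ) + Z * √r / N := ⟨_, rfl⟩
  have w0 : 0 ≤ w := by rw [hw]; positivity
  have key := vdc_iter r0 hτ hL ps hps (kE r (t * Δ)) (norm_kE_le _ _)
    (θ := Z ^ 5 * w * Int.gcd Δ r) (by positivity) (fun ts hts _ u' M hM => ?_) u hN'
  · rw [hlen] at key
    rw [← hw] at hη
    refine le_of_pow_le_pow_left₀ (n := 16) (by norm_num) (by positivity) (key.trans ?_)
    generalize (Int.gcd Δ r : ℝ) = g at g1
    have g2 : g ≤ g ^ 16 := le_self_pow₀ g1 (by norm_num)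
    have g3 : 1 / (L : ℝ) ≤ 1 / L * g := le_mul_of_one_le_right (by positivity) g1
    calc (16 : ℝ) ^ 16 * N ^ 16 * (1 / L + Z ^ 5 * w * g * Z ^ 4)
        ≤ 16 ^ 16 * N ^ 16 * (1 / L * g + Z ^ 5 * w * g * Z ^ 4) := by gcongr
      _ = 16 ^ 16 * (1 / L + Z ^ 9 * w) * N ^ 16 * g := by ring
      _ ≤ η ^ 16 * N ^ 16 * g ^ 16 := by clear * - L Z w N η g hη hN g2 g1; gcongr
      _ = _ := by ring
  · rw [← EE_one, cubeF_EE]
    refine (complete_le r0 (EE_per r0 _ _) (ft_EE_le ts (hts.trans hlen) Δ hr hp ht) u' M).trans ?_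
    have G0 : 0 ≤ gcdP r ts := List.prod_nonneg fun y hy => by
      obtain ⟨x, _, rfl⟩ := List.mem_map.1 hy
      positivity
    have e : √(r : ℝ) * ((N : ℝ) / r + Z) = w * N := by
      rw [hw]
      nth_rewrite 2 [← mul_self_sqrt (Nat.cast_nonneg (α := ℝ) r)]
      field_simp
    have := HH_nonneg r
    calc _ ≤ Z ^ 5 * √r * (Int.gcd Δ r * gcdP r ts) * ((N : ℝ) / r + Z) := by clear * - r Δ ts Z M N h32 r0 G0 hM hH this Z0 e; gcongr
      _ = Z ^ 5 * (√r * ((N : ℝ) / r + Z)) * (Int.gcd Δ r * gcdP r ts) := by ring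
      _ = _ := by rw [e]; ring

end Pool.Agent.Work.MP_5d318d_nt.Zh
end
end

-- merged part: Pool.Agent.Work.MP_5d318d_nt.Z.Disp3
section
/-!
# Dispersion: the second Cauchy-Schwarz step

PLAN.
* `norm_gm_le`, `norm_gm_le'`: `norm_wI_le_inv`, `norm_wI_le`, `R0 * Q0 ^ 2 ≤ r q1 q2`.
* `osc_pair_le`: `kE_mul_conj`, then `kE_congr` to `kE r (t * Δ)` with `t = -(a * iv r (q1 q2) * iv r (q3 q4))`
  (`iv_spec`; `t` is prime to `r`).  The four factors `Gm / 2` (two of them conjugated, two of them shifted by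
  `l r`) are the periodic factors of `exp_sum` (`Gm_per`, `norm_Gm_le`); monotonicity in `r ∈ [R0, R1]` of the
  condition on `η`.
* `card_triple_le`: `q1 ∣ n`, `q2 ∣ n` (at most `τ` choices each), and then `h'` is determined.
* `sum_gcd_RS_le`: `gcd Δ r ≤ ∑ g ∈ |Δ|.divisors, if g ∣ r then g else 0`; at most `R1 / g` multiples in `[1, R1]`.
* `sum_Psi_sq_le` (fixed `l`): expand the square (`normSq_sum_eq` on the product index set), swap with the sum over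
  `n`.  Pairs with `Δ = h q3 q4 - h' q1 q2 = 0`: each inner sum is at most `16 N`, weights `1 / (2 |h|)` and
  `M / (R0 Q0 ^ 2)`, `card_triple_le` with `n = h q3 q4`, `sum_inv_abs_le`, `QS.card ≤ Q1`, `RS.card ≤ R1`.  Pairs with
  `Δ ≠ 0` (`|Δ| ≤ R1 Q1 ^ 4` since `|h| ≤ r q1 q2 / 2` on `Rep`): weights `1 / (2 |h|)`, `1 / (2 |h'|)` do not depend on
  `r`; `osc_pair_le` (a nonzero `gm` gives the coprimality by `hcop`), `sum_gcd_RS_le`.
* `T1_le`: `T1_eq`, Cauchy-Schwarz over `(r, l, n)`; the `n` with `0 ≤ n < N`, `0 ≤ n + l r < N` form an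
  interval `Ioc u (u + N')`, `N' ≤ N`.
-/

noncomputable section

open Finset Real ArithmeticFunction

namespace Pool.Agent.Work.MP_5d318d_nt.Zh

open Pool.Agent.Lib.LargeSieve Pool.Agent.Lib.ANT

variable {RS QS : Finset ℕ} {a : ℤ} {R0 R1 Q0 Q1 P0 M N : ℕ} {Z : ℝ} {β : ℕ → ℂ}
  {c : ℕ → ℕ → ℂ}

theorem Disp3_posR (H : DH RS QS a R0 R1 Q0 Q1 P0 M N Z β c) {r : ℕ} (hr : r ∈ RS) : 0 < r :=
  lt_of_lt_of_le H.hR0 (H.hR r hr).2.2.1

theorem Disp3_posQ (H : DH RS QS a R0 R1 Q0 Q1 P0 M N Z β c) {q : ℕ} (hq : q ∈ QS) : 0 < q :=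
  lt_of_lt_of_le H.hQ0 (H.hQ q hq).2.2.1

theorem Disp3_gm_le (H : DH RS QS a R0 R1 Q0 Q1 P0 M N Z β c) (r q1 q2 : ℕ) (h : ℤ) {B : ℝ}
    (hB0 : 0 ≤ B) (hB : h ∈ Rep (r * (q1 * q2)) →
      ‖wI (-1) M ((h : ℝ) / (r * (q1 * q2) : ℕ)) / (r * (q1 * q2) : ℕ)‖ ≤ B) :
    ‖gm M c r q1 q2 h‖ ≤ B := by
  unfold gm
  split_ifs with hc
  · rw [norm_mul, norm_mul, Complex.norm_conj]
    have h1 := H.hc r q1
    have h2 := H.hc r q2
    have h3 := hB hc.2
    calc _ ≤ 1 * 1 * B := by gcongr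
      _ = B := by ring
  · rw [norm_zero]; exact hB0

theorem norm_gm_le (H : DH RS QS a R0 R1 Q0 Q1 P0 M N Z β c) {r q1 q2 : ℕ} (hr : r ∈ RS)
    (h1 : q1 ∈ QS) (h2 : q2 ∈ QS) {h : ℤ} (h0 : h ≠ 0) :
    ‖gm M c r q1 q2 h‖ ≤ 1 / (2 * |(h : ℝ)|) := by
  refine Disp3_gm_le H r q1 q2 h (by positivity) fun hh => norm_wI_le_inv (-1) M ?_ hh h0
  exact Nat.mul_pos (Disp3_posR H hr) (Nat.mul_pos (Disp3_posQ H h1) (Disp3_posQ H h2))

theorem norm_gm_le' (H : DH RS QS a R0 R1 Q0 Q1 P0 M N Z β c) {r q1 q2 : ℕ} (hr : r ∈ RS)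
    (h1 : q1 ∈ QS) (h2 : q2 ∈ QS) (h : ℤ) :
    ‖gm M c r q1 q2 h‖ ≤ M / (R0 * Q0 ^ 2) := by
  refine Disp3_gm_le H r q1 q2 h (by positivity) fun _ => ?_
  have e0 : (0 : ℝ) < R0 := by exact_mod_cast H.hR0
  have e1 : (0 : ℝ) < Q0 := by exact_mod_cast H.hQ0
  have a0 : (R0 : ℝ) ≤ r := by exact_mod_cast (H.hR r hr).2.2.1
  have a1 : (Q0 : ℝ) ≤ q1 := by exact_mod_cast (H.hQ q1 h1).2.2.1
  have a2 : (Q0 : ℝ) ≤ q2 := by exact_mod_cast (H.hQ q2 h2).2.2.1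
  rw [norm_div, Complex.norm_natCast]
  refine div_le_div₀ (by positivity) (norm_wI_le _ _ _) (by positivity) ?_
  push_cast
  rw [sq]
  gcongr

theorem Disp3_iv_cop {r : ℕ} (hr : 0 < r) {x : ℤ} (hx : IsCoprime x (r : ℤ)) :
    IsCoprime (iv r x) (r : ℤ) := by
  obtain ⟨k, hk⟩ := iv_spec hr hx
  exact ⟨x, -k, by linarith only [hk]⟩

theorem Disp3_per (H : DH RS QS a R0 R1 Q0 Q1 P0 M N Z β c) {L r q : ℕ} (hLQ : L * Q1 ≤ N)
    (hq : q ∈ QS) (hc : r.Coprime q) (h w s : ℤ) (f : ℂ → ℂ) (hf : ∀ z, ‖f z‖ = ‖z‖) :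
    0 < q ∧ q.Coprime r ∧ L * q ≤ N ∧
      (∀ n, f (Gm q a h w (n + q + s)) / 2 = f (Gm q a h w (n + s)) / 2) ∧
      ∀ n, ‖f (Gm q a h w (n + s)) / 2‖ ≤ 1 := by
  refine ⟨Disp3_posQ H hq, hc.symm, (Nat.mul_le_mul_left L (H.hQ q hq).2.2.2.1).trans hLQ,
    fun n => by rw [add_right_comm, Gm_per], fun n => ?_⟩
  have := norm_Gm_le (Disp3_posQ H hq) (H.hQ q hq).2.2.2.2 h w (n + s)
  rw [norm_div, hf, Complex.norm_two]
  linarith only [this]

theorem osc_pair_le (H : DH RS QS a R0 R1 Q0 Q1 P0 M N Z β c) {L : ℕ} {η : ℝ} (hL : 0 < L)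
    (hN : 0 < N) (hLQ : L * Q1 ≤ N) (hη0 : 0 ≤ η)
    (hη : 16 ^ 16 * (1 / L + Z ^ 9 * (1 / √R0 + Z * √R1 / N)) ≤ η ^ 16) {r q1 q2 q3 q4 : ℕ}
    (hr : r ∈ RS) (h1 : q1 ∈ QS) (h2 : q2 ∈ QS) (h3 : q3 ∈ QS) (h4 : q4 ∈ QS)
    (c1 : r.Coprime q1) (c2 : r.Coprime q2) (c3 : r.Coprime q3) (c4 : r.Coprime q4)
    (h h' l u : ℤ) {N' : ℕ} (hN' : N' ≤ N) :
    ‖∑ n ∈ Ioc u (u + N'), osc a r q1 q2 h l n * (starRingEnd ℂ) (osc a r q3 q4 h' l n)‖ ≤
      16 * η * N * Int.gcd (h * q3 * q4 - h' * q1 * q2) r := by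
  have r0 := Disp3_posR H hr
  obtain ⟨rs, rp, rl, ru, ra⟩ := H.hR r hr
  have k12 : IsCoprime ((q1 : ℤ) * q2) (r : ℤ) :=
    (Nat.isCoprime_iff_coprime.2 c1.symm).mul_left (Nat.isCoprime_iff_coprime.2 c2.symm)
  have k34 : IsCoprime ((q3 : ℤ) * q4) (r : ℤ) :=
    (Nat.isCoprime_iff_coprime.2 c3.symm).mul_left (Nat.isCoprime_iff_coprime.2 c4.symm)
  have ht : IsCoprime (-(a * iv r ((q1 : ℤ) * q2) * iv r ((q3 : ℤ) * q4))) (r : ℤ) :=
    ((ra.mul_left (Disp3_iv_cop r0 k12)).mul_left (Disp3_iv_cop r0 k34)).neg_left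
  have hZ := H.hτ r (by omega)
  have hZ0 : 0 ≤ Z := le_trans zero_le_one H.hZ
  have e0 : (0 : ℝ) < R0 := by exact_mod_cast H.hR0
  have a0 : (R0 : ℝ) ≤ r := by exact_mod_cast rl
  have a1 : (r : ℝ) ≤ R1 := by exact_mod_cast ru
  have key := exp_sum rs (fun p hp => lt_of_le_of_lt H.hP0 (rp p hp)) hZ.1 (by linarith only [hZ, hZ.2])
    hL hN hη0 (le_trans (by clear * - L Z r N R0 R1 e0 a0 a1 hZ0 hN hη; gcongr) hη)
    [(q1, fun n => id (Gm q1 a h ((q2 : ℤ) * r) (n + 0)) / 2),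
      (q2, fun n => id (Gm q2 a h ((q1 : ℤ) * r) (n + l * r)) / 2),
      (q3, fun n => (starRingEnd ℂ) (Gm q3 a h' ((q4 : ℤ) * r) (n + 0)) / 2),
      (q4, fun n => (starRingEnd ℂ) (Gm q4 a h' ((q3 : ℤ) * r) (n + l * r)) / 2)] rfl
    (by
      intro x hx
      simp only [List.mem_cons, List.not_mem_nil, or_false] at hx
      rcases hx with rfl | rfl | rfl | rfl
      · exact Disp3_per H hLQ h1 c1 _ _ _ _ fun _ => rfl
      · exact Disp3_per H hLQ h2 c2 _ _ _ _ fun _ => rfl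
      · exact Disp3_per H hLQ h3 c3 _ _ _ _ Complex.norm_conj
      · exact Disp3_per H hLQ h4 c4 _ _ _ _ Complex.norm_conj)
    ht (h * q3 * q4 - h' * q1 * q2) u hN'
  have hk : ∀ n, kE r (-(h * a * iv r ((q1 : ℤ) * q2))) n *
      (starRingEnd ℂ) (kE r (-(h' * a * iv r ((q3 : ℤ) * q4))) n) =
      kE r (-(a * iv r ((q1 : ℤ) * q2) * iv r ((q3 : ℤ) * q4)) *
        (h * q3 * q4 - h' * q1 * q2)) n := fun n => by
    rw [kE_mul_conj]
    refine kE_congr r0 ?_ (by simp)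
    obtain ⟨k, hk⟩ := iv_spec r0 k12
    obtain ⟨k', hk'⟩ := iv_spec r0 k34
    refine ⟨a * h * iv r ((q1 : ℤ) * q2) * k' - a * h' * iv r ((q3 : ℤ) * q4) * k, ?_⟩
    linear_combination a * h * iv r ((q1 : ℤ) * q2) * hk' - a * h' * iv r ((q3 : ℤ) * q4) * hk
  refine le_trans (le_of_eq ?_) ((mul_le_mul_of_nonneg_left key (by norm_num : (0 : ℝ) ≤ 16)).trans
    (le_of_eq (by ring)))
  rw [show (16 : ℝ) = ‖(16 : ℂ)‖ by simp, ← norm_mul, mul_sum]
  refine congrArg _ (sum_congr rfl fun n _ => ?_)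
  rw [← hk]
  simp only [osc, prodP, List.map_cons, List.map_nil, List.prod_cons, List.prod_nil, map_mul, id,
    add_zero]
  ring

theorem card_triple_le (QS : Finset ℕ) (hQ : ∀ q ∈ QS, 0 < q) (T : Finset ℤ) {n : ℤ}
    (hn : n ≠ 0) : (((QS ×ˢ QS) ×ˢ T).filter fun x => x.2 * x.1.1 * x.1.2 = n).card ≤
      n.natAbs.divisors.card ^ 2 := by
  rw [sq, ← card_product]
  refine card_le_card_of_injOn (fun x => x.1) (fun x hx => ?_) fun x hx y hy hxy => ?_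
  · have e := (mem_filter.1 (mem_coe.1 hx)).2
    have n0 : n.natAbs ≠ 0 := Int.natAbs_ne_zero.2 hn
    refine mem_coe.2 (mem_product.2 ⟨Nat.mem_divisors.2 ⟨?_, n0⟩, Nat.mem_divisors.2 ⟨?_, n0⟩⟩)
    · exact Int.natCast_dvd.1 ⟨x.2 * x.1.2, by rw [← e]; ring⟩
    · exact Int.natCast_dvd.1 ⟨x.2 * x.1.1, by rw [← e]; ring⟩
  · obtain ⟨mx, ex⟩ := mem_filter.1 (mem_coe.1 hx)
    have ey := (mem_filter.1 (mem_coe.1 hy)).2
    have m := mem_product.1 (mem_product.1 mx).1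
    have p1 : (x.1.1 : ℤ) ≠ 0 := by exact_mod_cast (hQ _ m.1).ne'
    have p2 : (x.1.2 : ℤ) ≠ 0 := by exact_mod_cast (hQ _ m.2).ne'
    have hxy' : x.1 = y.1 := hxy
    rw [← hxy', ← ex] at ey
    exact Prod.ext hxy' (mul_right_cancel₀ p1 (mul_right_cancel₀ p2 ey)).symm

theorem sum_gcd_RS_le (RS : Finset ℕ) {R1 : ℕ} (hR : ∀ r ∈ RS, 0 < r ∧ r ≤ R1) {Δ : ℤ}
    (hΔ : Δ ≠ 0) : ∑ r ∈ RS, (Int.gcd Δ r : ℝ) ≤ R1 * Δ.natAbs.divisors.card := by
  refine le_trans ?_ (sum_gcd_le (Int.natAbs_pos.2 hΔ) R1)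
  refine le_trans (le_of_eq (sum_congr rfl fun r _ => ?_)) (sum_le_sum_of_subset_of_nonneg
    (fun r hr => mem_Icc.2 (hR r hr)) fun _ _ _ => by positivity)
  rw [Int.gcd, Int.natAbs_natCast, Nat.gcd_comm]

theorem Disp3_expand {ι : Type*} (I : Finset ι) (S : Finset ℤ) (g : ι → ℂ) (o : ι → ℤ → ℂ) :
    ∑ n ∈ S, ‖∑ x ∈ I, g x * o x n‖ ^ 2 ≤
      ∑ x ∈ I, ∑ y ∈ I, ‖g x‖ * ‖g y‖ * ‖∑ n ∈ S, o x n * (starRingEnd ℂ) (o y n)‖ := by
  have e : ((∑ n ∈ S, ‖∑ x ∈ I, g x * o x n‖ ^ 2 : ℝ) : ℂ) = ∑ x ∈ I, ∑ y ∈ I,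
      g x * (starRingEnd ℂ) (g y) * ∑ n ∈ S, o x n * (starRingEnd ℂ) (o y n) := by
    rw [Complex.ofReal_sum]
    simp_rw [normSq_sum_eq]
    rw [sum_comm]
    refine sum_congr rfl fun x _ => ?_
    rw [sum_comm]
    refine sum_congr rfl fun y _ => ?_
    rw [mul_sum]
    refine sum_congr rfl fun n _ => ?_
    rw [map_mul]
    ring
  refine (le_abs_self _).trans ?_
  rw [← Real.norm_eq_abs, ← Complex.norm_real, e]
  refine (norm_sum_le _ _).trans (sum_le_sum fun x _ => (norm_sum_le _ _).trans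
    (sum_le_sum fun y _ => le_of_eq ?_))
  rw [norm_mul, norm_mul, Complex.norm_conj]

theorem Disp3_swap {ι κ : Type*} (A : Finset ι) (B : Finset κ) (F : ι → κ → ι → κ → ℝ) :
    ∑ x ∈ A ×ˢ B, ∑ y ∈ A ×ˢ B, F x.1 x.2 y.1 y.2 =
      ∑ h ∈ B, ∑ p ∈ A, ∑ z ∈ A ×ˢ B, F z.1 h p z.2 := by
  simp only [sum_product]
  rw [sum_comm]
  exact sum_congr rfl fun h _ => sum_comm

theorem Disp3_card {S : Finset ℕ} {B : ℕ} (h : ∀ r ∈ S, 0 < r ∧ r ≤ B) : (S.card : ℝ) ≤ B := by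
  have : S.card ≤ (Icc 1 B).card := card_le_card fun r hr => mem_Icc.2 (h r hr)
  rw [Nat.card_Icc, Nat.add_sub_cancel] at this
  exact_mod_cast this

theorem Disp3_osc_le (H : DH RS QS a R0 R1 Q0 Q1 P0 M N Z β c) (r : ℕ) {q1 q2 : ℕ}
    (h1 : q1 ∈ QS) (h2 : q2 ∈ QS) (h l n : ℤ) : ‖osc a r q1 q2 h l n‖ ≤ 4 := by
  have a0 := norm_kE_le r (-(h * a * iv r ((q1 : ℤ) * q2))) n
  have a1 := norm_Gm_le (Disp3_posQ H h1) (H.hQ q1 h1).2.2.2.2 h ((q2 : ℤ) * r) n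
  have a2 := norm_Gm_le (Disp3_posQ H h2) (H.hQ q2 h2).2.2.2.2 h ((q1 : ℤ) * r) (n + l * r)
  rw [osc, norm_mul, norm_mul]
  calc _ ≤ (1 : ℝ) * 2 * 2 := by gcongr
    _ = 4 := by norm_num

theorem Disp3_gm_ne (H : DH RS QS a R0 R1 Q0 Q1 P0 M N Z β c) {r q1 q2 : ℕ} (hr : r ∈ RS)
    (h1 : q1 ∈ QS) (h2 : q2 ∈ QS) {h : ℤ} (hg : gm M c r q1 q2 h ≠ 0) :
    r.Coprime q1 ∧ r.Coprime q2 ∧ 2 * h.natAbs ≤ R1 * Q1 ^ 2 := by
  unfold gm at hg
  split_ifs at hg with hc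
  · have b1 : c r q1 ≠ 0 := fun e => hg (by simp [e])
    have b2 : c r q2 ≠ 0 := fun e => hg (by simp [e])
    refine ⟨H.hcop _ _ b1, H.hcop _ _ b2, ?_⟩
    have hm := (mem_filter.1 hc.2).2
    have : r * (q1 * q2) ≤ R1 * Q1 ^ 2 := by
      rw [sq]
      exact Nat.mul_le_mul (H.hR r hr).2.2.2.1
        (Nat.mul_le_mul (H.hQ q1 h1).2.2.2.1 (H.hQ q2 h2).2.2.2.1)
    omega
  · exact absurd rfl hg

theorem Disp3_pair (H : DH RS QS a R0 R1 Q0 Q1 P0 M N Z β c) {L : ℕ} {η : ℝ} (hL : 0 < L)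
    (hN : 0 < N) (hLQ : L * Q1 ≤ N) (hη0 : 0 ≤ η)
    (hη : 16 ^ 16 * (1 / L + Z ^ 9 * (1 / √R0 + Z * √R1 / N)) ≤ η ^ 16) (l : ℤ) (u : ℕ → ℤ)
    (N' : ℕ → ℕ) (hN' : ∀ r, N' r ≤ N) {q1 q2 q3 q4 : ℕ} (h1 : q1 ∈ QS) (h2 : q2 ∈ QS)
    (h3 : q3 ∈ QS) (h4 : q4 ∈ QS) {h h' : ℤ} (h0 : h ≠ 0) (h0' : h' ≠ 0) :
    ∑ r ∈ RS, ‖gm M c r q1 q2 h‖ * ‖gm M c r q3 q4 h'‖ * ‖∑ n ∈ Ioc (u r) (u r + N' r),
      osc a r q1 q2 h l n * (starRingEnd ℂ) (osc a r q3 q4 h' l n)‖ ≤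
      (if h' * q1 * q2 = h * q3 * q4 then
        1 / (2 * |(h : ℝ)|) * (16 * N * R1 * (M / (R0 * Q0 ^ 2))) else 0) +
      1 / (2 * |(h : ℝ)|) * (1 / (2 * |(h' : ℝ)|)) * (16 * N * R1 * η * Z) := by
  have hZ0 : 0 ≤ Z := le_trans zero_le_one H.hZ
  have hRS : ∀ r ∈ RS, 0 < r ∧ r ≤ R1 := fun r hr => ⟨Disp3_posR H hr, (H.hR r hr).2.2.2.1⟩
  split_ifs with hΔ
  · refine le_add_of_le_of_nonneg ?_ (by clear * - h h' N R1 η Z h0 h0' hN hη0 hZ0 H M N' Q0 R0 h1 h2 h3 h4 hN' hRS l; positivity)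
    refine (sum_le_card_nsmul _ _ (1 / (2 * |(h : ℝ)|) * (M / (R0 * Q0 ^ 2)) * (16 * N))
      fun r hr => ?_).trans ?_
    · have b1 := norm_gm_le H hr h1 h2 h0
      have b2 := norm_gm_le' H hr h3 h4 h'
      gcongr
      refine (norm_sum_le _ _).trans ((sum_le_card_nsmul _ _ (4 * 4) fun n _ => ?_).trans ?_)
      · have b3 := Disp3_osc_le H r h1 h2 h l n
        have b4 := Disp3_osc_le H r h3 h4 h' l n
        rw [norm_mul, Complex.norm_conj]
        gcongr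
      · have : (N' r : ℝ) ≤ N := by exact_mod_cast hN' r
        rw [Int.card_Ioc, add_sub_cancel_left, Int.toNat_natCast, nsmul_eq_mul]
        linarith only [this]
    · have := Disp3_card hRS
      rw [nsmul_eq_mul]
      calc _ ≤ R1 * (1 / (2 * |(h : ℝ)|) * (M / (R0 * Q0 ^ 2)) * (16 * N)) := by clear * - h M R0 Q0 N RS R1 this h0 hN; gcongr
        _ = _ := by ring
  rw [zero_add]
  by_cases hb : 2 * h.natAbs ≤ R1 * Q1 ^ 2 ∧ 2 * h'.natAbs ≤ R1 * Q1 ^ 2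
  · have hΔ' : h * q3 * q4 - h' * q1 * q2 ≠ 0 := fun e => hΔ (by linarith only [e])
    have hb2 : ∀ {k : ℤ} {p p' : ℕ}, 2 * k.natAbs ≤ R1 * Q1 ^ 2 → p ∈ QS → p' ∈ QS →
        2 * (k * p * p').natAbs ≤ R1 * Q1 ^ 4 := fun {k p p'} hk hp hp' => by
      have := Nat.mul_le_mul hk (Nat.mul_le_mul (H.hQ p hp).2.2.2.1 (H.hQ p' hp').2.2.2.1)
      rw [Int.natAbs_mul, Int.natAbs_mul, Int.natAbs_natCast, Int.natAbs_natCast]
      calc _ = 2 * k.natAbs * (p * p') := by ring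
        _ ≤ _ := this
        _ = _ := by ring
    have hτ := (H.hτ (h * q3 * q4 - h' * q1 * q2).natAbs (by
      have b1 := hb2 hb.1 h3 h4
      have b2 := hb2 hb.2 h1 h2
      have b3 := Int.natAbs_sub_le (h * q3 * q4) (h' * q1 * q2)
      omega)).1
    have hg := sum_gcd_RS_le RS hRS hΔ'
    calc _ ≤ ∑ r ∈ RS, 1 / (2 * |(h : ℝ)|) * (1 / (2 * |(h' : ℝ)|)) *
          (16 * η * N * Int.gcd (h * q3 * q4 - h' * q1 * q2) r) := sum_le_sum fun r hr => ?_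
      _ = 1 / (2 * |(h : ℝ)|) * (1 / (2 * |(h' : ℝ)|)) * (16 * η * N *
          ∑ r ∈ RS, (Int.gcd (h * q3 * q4 - h' * q1 * q2) r : ℝ)) := by rw [mul_sum, mul_sum]
      _ ≤ 1 / (2 * |(h : ℝ)|) * (1 / (2 * |(h' : ℝ)|)) * (16 * η * N * (R1 * Z)) := by
          clear * - h h' η N RS q3 q4 q1 q2 R1 Z hg hτ hη0 hN h0 h0'
          gcongr
          exact hg.trans (by gcongr)
      _ = _ := by ring
    by_cases g1 : gm M c r q1 q2 h = 0
    · rw [g1, norm_zero, zero_mul, zero_mul]; clear * - h h' η N q3 q4 q1 q2 r h0 h0' hη0 hN hΔ; positivity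
    by_cases g2 : gm M c r q3 q4 h' = 0
    · rw [g2, norm_zero, mul_zero, zero_mul]; clear * - h h' η N q3 q4 q1 q2 r h0 h0' hη0 hN hΔ; positivity
    have b1 := norm_gm_le H hr h1 h2 h0
    have b2 := norm_gm_le H hr h3 h4 h0'
    have d1 := Disp3_gm_ne H hr h1 h2 g1
    have d2 := Disp3_gm_ne H hr h3 h4 g2
    have b3 := osc_pair_le H hL hN hLQ hη0 hη hr h1 h2 h3 h4 d1.1 d1.2.1 d2.1 d2.2.1 h h' l (u r)
      (hN' r)
    clear * - M c r q1 q2 h q3 q4 h' u N' a l η N b1 b2 g2 h0 b3 h0'; gcongr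
  · refine le_trans (le_of_eq (sum_eq_zero fun r hr => ?_)) (by clear * - h h' N R1 η Z h0 h0' hN hη0 hZ0 H M c h1 h2 h3 h4 hb q1 q2 q3 q4; positivity)
    by_cases g1 : gm M c r q1 q2 h = 0
    · rw [g1, norm_zero, zero_mul, zero_mul]
    by_cases g2 : gm M c r q3 q4 h' = 0
    · rw [g2, norm_zero, mul_zero, zero_mul]
    exact absurd ⟨(Disp3_gm_ne H hr h1 h2 g1).2.2, (Disp3_gm_ne H hr h3 h4 g2).2.2⟩ hb

theorem sum_Psi_sq_le (H : DH RS QS a R0 R1 Q0 Q1 P0 M N Z β c) {L : ℕ} {η : ℝ} (hL : 0 < L)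
    (hN : 0 < N) (hLQ : L * Q1 ≤ N) (hη0 : 0 ≤ η)
    (hη : 16 ^ 16 * (1 / L + Z ^ 9 * (1 / √R0 + Z * √R1 / N)) ≤ η ^ 16) (l : ℤ) (u : ℕ → ℤ)
    (N' : ℕ → ℕ) (hN' : ∀ r, N' r ≤ N) :
    ∑ r ∈ RS, ∑ n ∈ Ioc (u r) (u r + N' r), ‖Psi QS a M (R1 * Q1 ^ 2) c r l n‖ ^ 2 ≤
      16 * N * R1 * (Q1 ^ 2 * Z ^ 3 * (M / (R0 * Q0 ^ 2)) + η * Q1 ^ 4 * Z ^ 3) := by
  have hZ0 : 0 ≤ Z := le_trans zero_le_one H.hZ
  set T : Finset ℤ := (Icc (-((R1 * Q1 ^ 2 : ℕ) : ℤ)) (R1 * Q1 ^ 2 : ℕ)).erase 0 with hT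
  obtain hQc : ((QS ×ˢ QS).card : ℝ) ≤ Q1 ^ 2 := by
    clear * - QS Q1 RS a R0 R1 Q0 P0 M N Z β c H
    have := Disp3_card fun q hq => (⟨Disp3_posQ H hq, (H.hQ q hq).2.2.2.1⟩ : 0 < q ∧ q ≤ Q1)
    rw [card_product, sq]
    push_cast
    gcongr
  obtain hw : ∑ h ∈ T, 1 / (2 * |(h : ℝ)|) ≤ Z := by
    have b1 := sum_inv_abs_le (R1 * Q1 ^ 2)
    obtain b2 : Q1 ^ 2 ≤ Q1 ^ 4 := by
      rw [show Q1 ^ 4 = Q1 ^ 2 * Q1 ^ 2 by ring]
      exact Nat.le_mul_self _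
    have b3 := Nat.mul_le_mul_left R1 b2
    linarith only [b1, H, b3, (H.hτ (R1 * Q1 ^ 2) (by omega)).2]
  obtain hw' : ∑ x ∈ (QS ×ˢ QS) ×ˢ T, 1 / (2 * |(x.2 : ℝ)|) ≤ Q1 ^ 2 * Z := by
    clear * - QS T Q1 Z hQc hw
    rw [sum_product]
    simp only [sum_const, nsmul_eq_mul]
    gcongr
  calc _ ≤ ∑ r ∈ RS, ∑ x ∈ (QS ×ˢ QS) ×ˢ T, ∑ y ∈ (QS ×ˢ QS) ×ˢ T,
        ‖gm M c r x.1.1 x.1.2 x.2‖ * ‖gm M c r y.1.1 y.1.2 y.2‖ * ‖∑ n ∈ Ioc (u r) (u r + N' r),
          osc a r x.1.1 x.1.2 x.2 l n * (starRingEnd ℂ) (osc a r y.1.1 y.1.2 y.2 l n)‖ := by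
        refine sum_le_sum fun r _ => le_trans (le_of_eq (sum_congr rfl fun n _ => ?_))
          (Disp3_expand _ _ (fun x : (ℕ × ℕ) × ℤ => gm M c r x.1.1 x.1.2 x.2)
            fun x n => osc a r x.1.1 x.1.2 x.2 l n)
        rw [sum_product, sum_product, Psi]
    _ ≤ ∑ x ∈ (QS ×ˢ QS) ×ˢ T, ∑ y ∈ (QS ×ˢ QS) ×ˢ T,
        ((if y.2 * x.1.1 * x.1.2 = x.2 * y.1.1 * y.1.2 then
          1 / (2 * |(x.2 : ℝ)|) * (16 * N * R1 * (M / (R0 * Q0 ^ 2))) else 0) +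
        1 / (2 * |(x.2 : ℝ)|) * (1 / (2 * |(y.2 : ℝ)|)) * (16 * N * R1 * η * Z)) := by
        rw [sum_comm]
        refine sum_le_sum fun x hx => ?_
        rw [sum_comm]
        refine sum_le_sum fun y hy => ?_
        obtain ⟨x1, x2⟩ := mem_product.1 hx
        obtain ⟨y1, y2⟩ := mem_product.1 hy
        exact Disp3_pair H hL hN hLQ hη0 hη l u N' hN' (mem_product.1 x1).1 (mem_product.1 x1).2
          (mem_product.1 y1).1 (mem_product.1 y1).2 (mem_erase.1 x2).1 (mem_erase.1 y2).1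
    _ ≤ Z * (Q1 ^ 2 * (Z ^ 2 * (16 * N * R1 * (M / (R0 * Q0 ^ 2))))) +
        Q1 ^ 2 * Z * (Q1 ^ 2 * Z) * (16 * N * R1 * η * Z) := by
        simp only [sum_add_distrib]
        refine add_le_add ?_ ?_
        · rw [Disp3_swap (QS ×ˢ QS) T fun p h p' h' => if h' * p.1 * p.2 = h * p'.1 * p'.2 then
            1 / (2 * |(h : ℝ)|) * (16 * N * R1 * (M / (R0 * Q0 ^ 2))) else 0]
          refine le_trans (sum_le_sum fun h hh => ?_) ((sum_mul _ _ _).symm.trans_le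
            (mul_le_mul_of_nonneg_right hw (by positivity)))
          refine (sum_le_card_nsmul _ _ (Z ^ 2 * (1 / (2 * |(h : ℝ)|) *
            (16 * N * R1 * (M / (R0 * Q0 ^ 2))))) fun p hp => ?_).trans ?_
          · obtain ⟨p1, p2⟩ := mem_product.1 hp
            obtain ⟨h0, hm⟩ := mem_erase.1 hh
            have n0 : h * p.1 * p.2 ≠ 0 := mul_ne_zero (mul_ne_zero h0
              (by exact_mod_cast (Disp3_posQ H p1).ne')) (by exact_mod_cast (Disp3_posQ H p2).ne')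
            have b1 := card_triple_le QS (fun q hq => Disp3_posQ H hq) T n0
            have b2 := (H.hτ (h * p.1 * p.2).natAbs (by
              obtain e1 : h.natAbs ≤ R1 * Q1 ^ 2 := by
                have := mem_Icc.1 hm
                omega
              have e2 := Nat.mul_le_mul (Nat.mul_le_mul e1 (H.hQ _ p1).2.2.2.1) (H.hQ _ p2).2.2.2.1
              rw [Int.natAbs_mul, Int.natAbs_mul, Int.natAbs_natCast, Int.natAbs_natCast]
              rw [show R1 * Q1 ^ 2 * Q1 * Q1 = R1 * Q1 ^ 4 by ring] at e2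
              omega)).1
            rw [← sum_filter, sum_const, nsmul_eq_mul]
            gcongr
            calc _ ≤ (((h * p.1 * p.2).natAbs.divisors.card ^ 2 : ℕ) : ℝ) := by exact_mod_cast b1
              _ ≤ Z ^ 2 := by clear * - h p Z b2; push_cast; gcongr
          · rw [nsmul_eq_mul]
            calc _ ≤ Q1 ^ 2 * (Z ^ 2 * (1 / (2 * |(h : ℝ)|) *
                (16 * N * R1 * (M / (R0 * Q0 ^ 2))))) := by clear * - Z h N R1 M R0 Q0 QS Q1 hQc hN; gcongr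
              _ = _ := by ring
        · simp only [← sum_mul, ← mul_sum]
          clear * - N R1 η Z QS T Q1 hw' hZ0 hN hη0; gcongr
    _ = _ := by ring

theorem T1_le (H : DH RS QS a R0 R1 Q0 Q1 P0 M N Z β c) {L : ℕ} {η : ℝ} (hL : 0 < L)
    (hN : 0 < N) (hLQ : L * Q1 ≤ N) (hη0 : 0 ≤ η)
    (hη : 16 ^ 16 * (1 / L + Z ^ 9 * (1 / √R0 + Z * √R1 / N)) ≤ η ^ 16) :
    ‖T1 RS QS a M N β c‖ ^ 2 ≤ (8 * R1 * (N / R0) * N) ^ 2 *
      (Q1 ^ 2 * Z ^ 3 * (M / (R0 * Q0 ^ 2)) + η * Q1 ^ 4 * Z ^ 3) := by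
  have hZ0 : 0 ≤ Z := le_trans zero_le_one H.hZ
  set Ls : Finset ℤ := (Icc (-((N / R0 : ℕ) : ℤ)) (N / R0 : ℕ)).erase 0 with hLs
  set E : ℝ := Q1 ^ 2 * Z ^ 3 * (M / (R0 * Q0 ^ 2)) + η * Q1 ^ 4 * Z ^ 3 with hE
  have hE0 : 0 ≤ E := by positivity
  have hc : (Ls.card : ℝ) ≤ 2 * (N / R0) := by
    have e : Ls.card = 2 * (N / R0) := by
      rw [hLs]
      generalize N / R0 = K
      rw [card_erase_of_mem (mem_Icc.2 (by omega)), Int.card_Icc]
      omega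
    have := Nat.cast_div_le (α := ℝ) (m := N) (n := R0)
    rw [e]
    push_cast
    linarith only [this]
  have hR := Disp3_card fun r hr => (⟨Disp3_posR H hr, (H.hR r hr).2.2.2.1⟩ : 0 < r ∧ r ≤ R1)
  have h1 : ‖T1 RS QS a M N β c‖ ≤ ∑ x ∈ (Ls ×ˢ RS) ×ˢ range N,
      ‖Psi QS a M (R1 * Q1 ^ 2) c x.1.2 x.1.1 x.2‖ := by
    clear * - RS QS a M N β c Ls R1 Q1 R0 Q0 P0 Z H
    rw [T1_eq H, sum_comm, sum_product, sum_product]
    refine (norm_sum_le _ _).trans (sum_le_sum fun l _ => (norm_sum_le _ _).trans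
      (sum_le_sum fun r _ => (norm_sum_le _ _).trans (sum_le_sum fun n _ => ?_)))
    have b1 := H.hβ n
    have b2 : ‖bz N β (n + l * r)‖ ≤ 1 := by
      unfold bz
      split_ifs
      · exact H.hβ _
      · simp
    rw [norm_mul, norm_mul, Complex.norm_conj]
    calc _ ≤ 1 * 1 * ‖Psi QS a M (R1 * Q1 ^ 2) c r l n‖ := by gcongr
      _ = _ := by ring
  have h2 : ∑ x ∈ (Ls ×ˢ RS) ×ˢ range N, ‖Psi QS a M (R1 * Q1 ^ 2) c x.1.2 x.1.1 x.2‖ ^ 2 ≤
      2 * (N / R0) * (16 * N * R1 * E) := by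
    rw [sum_product, sum_product]
    refine (sum_le_card_nsmul _ _ (16 * N * R1 * E) fun l _ => ?_).trans
      (by clear * - Ls N R1 E R0 hc hN Q1 Z M Q0 η hZ0 hη0; rw [nsmul_eq_mul]; gcongr)
    refine le_trans (le_of_eq (sum_congr rfl fun r _ => ?_))
      (sum_Psi_sq_le H hL hN hLQ hη0 hη l (fun _ => -1) (fun _ => N) fun _ => le_rfl)
    refine sum_bij (fun n _ => (n : ℤ)) (fun n hn => ?_) (fun n _ m _ e => by exact_mod_cast e)
      (fun m hm => ⟨m.toNat, ?_, ?_⟩) fun _ _ => rfl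
    · have := mem_range.1 hn
      exact mem_Ioc.2 (by omega)
    · have := mem_Ioc.1 hm
      exact mem_range.2 (by omega)
    · have := mem_Ioc.1 hm
      omega
  have h3 : (((Ls ×ˢ RS) ×ˢ range N).card : ℝ) ≤ 2 * (N / R0) * R1 * N := by
    clear * - Ls RS N R0 R1 hc hR hN
    rw [card_product, card_product, card_range]
    push_cast
    gcongr
  calc _ ≤ (∑ x ∈ (Ls ×ˢ RS) ×ˢ range N, ‖Psi QS a M (R1 * Q1 ^ 2) c x.1.2 x.1.1 x.2‖) ^ 2 := by
        gcongr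
    _ ≤ _ := sq_sum_le_card_mul_sum_sq
    _ ≤ 2 * (N / R0) * R1 * N * (2 * (N / R0) * (16 * N * R1 * E)) := by clear * - Ls RS N R0 R1 QS a M Q1 c E h3 h2 hN; gcongr
    _ = _ := by ring

end Pool.Agent.Work.MP_5d318d_nt.Zh
end
end

-- merged part: Pool.Agent.Work.MP_5d318d_nt.Z.Disp
section
/-!
# The dispersion estimate

PLAN.
* `disp_split`: `normSq_sum_eq` (or `Complex.mul_conj`) expands `‖VV‖ ^ 2` into the terms `trm`; split the sum over
  `n2` into `n2 = n1` and `n2 ≠ n1` (`add_sum_erase`), the sum over `q2` by `sum_filter_add_sum_filter_not`; take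
  real parts or norms.
* `disp`: the sum equals `∑ r, ∑ m, α m * VV r m`; Cauchy-Schwarz over `RS ×ˢ range M`, `RS.card ≤ R1`; `TD_le`,
  `T0_le`, `T1_le`, `√(x + y) ≤ √x + √y`.
* `disp_cut`: write `|x| = sign * x`, absorb the sign and the indicator of `r.Coprime q` in
  `c r q`; `cut_eq` turns the cut into `∑ h, cutCoef N h * (ee ..) * conj (ee ..)`; apply the hypothesis to the twisted
  sequences; `sum_norm_cutCoef_le`.
-/

noncomputable section

open Finset Real ArithmeticFunction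

namespace Pool.Agent.Work.MP_5d318d_nt.Zh

open Pool.Agent.Lib.LargeSieve Pool.Agent.Lib.ANT

variable {RS QS : Finset ℕ} {a : ℤ} {R0 R1 Q0 Q1 P0 M N : ℕ} {Z : ℝ} {β : ℕ → ℂ}
  {c : ℕ → ℕ → ℂ}

theorem Disp_sq (QS : Finset ℕ) (a : ℤ) (N : ℕ) (β : ℕ → ℂ) (c : ℕ → ℕ → ℂ) (r m : ℕ) :
    ((‖VV QS a N β c r m‖ ^ 2 : ℝ) : ℂ) =
      ∑ n ∈ range N, ∑ q1 ∈ QS, ∑ q2 ∈ QS, trm a β c r m n n q1 q2 +
      ∑ n1 ∈ range N, ∑ n2 ∈ (range N).erase n1, ∑ q1 ∈ QS,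
        ∑ q2 ∈ QS.filter (fun q2 => ¬ q1.Coprime q2), trm a β c r m n1 n2 q1 q2 +
      ∑ n1 ∈ range N, ∑ n2 ∈ (range N).erase n1, ∑ q1 ∈ QS,
        ∑ q2 ∈ QS.filter (fun q2 => q1.Coprime q2), trm a β c r m n1 n2 q1 q2 := by
  rw [VV, sum_comm, normSq_sum_eq, ← sum_add_distrib, ← sum_add_distrib]
  refine sum_congr rfl fun n1 h1 => ?_
  have e : ∀ n2, (∑ q ∈ QS, c r q * β n1 * (kr r q a ((m : ℤ) * n1) : ℝ)) *
      (starRingEnd ℂ) (∑ q ∈ QS, c r q * β n2 * (kr r q a ((m : ℤ) * (n2 : ℕ)) : ℝ)) =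
      ∑ q1 ∈ QS, ∑ q2 ∈ QS, trm a β c r m n1 n2 q1 q2 := fun n2 => by
    rw [map_sum, sum_mul_sum]
    refine sum_congr rfl fun q1 _ => sum_congr rfl fun q2 _ => ?_
    simp only [trm, map_mul, Complex.conj_ofReal, Complex.ofReal_mul]
    ring
  rw [sum_congr rfl fun n2 _ => e n2, ← add_sum_erase _ _ h1, add_assoc, ← sum_add_distrib]
  refine congrArg _ (sum_congr rfl fun n2 _ => ?_)
  rw [← sum_add_distrib]
  exact sum_congr rfl fun q1 _ => by rw [add_comm, sum_filter_add_sum_filter_not]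

theorem disp_split (RS QS : Finset ℕ) (a : ℤ) (M N : ℕ) (β : ℕ → ℂ) (c : ℕ → ℕ → ℂ) :
    ∑ r ∈ RS, ∑ m ∈ range M, ‖VV QS a N β c r m‖ ^ 2 ≤
      TD RS QS a M N β c + T0 RS QS a M N β c + ‖T1 RS QS a M N β c‖ := by
  refine (le_abs_self _).trans ?_
  rw [← Real.norm_eq_abs, ← Complex.norm_real]
  simp only [Complex.ofReal_sum, Disp_sq, sum_add_distrib]
  refine (norm_add₃_le).trans (add_le_add (add_le_add ?_ ?_) le_rfl)
  · iterate 4 refine norm_sum_le_of_le _ fun _ _ => ?_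
    exact norm_sum_le _ _
  · iterate 5 refine norm_sum_le_of_le _ fun _ _ => ?_
    exact norm_sum_le _ _

theorem disp (H : DH RS QS a R0 R1 Q0 Q1 P0 M N Z β c) {L : ℕ} {η : ℝ} (hL : 0 < L)
    (hN : 0 < N) (hLQ : L * Q1 ≤ N) (hη0 : 0 ≤ η)
    (hη : 16 ^ 16 * (1 / L + Z ^ 9 * (1 / √R0 + Z * √R1 / N)) ≤ η ^ 16) (α : ℕ → ℂ)
    (hα : ∀ m, ‖α m‖ ≤ 1) :
    ‖∑ r ∈ RS, ∑ q ∈ QS, c r q * ∑ m ∈ range M, ∑ n ∈ range N,
        α m * β n * (kr r q a ((m : ℤ) * n) : ℝ)‖ ^ 2 ≤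
      R1 * M * (4 * Z ^ 5 * (M * N) + 8 * Z ^ 6 * (M * N) * (N / R0) / P0 +
        8 * R1 * (N / R0) * N *
          (Q1 * √(Z ^ 3 * (M / (R0 * Q0 ^ 2))) + Q1 ^ 2 * √(Z ^ 3 * η))) := by
  have e : ∑ r ∈ RS, ∑ q ∈ QS, c r q * ∑ m ∈ range M, ∑ n ∈ range N,
      α m * β n * (kr r q a ((m : ℤ) * n) : ℝ) =
      ∑ x ∈ RS ×ˢ range M, α x.2 * VV QS a N β c x.1 x.2 := by
    rw [sum_product]
    refine sum_congr rfl fun r _ => ?_
    simp only [VV, mul_sum]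
    rw [sum_comm]
    exact sum_congr rfl fun m _ => sum_congr rfl fun q _ => sum_congr rfl fun n _ => by ring
  have h1 : ‖∑ x ∈ RS ×ˢ range M, α x.2 * VV QS a N β c x.1 x.2‖ ≤
      ∑ x ∈ RS ×ˢ range M, ‖VV QS a N β c x.1 x.2‖ := norm_sum_le_of_le _ fun x _ => by
    rw [norm_mul]
    exact mul_le_of_le_one_left (norm_nonneg _) (hα _)
  have h2 : RS.card ≤ R1 := by
    simpa using card_le_card (show RS ⊆ Icc 1 R1 from fun r hr =>
      mem_Icc.2 ⟨H.hR0.trans_le (H.hR r hr).2.2.1, (H.hR r hr).2.2.2.1⟩)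
  have hZ : 0 ≤ Z := zero_le_one.trans H.hZ
  have h3 : ‖T1 RS QS a M N β c‖ ≤ 8 * R1 * (N / R0) * N *
      (Q1 * √(Z ^ 3 * (M / (R0 * Q0 ^ 2))) + Q1 ^ 2 * √(Z ^ 3 * η)) := by
    refine le_of_sq_le_sq ((T1_le H hL hN hLQ hη0 hη).trans ?_) (by positivity)
    rw [mul_pow _ (_ + _), add_sq, mul_pow (Q1 : ℝ), mul_pow ((Q1 : ℝ) ^ 2),
      Real.sq_sqrt (by positivity), Real.sq_sqrt (by positivity)]
    refine mul_le_mul_of_nonneg_left ?_ (by positivity)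
    have : (0 : ℝ) ≤ 2 * (Q1 * √(Z ^ 3 * (M / (R0 * Q0 ^ 2)))) * (Q1 ^ 2 * √(Z ^ 3 * η)) := by
      positivity
    linarith only [this]
  rw [e]
  refine (pow_le_pow_left₀ (norm_nonneg _) h1 2).trans (sq_sum_le_card_mul_sum_sq.trans ?_)
  rw [card_product, card_range, sum_product]
  refine mul_le_mul ?_ ((disp_split RS QS a M N β c).trans
    (add_le_add (add_le_add (TD_le H) (T0_le H)) h3)) (by positivity) (by positivity)
  exact_mod_cast Nat.mul_le_mul_right M h2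

theorem disp_cut (RS QS : Finset ℕ) (a : ℤ) (M : ℕ) {N : ℕ} (hN : 0 < N) (α β : ℕ → ℝ)
    (hα : ∀ m, |α m| ≤ 1) (hβ : ∀ n, |β n| ≤ 1) (g : ℕ → ℕ) (hg : ∀ m, g m < N) {B : ℝ}
    (hB : ∀ (α' β' : ℕ → ℂ) (c : ℕ → ℕ → ℂ), (∀ m, ‖α' m‖ ≤ 1) → (∀ n, ‖β' n‖ ≤ 1) →
      (∀ n, β' n ≠ 0 → β n ≠ 0) → (∀ r q, ‖c r q‖ ≤ 1) → (∀ r q, c r q ≠ 0 → r.Coprime q) →
      ‖∑ r ∈ RS, ∑ q ∈ QS, c r q * ∑ m ∈ range M, ∑ n ∈ range N,
        α' m * β' n * (kr r q a ((m : ℤ) * n) : ℝ)‖ ≤ B) :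
    ∑ r ∈ RS, ∑ q ∈ QS.filter (fun q => r.Coprime q), |BX M N α β g (kr r q a)| ≤
      (1 + HH (2 * N)) * B := by
  set A : ℕ → ℕ → ℂ := fun h m => α m * ee (h * ((g m : ℝ) / (2 * N : ℕ))) with hA
  set Bt : ℕ → ℕ → ℂ := fun h n => β n * (starRingEnd ℂ) (ee (h * ((n : ℝ) / (2 * N : ℕ))))
    with hBt
  set s : ℕ → ℕ → ℝ := fun r q =>
    if r.Coprime q then (SignType.sign (BX M N α β g (kr r q a)) : ℝ) else 0 with hs
  have e1 : ∀ κ : ℤ → ℝ, (BX M N α β g κ : ℂ) = ∑ h ∈ range (2 * N), cutCoef N h *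
      ∑ m ∈ range M, ∑ n ∈ range N, A h m * Bt h n * (κ ((m : ℤ) * n) : ℝ) := fun κ => by
    simp only [BX, Complex.ofReal_sum, mul_sum]
    rw [sum_comm (s := range (2 * N))]
    refine sum_congr rfl fun m _ => ?_
    rw [sum_comm (s := range (2 * N))]
    refine sum_congr rfl fun n hn => ?_
    calc _ = (if n ≤ g m then (1 : ℂ) else 0) * (α m * β n * (κ ((m : ℤ) * n) : ℝ)) := by
          split_ifs <;> simp
      _ = _ := by
          rw [cut_eq (mem_range.1 hn) (hg m), sum_mul]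
          exact sum_congr rfl fun h _ => by simp only [hA, hBt]; ring
  have e2 : ((∑ r ∈ RS, ∑ q ∈ QS.filter (fun q => r.Coprime q), |BX M N α β g (kr r q a)| : ℝ) : ℂ)
      = ∑ h ∈ range (2 * N), cutCoef N h * ∑ r ∈ RS, ∑ q ∈ QS, (s r q : ℂ) *
        ∑ m ∈ range M, ∑ n ∈ range N, A h m * Bt h n * (kr r q a ((m : ℤ) * n) : ℝ) := by
    simp only [Complex.ofReal_sum, sum_filter, mul_sum (s := RS), mul_sum (s := QS)]
    rw [sum_comm (s := range (2 * N))]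
    refine sum_congr rfl fun r _ => ?_
    rw [sum_comm (s := range (2 * N))]
    refine sum_congr rfl fun q _ => ?_
    calc _ = (s r q : ℂ) * (BX M N α β g (kr r q a) : ℂ) := by
          rw [← Complex.ofReal_mul, hs]
          beta_reduce
          split_ifs
          exacts [by rw [sign_mul_self], by rw [zero_mul]]
      _ = _ := by
          rw [e1, mul_sum]
          exact sum_congr rfl fun h _ => mul_left_comm _ _ _
  have k : ∀ h, ‖∑ r ∈ RS, ∑ q ∈ QS, (s r q : ℂ) * ∑ m ∈ range M, ∑ n ∈ range N,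
      A h m * Bt h n * (kr r q a ((m : ℤ) * n) : ℝ)‖ ≤ B := fun h =>
    hB _ _ _ (fun m => by simpa [hA] using hα m) (fun n => by simpa [hBt] using hβ n)
      (fun n hn e => hn (by simp [hBt, e])) (fun r q => by
        rw [Complex.norm_real, hs]
        beta_reduce
        split_ifs
        · generalize SignType.sign (BX M N α β g (kr r q a)) = t
          cases t <;> simp
        · simp) fun r q hc => by_contra fun e => hc (by simp [hs, e])
  refine (le_abs_self _).trans ?_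
  rw [← Real.norm_eq_abs, ← Complex.norm_real, e2]
  refine (norm_sum_le_of_le _ fun h _ => (norm_mul _ _).trans_le
    (mul_le_mul_of_nonneg_left (k h) (norm_nonneg _))).trans ?_
  rw [← sum_mul]
  exact mul_le_mul_of_nonneg_right (sum_norm_cutCoef_le hN) ((norm_nonneg _).trans (k 0))

end Pool.Agent.Work.MP_5d318d_nt.Zh
end
end
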