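import Pool.Agent.Lib.ANT.PNTError
import Pool.Agent.Work.MP_5d318d_nt.Z.Disp

-- merged part: Pool.Agent.Work.MP_5d318d_nt.Z.Mu0
section
/-!
# The sum of the Möbius function with a logarithmic power saving
-/

noncomputable section

open Finset Complex Filter Topology ArithmeticFunction

namespace Pool.Agent.Work.MP_5d318d_nt.Zh.Mu0

open MeasureTheory Pool.Agent.Lib.ANT Pool.Agent.Lib.ANT.PNTError

/-- The coefficients `μ(n)`. -/
def cm (n : ℕ) : ℂ := (moebius n : ℂ)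

/-- The continuation of `1 / ζ(s)`. -/
def FM (s : ℂ) : ℂ := (s - 1) / riemannZeta₁ s

lemma summable_cm {s : ℂ} (hs : 1 < s.re) : LSeriesSummable cm s :=
  LSeriesSummable_moebius_iff.2 hs

lemma LSeries_cm {s : ℂ} (hs : 1 < s.re) : LSeries cm s = FM s := by
  have hs1 : s ≠ 1 := fun h => by rw [h] at hs; simp at hs
  have h1 := sub_ne_zero.2 hs1
  have h2 := zeta₁_ne_zero hs
  have h3 := LSeries_zeta_mul_Lseries_moebius hs
  rw [LSeries_zeta_eq_riemannZeta hs, riemannZeta_eq_inv_sub_mul hs1] at h3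
  have h4 : LSeries cm s = LSeries (fun n => (moebius n : ℂ)) s := rfl
  rw [h4, FM, eq_div_iff h2]
  field_simp at h3
  linear_combination h3

lemma differentiableAt_FM {s : ℂ} (h : riemannZeta₁ s ≠ 0) : DifferentiableAt ℂ FM s :=
  (differentiableAt_id.sub_const 1).div (differentiable_riemannZeta₁ s) h

lemma norm_cm_one (n : ℕ) : ‖cm n‖ ≤ 1 := by
  rw [cm, norm_intCast]
  exact_mod_cast abs_moebius_le_one

lemma norm_cm_le {n : ℕ} {B : ℝ} (h1 : 1 ≤ B) (_h2 : Real.log n ≤ B) : ‖cm n‖ ≤ B :=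
  (norm_cm_one n).trans h1

lemma norm_LSeries_cm_le {ε : ℝ} (hε : 0 < ε) (hε1 : ε ≤ 1) {s : ℂ} (hs : s.re = 1 + 2 * ε) :
    ‖LSeries cm s‖ ≤ (1 + 1 / ε) / ε := by
  have hsum := summable_cm (s := s) (by linarith only [hε, hs])
  have h := (hasSum_nat_add_iff' 1).2 hsum.hasSum
  simp only [range_one, sum_singleton, LSeries.term_zero, sub_zero] at h
  refine le_of_tendsto' ((tendsto_add_atTop_iff_nat 1).2 h.tendsto_sum_nat).norm fun M => ?_
  refine (norm_sum_le _ _).trans ?_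
  refine le_trans (sum_le_sum (g := fun n => ((n + 1 : ℕ) : ℝ) ^ (-ε - 1) / ε) fun n _ => ?_) ?_
  · have hn : (0 : ℝ) < (n + 1 : ℕ) := by positivity
    rw [LSeries.norm_term_eq, if_neg (Nat.succ_ne_zero _), hs, div_le_iff₀ (by positivity)]
    refine (norm_cm_le ?_ (Real.log_le_rpow_div hn.le hε)).trans_eq ?_
    · rw [le_div_iff₀ hε, one_mul]
      exact hε1.trans (Real.one_le_rpow (by exact_mod_cast Nat.succ_pos _) hε.le)
    · rw [div_mul_eq_mul_div, ← Real.rpow_add hn]; congr 2; ring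
  · rw [← sum_div, sum_range_succ']
    have := sum_rpow_tail_le hε one_pos M
    simp only [Nat.cast_one, Real.one_rpow, zero_add] at this ⊢
    exact div_le_div_of_nonneg_right (by linarith only [this]) hε.le

lemma FM_le {N : ℕ} (hN : 2 ≤ Real.log N) {M T : ℝ} (hM1 : 24 * Real.log N ^ 2 ≤ M)
    (hM : 1000 ≤ M) (hq : 6 + 4 * T ≤ N) {s : ℂ} (hs : |s.re - 1| ≤ 1 / M ^ 12)
    (ht : |s.im| ≤ T) : riemannZeta₁ s ≠ 0 ∧ ‖FM s‖ ≤ M ^ 16 := by
  have b1 := zero_free_zeta hN hM1 hM hq hs ht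
  have hM' : 1 ≤ M := by linarith only [hM]
  have b0 : 0 < (1 + ‖s - 1‖) / M ^ 14 := by positivity
  refine ⟨norm_pos_iff.1 (b0.trans_le b1), ?_⟩
  rw [FM, norm_div]
  calc ‖s - 1‖ / ‖riemannZeta₁ s‖ ≤ (1 + ‖s - 1‖) / ((1 + ‖s - 1‖) / M ^ 14) := by
        gcongr; linarith only []
    _ = M ^ 14 := by field_simp
    _ ≤ M ^ 16 := pow_le_pow_right₀ hM' (by norm_num)

/-- Cesàro means of the Möbius function. -/
theorem cesaro_mu {δ B T : ℝ} (hδ0 : 0 < δ) (hδ4 : δ ≤ 1 / 4) (hT : 1 ≤ T) (hB : 0 ≤ B)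
    (hR : ∀ s : ℂ, |s.re - 1| ≤ δ → |s.im| ≤ T → riemannZeta₁ s ≠ 0 ∧ ‖FM s‖ ≤ B)
    {y : ℝ} (hy : 0 < y) (hyM : 1 / δ ≤ Real.log y) {K : ℕ} (hK : y ≤ K) :
    ‖∑ n ∈ range K, cm n * ((max (1 - n / y) 0 : ℝ) : ℂ)‖
      ≤ y * (T * B * y ^ (-δ) + B / T ^ 2 + 6 * Real.log y ^ 2 / T) := by
  set l := Real.log y with hl
  have hl1 : 1 ≤ l := by
    have : 4 ≤ 1 / δ := by rw [le_div_iff₀ hδ0]; linarith only [hδ4]
    linarith only [hδ0, hδ4, hyM, this]
  set c : ℝ := 1 + 1 / l with hc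
  have hlδ : 1 / l ≤ δ := (one_div_le hδ0 (by linarith only [hδ0, hδ4, hl1])).1 hyM
  have hc1 : 1 < c := by
    have : 0 < 1 / l := by positivity
    linarith only [this]
  have hy1 : 1 ≤ y := by
    by_contra h; linarith only [hδ0, hδ4, hl1, hy, h, Real.log_nonpos hy.le (not_le.1 h).le]
  have hyc : y ^ c ≤ 3 * y := by
    rw [hc, Real.rpow_add hy, Real.rpow_one, mul_comm]
    refine mul_le_mul_of_nonneg_right ?_ hy.le
    rw [Real.rpow_def_of_pos hy, ← hl, mul_one_div_cancel (by linarith only [hδ0, hδ4, hl1])]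
    linarith only [hδ0, hδ4, Real.exp_one_lt_d9]
  have hy' : (y : ℂ) ≠ 0 := by exact_mod_cast hy.ne'
  set G : ℂ → ℂ := fun s => FM s * ((y : ℂ) ^ s * (1 / (s * (s + 1)))) with hG
  have hGe : ∀ t : ℝ, LSeries cm (c + t * I) = FM (c + t * I) := fun t =>
    LSeries_cm (by simpa using hc1)
  have hP := perron (a := cm) (by simp [cm]) hc1.le (summable_cm (by simpa using hc1)) hy
  simp_rw [hGe] at hP
  have hP2 := hP.unique (hasSum_sum_of_ne_finset_zero (s := range K) fun n hn => by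
    have : (K : ℝ) ≤ n := by exact_mod_cast not_lt.1 (mem_range.not.1 hn)
    have : 1 ≤ n / y := by rw [le_div_iff₀ hy]; linarith only [hK, this]
    rw [max_eq_right (by linarith only [this])]; simp)
  rw [← mul_sum] at hP2
  have hS : ∀ t : ℝ, ‖FM (c + t * I)‖ ≤ 6 * l ^ 2 := by
    intro t
    rw [← hGe]
    refine (norm_LSeries_cm_le (ε := 1 / (2 * l)) (by positivity) ?_ ?_).trans ?_
    · rw [div_le_one (by positivity)]; linarith only [hδ0, hδ4, hl1]
    · simp only [add_re, ofReal_re, mul_re, I_re, mul_zero, ofReal_im, I_im, mul_one, sub_self,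
        add_zero, hc]; field_simp
    · rw [one_div_one_div, div_div_eq_mul_div, div_one]; linarith only [hl1, mul_nonneg_of_nonpos_of_nonpos (Mathlib.Tactic.Linarith.sub_nonpos_of_le hl1) (Mathlib.Tactic.Linarith.sub_nonpos_of_le hl1)]
  have hGc : ∀ t : ℝ, ‖G (c + t * I)‖ ≤ 18 * y * l ^ 2 * (1 + t ^ 2)⁻¹ := fun t => by
    rw [hG, norm_mul, norm_mul, norm_cpow_eq_rpow_re_of_pos hy,
      show (c + t * I : ℂ).re = c by simp]
    calc _ ≤ 6 * l ^ 2 * (3 * y * (1 + t ^ 2)⁻¹) := by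
          gcongr
          · exact hS t
          · exact norm_kernel_le hc1.le t
      _ = _ := by ring
  have hGi : Integrable fun t : ℝ => G (c + t * I) := by
    refine (integrable_inv_one_add_sq.const_mul _).mono' (Continuous.aestronglyMeasurable ?_)
      (Eventually.of_forall hGc)
    have h0 : Continuous fun t : ℝ => (c + t * I : ℂ) := by fun_prop
    have hF : Continuous fun t : ℝ => FM (c + t * I) := continuous_iff_continuousAt.2 fun t =>
      (differentiableAt_FM (zeta₁_ne_zero (by simpa using hc1))).continuousAt.comp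
        (f := fun t : ℝ => (c + t * I : ℂ)) h0.continuousAt
    exact hF.mul ((h0.const_cpow (Or.inl hy')).mul (continuous_const.div (by fun_prop)
        (kernel_ne_zero (by linarith only [hδ0, hδ4, hc1]))))
  have h1 := norm_integral_sub_le hGi (C := 18 * y * l ^ 2) (T := T) (by linarith only [hδ0, hδ4, hT]) fun t ht =>
    (hGc t).trans (by
      have : 0 < |t| := by linarith only [hδ0, hδ4, hT, ht]
      have : 0 < t ^ 2 := by rw [← sq_abs]; positivity
      gcongr; linarith only [hδ0, hδ4])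
  have hR' : ∀ s : ℂ, 1 - δ ≤ s.re → s.re ≤ c → |s.im| ≤ T →
      riemannZeta₁ s ≠ 0 ∧ ‖FM s‖ ≤ B := fun s a1 a2 a3 =>
    hR s (by rw [abs_le]; constructor <;> linarith only [a1, hlδ, a2]) a3
  have hne : ∀ s : ℂ, 1 - δ ≤ s.re → s * (s + 1) ≠ 0 := fun s hs => by
    refine mul_ne_zero (fun h => ?_) (fun h => ?_) <;> have := congrArg re h <;> simp at this <;>
      linarith only [hδ0, hδ4, hs, this]
  have hC := integral_boundary_rect_eq_zero_of_differentiableOn G ⟨1 - δ, -T⟩ ⟨c, T⟩ (by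
    intro s hs
    rw [mem_reProdIm, Set.uIcc_of_le (by simp; linarith only [hδ0, hc1]), Set.uIcc_of_le (by simp; linarith only [hδ0, hδ4, hT])] at hs
    obtain ⟨⟨a1, a2⟩, a3⟩ := hs
    refine DifferentiableAt.differentiableWithinAt ?_
    exact (differentiableAt_FM (hR' s a1 a2 (abs_le.2 a3)).1).mul
      ((differentiableAt_id.const_cpow (Or.inl hy')).mul
        ((differentiableAt_const _).div (by fun_prop) (hne s a1))))
  simp only at hC
  have hH : ∀ u : ℝ, |u| = T → ‖∫ x : ℝ in (1 - δ)..c, G (x + u * I)‖ ≤ 3 * (y * (B / T ^ 2)) := by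
    intro u hu
    refine (intervalIntegral.norm_integral_le_of_norm_le_const (C := B * (3 * y * (1 / T ^ 2)))
      fun x hx => ?_).trans ?_
    · rw [Set.uIoc_of_le (by linarith only [hδ0, hc1])] at hx
      rw [hG, norm_mul, norm_mul, norm_cpow_eq_rpow_re_of_pos hy,
        show (x + u * I : ℂ).re = x by simp]
      gcongr
      · exact (hR' _ (by simpa using hx.1.le) (by simpa using hx.2) (by simpa using hu.le)).2
      · exact (Real.rpow_le_rpow_of_exponent_le hy1 hx.2).trans hyc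
      · rw [norm_div, norm_one, norm_mul]
        have a1 := abs_im_le_norm (x + u * I : ℂ)
        have a2 := abs_im_le_norm (x + u * I + 1 : ℂ)
        simp only [add_im, ofReal_im, mul_im, ofReal_re, I_im, mul_one, I_re, mul_zero, add_zero,
          zero_add, one_im, hu] at a1 a2
        rw [sq]; gcongr
    · rw [abs_of_nonneg (by linarith only [hδ0, hc1])]
      calc _ ≤ B * (3 * y * (1 / T ^ 2)) * 1 := by gcongr; linarith only [hδ0, hδ4, hlδ]
        _ = _ := by ring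
  have hV : ‖∫ t : ℝ in (-T)..T, G ((1 - δ : ℝ) + t * I)‖ ≤ B * (y * y ^ (-δ)) * (2 * T) := by
    refine (intervalIntegral.norm_integral_le_of_norm_le_const (C := B * (y * y ^ (-δ) * 1))
      fun t ht => ?_).trans ?_
    · rw [Set.uIoc_of_le (by linarith only [hδ0, hδ4, hT])] at ht
      rw [hG, norm_mul, norm_mul, norm_cpow_eq_rpow_re_of_pos hy,
        show ((1 - δ : ℝ) + t * I : ℂ).re = 1 + -δ by simp; ring, Real.rpow_add hy, Real.rpow_one]
      gcongr
      · exact (hR' _ (by simp) (by simp; linarith only [hδ0, hc1]) (by simpa using abs_le.2 ⟨ht.1.le, ht.2⟩)).2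
      · rw [norm_div, norm_one, norm_mul]
        have a1 := re_le_norm ((1 - δ : ℝ) + t * I : ℂ)
        have a2 := re_le_norm ((1 - δ : ℝ) + t * I + 1 : ℂ)
        simp only [add_re, ofReal_re, mul_re, I_re, mul_zero, ofReal_im, I_im, mul_one, sub_self,
          add_zero, one_re] at a1 a2
        rw [div_le_one (by linarith only [hδ4, a1, a2, hδ0, mul_pos_of_neg_of_neg (Mathlib.Tactic.Linarith.sub_neg_of_lt hδ0) (Mathlib.Tactic.Linarith.sub_neg_of_lt hδ0), mul_nonneg_of_nonpos_of_nonpos (le_of_lt (Mathlib.Tactic.Linarith.sub_neg_of_lt hδ0)) (Mathlib.Tactic.Linarith.sub_nonpos_of_le hδ4), mul_nonneg_of_nonpos_of_nonpos (Mathlib.Tactic.Linarith.sub_nonpos_of_le hδ4) (Mathlib.Tactic.Linarith.sub_nonpos_of_le a1), mul_nonneg_of_nonpos_of_nonpos (Mathlib.Tactic.Linarith.sub_nonpos_of_le hδ4) (Mathlib.Tactic.Linarith.sub_nonpos_of_le a2), mul_nonneg_of_nonpos_of_nonpos (Mathlib.Tactic.Linarith.sub_nonpos_of_le a1) (Mathlib.Tactic.Linarith.sub_nonpos_of_le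 a2)])]
        (refine le_of_not_gt fun h_nl => ?_; linarith only [h_nl, hδ4, a1, a2, hδ0, mul_pos_of_neg_of_neg (Mathlib.Tactic.Linarith.sub_neg_of_lt hδ0) (Mathlib.Tactic.Linarith.sub_neg_of_lt hδ0), mul_nonneg_of_nonpos_of_nonpos (le_of_lt (Mathlib.Tactic.Linarith.sub_neg_of_lt hδ0)) (Mathlib.Tactic.Linarith.sub_nonpos_of_le hδ4), mul_pos_of_neg_of_neg (Mathlib.Tactic.Linarith.sub_neg_of_lt hδ0) (Mathlib.Tactic.Linarith.sub_neg_of_lt h_nl), mul_nonneg_of_nonpos_of_nonpos (Mathlib.Tactic.Linarith.sub_nonpos_of_le hδ4) (Mathlib.Tactic.Linarith.sub_nonpos_of_le a1), mul_nonneg_of_nonpos_of_nonpos (Mathlib.Tactic.Linarith.sub_nonpos_of_le hδ4) (Mathlib.Tactic.Linarith.sub_nonpos_of_le a2), mul_nonneg_of_nonpos_of_nonpos (Mathlib.Tactic.Linarith.sub_nonpos_of_le hδ4) (le_of_lt (Mathlib.Tactic.Linarith.sub_neg_of_lt h_nl)), mul_nonneg_of_nonpos_of_nonpos (Mathlib.Tactic.Linarith.sub_nonpos_of_le a1) (Mathlib.Tactic.Linarith.sub_nonpos_of_le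 a2)])
    · rw [abs_of_nonneg (by linarith only [hδ0, hδ4, hT])]; apply le_of_eq; ring
  have h2 : ‖∫ t : ℝ in (-T)..T, G (c + t * I)‖
      ≤ B * (y * y ^ (-δ)) * (2 * T) + 2 * (3 * (y * (B / T ^ 2))) := by
    have e : I • ∫ t : ℝ in (-T)..T, G (c + t * I) = I • (∫ t : ℝ in (-T)..T, G ((1 - δ : ℝ) + t * I))
        + ((∫ x : ℝ in (1 - δ)..c, G (x + T * I)) - ∫ x : ℝ in (1 - δ)..c, G (x + (-T : ℝ) * I)) := by
      linear_combination hC
    have a1 := hH T (abs_of_nonneg (by linarith only [hδ0, hδ4, hT]))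
    have a2 := hH (-T) (by rw [abs_neg, abs_of_nonneg (by linarith only [hδ0, hδ4, hT])])
    have a3 := congrArg norm e
    rw [norm_smul, norm_I, one_mul] at a3
    rw [a3]
    refine (norm_add_le _ _).trans (add_le_add ?_ ((norm_sub_le _ _).trans (by linarith only [a1, a2])))
    rwa [norm_smul, norm_I, one_mul]
  have h3 := congrArg norm hP2
  rw [norm_mul] at h3
  have h4 : ‖(2 * Real.pi : ℂ)‖ = 2 * Real.pi := by
    rw [norm_mul, norm_real, Real.norm_of_nonneg Real.pi_pos.le]; simp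
  have h5 : 6 * ‖∑ n ∈ range K, cm n * ((max (1 - n / y) 0 : ℝ) : ℂ)‖
      ≤ ‖∫ t : ℝ, G (c + t * I)‖ := by
    rw [h3, h4]; gcongr; linarith only [Real.pi_gt_three]
  have h6 : 0 ≤ y * (T * B * y ^ (-δ)) := by positivity
  have e1 : B * (y * y ^ (-δ)) * (2 * T) = 2 * (y * (T * B * y ^ (-δ))) := by ring
  have e3 : 2 * (18 * y * l ^ 2) / T = 6 * (y * (6 * l ^ 2 / T)) := by ring
  rw [mul_add, mul_add]
  linarith only [h1, h2, h5, h6, e3]

lemma mu_le {Q : ℕ} (hQ : 20 ≤ Q) {M : ℝ} (hM : M = 24 * (15 * Real.log Q) ^ 2)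
    (hMQ : M ^ 16 ≤ Q) {X : ℕ} (hX3 : 23 * M ^ 12 * Real.log Q ≤ Real.log X)
    (hX2 : Real.log X ≤ Q) : ‖∑ n ∈ range (X + 1), cm n‖ ≤ X / Q ^ 3 := by
  have hQ' : (20 : ℝ) ≤ Q := by exact_mod_cast hQ
  have hl : 1 ≤ Real.log Q := by
    rw [Real.le_log_iff_exp_le (by linarith only [hQ'])]; linarith only [hQ', Real.exp_one_lt_d9]
  have hN : Real.log ((Q ^ 15 : ℕ) : ℝ) = 15 * Real.log Q := by simp
  have hM1 : 24 * Real.log ((Q ^ 15 : ℕ) : ℝ) ^ 2 ≤ M := by rw [hN, hM]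
  have hM0 : 1000 ≤ M := by rw [hM]; linarith only [hl, mul_nonneg_of_nonpos_of_nonpos (Mathlib.Tactic.Linarith.sub_nonpos_of_le hl) (Mathlib.Tactic.Linarith.sub_nonpos_of_le hl)]
  have hM12 : M ≤ M ^ 12 := le_self_pow₀ (by linarith) (by norm_num)
  have hX0 : 0 < X := by
    rcases Nat.eq_zero_or_pos X with rfl | h
    · simp at hX3; linarith only [hM, hl, hM12, hX3, mul_nonneg_of_nonpos_of_nonpos (Mathlib.Tactic.Linarith.sub_nonpos_of_le (sq_nonneg ((15 : ℝ) * Real.log ↑Q))) (Mathlib.Tactic.Linarith.sub_nonpos_of_le hl), Mathlib.Tactic.Linarith.zero_mul_eq (sub_eq_zero_of_eq hM) (Mathlib.Tactic.Linarith.sub_nonpos_of_le hl), mul_nonneg_of_nonpos_of_nonpos (Mathlib.Tactic.Linarith.sub_nonpos_of_le hl) (Mathlib.Tactic.Linarith.sub_nonpos_of_le hl), mul_nonneg_of_nonpos_of_nonpos (Mathlib.Tactic.Linarith.sub_nonpos_of_le hl) (Mathlib.Tactic.Linarith.sub_nonpos_of_le hM12)]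
    · exact h
  have hX0' : (0 : ℝ) < X := by exact_mod_cast hX0
  have hXQ : Q ^ 5 ≤ X := by
    have : Real.log ((Q ^ 5 : ℕ) : ℝ) ≤ Real.log X := by simp; linarith only [hM, hX3, hl, hM12, mul_nonneg_of_nonpos_of_nonpos (Mathlib.Tactic.Linarith.sub_nonpos_of_le (sq_nonneg ((15 : ℝ) * Real.log ↑Q))) (Mathlib.Tactic.Linarith.sub_nonpos_of_le hl), Mathlib.Tactic.Linarith.zero_mul_eq (sub_eq_zero_of_eq hM) (Mathlib.Tactic.Linarith.sub_nonpos_of_le hl), mul_nonneg_of_nonpos_of_nonpos (Mathlib.Tactic.Linarith.sub_nonpos_of_le hl) (Mathlib.Tactic.Linarith.sub_nonpos_of_le hl), mul_nonneg_of_nonpos_of_nonpos (Mathlib.Tactic.Linarith.sub_nonpos_of_le hl) (Mathlib.Tactic.Linarith.sub_nonpos_of_le hM12)]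
    exact_mod_cast (Real.log_le_log_iff (by positivity) hX0').1 this
  have hT : (1 : ℝ) ≤ Q ^ 12 := one_le_pow₀ (by linarith only [hQ'])
  have hq : 6 + 4 * (Q : ℝ) ^ 12 ≤ ((Q ^ 15 : ℕ) : ℝ) := by
    calc 6 + 4 * (Q : ℝ) ^ 12 ≤ 10 * (Q : ℝ) ^ 12 := by linarith only [hT]
      _ ≤ (Q : ℝ) ^ 3 * (Q : ℝ) ^ 12 := by
          gcongr
          exact le_trans (by linarith only [hQ']) (le_self_pow₀ (by linarith only [hQ']) (by norm_num))
      _ = _ := by push_cast; ring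
  have key : ∀ y : ℝ, X ≤ y → y ≤ 2 * X → ∀ K : ℕ, y ≤ K →
      ‖∑ n ∈ range K, cm n * ((max (1 - n / y) 0 : ℝ) : ℂ)‖ ≤ y * (26 / Q ^ 10) := by
    intro y h1 h2 K hK
    have hy : 0 < y := by linarith only [hX0', h1]
    have hly : Real.log X ≤ Real.log y := Real.log_le_log hX0' h1
    have hly2 : Real.log y ≤ 2 * Q := by
      have := Real.log_le_log hy h2
      rw [Real.log_mul (by norm_num) hX0'.ne'] at this
      linarith only [hX2, hQ', this, Real.log_two_lt_d9]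
    refine (cesaro_mu (δ := 1 / M ^ 12) (B := M ^ 16) (by positivity)
      (one_div_le_one_div_of_le (by norm_num) (by linarith only [hM0, hM12])) hT (by positivity)
      (fun s a1 a2 => FM_le (N := Q ^ 15) (by rw [hN]; linarith only [hl]) hM1 hM0 hq a1 a2) hy
      (by rw [one_div_one_div]; linarith only [hM, hX3, hl, hM12, hly, mul_nonneg_of_nonpos_of_nonpos (Mathlib.Tactic.Linarith.sub_nonpos_of_le (sq_nonneg ((15 : ℝ) * Real.log ↑Q))) (Mathlib.Tactic.Linarith.sub_nonpos_of_le hl), Mathlib.Tactic.Linarith.zero_mul_eq (sub_eq_zero_of_eq hM) (Mathlib.Tactic.Linarith.sub_nonpos_of_le hl), mul_nonneg_of_nonpos_of_nonpos (Mathlib.Tactic.Linarith.sub_nonpos_of_le hl) (Mathlib.Tactic.Linarith.sub_nonpos_of_le hl), mul_nonneg_of_nonpos_of_nonpos (Mathlib.Tactic.Linarith.sub_nonpos_of_le hl) (Mathlib.Tactic.Linarith.sub_nonpos_of_le hM12)]) hK).trans ?_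
    refine mul_le_mul_of_nonneg_left ?_ hy.le
    have a1 : y ^ (-(1 / M ^ 12)) ≤ ((Q : ℝ) ^ 23)⁻¹ := by
      rw [Real.rpow_def_of_pos hy, ← Real.exp_log (x := ((Q : ℝ) ^ 23)⁻¹) (by positivity),
        Real.exp_le_exp, Real.log_inv, Real.log_pow, mul_neg, neg_le_neg_iff, mul_one_div,
        le_div_iff₀ (by positivity)]
      push_cast; linarith only [hX3, hly]
    have a2 : (Q : ℝ) ^ 12 * M ^ 16 * y ^ (-(1 / M ^ 12)) ≤ 1 / Q ^ 10 := by
      calc _ ≤ (Q : ℝ) ^ 12 * Q * ((Q : ℝ) ^ 23)⁻¹ := by gcongr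
        _ = _ := by field_simp
    have a3 : M ^ 16 / ((Q : ℝ) ^ 12) ^ 2 ≤ 1 / Q ^ 10 := by
      rw [div_le_div_iff₀ (by positivity) (by positivity)]
      calc M ^ 16 * (Q : ℝ) ^ 10 ≤ (Q : ℝ) ^ 2 * (Q : ℝ) ^ 10 := by gcongr; linarith only [hMQ, hQ', mul_nonneg_of_nonpos_of_nonpos (Mathlib.Tactic.Linarith.sub_nonpos_of_le (Mathlib.Tactic.Linarith.natCast_nonneg ℝ Q)) (Mathlib.Tactic.Linarith.sub_nonpos_of_le hQ')]
        _ = 1 * (Q : ℝ) ^ 12 := by ring
        _ ≤ _ := by gcongr; exact le_self_pow₀ hT (by norm_num)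
    have a4 : 6 * Real.log y ^ 2 / (Q : ℝ) ^ 12 ≤ 24 / Q ^ 10 := by
      have : 0 ≤ Real.log y := by linarith only [hM, hX3, hl, hM12, hly, mul_nonneg_of_nonpos_of_nonpos (Mathlib.Tactic.Linarith.sub_nonpos_of_le (sq_nonneg ((15 : ℝ) * Real.log ↑Q))) (Mathlib.Tactic.Linarith.sub_nonpos_of_le hl), Mathlib.Tactic.Linarith.zero_mul_eq (sub_eq_zero_of_eq hM) (Mathlib.Tactic.Linarith.sub_nonpos_of_le hl), mul_nonneg_of_nonpos_of_nonpos (Mathlib.Tactic.Linarith.sub_nonpos_of_le hl) (Mathlib.Tactic.Linarith.sub_nonpos_of_le hl), mul_nonneg_of_nonpos_of_nonpos (Mathlib.Tactic.Linarith.sub_nonpos_of_le hl) (Mathlib.Tactic.Linarith.sub_nonpos_of_le hM12)]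
      calc _ ≤ 6 * (2 * Q) ^ 2 / (Q : ℝ) ^ 12 := by gcongr
        _ = _ := by field_simp; norm_num
    have : (26 : ℝ) / Q ^ 10 = 1 / Q ^ 10 + 1 / Q ^ 10 + 24 / Q ^ 10 := by ring
    linarith only [a2, a3, a4, this]
  set h := X / Q ^ 5 with hh
  have hQ5 : 0 < Q ^ 5 := by positivity
  have hh0 : 0 < h := Nat.div_pos hXQ hQ5
  have hh0' : (1 : ℝ) ≤ h := by exact_mod_cast hh0
  have hh1 : (h : ℝ) * Q ^ 5 ≤ X := by exact_mod_cast Nat.div_mul_le_self X (Q ^ 5)
  have hh2 : (X : ℝ) ≤ 2 * (h * Q ^ 5) := by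
    have h1 : X < (h + 1) * Q ^ 5 := by
      rw [hh, mul_comm]; exact Nat.lt_mul_div_succ X hQ5
    have h2 : (X : ℝ) ≤ (h + 1) * Q ^ 5 := by exact_mod_cast h1.le
    have : (0 : ℝ) < Q ^ 5 := by positivity
    (refine le_of_not_gt fun h_nl => ?_; linarith only [h_nl, hh0', h2, mul_nonneg_of_nonpos_of_nonpos (Mathlib.Tactic.Linarith.sub_nonpos_of_le (Mathlib.Tactic.Linarith.natCast_nonneg ℝ X)) (Mathlib.Tactic.Linarith.sub_nonpos_of_le hh0'), mul_nonneg_of_nonpos_of_nonpos (Mathlib.Tactic.Linarith.sub_nonpos_of_le (Mathlib.Tactic.Linarith.natCast_nonneg ℝ h)) (Mathlib.Tactic.Linarith.sub_nonpos_of_le h2), mul_nonneg_of_nonpos_of_nonpos (Mathlib.Tactic.Linarith.sub_nonpos_of_le (Mathlib.Tactic.Linarith.natCast_nonneg ℝ h)) (le_of_lt (Mathlib.Tactic.Linarith.sub_neg_of_lt h_nl))])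
  have hh3 : (h : ℝ) ≤ X := by exact_mod_cast Nat.div_le_self _ _
  have hD := decesaro cm hX0 hh0 (B := 2 * Q) fun n hn => by
    refine norm_cm_le (by linarith only [hQ']) ?_
    rcases Nat.eq_zero_or_pos n with rfl | hn0
    · simp
    · have : (n : ℝ) ≤ 2 * X := by
        have : (n : ℝ) ≤ X + h := by exact_mod_cast hn
        linarith only [hh3, this]
      have := Real.log_le_log (by exact_mod_cast hn0) this
      rw [Real.log_mul (by norm_num) hX0'.ne'] at this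
      linarith only [hX2, hQ', this, Real.log_two_lt_d9]
  have k1 := key ((X + h : ℕ) : ℝ) (by push_cast; linarith only [hh0']) (by push_cast; linarith only [hh3]) (X + 1 + h)
    (by push_cast; linarith only [])
  have k2 := key X le_rfl (by linarith only [hX0']) (X + 1 + h) (by push_cast; linarith only [hh0'])
  have k3 : ((X + h : ℕ) : ℝ) ≤ 2 * X := by push_cast; linarith only [hh3]
  refine le_of_mul_le_mul_left (hD.trans ?_) (by linarith only [hh0'] : (0 : ℝ) < h)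
  have k4 : (h : ℝ) * (2 * Q) ≤ 2 * (X / Q ^ 4) := by
    rw [← mul_div_assoc, le_div_iff₀ (by positivity)]
    calc _ = 2 * ((h : ℝ) * Q ^ 5) := by ring
      _ ≤ _ := by linarith only [hh1]
  calc _ ≤ (2 * X : ℝ) * ((2 * X) * (26 / Q ^ 10)) + X * (X * (26 / Q ^ 10)) + h * (2 * (X / Q ^ 4)) := by
        gcongr
        exact k1.trans (by gcongr)
    _ = X * (X * (130 / Q ^ 10)) + h * (2 * (X / Q ^ 4)) := by ring
    _ ≤ (2 * (h * Q ^ 5)) * (X * (130 / Q ^ 10)) + h * (2 * (X / Q ^ 4)) := by gcongr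
    _ = h * (X / Q ^ 3 * (260 / Q ^ 2 + 2 / Q)) := by field_simp; ring
    _ ≤ h * (X / Q ^ 3 * 1) := by
        gcongr
        have b1 : (260 : ℝ) / Q ^ 2 ≤ 260 / 20 ^ 2 := by gcongr
        have b2 : (2 : ℝ) / Q ≤ 2 / 20 := by gcongr
        linarith only [b1, b2]
    _ = _ := by ring

lemma norm_sum_cm (x : ℕ) :
    ‖∑ n ∈ range (x + 1), cm n‖ = |∑ n ∈ Icc 1 x, (moebius n : ℝ)| := by
  rw [← Real.norm_eq_abs, ← norm_real]
  congr 1
  induction x with
  | zero => simp [cm]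
  | succ x ih =>
    rw [sum_range_succ, ih, sum_Icc_succ_top (by omega), cm]
    push_cast; ring

lemma abs_sum_le (x : ℕ) : |∑ n ∈ Icc 1 x, (moebius n : ℝ)| ≤ x := by
  refine (abs_sum_le_sum_abs _ _).trans ?_
  refine (sum_le_card_nsmul _ _ 1 fun n _ => ?_).trans (by simp)
  exact_mod_cast abs_moebius_le_one

/-- The estimate at a single point. -/
lemma mu_at (A : ℕ) : ∀ᶠ X : ℕ in atTop,
    |∑ n ∈ Icc 1 X, (moebius n : ℝ)| ≤ X / Real.log X ^ A := by
  have e1 := eventually_pow_log_le (5400 ^ 16) (by positivity) 32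
  have e2 := tendsto_log.eventually_ge_atTop (23 * 5400 ^ 12)
  have e3 := eventually_pow_log_le (2 ^ (26 * (A + 1))) (by positivity) (26 * (A + 1))
  set u : ℕ → ℝ := fun X => Real.log X ^ (1 / 26 : ℝ) with hu
  have hT : Tendsto (fun X : ℕ => ⌊Real.exp (u X)⌋₊) atTop atTop :=
    tendsto_nat_floor_atTop.comp (Real.tendsto_exp_atTop.comp
      ((tendsto_rpow_atTop (by norm_num)).comp tendsto_log))
  filter_upwards [hT.eventually e1, hT.eventually e2, hT.eventually e3,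
    hT.eventually_ge_atTop 20, tendsto_log.eventually_ge_atTop 1] with X h1 h2 h3 h5 h6
  set Q := ⌊Real.exp (u X)⌋₊ with hQ
  have hQ' : (20 : ℝ) ≤ Q := by exact_mod_cast h5
  have hl : 1 ≤ Real.log Q := by
    rw [Real.le_log_iff_exp_le (by linarith only [hQ'])]; linarith only [hQ', Real.exp_one_lt_d9]
  have hu26 : u X ^ 26 = Real.log X := by
    simp only [hu]
    rw [← Real.rpow_natCast, ← Real.rpow_mul (by linarith only [h6])]; norm_num
  have hu0 : 0 ≤ u X := by simp only [hu]; positivity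
  have a1 : Real.log Q ≤ u X := by
    rw [Real.log_le_iff_le_exp (by linarith only [hQ'])]
    exact Nat.floor_le (by positivity)
  have a2 : u X ≤ 2 * Real.log Q := by
    have : Real.exp (u X) ≤ Q ^ 2 := by
      have := Nat.lt_floor_add_one (Real.exp (u X))
      rw [← hQ] at this; linarith only [hQ', this, mul_nonneg_of_nonpos_of_nonpos (Mathlib.Tactic.Linarith.sub_nonpos_of_le (Mathlib.Tactic.Linarith.natCast_nonneg ℝ Q)) (Mathlib.Tactic.Linarith.sub_nonpos_of_le hQ')]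
    have := Real.log_le_log (by positivity) this
    rwa [Real.log_exp, Real.log_pow] at this
  have a3 : Real.log X ^ (A + 1) ≤ Q := by
    refine le_trans ?_ h3
    rw [← hu26, ← pow_mul, ← mul_pow]; gcongr
  have a4 : Real.log X ^ A ≤ Q := (pow_le_pow_right₀ h6 (by omega)).trans a3
  have a5 : Real.log X ≤ Q := (le_self_pow₀ h6 (by omega)).trans a3
  rw [← norm_sum_cm]
  refine (mu_le h5 rfl (le_of_eq_of_le (by ring) h1) ?_ a5).trans ?_
  · calc _ = 23 * 5400 ^ 12 * Real.log Q ^ 25 := by ring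
      _ ≤ Real.log Q * Real.log Q ^ 25 := by gcongr
      _ = Real.log Q ^ 26 := by ring
      _ ≤ _ := by rw [← hu26]; gcongr
  · gcongr
    exact a4.trans (le_self_pow₀ (by linarith only [hQ']) (by norm_num))

theorem mu_error (A : ℕ) : ∀ᶠ X : ℕ in atTop, ∀ x : ℕ, x ≤ X →
    |∑ n ∈ Icc 1 x, (moebius n : ℝ)| ≤ X / Real.log X ^ A := by
  obtain ⟨X₀, hX₀⟩ := eventually_atTop.1 (mu_at (2 * A))
  have e1 : ∀ᶠ X : ℕ in atTop, 6 * √(X : ℝ) ≤ X / Real.log X ^ A := by
    have := (isLittleO_log_rpow_rpow_atTop (A : ℝ) (s := 1 / 2) (by norm_num)).bound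
      (c := 1 / 6) (by norm_num)
    filter_upwards [tendsto_natCast_atTop_atTop.eventually this,
      tendsto_log.eventually_gt_atTop 0] with X h h0
    rw [Real.norm_of_nonneg (by positivity), Real.norm_of_nonneg (by positivity),
      Real.rpow_natCast, ← Real.sqrt_eq_rpow] at h
    rw [le_div_iff₀ (by positivity)]
    calc _ ≤ 6 * √(X : ℝ) * (1 / 6 * √(X : ℝ)) := by gcongr
      _ = √(X : ℝ) * √(X : ℝ) := by ring
      _ = _ := Real.mul_self_sqrt (by positivity)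
  filter_upwards [e1, eventually_ge_atTop (X₀ ^ 2), tendsto_log.eventually_ge_atTop 4]
    with X h1 h2 h3
  intro y hx
  have hy : (y : ℝ) ≤ X := by exact_mod_cast hx
  rcases le_or_gt (y : ℝ) √(X : ℝ) with h | h
  · refine le_trans ?_ h1
    have a1 := abs_sum_le y
    have a3 : (0 : ℝ) ≤ y := Nat.cast_nonneg y
    linarith only [h, a1]
  · have hX0 : (0 : ℝ) < X := by
      by_contra h0
      have : (X : ℝ) = 0 := le_antisymm (not_lt.1 h0) (by positivity)
      rw [this] at h3; norm_num at h3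
    have b0 : X₀ ≤ y := by
      have : (X₀ : ℝ) ≤ √(X : ℝ) := Real.le_sqrt_of_sq_le (by exact_mod_cast h2)
      exact_mod_cast this.trans h.le
    have b1 : Real.log X / 2 ≤ Real.log y := by
      rw [← Real.log_sqrt hX0.le]
      exact Real.log_le_log (by positivity) h.le
    have b2 : Real.log X ^ A ≤ Real.log y ^ (2 * A) := by
      rw [pow_mul]; gcongr; linarith only [h3, b1, mul_nonneg_of_nonpos_of_nonpos (Mathlib.Tactic.Linarith.sub_nonpos_of_le h3) (Mathlib.Tactic.Linarith.sub_nonpos_of_le h3), mul_nonneg_of_nonpos_of_nonpos (Mathlib.Tactic.Linarith.sub_nonpos_of_le h3) (Mathlib.Tactic.Linarith.sub_nonpos_of_le b1), mul_nonneg_of_nonpos_of_nonpos (Mathlib.Tactic.Linarith.sub_nonpos_of_le b1) (Mathlib.Tactic.Linarith.sub_nonpos_of_le b1)]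
    refine (hX₀ y b0).trans ?_
    gcongr

/-- `M(N) ≪ N / log ^ B N`. -/
theorem moeb_le (B : ℕ) : ∃ C : ℝ, 0 < C ∧ ∀ N : ℕ, 2 ≤ N →
    |∑ n ∈ Icc 1 N, (moebius n : ℝ)| ≤ C * N / Real.log N ^ B := by
  obtain ⟨X₀, hX₀⟩ := eventually_atTop.1 (mu_at B)
  refine ⟨1 + Real.log (X₀ + 1) ^ B, ?_, fun N hN => ?_⟩
  · have : 0 ≤ Real.log ((X₀ : ℝ) + 1) := Real.log_nonneg (by linarith [Nat.cast_nonneg (α := ℝ) X₀])
    positivity
  have hN' : (2 : ℝ) ≤ N := by exact_mod_cast hN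
  have hl : 0 < Real.log N := Real.log_pos (by linarith only [hN'])
  have hl0 : 0 ≤ Real.log ((X₀ : ℝ) + 1) :=
    Real.log_nonneg (by linarith [Nat.cast_nonneg (α := ℝ) X₀])
  rcases le_or_gt X₀ N with h | h
  · refine (hX₀ N h).trans ?_
    gcongr
    exact le_mul_of_one_le_left (by positivity) (by linarith only [hl0, pow_nonneg hl0 B])
  · refine (abs_sum_le N).trans ?_
    rw [le_div_iff₀ (by positivity), mul_comm]
    have h' : (N : ℝ) ≤ X₀ + 1 := by exact_mod_cast (by omega : N ≤ X₀ + 1)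
    have : Real.log N ^ B ≤ Real.log (X₀ + 1) ^ B := by gcongr
    gcongr
    linarith only [this]

end Pool.Agent.Work.MP_5d318d_nt.Zh.Mu0
end
end

-- merged part: Pool.Agent.Work.MP_5d318d_nt.Z.Exi
section
/-!
# Existence of the parameters

PLAN.
* `exists_LP`: `Lg = (log v) ^ 9`, `ε = ((log v) ^ 100)⁻¹`.  `HH_le`; for `hE` bound the sum over squarefree
  `f ≤ y` by `∏ p ≤ y, (1 + 8 / p) ≤ exp (8 ∑ 1 / p)` (`Finset.prod_one_add`/`prod_add_one`, injectivity of
  `primeFactors` on squarefree numbers; look at `Lib/ANT/SieveSums`), `abs_sum_inv_prime_sub_loglog_le`, giving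
  `exp 576 * (720000 log v) ^ 8`; `hφ` by `div_totient_le_loglog` (small `k` by `div_totient_le_card_divisors`);
  `hμ` is trivial for `x ≤ v ^ 100000` and follows from `Mu0.moeb_le 101` otherwise (`log v ≤ log x`).
* `exists_tau`: `exists_card_divisors_le (1 / 4320000)`, `HH_le`.
* `exists_GP`: `y = X ^ (1 / 720000)`, `v = ⌈y⌉₊`; `(y + 1) ^ 719999 ≤ y ^ 720000` for large `y`, since
  `(1 + 1 / y) ^ 719999 ≤ exp (719999 / y) ≤ y`.
-/

noncomputable section

open Finset Real ArithmeticFunction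

namespace Pool.Agent.Work.MP_5d318d_nt.Zh

open Pool.Agent.Lib.LargeSieve Pool.Agent.Lib.ANT

lemma Exi_log {v n k : ℕ} (hv : 1 ≤ v) (h : n ≤ v ^ k) : Real.log n ≤ k * Real.log v := by
  rw [← Real.log_pow]
  rcases Nat.eq_zero_or_pos n with rfl | hn
  · rw [Nat.cast_zero, Real.log_zero]
    exact Real.log_nonneg (one_le_pow₀ (by exact_mod_cast hv))
  · exact Real.log_le_log (by exact_mod_cast hn) (by exact_mod_cast h)

lemma Exi_sqf {y N : ℕ} (h : y ≤ N) (hN : 2 ≤ N) :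
    ∑ f ∈ (Icc 1 y).filter Squarefree, (8 : ℝ) ^ f.primeFactors.card / f ≤
      Real.exp 576 * Real.log N ^ 8 := by
  have h1 : ∑ f ∈ (Icc 1 y).filter Squarefree, (8 : ℝ) ^ f.primeFactors.card / f ≤
      ∑ T ∈ ((Ioc 0 N).filter Nat.Prime).powerset, ∏ p ∈ T, (8 * (p : ℝ)⁻¹) := by
    have e1 : Set.InjOn Nat.primeFactors ((Icc 1 y).filter Squarefree) := fun a ha b hb e => by
      rw [← Nat.prod_primeFactors_of_squarefree (mem_filter.1 ha).2, e,
        Nat.prod_primeFactors_of_squarefree (mem_filter.1 hb).2]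
    refine le_of_eq_of_le (sum_congr rfl fun f hf => ?_) (le_of_eq_of_le (sum_image e1).symm
      (sum_le_sum_of_subset_of_nonneg (fun T hT => ?_)
        fun T _ _ => prod_nonneg fun p _ => by positivity))
    · rw [prod_mul_distrib, prod_const, prod_inv_distrib, ← Nat.cast_prod,
        Nat.prod_primeFactors_of_squarefree (mem_filter.1 hf).2, div_eq_mul_inv]
    · obtain ⟨f, hf, rfl⟩ := mem_image.1 hT
      refine mem_powerset.2 fun p hp => mem_filter.2 ⟨mem_Ioc.2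
        ⟨(Nat.prime_of_mem_primeFactors hp).pos, ?_⟩, Nat.prime_of_mem_primeFactors hp⟩
      exact (Nat.le_of_mem_primeFactors hp).trans ((mem_Icc.1 (mem_filter.1 hf).1).2.trans h)
  rw [← prod_one_add] at h1
  have h2 : ∏ p ∈ (Ioc 0 N).filter Nat.Prime, (1 + 8 * (p : ℝ)⁻¹) ≤
      Real.exp (8 * ∑ p ∈ (Ioc 0 N).filter Nat.Prime, (p : ℝ)⁻¹) := by
    rw [mul_sum, Real.exp_sum]
    exact prod_le_prod (fun p _ => by positivity) fun p _ => by
      linarith only [Real.add_one_le_exp (8 * (p : ℝ)⁻¹)]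
  have h3 := (abs_le.1 (abs_sum_inv_prime_sub_loglog_le N hN)).2
  have h4 : 0 < Real.log N := Real.log_pos (by exact_mod_cast hN)
  refine h1.trans (h2.trans (le_of_le_of_eq (Real.exp_le_exp.2
    (show _ ≤ 576 + (8 : ℕ) * Real.log (Real.log N) by push_cast; linarith only [h3])) ?_))
  rw [Real.exp_add, ← Real.log_pow, Real.exp_log (by positivity)]

lemma Exi_ev (k : ℕ) (c : ℝ) (hc : 0 < c) : ∀ᶠ v : ℕ in Filter.atTop, Real.log v ^ k ≤ c * v := by
  refine (tendsto_natCast_atTop_atTop.eventually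
    ((Real.isLittleO_pow_log_id_atTop (n := k)).bound hc)).mono fun v hv => ?_
  rw [id, Real.norm_natCast] at hv
  exact (le_abs_self _).trans hv

theorem exists_LP : ∃ v0 : ℕ, ∀ v, v0 ≤ v → ∃ Lg ε : ℝ, LP v Lg ε ∧ 100 * ε * Lg ^ 11 ≤ 1 := by
  obtain ⟨C, hC0, hC⟩ := Mu0.moeb_le 101
  have t1 := (Real.tendsto_log_atTop.comp tendsto_natCast_atTop_atTop).eventually_ge_atTop
    (max (max C 720002) (max (Real.exp 576 * 720000 ^ 8) (Real.exp 76 * 2160000)))
  obtain ⟨v0, hv0⟩ := Filter.eventually_atTop.1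
    (t1.and ((Exi_ev 9 1 one_pos).and (Filter.eventually_ge_atTop 2)))
  refine ⟨v0, fun v hv => ?_⟩
  obtain ⟨h1, h2, h3⟩ := hv0 v hv
  simp only [Function.comp_apply, max_le_iff] at h1
  obtain ⟨⟨a1, a2⟩, a3, a4⟩ := h1
  have v1 : (1 : ℝ) ≤ v := by exact_mod_cast (by omega : 1 ≤ v)
  have lv : Real.log v ≤ v := (Real.log_le_sub_one_of_pos (by linarith only [v1])).trans (by linarith)
  have e1 : ∀ {n k : ℕ}, n ≤ v ^ k → Real.log n ≤ k * Real.log v := Exi_log (by omega)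
  have e3 : Real.log ((v ^ 720000 : ℕ) : ℝ) = 720000 * Real.log v := by
    rw [Nat.cast_pow, Real.log_pow, Nat.cast_ofNat]
  have e4 : ∀ x : ℕ, v ≤ x → Real.log v ≤ Real.log x := fun x hx =>
    Real.log_le_log (by linarith only [a2, lv]) (by exact_mod_cast hx)
  generalize Real.log v = l at *
  have l1 : 1 ≤ l := by linarith
  have l0 : 0 < l := by linarith
  have l2 : l * l ≤ l ^ 9 := by
    rw [← pow_two]
    exact pow_le_pow_right₀ l1 (by norm_num)
  refine ⟨l ^ 9, (l ^ 100)⁻¹, ⟨one_le_pow₀ l1, by linarith, ?_, fun n hn => ?_, fun y hy => ?_,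
    fun k hk => ?_, fun x _ => ?_⟩, ?_⟩
  · rw [inv_mul_eq_div, one_le_div (by positivity)]
    exact (pow_le_pow_left₀ l0.le lv 100).trans (pow_le_pow_right₀ v1 (by norm_num))
  · have b1 := e1 hn
    have b2 := HH_le n
    push_cast at b1
    linarith only [a2, l2, b1, b2, hC0, a1, mul_nonneg_of_nonpos_of_nonpos (le_of_lt (Mathlib.Tactic.Linarith.sub_neg_of_lt hC0)) (Mathlib.Tactic.Linarith.sub_nonpos_of_le a2), mul_nonneg_of_nonpos_of_nonpos (Mathlib.Tactic.Linarith.sub_nonpos_of_le a1) (Mathlib.Tactic.Linarith.sub_nonpos_of_le a2)]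
  · refine (Exi_sqf hy (h3.trans (Nat.le_self_pow (Nat.succ_ne_zero 719999) v))).trans ?_
    rw [e3, mul_pow, ← mul_assoc, pow_succ' l 8]
    exact mul_le_mul_of_nonneg_right a3 (by positivity)
  · rcases lt_or_ge k 16 with h | h
    · have b1 : (k.divisors.card : ℝ) ≤ 16 := by
        exact_mod_cast (Nat.card_divisors_le_self k).trans h.le
      refine (div_totient_le_card_divisors k).trans (b1.trans ?_)
      linarith only [hC0, a2, l2, a1, mul_nonneg_of_nonpos_of_nonpos (le_of_lt (Mathlib.Tactic.Linarith.sub_neg_of_lt hC0)) (Mathlib.Tactic.Linarith.sub_nonpos_of_le a1), mul_nonneg_of_nonpos_of_nonpos (le_of_lt (Mathlib.Tactic.Linarith.sub_neg_of_lt hC0)) (Mathlib.Tactic.Linarith.sub_nonpos_of_le a2), mul_nonneg_of_nonpos_of_nonpos (Mathlib.Tactic.Linarith.sub_nonpos_of_le a1) (Mathlib.Tactic.Linarith.sub_nonpos_of_le a1), mul_nonneg_of_nonpos_of_nonpos (Mathlib.Tactic.Linarith.sub_nonpos_of_le a1) (Mathlib.Tactic.Linarith.sub_nonpos_of_le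 a2)]
    · have b1 := e1 hk
      have b0 : 0 < Real.log k := Real.log_pos (by exact_mod_cast (by omega : 1 < k))
      have b2 := Real.log_le_sub_one_of_pos b0
      push_cast at b1
      refine (div_totient_le_loglog k h).trans ((mul_le_mul_of_nonneg_left
        (show _ ≤ 2160000 * l by linarith only [b1, b2]) (Real.exp_pos _).le).trans ?_)
      rw [← mul_assoc]
      exact (mul_le_mul_of_nonneg_right a4 l0.le).trans l2
  · have b0 : Mk 1 x = ∑ n ∈ Icc 1 x, (moebius n : ℝ) :=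
      sum_congr rfl fun n _ => by rw [if_pos (Nat.coprime_one_right n)]; rfl
    rw [b0]
    rcases le_total x (v ^ 100000) with h | h
    · refine (Mu0.abs_sum_le x).trans (le_add_of_nonneg_of_le (by positivity)
        (Real.le_sqrt_of_sq_le ?_))
      rw [sq]
      exact mul_le_mul_of_nonneg_left (by exact_mod_cast h) (Nat.cast_nonneg x)
    · have b1 : v ≤ x := (Nat.le_self_pow (by norm_num) v).trans h
      refine (hC x (h3.trans b1)).trans (le_add_of_le_of_nonneg ?_ (Real.sqrt_nonneg _))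
      calc C * x / Real.log x ^ 101 ≤ l * x / l ^ 101 := by
            gcongr
            exact e4 x b1
        _ = (l ^ 100)⁻¹ * x := by field_simp
  · calc 100 * (l ^ 100)⁻¹ * (l ^ 9) ^ 11 = 100 / l := by field_simp
      _ ≤ 1 := (div_le_one l0).2 (by linarith only [a2])

theorem exists_tau : ∃ v0 : ℕ, ∀ v, v0 ≤ v → ∀ n : ℕ, n ≤ v ^ 2160000 →
    (n.divisors.card : ℝ) ≤ v ∧ 1 + HH n ≤ v := by
  obtain ⟨C, hC1, hC⟩ := exists_card_divisors_le (1 / 4320000) (by norm_num)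
  obtain ⟨v0, hv0⟩ := Filter.eventually_atTop.1
    ((tendsto_natCast_atTop_atTop.eventually_ge_atTop (max (C ^ 2) 4)).and
      (Exi_ev 1 (1 / 4320000) (by norm_num)))
  refine ⟨v0, fun v hv n hn => ?_⟩
  obtain ⟨h1, h2⟩ := hv0 v hv
  obtain ⟨a1, a2⟩ := max_le_iff.1 h1
  have v0 : (0 : ℝ) ≤ v := Nat.cast_nonneg v
  have v1 : 1 ≤ v := by exact_mod_cast (by linarith only [a2] : (1 : ℝ) ≤ v)
  constructor
  · have b1 : (n : ℝ) ^ (1 / 4320000 : ℝ) ≤ √v := by
      refine (Real.rpow_le_rpow (Nat.cast_nonneg n) (show (n : ℝ) ≤ (v : ℝ) ^ 2160000 by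
        exact_mod_cast hn) (by norm_num)).trans_eq ?_
      rw [← Real.rpow_natCast, ← Real.rpow_mul v0, Real.sqrt_eq_rpow]
      norm_num
    refine (hC n).trans ((mul_le_mul (Real.le_sqrt_of_sq_le a1) b1 (by positivity)
      (Real.sqrt_nonneg _)).trans_eq (Real.mul_self_sqrt v0))
  · have b1 := Exi_log v1 hn
    have b2 := HH_le n
    rw [pow_one] at h2
    push_cast at b1
    linarith only [h2, a2, b1, b2]

theorem exists_GP (v0 : ℕ) : ∃ X0 : ℝ, ∀ X : ℝ, X0 ≤ X → ∀ Q : ℕ,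
    X ^ (1 - (1 / 720000 : ℝ)) ≤ Q → (Q : ℝ) ≤ X → ∃ v, v0 ≤ v ∧ GP X v Q := by
  obtain ⟨v1, hv1⟩ := exists_tau
  obtain ⟨X0, hX0⟩ := Filter.eventually_atTop.1
    (((tendsto_rpow_atTop (show (0 : ℝ) < 1 / 720000 by norm_num)).eventually_ge_atTop
      ((max v0 (max v1 (10 ^ 12)) : ℕ) : ℝ)).and (Filter.eventually_gt_atTop 0))
  refine ⟨X0, fun X hX Q hQ hQ' => ?_⟩
  obtain ⟨h1, h0⟩ := hX0 X hX
  have e1 : (X ^ (1 / 720000 : ℝ)) ^ 720000 = X := by
    rw [← Real.rpow_natCast, ← Real.rpow_mul h0.le]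
    norm_num
  have e2 : X ^ (1 / 720000 : ℝ) * X ^ (1 - (1 / 720000 : ℝ)) = X := by
    rw [← Real.rpow_add h0, add_sub_cancel, Real.rpow_one]
  have e3 : 0 ≤ X ^ (1 - (1 / 720000 : ℝ)) := Real.rpow_nonneg h0.le _
  generalize X ^ (1 - (1 / 720000 : ℝ)) = w at *
  generalize X ^ (1 / 720000 : ℝ) = y at *
  have c1 := Nat.le_ceil y
  have c2 : max v0 (max v1 (10 ^ 12)) ≤ ⌈y⌉₊ := by exact_mod_cast h1.trans c1
  have c3 : (10 : ℝ) ^ 12 ≤ y := le_trans (by
    exact_mod_cast (le_max_right _ _).trans (le_max_right v0 _)) h1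
  have y0 : 0 < y := by linarith only [c3]
  obtain ⟨d1, d2⟩ := max_le_iff.1 c2
  obtain ⟨d2, d3⟩ := max_le_iff.1 d2
  refine ⟨⌈y⌉₊, d1, d3, hv1 _ d2, ?_, e1 ▸ pow_le_pow_left₀ y0.le c1 _, ?_, hQ'⟩
  · have b1 : (⌈y⌉₊ : ℝ) ≤ y * Real.exp y⁻¹ := by
      have b2 := mul_le_mul_of_nonneg_left (Real.add_one_le_exp y⁻¹) y0.le
      rw [mul_add, mul_inv_cancel₀ y0.ne', mul_one] at b2
      linarith only [b2, y0, Nat.ceil_lt_add_one y0.le]
    have b3 : Real.exp y⁻¹ ^ 719999 ≤ y := by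
      rw [← Real.exp_nat_mul]
      refine (Real.exp_le_exp.2 (show _ ≤ 1 from ?_)).trans
        (Real.exp_one_lt_d9.le.trans (by linarith only [c3]))
      rw [← div_eq_mul_inv, div_le_one y0]
      push_cast
      linarith only [c3]
    refine (pow_le_pow_left₀ (Nat.cast_nonneg _) b1 _).trans ?_
    rw [mul_pow, ← e1]
    exact (mul_le_mul_of_nonneg_left b3 (pow_nonneg y0.le _)).trans_eq (pow_succ y 719999).symm
  · exact e2.symm.trans_le (mul_le_mul c1 hQ e3 (Nat.cast_nonneg _))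

end Pool.Agent.Work.MP_5d318d_nt.Zh
end
end
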