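import Pool.Agent.Work.MP_5d318d_nt.Z.Norm2
import Pool.Agent.Work.MP_5d318d_nt.Z.Core2
import Pool.Agent.Work.MP_5d318d_nt.Z.Exi

/-!
# The bound beyond one half
-/

noncomputable section

open Finset Real ArithmeticFunction Filter

namespace Pool.Agent.Work.MP_5d318d_nt.Zh

open Pool.Agent.Lib.LargeSieve Pool.Agent.Lib.ANT

theorem gain_num {X V E τ σ s c0 c S0 Ψ E2 M2 P2 C B Lg ε δ Y : ℝ} (hV : 12 ≤ V) (hE : 0 ≤ E)
    (hX : V ^ 4 * E ≤ X) (hτ0 : 0 < τ) (hτ1 : τ ≤ Lg) (hτ2 : τ ≤ V) (hε : 0 ≤ ε)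
    (hεL : 100 * ε * Lg ^ 11 ≤ 1) (hσ0 : 0 ≤ σ) (hσ : σ ≤ τ * S0) (hs0 : 0 ≤ s) (hs1 : s ≤ 1 / 2)
    (hc0 : 0 ≤ c0) (hc1 : c0 ≤ 1) (hc : c0 ≤ c) (hsB : s * B = c0 / 2) (hδ0 : 0 ≤ δ)
    (hδ : δ ≤ 1 / 10) (hΨ : (1 - 2 * δ) * X ≤ Ψ) (h1 : S0 * c * Ψ - E ≤ E2) (h2 : Y * M2 ≤ E)
    (h3 : P2 ≤ B * (X * τ⁻¹ * S0 + E) + E) (h4 : C ≤ 16 * ε * Lg ^ 9 * X + 2 * E) :
    s * c0 * X * σ - X ≤
      2 * τ * (s * E2 - Y * (s * M2)) - (1 + δ) * τ ^ 2 * (2 * (s * C) + s ^ 2 * P2) := by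
  have hV0 : 0 ≤ V := by linarith
  have hX0 : 0 ≤ X := le_trans (by positivity) hX
  have hL0 : 0 ≤ Lg := by linarith
  obtain ⟨u, hu⟩ : ∃ u, u = τ * S0 := ⟨_, rfl⟩
  have hu0 : 0 ≤ u := by rw [hu]; linarith
  have a1 : 2 * (s * u * c0 * (4 / 5 * X)) - 4 * (τ * s * E) ≤ 2 * τ * (s * E2 - Y * (s * M2)) := by
    clear * - s u c0 X c Ψ δ hΨ hδ hX0 hc0 hc hs0 hu0 τ S0 E E2 Y M2 h1 h2 hτ0 hu
    have b1 : s * u * c0 * (4 / 5 * X) ≤ s * u * c * Ψ := by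
      have : 4 / 5 * X ≤ Ψ := by nlinarith
      have : 0 ≤ c := by linarith
      gcongr
    have b2 : τ * s * (S0 * c * Ψ - E - E) ≤ τ * s * (E2 - Y * M2) := by gcongr
    have b3 : τ * s * (S0 * c * Ψ) = s * u * c * Ψ := by rw [hu]; ring
    nlinarith
  have a2 : (1 + δ) * τ ^ 2 * (2 * (s * C) + s ^ 2 * P2) ≤
      (1 + δ) * τ ^ 2 * (2 * (s * (16 * ε * Lg ^ 9 * X + 2 * E)) +
        s ^ 2 * (B * (X * τ⁻¹ * S0 + E) + E)) := by clear * - δ τ s C P2 ε Lg X E B S0 h4 hs0 h3 hδ0 hτ0; gcongr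
  have a3 : τ ^ 2 * (2 * (s * (16 * ε * Lg ^ 9 * X + 2 * E)) +
        s ^ 2 * (B * (X * τ⁻¹ * S0 + E) + E)) = 32 * (s * (ε * (τ ^ 2 * Lg ^ 9)) * X) +
      1 / 2 * (s * u * c0 * X) + τ ^ 2 * E * (4 * s + s * (c0 / 2) + s ^ 2) := by
    clear * - c0 s B hsB τ ε Lg X E S0 u hu hτ0
    have : c0 = 2 * (s * B) := by linarith
    rw [hu, this]; field_simp; ring
  have a4 : s * (ε * (τ ^ 2 * Lg ^ 9)) * X ≤ 1 / 2 * (1 / 100) * X := by
    clear * - ε τ Lg hτ0 hτ1 hL0 hε hεL X s hs1 hX0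
    have : ε * (τ ^ 2 * Lg ^ 9) ≤ 1 / 100 := by
      calc _ ≤ ε * (Lg ^ 2 * Lg ^ 9) := by gcongr
        _ = (100 * ε * Lg ^ 11) / 100 := by ring
        _ ≤ _ := by linarith
    gcongr
  have a5 : τ ^ 2 * E * (4 * s + s * (c0 / 2) + s ^ 2) ≤ V ^ 2 * E * 3 := by
    clear * - τ E V s c0 hτ0 hτ2 hE hs1 hs0 hc1 hc0 hV
    gcongr; nlinarith
  have a6 : τ * s * E ≤ V ^ 2 * 1 * E := by
    clear * - E τ s V hV hτ2 hs1 hs0 hE
    gcongr
    · nlinarith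
    · linarith
  have a7 : 144 * (V ^ 2 * E) ≤ X := by
    clear * - V E X hV hE hX
    refine le_trans ?_ hX
    calc 144 * (V ^ 2 * E) ≤ V ^ 2 * (V ^ 2 * E) := by gcongr; nlinarith
      _ = _ := by ring
  have a8 : s * c0 * X * σ ≤ s * u * c0 * X := by
    clear * - s c0 X σ u τ S0 hu hσ hs0 hc0 hX0
    calc _ ≤ s * c0 * X * u := by rw [hu]; gcongr
      _ = _ := by ring
  have a9 : 0 ≤ s * u * c0 * X := by positivity
  have a10 : (1 + δ) * (32 * (s * (ε * (τ ^ 2 * Lg ^ 9)) * X) +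
      1 / 2 * (s * u * c0 * X) + τ ^ 2 * E * (4 * s + s * (c0 / 2) + s ^ 2)) ≤
      11 / 10 * (32 * (1 / 2 * (1 / 100) * X) + 1 / 2 * (s * u * c0 * X) + V ^ 2 * E * 3) := by
    clear * - δ s ε τ Lg X u c0 E V hδ a4 a5 hs0 hε hτ0 hL0 hX0 hu0 hc0 hE
    gcongr; linarith
  rw [mul_assoc (1 + δ), mul_assoc (1 + δ), a3] at a2
  have a11 : 0 ≤ V ^ 2 * E := by positivity
  rw [mul_assoc (1 + δ)]
  linarith

theorem gain_le {v Q : ℕ} {X Lg ε CB c0 δ : ℝ} (G : GP X v Q) (L : LP v Lg ε)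
    (hεL : 100 * ε * Lg ^ 11 ≤ 1) (hc0 : 0 < c0) (hc1 : c0 ≤ 1)
    (hc : c0 ≤ Sg (DD (PP v Q) 300)) (hCB1 : 1 ≤ CB)
    (hCB : ∀ m : ℤ, 0 < m → m ≤ (v : ℤ) ^ 720000 → |lam (DD (PP v Q) 300) m| ≤ CB)
    (hδ0 : 0 ≤ δ) (hδ : δ ≤ 1 / 10) {R1 R H t : ℕ} (hR0 : v ^ 1201 ≤ R) (hR : R ≤ v ^ 360000)
    (hR1 : R1 ≤ v ^ 359680) (hH : ((⌊X⌋₊ + 2 * H : ℕ) : ℝ) ≤ 2 * X) (ht : t ∈ range (2 * H))
    (hΨ : (1 - 2 * δ) * X ≤ ∑ n ∈ Icc 1 ⌊X⌋₊, aa Q R n) :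
    c0 / (2 * CB ^ 2) * c0 * X * (Real.log v - 4) - X ≤
      Ext Q ⌊X⌋₊ (aa Q R) (FF Q (RR Q R1 R) (II ⌊X⌋₊ H t))
        (fun A => c0 / (2 * CB ^ 2) * FF Q (S2 v Q (PP v Q)) (Ioc (0 : ℤ) (⌊X⌋₊ : ℕ)) A)
        (Q / Q.totient) δ (X / Q.totient) := by
  have hv : 1000 ≤ v := le_trans (by norm_num) G.hv
  have hv1 : 1 ≤ v := by omega
  have hV : (1000 : ℝ) ≤ v := by exact_mod_cast hv
  have hV1 : (1 : ℝ) ≤ v := by linarith
  obtain ⟨hQ0, hQ1⟩ := G.Q_bounds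
  have hQ : 0 < Q := lt_of_lt_of_le (pow_pos hv1 _) hQ0
  have hQ2 : Q ≤ v ^ 2160000 := hQ1.trans (Nat.pow_le_pow_right hv1 (by norm_num))
  have hQ' : (0 : ℝ) < Q := by exact_mod_cast hQ
  have hφ : (0 : ℝ) < Q.totient := by exact_mod_cast Nat.totient_pos.mpr hQ
  have hτV : (Q : ℝ) / Q.totient ≤ v := (div_totient_le_card_divisors Q).trans (G.hτ Q hQ2).1
  have h1 := E2_ge G hR0 hR
  have h2 := M2_le G
  have h3 := P2_le G hCB
  have h4 := C12_le G L hR1 hR hH ht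
  rw [Sg_S2 hv1 (PW_PP v Q)] at h1
  have hSg := le_Sg (Q := Q) (R1 := 0) (R := v) (W := v ^ 2) (Z := v) hQ (by positivity)
    (G.hτ Q hQ2).1 (by linarith [(G.hτ v (Nat.le_self_pow (by norm_num) v)).2])
  have hσ : Real.log v - 4 ≤ Q / Q.totient * Sg (RR Q 0 v) := by
    clear * - v Q hv hSg
    refine le_trans ?_ hSg
    have b1 := log_le_HH v
    have b2 : 4 * (v : ℝ) ^ 2 / (v ^ 2 : ℕ) = 4 := by push_cast; field_simp
    have b3 : HH (0 * (v ^ 2) ^ 3) = 0 := by simp [HH]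
    rw [b2, b3]; linarith
  have hlog : 4 ≤ Real.log v := by
    clear * - v hV
    rw [Real.le_log_iff_exp_le (by linarith)]
    have : Real.exp 4 = Real.exp 1 ^ 4 := by rw [← Real.exp_nat_mul]; norm_num
    rw [this]
    calc Real.exp 1 ^ 4 ≤ (3 : ℝ) ^ 4 := by gcongr; linarith [Real.exp_one_lt_d9]
      _ ≤ (v : ℝ) := by linarith
  have hB : 1 ≤ CB ^ 2 := one_le_pow₀ hCB1
  have hε : 0 ≤ ε := by
    clear * - ε v hv Lg L
    by_contra h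
    have := mul_nonpos_of_nonpos_of_nonneg (not_le.mp h).le
      (show 0 ≤ (v : ℝ) ^ 100000 by positivity)
    linarith [L.hε]
  have hY : X / Q.totient ≤ v * v := by
    clear * - X Q v G hQ hτV hv hQ0
    calc X / Q.totient ≤ v * Q / Q.totient := by gcongr; exact G.hQ0
      _ = v * (Q / Q.totient) := by ring
      _ ≤ _ := by gcongr
  have hX0 : 0 ≤ X := hQ'.le.trans G.hQ1
  have key := gain_num (X := X) (V := v) (E := (v : ℝ) ^ 719995) (τ := Q / Q.totient)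
    (s := c0 / (2 * CB ^ 2)) (B := CB ^ 2) (Y := X / Q.totient)
    (M2 := ∑ A ∈ red Q, FF Q (S2 v Q (PP v Q)) (Ioc (0 : ℤ) (⌊X⌋₊ : ℕ)) A)
    (P2 := ∑ A ∈ red Q, FF Q (S2 v Q (PP v Q)) (Ioc (0 : ℤ) (⌊X⌋₊ : ℕ)) A ^ 2)
    (by clear * - v hV G L Q hQ2 hX0 hφ; linarith) (by positivity) (by rw [← pow_add]; exact G.hX0) (by positivity) (L.hφ Q hQ2)
    hτV hε hεL (by clear * - v hlog hε hεL hσ hτV; linarith) hσ (by positivity)
    (by clear * - c0 CB hCB1 hc1 hB hc hc0; rw [div_le_div_iff₀ (by positivity) (by norm_num)]; linarith) hc0.le hc1 hc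
    (by field_simp) hδ0 hδ hΨ h1
    (by
      clear * - X Q v h2 hX0 hQ hY hv hV1
      calc _ ≤ X / Q.totient * (v : ℝ) ^ 360310 := by gcongr
        _ ≤ v * v * (v : ℝ) ^ 360310 := by gcongr
        _ = (v : ℝ) ^ (2 + 360310) := by rw [pow_add, sq]
        _ ≤ _ := pow_le_pow_right₀ hV1 (by norm_num))
    (h3.trans (by
      clear * - CB X Q v hV1 hCB1 h4
      rw [inv_div]
      have : (v : ℝ) ^ 7 ≤ (v : ℝ) ^ 719995 := pow_le_pow_right₀ hV1 (by norm_num)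
      gcongr)) h4
  refine key.trans (le_of_eq ?_)
  simp only [Ext, mul_pow, mul_assoc (c0 / (2 * CB ^ 2)), mul_left_comm _ (c0 / (2 * CB ^ 2)),
    ← mul_sum]

/-- the bound beyond one half -/
theorem beyond_main : ∃ c : ℝ, 0 < c ∧ ∃ η : ℝ, 0 < η ∧ ∃ X₀ : ℝ, ∀ X : ℝ, X₀ ≤ X → ∀ Q : ℕ,
    X ^ (1 - η) ≤ Q → (Q : ℝ) ≤ X → (1 / 2 + c) * X * Real.log X ≤ G X Q := by
  obtain ⟨c0, hc0, hc1, v1, hv1⟩ := exists_mass
  obtain ⟨CB, hCB1, hCB⟩ := exists_CB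
  obtain ⟨v2, hv2⟩ := exists_LP
  obtain ⟨X1, hX1⟩ := exists_GP (max v1 v2)
  obtain ⟨s, hs⟩ : ∃ s, s = c0 / (2 * CB ^ 2) := ⟨_, rfl⟩
  have hB : 1 ≤ CB ^ 2 := one_le_pow₀ hCB1
  have hs0 : 0 < s := by rw [hs]; positivity
  have hs1 : s ≤ 1 := by rw [hs, div_le_one (by positivity)]; linarith
  have hsc : s * c0 ≤ 1 := mul_le_one₀ hs1 hc0.le hc1
  obtain ⟨θ, hθ⟩ : ∃ θ, θ = s * c0 / 720000000 := ⟨_, rfl⟩
  have hθ0 : 0 < θ := by rw [hθ]; positivity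
  have hθ1 : θ ≤ 1 / 720000000 := by rw [hθ]; gcongr
  obtain ⟨C, hC1, hC⟩ := exists_card_divisors_le (θ / 2) (by positivity)
  have t1 := (Metric.tendsto_nhds.mp tendsto_psi_div) θ hθ0
  have t2 := (tendsto_rpow_atTop hθ0).eventually_ge_atTop (max 100 (1 / θ))
  have t3 := (tendsto_rpow_atTop (half_pos hθ0)).eventually_ge_atTop (C * 10 ^ (θ / 2))
  have t4 : ∀ᶠ X : ℝ in atTop, ‖Real.log X‖ ≤ 1 / 2 * ‖X ^ θ‖ :=
    (isLittleO_log_rpow_atTop hθ0).bound (by norm_num)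
  have t5 := Real.tendsto_log_atTop.eventually_ge_atTop (1 / θ)
  obtain ⟨X₀, hX₀⟩ := eventually_atTop.mp
    (t1.and (t2.and (t3.and (t4.and (t5.and ((eventually_ge_atTop 2).and
      (eventually_ge_atTop X1)))))))
  refine ⟨500 * θ, by positivity, θ, hθ0, X₀, fun X hX Q hQ hQX => ?_⟩
  obtain ⟨h1, h2, h3, h4, h5, h6, h7⟩ := hX₀ X hX
  have hX0 : 0 < X := by linarith
  have hX1' : 1 ≤ X := by linarith
  obtain ⟨v, hv, gp⟩ := hX1 X h7 Q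
    ((Real.rpow_le_rpow_of_exponent_le hX1' (by linarith)).trans hQ) hQX
  obtain ⟨Lg, ε, lp, hεL⟩ := hv2 v ((le_max_right _ _).trans hv)
  obtain ⟨hQ0, hQ1⟩ := gp.Q_bounds
  have hv' : 1000 ≤ v := le_trans (by norm_num) gp.hv
  have hvv : 1 ≤ v := by omega
  have hV : (1000 : ℝ) ≤ v := by exact_mod_cast hv'
  have hV1 : (1 : ℝ) ≤ v := by clear * - v hV; linarith
  have hQp : 0 < Q := lt_of_lt_of_le (pow_pos hvv _) hQ0
  have hQ1' : (1 : ℝ) ≤ Q := by exact_mod_cast hQp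
  have hL : 0 < Real.log X := Real.log_pos (by linarith)
  have hZ : 100 ≤ X ^ θ := (le_max_left _ _).trans h2
  have hLZ : Real.log (X ^ θ) = θ * Real.log X := Real.log_rpow hX0 _
  have hp2 : (Q : ℝ) = √Q ^ 2 := (Real.sq_sqrt (by linarith)).symm
  have hk2 : √(X / Q) ^ 2 = X / Q := Real.sq_sqrt (by positivity)
  have hp0 : 0 < √(Q : ℝ) := Real.sqrt_pos.mpr (by linarith)
  have hk1 : 1 ≤ √(X / Q) := Real.one_le_sqrt.mpr ((one_le_div (by linarith)).mpr hQX)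
  have hLQ : (1 - θ) * Real.log X ≤ Real.log Q := by
    rw [← Real.log_rpow hX0]; exact Real.log_le_log (by positivity) hQ
  have hl : (1 / 2 - 3 / 2 * θ) * Real.log X ≤ Real.log (√Q / √(X / Q) ^ 2) := by
    clear * - θ X Q hk2 hp0 h6 hQp hX0 hLQ
    rw [hk2, Real.log_div hp0.ne' (by positivity), Real.log_div hX0.ne' (by positivity),
      Real.log_sqrt (by positivity)]
    linarith
  have hθL : θ * Real.log X ≤ 1 / 720000000 * Real.log X := by gcongr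
  have hc : √(X / Q) ^ 2 * (X ^ θ) ^ 125 ≤ √Q := by
    clear * - X Q θ h6 hQp hLZ hL hl hθL
    rw [mul_comm, ← le_div_iff₀ (by positivity),
      ← Real.log_le_log_iff (by positivity) (by positivity), Real.log_pow, hLZ]
    push_cast; linarith
  have hLv : Real.log X ≤ 720000 * Real.log v := by
    have := Real.log_le_log hX0 gp.hX1
    rwa [Real.log_pow, Nat.cast_ofNat] at this
  have hZv : X ^ θ ≤ v := by
    clear * - X θ v h6 hv' hLZ hL hθL hLv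
    rw [← Real.log_le_log_iff (by positivity) (by positivity), hLZ]; linarith
  have c : Par X (X ^ θ) √(X / Q) √Q Q := by
    clear * - X θ Q hZ hk1 hp2 hk2 hQp h6 hc s c0 hsc hθ hθ0 hL h4 hX0 C hC hC1 h3
    refine ⟨hZ, hk1, hp2, by rw [hk2, ← hp2]; field_simp, hc, fun n hn => ?_, fun n hn => ?_⟩
    · have a1 := HH_le n
      have a2 : Real.log n ≤ Real.log (10 * X) := by
        clear * - n X h6 hn a1
        rcases Nat.eq_zero_or_pos n with rfl | h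
        · simpa using Real.log_nonneg (by linarith)
        · exact Real.log_le_log (by exact_mod_cast h) hn
      rw [Real.log_mul (by norm_num) hX0.ne'] at a2
      have a3 := Real.log_le_sub_one_of_pos (show (0 : ℝ) < 10 by norm_num)
      rw [Real.norm_eq_abs, Real.norm_eq_abs, abs_of_pos hL, abs_of_pos (by linarith)] at h4
      linarith
    · refine (hC n).trans ?_
      calc _ ≤ C * (10 * X) ^ (θ / 2) := by gcongr
        _ = C * 10 ^ (θ / 2) * X ^ (θ / 2) := by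
            rw [Real.mul_rpow (by norm_num) hX0.le, mul_assoc]
        _ ≤ X ^ (θ / 2) * X ^ (θ / 2) := by gcongr
        _ = _ := by rw [← Real.rpow_add hX0, add_halves]
  have hψ : (1 - θ) * X ≤ ∑ n ∈ Icc 1 ⌊X⌋₊, vonMangoldt n := by
    clear * - θ X h1 hX0
    rw [Real.dist_eq, abs_lt] at h1
    have := h1.1
    rw [lt_sub_iff_add_lt, lt_div_iff₀ hX0, Chebyshev.psi_eq_psi_coe_floor, psi_eq] at this
    linarith
  have hp1 : (v : ℝ) ^ 359999 ≤ √Q := by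
    refine Real.le_sqrt_of_sq_le ?_
    rw [← pow_mul]; exact_mod_cast hQ0
  have hp3 : √(Q : ℝ) ≤ (v : ℝ) ^ 360000 := by
    refine Real.sqrt_le_iff.mpr ⟨by positivity, ?_⟩
    rw [← pow_mul]; exact_mod_cast hQ1
  have h8 := numeric2 c (δ := θ) (by linarith) (by
      have := (le_max_right _ _).trans h2
      rwa [div_le_iff₀ hθ0, mul_comm] at this) hψ _
    (fun H R R1 t a1 a2 a3 a4 a5 a6 => gain_le gp lp hεL hc0 hc1
      (hv1 v ((le_max_left _ _).trans hv) Q hQp hQ1) hCB1 (hCB v _ gp.hv (PW_PP v Q)) hθ0.le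
      (by linarith) (R1 := R1) (by
        clear * - v R X θ hV1 Q hp1 a3 hV h6 hZv hv'
        have b1 : (v : ℝ) ^ 1201 * (v : ℝ) ^ 41 ≤ R * (v : ℝ) ^ 41 := by
          calc _ ≤ (v : ℝ) ^ 359999 := by
                rw [← pow_add]; exact pow_le_pow_right₀ hV1 (by norm_num)
            _ ≤ 2 * R * (X ^ θ) ^ 40 := hp1.trans a3
            _ ≤ v * R * (v : ℝ) ^ 40 := by gcongr; linarith
            _ = _ := by ring
        exact_mod_cast le_of_mul_le_mul_right b1 (by positivity))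
      (by exact_mod_cast a4.trans hp3) (by
        clear * - R1 v X Q hQp gp θ a5 hk2 hV h6 hZv hv' hV1 a1 a2 a6 hQ0
        have b1 : (R1 : ℝ) ≤ (v : ℝ) ^ 359680 := by
          have b2 : X / Q ≤ v := by rw [div_le_iff₀ (by positivity)]; exact gp.hQ0
          calc _ ≤ 2 * (√(X / Q) ^ 2 * (X ^ θ) ^ 82) := a5
            _ ≤ v * (v * (v : ℝ) ^ 82) := by rw [hk2]; gcongr; linarith
            _ = (v : ℝ) ^ 84 := by ring
            _ ≤ _ := pow_le_pow_right₀ hV1 (by norm_num)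
        exact_mod_cast b1) a1 a2 a6)
  refine le_trans ?_ h8
  rw [hLZ, ← hs]
  generalize Real.log (√Q / √(X / Q) ^ 2) = l at hl
  rw [div_le_iff₀ hθ0] at h5
  have a1 : 1000 * (θ * Real.log X) ≤ s * c0 * Real.log v := by
    clear * - s c0 θ hθ X v hθ0 hLv
    have : s * c0 = 720000000 * θ := by rw [hθ]; ring
    rw [this]; nlinarith
  have a2 : (1 - 10 * θ) * ((1 / 2 - 3 / 2 * θ) * Real.log X - 129 * (θ * Real.log X) - 5) ≤
      (1 - 10 * θ) * (l - 129 * (θ * Real.log X) - 5) := by clear * - θ X l hl s c0 hsc hθ hθ0; gcongr; linarith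
  have a3 : 0 ≤ θ * (θ * Real.log X) := by positivity
  have a4 : (1 / 2 + 500 * θ) * Real.log X ≤ (1 - 10 * θ) * (l - 129 * (θ * Real.log X) - 5) - 4 +
      (s * c0 * (Real.log v - 4) - 1) := by clear * - θ X l s c0 v hsc hθ hθ0 h5 a1 a2 a3; nlinarith
  have a5 := mul_le_mul_of_nonneg_left a4 hX0.le
  linarith

end Pool.Agent.Work.MP_5d318d_nt.Zh
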