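import Pool.Agent.Work.MP_5d318d_nt.Z.Disp

-- merged part: Pool.Agent.Work.MP_5d318d_nt.Z.Fam
section
/-!
# The family of moduli

PLAN.
* `mem_DD`: `Nat.primeFactors_prod`, `Nat.prod_primeFactors_of_squarefree`, squarefreeness of a product of distinct
  primes.  `sum_DD`: `sum_image` (injective by `Nat.primeFactors_prod`).  Sizes: `Finset.prod_le_pow_card`,
  `Finset.pow_card_le_prod`.
* `DD_split`: choose a subset of `i` primes of `d` (`Finset.exists_subset_card_eq`).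
* `le_two_totient`: `φ(d) / d = ∏ (1 - 1 / p) ≥ 1 - 300 / v ^ 1200 ≥ 1 / 2` (`Nat.totient_eq_mul_prod_factors`,
  `one_sub_sum_le_prod` by induction, or `Finset.one_sub_sum_le_prod_one_sub`).
* `sum_inv_tot_DA_le`: `1 / φ(d) ≤ 2 / d`, `DA ⊆ Icc 1 (v ^ 360300)`.
* `kz_split`: both sides by cases, `Nat.totient_mul`, `IsCoprime.mul_right_iff`.
* `kz_eq_kap`: unfold; `Int.emod_emod_of_dvd`, `Nat.modEq_iff_dvd`.
-/

noncomputable section

open Finset Real ArithmeticFunction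

namespace Pool.Agent.Work.MP_5d318d_nt.Zh

open Pool.Agent.Lib.LargeSieve Pool.Agent.Lib.ANT

variable {v Q : ℕ} {Ps : Finset ℕ} {a : ℤ}

theorem mem_DD (hP : ∀ p ∈ Ps, p.Prime) {j d : ℕ} :
    d ∈ DD Ps j ↔ Squarefree d ∧ d.primeFactors ⊆ Ps ∧ d.primeFactors.card = j := by
  simp only [DD, mem_image, mem_powersetCard]
  constructor
  · rintro ⟨S, ⟨hS, hc⟩, rfl⟩
    have h : ∀ p ∈ S, p.Prime := fun p hp => hP p (hS hp)
    rw [Nat.primeFactors_prod h]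
    refine ⟨Finset.squarefree_prod_of_pairwise_isCoprime (fun p hp q hq hpq => ?_)
      fun p hp => (h p hp).squarefree, hS, hc⟩
    exact Nat.coprime_iff_isRelPrime.mp ((Nat.coprime_primes (h p hp) (h q hq)).mpr hpq)
  · rintro ⟨h1, h2, h3⟩
    exact ⟨_, ⟨h2, h3⟩, Nat.prod_primeFactors_of_squarefree h1⟩

theorem sum_DD (hP : ∀ p ∈ Ps, p.Prime) (j : ℕ) (f : ℕ → ℝ) :
    ∑ d ∈ DD Ps j, f d = ∑ S ∈ Ps.powersetCard j, f (∏ p ∈ S, p) := by
  refine sum_image fun S hS T hT h => ?_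
  have hS' := Nat.primeFactors_prod fun p hp => hP p ((mem_powersetCard.mp hS).1 hp)
  have hT' := Nat.primeFactors_prod fun p hp => hP p ((mem_powersetCard.mp hT).1 hp)
  rw [← hS', ← hT']
  exact congrArg _ h

theorem mem_DA {d : ℕ} : d ∈ DA Ps ↔ ∃ j, j ≤ 300 ∧ d ∈ DD Ps j := by
  simp only [DA, mem_biUnion, mem_range, Nat.lt_succ_iff]

theorem DD_lower (hP : PW v Ps) {j d : ℕ} (hd : d ∈ DD Ps j) : v ^ (1200 * j) ≤ d := by
  obtain ⟨S, hS, rfl⟩ := mem_image.mp hd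
  obtain ⟨hT, rfl⟩ := mem_powersetCard.mp hS
  rw [pow_mul]
  exact Finset.pow_card_le_prod _ _ _ fun p hp => (hP p (hT hp)).2.1.le

theorem DD_lower' (hP : PW v Ps) {j d : ℕ} (hj : 0 < j) (hd : d ∈ DD Ps j) :
    v ^ (1200 * j) < d := by
  obtain ⟨S, hS, rfl⟩ := mem_image.mp hd
  obtain ⟨hT, rfl⟩ := mem_powersetCard.mp hS
  have h1 : (v ^ 1200 + 1) ^ S.card ≤ ∏ p ∈ S, p :=
    Finset.pow_card_le_prod _ _ _ fun p hp => (hP p (hT hp)).2.1
  rw [pow_mul]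
  exact (Nat.pow_lt_pow_left (Nat.lt_succ_self _) hj.ne').trans_le h1

theorem DD_upper (hP : PW v Ps) {j d : ℕ} (hd : d ∈ DD Ps j) : d ≤ v ^ (1201 * j) := by
  obtain ⟨S, hS, rfl⟩ := mem_image.mp hd
  obtain ⟨hT, rfl⟩ := mem_powersetCard.mp hS
  rw [pow_mul]
  exact Finset.prod_le_pow_card _ _ _ fun p hp => (hP p (hT hp)).2.2

theorem DA_bounds (hv : 1 ≤ v) (hP : PW v Ps) {d : ℕ} (hd : d ∈ DA Ps) :
    0 < d ∧ d ≤ v ^ 360300 := by
  obtain ⟨j, hj, hd⟩ := mem_DA.mp hd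
  exact ⟨(Nat.pow_pos hv).trans_le (DD_lower hP hd),
    (DD_upper hP hd).trans (Nat.pow_le_pow_right hv (by omega))⟩

theorem DA_of_dvd (hP : ∀ p ∈ Ps, p.Prime) {d f : ℕ} (hd : d ∈ DA Ps) (hf : f ∣ d) :
    f ∈ DA Ps := by
  obtain ⟨j, hj, hd⟩ := mem_DA.mp hd
  obtain ⟨h1, h2, h3⟩ := (mem_DD hP).mp hd
  have h := Nat.primeFactors_mono hf h1.ne_zero
  exact mem_DA.mpr ⟨_, (card_le_card h).trans (h3.le.trans hj),
    (mem_DD hP).mpr ⟨h1.squarefree_of_dvd hf, h.trans h2, rfl⟩⟩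

theorem DA_dvd_lt (hP : PW v Ps) {d f : ℕ} (hd : d ∈ DA Ps) (hf : f ∣ d) (h1 : 1 < f) :
    v ^ 1200 < f := by
  obtain ⟨j, -, hd⟩ := mem_DA.mp hd
  obtain ⟨h2, h3, -⟩ := (mem_DD fun p hp => (hP p hp).1).mp hd
  have hp := Nat.minFac_prime h1.ne'
  exact (hP _ (h3 (Nat.mem_primeFactors.mpr
    ⟨hp, (Nat.minFac_dvd f).trans hf, h2.ne_zero⟩))).2.1.trans_le (Nat.minFac_le (by omega))

theorem DA_coprime_of_le (hP : PW v Ps) {d e : ℕ} (hd : d ∈ DA Ps) (he : 0 < e)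
    (he' : e ≤ v ^ 1200) : e.Coprime d := by
  by_contra h
  have h0 := Nat.gcd_pos_of_pos_left d he
  have h1 : 1 < Nat.gcd e d := by
    have : Nat.gcd e d ≠ 1 := h
    omega
  exact absurd (DA_dvd_lt hP hd (Nat.gcd_dvd_right e d) h1)
    (not_lt.mpr ((Nat.gcd_le_left d he).trans he'))

theorem DA_isCoprime (hP : ∀ p ∈ Ps, p.Prime) (ha : ∀ p ∈ Ps, IsCoprime a (p : ℤ)) {d : ℕ}
    (hd : d ∈ DA Ps) : IsCoprime a (d : ℤ) := by
  obtain ⟨j, -, hd⟩ := mem_DA.mp hd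
  obtain ⟨S, hS, rfl⟩ := mem_image.mp hd
  rw [Nat.cast_prod]
  exact IsCoprime.prod_right fun p hp => ha p ((mem_powersetCard.mp hS).1 hp)

theorem DA_proper (hv : 1 ≤ v) (hP : PW v Ps) {d : ℕ} (hd : d ∈ DA Ps) (hd' : d ∉ DD Ps 300) :
    d ≤ v ^ 359099 := by
  obtain ⟨j, hj, hd⟩ := mem_DA.mp hd
  have : j ≠ 300 := fun h => hd' (h ▸ hd)
  exact (DD_upper hP hd).trans (Nat.pow_le_pow_right hv (by omega))

theorem DD_eq_of_dvd (hP : ∀ p ∈ Ps, p.Prime) {j d d' : ℕ} (hd : d ∈ DD Ps j) (hd' : d' ∈ DD Ps j)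
    (h : d ∣ d') : d = d' := by
  obtain ⟨h1, -, h3⟩ := (mem_DD hP).mp hd
  obtain ⟨h1', -, h3'⟩ := (mem_DD hP).mp hd'
  have := eq_of_subset_of_card_le (Nat.primeFactors_mono h h1'.ne_zero) (h3'.trans h3.symm).le
  rw [← Nat.prod_primeFactors_of_squarefree h1, this, Nat.prod_primeFactors_of_squarefree h1']

theorem DD_split (hP : ∀ p ∈ Ps, p.Prime) {i i' d : ℕ} (hd : d ∈ DD Ps (i + i')) :
    ∃ r ∈ DD Ps i, ∃ q ∈ DD Ps i', r.Coprime q ∧ d = r * q := by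
  have h1 := ((mem_DD hP).mp hd).1
  obtain ⟨S, hS, rfl⟩ := mem_image.mp hd
  obtain ⟨hS, hc⟩ := mem_powersetCard.mp hS
  obtain ⟨T, hT, hT'⟩ := Finset.exists_subset_card_eq (s := S) (n := i) (by omega)
  have e : ∏ p ∈ S, p = (∏ p ∈ T, p) * ∏ p ∈ S \ T, p := by rw [mul_comm, prod_sdiff hT]
  refine ⟨_, mem_image.mpr ⟨T, mem_powersetCard.mpr ⟨hT.trans hS, hT'⟩, rfl⟩, _,
    mem_image.mpr ⟨S \ T, mem_powersetCard.mpr ⟨sdiff_subset.trans hS, ?_⟩, rfl⟩, ?_, e⟩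
  · rw [card_sdiff_of_subset hT]
    omega
  · exact Nat.coprime_of_squarefree_mul (e ▸ h1)

theorem sum_DD_le_split (hP : ∀ p ∈ Ps, p.Prime) (i i' : ℕ) (f : ℕ → ℝ) (hf : ∀ d, 0 ≤ f d) :
    ∑ d ∈ DD Ps (i + i'), f d ≤
      ∑ r ∈ DD Ps i, ∑ q ∈ (DD Ps i').filter (fun q => r.Coprime q), f (r * q) := by
  rw [sum_sigma']
  refine le_trans ?_ (sum_image_le_of_nonneg
    (s := (DD Ps i).sigma fun r => (DD Ps i').filter (fun q => r.Coprime q))
    (g := fun x => x.1 * x.2) (f := f) fun u _ => hf u)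
  refine sum_le_sum_of_subset_of_nonneg (fun d hd => ?_) fun d _ _ => hf d
  obtain ⟨r, hr, q, hq, h, rfl⟩ := DD_split hP hd
  exact mem_image.mpr ⟨⟨r, q⟩, mem_sigma.mpr ⟨hr, mem_filter.mpr ⟨hq, h⟩⟩, rfl⟩

theorem le_two_totient (hv : 2 ≤ v) (hP : PW v Ps) {d : ℕ} (hd : d ∈ DA Ps) :
    d ≤ 2 * d.totient := by
  obtain ⟨j, hj, hd⟩ := mem_DA.mp hd
  obtain ⟨-, h2, h3⟩ := (mem_DD fun p hp => (hP p hp).1).mp hd
  have h6 : 600 ≤ v ^ 1200 := calc
    600 ≤ 2 ^ 10 := by norm_num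
    _ ≤ v ^ 10 := Nat.pow_le_pow_left hv 10
    _ ≤ v ^ 1200 := Nat.pow_le_pow_right (by omega) (by norm_num)
  have h4 : ∏ _p ∈ d.primeFactors, (1 + (-1 / 600) : ℚ) ≤
      ∏ p ∈ d.primeFactors, (1 - (p : ℚ)⁻¹) := by
    refine prod_le_prod (fun _ _ => by norm_num) fun p hp => ?_
    have h7 : (600 : ℚ) ≤ p := by exact_mod_cast h6.trans (hP p (h2 hp)).2.1.le
    have := inv_anti₀ (by norm_num) h7
    linarith
  rw [prod_const, h3] at h4
  have h5 := (one_add_mul_le_pow (a := (-1 / 600 : ℚ)) (by norm_num) j).trans h4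
  have hj' : (j : ℚ) ≤ 300 := by exact_mod_cast hj
  have h8 : (d : ℚ) ≤ 2 * d.totient := by
    rw [Nat.totient_eq_mul_prod_factors]
    have h0 : (0 : ℚ) ≤ d := Nat.cast_nonneg d
    nlinarith
  exact_mod_cast h8

theorem sum_inv_tot_DA_le (hv : 2 ≤ v) (hP : PW v Ps) :
    ∑ d ∈ DA Ps, (d.totient : ℝ)⁻¹ ≤ 2 * HH (v ^ 360300) := by
  rw [HH, mul_sum]
  refine le_trans (sum_le_sum fun d hd => ?_) (sum_le_sum_of_subset_of_nonneg
    (fun d hd => mem_Icc.mpr (DA_bounds (by omega) hP hd)) fun d _ _ => by positivity)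
  have h0 := (DA_bounds (by omega) hP hd).1
  have h1 : (0 : ℝ) < d := by exact_mod_cast h0
  have h2 : (0 : ℝ) < d.totient := by exact_mod_cast Nat.totient_pos.mpr h0
  have h3 : (d : ℝ) ≤ 2 * d.totient := by exact_mod_cast le_two_totient hv hP hd
  rw [mul_one_div, inv_eq_one_div, div_le_div_iff₀ h2 h1]
  linarith

theorem sum_abs_kz_DA_le (H : ZP v Q Ps a) {x : ℤ} (hx : x ≠ a)
    (hx' : x.natAbs ≤ v ^ 720010) : ∑ d ∈ DA Ps, |kz d a x| ≤ 3 * v := by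
  have hv : 2 ≤ v := le_trans (by norm_num) H.hv
  have h1 := sum_inv_tot_DA_le hv H.hP
  have h2 := (H.hτ (v ^ 360300) (Nat.pow_le_pow_right (by omega) (by norm_num))).2
  have h3 : (x - a).natAbs ≤ v ^ 2160000 := calc
    (x - a).natAbs ≤ x.natAbs + a.natAbs := Int.natAbs_sub_le x a
    _ ≤ v ^ 720010 + v ^ 720010 :=
      add_le_add hx' (H.ha.trans (Nat.pow_le_pow_right (by omega) (by norm_num)))
    _ ≤ v ^ 720010 * v := by rw [← mul_two]; exact Nat.mul_le_mul_left _ hv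
    _ = v ^ 720011 := (pow_succ _ _).symm
    _ ≤ v ^ 2160000 := Nat.pow_le_pow_right (by omega) (by norm_num)
  have h4 := (H.hτ _ h3).1
  have h5 : (((DA Ps).filter fun q : ℕ => (q : ℤ) ∣ x - a).card : ℝ) ≤
      (x - a).natAbs.divisors.card := by exact_mod_cast card_dvd_le_tau _ (sub_ne_zero.mpr hx)
  refine (sum_le_sum fun d _ => abs_kz_le d a x).trans ?_
  rw [sum_add_distrib, sum_boole]
  linarith

theorem kz_split {r q : ℕ} (h : r.Coprime q) (a x : ℤ) :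
    kz (r * q) a x = kr r q a x +
      (if IsCoprime x (q : ℤ) then (q.totient : ℝ)⁻¹ else 0) * kz r a x := by
  have h1 : (r : ℤ) * q ∣ x - a ↔ (r : ℤ) ∣ x - a ∧ (q : ℤ) ∣ x - a :=
    ⟨fun h' => ⟨dvd_of_mul_right_dvd h', dvd_of_mul_left_dvd h'⟩,
      fun h' => (Nat.isCoprime_iff_coprime.mpr h).mul_dvd h'.1 h'.2⟩
  simp only [kr, kz, h1, IsCoprime.mul_right_iff, Nat.totient_mul h, Nat.cast_mul, mul_inv]
  by_cases c1 : (r : ℤ) ∣ x - a <;> by_cases c2 : (q : ℤ) ∣ x - a <;>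
    by_cases c3 : IsCoprime x (r : ℤ) <;> by_cases c4 : IsCoprime x (q : ℤ) <;>
    simp only [c1, c2, c3, c4, and_self, and_true, and_false, if_true, if_false] <;> ring

theorem kz_eq_kap {q : ℕ} (hq : 0 < q) (a : ℤ) (n : ℕ) :
    kz q a n = kap q (a % q).toNat n := by
  have h0 : (((a % q).toNat : ℕ) : ℤ) = a % q :=
    Int.toNat_of_nonneg (Int.emod_nonneg a (by omega))
  have h1 : (q : ℤ) ∣ (n : ℤ) - a ↔ n ≡ (a % q).toNat [MOD q] := by
    rw [Nat.modEq_iff_dvd, h0, ← Int.modEq_iff_dvd, ← Int.modEq_iff_dvd]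
    exact ⟨fun h => h.symm.trans (Int.mod_modEq a q).symm,
      fun h => (h.trans (Int.mod_modEq a q)).symm⟩
  simp only [kz, kap, h1, Nat.isCoprime_iff_coprime, one_div]

theorem coprime_toNat_mod {q : ℕ} (hq : 0 < q) {a : ℤ} (ha : IsCoprime a (q : ℤ)) :
    Nat.Coprime (a % q).toNat q := by
  rw [← Nat.isCoprime_iff_coprime, Int.toNat_of_nonneg (Int.emod_nonneg a (by omega)),
    Int.emod_def, sub_eq_add_neg, ← mul_neg]
  exact ha.add_mul_left_left _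

end Pool.Agent.Work.MP_5d318d_nt.Zh
end
end

-- merged part: Pool.Agent.Work.MP_5d318d_nt.Z.One
section
/-!
# Type I sums

PLAN.
* `mono_per_le`: group `m` by its class modulo `s` (`sum_fiberwise`), compare each class sum with the class `0` by
  `class_sum_le` (both directions); compare the proof of `typeI_le` in `Lib/LargeSieve/Vaughan`.
* `ker_zero`, `ker_abs`: `x = x1 + e * x2` with `x1 ∈ range e`, `x2 ∈ range d` (`Finset.sum_range_mul`-type lemma,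
  `Nat.sum_range_mul`, or `Finset.sum_product'` with `Nat.divModEquiv`/`finProdFinEquiv`; an induction on `d` with
  `sum_range_add` gives `∑ x ∈ range (e * d), f x = ∑ x2 ∈ range d, ∑ x1 ∈ range e, f (e * x2 + x1)`).  If `w` is
  prime to `d` use `sum_kz_eq_zero`, `sum_abs_kz_period` with the unit `w e` and the shift `w x1`; otherwise all terms
  vanish by `kz_eq_zero`.
* `one_term`: if `u` is not prime to `Q` the sum vanishes.  Otherwise `ite_coprime_eq` for `n`, swap, `n = g n'`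
  (`n' ≤ X / g`), `mono_per_le` with `s = e * d` and the weight `n' ↦ F (g n')`.
* `KB_typeI`: sum over `d ≤ v ^ 360300` (`DA_bounds`) and `u ≤ v ^ 359400`.
-/

noncomputable section

open Finset Real ArithmeticFunction

namespace Pool.Agent.Work.MP_5d318d_nt.Zh

open Pool.Agent.Lib.LargeSieve Pool.Agent.Lib.ANT

variable {v Q : ℕ} {Ps : Finset ℕ} {a : ℤ}

theorem mono_per_le {s : ℕ} (hs : 0 < s) (κ : ℕ → ℝ) (hper : ∀ n, κ (n + s) = κ n)
    (h0 : ∑ x ∈ range s, κ x = 0) (F : ℕ → ℝ) (hF : Monotone F) (hF0 : ∀ m, 0 ≤ F m) (X : ℕ) :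
    |∑ m ∈ Icc 1 X, F m * κ m| ≤ F X * ∑ x ∈ range s, |κ x| := by
  have : NeZero s := ⟨hs.ne'⟩
  obtain ⟨T, hT⟩ : ∃ T : ℕ → ℝ, ∀ x, T x =
    ∑ m ∈ (Icc 1 X).filter (fun m : ℕ => (m : ZMod s) = (x : ℕ)), F m := ⟨_, fun _ => rfl⟩
  have e : ∑ m ∈ Icc 1 X, F m * κ m = ∑ x ∈ range s, (T x - T 0) * κ x := by
    simp only [sub_mul]
    rw [sum_sub_distrib, ← mul_sum, h0, mul_zero, sub_zero, ← sum_fiberwise_of_maps_to
      (g := (· % s)) (t := range s) fun m _ => mem_range.2 (Nat.mod_lt _ hs)]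
    refine sum_congr rfl fun x hx => ?_
    rw [hT, sum_mul]
    refine sum_congr (filter_congr fun m _ => ?_) fun m hm => ?_
    · rw [ZMod.natCast_eq_natCast_iff', Nat.mod_eq_of_lt (mem_range.1 hx)]
    · rw [← Function.Periodic.map_mod_nat hper m, (ZMod.natCast_eq_natCast_iff' _ _ _).1
        (mem_filter.1 hm).2, Nat.mod_eq_of_lt (mem_range.1 hx)]
  rw [e, mul_sum]
  refine (abs_sum_le_sum_abs _ _).trans (sum_le_sum fun x _ => ?_)
  rw [abs_mul]
  refine mul_le_mul_of_nonneg_right ?_ (abs_nonneg _)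
  have h1 := class_sum_le F hF hF0 X ((x : ℕ) : ZMod s) (0 : ℕ)
  have h2 := class_sum_le F hF hF0 X ((0 : ℕ) : ZMod s) (x : ℕ)
  rw [← hT, ← hT] at h1 h2
  rw [abs_le]
  constructor <;> linarith

theorem One_split (f : ℕ → ℝ) (e d : ℕ) :
    ∑ x ∈ range (e * d), f x = ∑ x ∈ range e, ∑ y ∈ range d, f (e * y + x) := by
  induction d with
  | zero => simp
  | succ d ih => simp only [Nat.mul_succ, sum_range_add, ih, sum_range_succ, sum_add_distrib]

theorem One_ker (d e : ℕ) (a w : ℤ) (φ : ℝ → ℝ) :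
    ∑ x ∈ range (e * d), φ (if (e : ℤ) ∣ w * x - a then kz d a (w * x) else 0) =
      ∑ x ∈ range e, ∑ y ∈ range d,
        φ (if (e : ℤ) ∣ w * x - a then kz d a (y * (w * e) + w * x) else 0) := by
  rw [One_split]
  refine sum_congr rfl fun x _ => sum_congr rfl fun y _ => congrArg φ (if_congr ?_ ?_ rfl)
  · rw [show w * ((e * y + x : ℕ) : ℤ) - a = w * x - a + e * (w * y) by push_cast; ring,
      dvd_add_left (dvd_mul_right _ _)]
  · rw [show w * ((e * y + x : ℕ) : ℤ) = y * (w * e) + w * x by push_cast; ring]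

theorem ker_zero {d e : ℕ} (hd : 0 < d) (hc : e.Coprime d) (ha : IsCoprime a (d : ℤ)) (w : ℤ) :
    ∑ x ∈ range (e * d), (if (e : ℤ) ∣ w * x - a then kz d a (w * x) else 0) = 0 := by
  by_cases c : IsCoprime w (d : ℤ)
  · refine (One_ker d e a w id).trans (sum_eq_zero fun x _ => ?_)
    split_ifs
    · exact sum_kz_eq_zero hd a (c.mul_left (Nat.isCoprime_iff_coprime.2 hc)) _
    · simp
  · exact sum_eq_zero fun x _ => by rw [kz_eq_zero ha fun h => c h.of_mul_left_left, ite_self]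

theorem ker_abs {d e : ℕ} (hd : 0 < d) (hc : e.Coprime d) (ha : IsCoprime a (d : ℤ)) (w : ℤ) :
    ∑ x ∈ range (e * d), |if (e : ℤ) ∣ w * x - a then kz d a (w * x) else 0| ≤ 2 * e := by
  by_cases c : IsCoprime w (d : ℤ)
  · rw [One_ker d e a w abs]
    refine (sum_le_card_nsmul _ _ 2 fun x _ => ?_).trans (by simp [mul_comm])
    split_ifs
    · exact sum_abs_kz_period hd a (c.mul_left (Nat.isCoprime_iff_coprime.2 hc)) _
    · simp
  · rw [sum_eq_zero fun x _ => by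
      rw [kz_eq_zero ha fun h => c h.of_mul_left_left, ite_self, abs_zero]]
    positivity

theorem One_mul {g : ℕ} (hg : 0 < g) (G : ℕ → ℝ) (X : ℕ) :
    ∑ n ∈ Icc 1 X, (if g ∣ n then G n else 0) = ∑ n ∈ Icc 1 (X / g), G (g * n) := by
  rw [← sum_filter]
  refine (sum_bij (fun n _ => g * n) (fun n hn => ?_) (fun n _ m _ h => ?_) (fun n hn => ?_)
    fun _ _ => rfl).symm
  · rw [mem_Icc, Nat.le_div_iff_mul_le hg, mul_comm] at hn
    exact mem_filter.2 ⟨mem_Icc.2 ⟨Nat.mul_pos hg hn.1, hn.2⟩, dvd_mul_right _ _⟩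
  · exact Nat.eq_of_mul_eq_mul_left hg h
  · obtain ⟨h, m, rfl⟩ := mem_filter.1 hn
    rw [mem_Icc] at h
    exact ⟨m, mem_Icc.2 ⟨Nat.pos_of_mul_pos_left h.1,
      (Nat.le_div_iff_mul_le hg).2 (mul_comm g m ▸ h.2)⟩, rfl⟩

theorem one_term (hQ : 0 < Q) {d e : ℕ} (hd : 0 < d) (he : 0 < e) (hc : e.Coprime d)
    (ha : IsCoprime a (d : ℤ)) (F : ℕ → ℝ) (hF : Monotone F) (hF0 : ∀ m, 0 ≤ F m) (u X : ℕ) :
    |∑ n ∈ Icc 1 X, if (u * n).Coprime Q ∧ (e : ℤ) ∣ ((u * n : ℕ) : ℤ) - a then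
      F n * kz d a ((u * n : ℕ) : ℤ) else 0| ≤ Q.divisors.card * (F X * (2 * e)) := by
  have p0 : 0 ≤ F X * (2 * e) := mul_nonneg (hF0 X) (by positivity)
  by_cases c : u.Coprime Q
  swap
  · rw [sum_eq_zero fun n _ => if_neg fun h => c h.1.coprime_mul_right, abs_zero]
    positivity
  obtain ⟨κ, hκ⟩ : ∃ κ : ℤ → ℝ, ∀ x, κ x = if (e : ℤ) ∣ x - a then kz d a x else 0 :=
    ⟨_, fun _ => rfl⟩
  have e1 : ∀ n : ℕ, (if (u * n).Coprime Q ∧ (e : ℤ) ∣ ((u * n : ℕ) : ℤ) - a then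
      F n * kz d a ((u * n : ℕ) : ℤ) else 0) =
      ∑ g ∈ Q.divisors, if g ∣ n then muR g * (F n * κ (u * n)) else 0 := fun n => by
    have := congrArg (· * (F n * κ (u * n))) (ite_coprime_eq hQ.ne' n)
    simp only [sum_mul, ite_mul, zero_mul, one_mul, Int.natCast_dvd_natCast,
      Nat.isCoprime_iff_coprime] at this
    rw [← this, hκ]
    simp only [Nat.coprime_mul_iff_left, Nat.cast_mul, and_iff_right c, ite_and, mul_ite, mul_zero]
  simp only [e1]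
  rw [sum_comm]
  refine (abs_sum_le_sum_abs _ _).trans ((sum_le_card_nsmul _ _ _ fun g hg => ?_).trans
    (nsmul_eq_mul _ _).le)
  have g0 := Nat.pos_of_mem_divisors hg
  rw [One_mul g0, ← mul_sum, abs_mul]
  refine (mul_le_of_le_one_left (abs_nonneg _) (abs_muR_le g)).trans ?_
  have h := mono_per_le (Nat.mul_pos he hd) (fun n => κ (u * g * n)) (fun n => by
      rw [hκ, hκ]
      refine if_congr ?_ ?_ rfl
      · rw [show (u : ℤ) * g * ((n + e * d : ℕ) : ℤ) - a = u * g * n - a + e * (u * g * d) by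
          push_cast; ring, dvd_add_left (dvd_mul_right _ _)]
      · rw [show (u : ℤ) * g * ((n + e * d : ℕ) : ℤ) = u * g * n + d * (u * g * e) by
          push_cast; ring, kz_per])
    (by simp only [hκ]; exact ker_zero hd hc ha _) (fun n => F (g * n))
    (fun n m h => hF (Nat.mul_le_mul_left g h)) (fun n => hF0 _) (X / g)
  simp only [Nat.cast_mul, ← mul_assoc (u : ℤ)]
  refine h.trans (mul_le_mul (hF (Nat.mul_div_le _ _)) ?_ (by positivity) (hF0 X))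
  simp only [hκ]
  exact ker_abs hd hc ha _

theorem KB_typeI (H : ZP v Q Ps a) {e : ℕ} (he : 0 < e) (hev : e ≤ v) (y : ℕ) (f F : ℕ → ℝ)
    (hf : ∀ u, |f u| ≤ 1) (hf0 : ∀ u, v ^ 359400 < u → f u = 0) (hF : Monotone F)
    (hF0 : ∀ n, 0 ≤ F n) (hF1 : F y ≤ v) : KB Q Ps a e y f F ≤ (v : ℝ) ^ 719710 := by
  have v1 : 1 ≤ v := le_trans (by norm_num) H.hv
  have v2 : (2 : ℝ) ≤ v := by exact_mod_cast le_trans (by norm_num) H.hv
  have hq : (Q.divisors.card : ℝ) ≤ v :=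
    (H.hτ Q (H.hQ1.trans (Nat.pow_le_pow_right v1 (by norm_num)))).1
  have he' : (e : ℝ) ≤ v := by exact_mod_cast hev
  have key : ∀ d ∈ DA Ps, |∑ m ∈ Icc 1 y, ∑ n ∈ Icc 1 (y / m),
      if (m * n).Coprime Q ∧ (e : ℤ) ∣ ((m * n : ℕ) : ℤ) - a then
        f m * F n * kz d a ((m * n : ℕ) : ℤ) else 0| ≤ (v : ℝ) ^ 359404 := fun d hd => by
    have b : ∀ m ∈ Icc 1 y, |∑ n ∈ Icc 1 (y / m),
        if (m * n).Coprime Q ∧ (e : ℤ) ∣ ((m * n : ℕ) : ℤ) - a then
          f m * F n * kz d a ((m * n : ℕ) : ℤ) else 0| ≤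
        if m ≤ v ^ 359400 then (v : ℝ) ^ 4 else 0 := fun m _ => by
      split_ifs with c
      · have h := one_term H.hQ0 (DA_bounds v1 H.hP hd).1 he
          (DA_coprime_of_le H.hP hd he (hev.trans (Nat.le_self_pow (by norm_num) v)))
          (DA_isCoprime (fun p hp => (H.hP p hp).1) H.hPa hd) F hF hF0 m (y / m)
        rw [sum_congr rfl fun n _ => (by rw [mul_ite, mul_zero, mul_assoc] : _ = f m *
          if (m * n).Coprime Q ∧ (e : ℤ) ∣ ((m * n : ℕ) : ℤ) - a then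
            F n * kz d a ((m * n : ℕ) : ℤ) else 0), ← mul_sum, abs_mul]
        refine (mul_le_of_le_one_left (abs_nonneg _) (hf m)).trans (h.trans ?_)
        have f1 : F (y / m) ≤ v := (hF (Nat.div_le_self _ _)).trans hF1
        calc _ ≤ v * (v * (v * v) : ℝ) := by have := hF0 (y / m); gcongr
          _ = _ := by ring
      · simp [hf0 m (not_le.1 c)]
    refine (abs_sum_le_sum_abs _ _).trans ((sum_le_sum b).trans ?_)
    rw [← sum_filter, sum_const, nsmul_eq_mul, show 359404 = 359400 + 4 from rfl, pow_add]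
    refine mul_le_mul_of_nonneg_right ?_ (by positivity)
    have : ((Icc 1 y).filter (· ≤ v ^ 359400)).card ≤ (Icc 1 (v ^ 359400)).card :=
      card_le_card fun m hm => mem_Icc.2 ⟨(mem_Icc.1 (mem_filter.1 hm).1).1, (mem_filter.1 hm).2⟩
    rw [Nat.card_Icc, Nat.add_sub_cancel] at this
    exact_mod_cast this
  refine (sum_le_card_nsmul _ _ _ key).trans ?_
  have : (DA Ps).card ≤ (Icc 1 (v ^ 360300)).card :=
    card_le_card fun d hd => mem_Icc.2 (DA_bounds v1 H.hP hd)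
  rw [Nat.card_Icc, Nat.add_sub_cancel] at this
  have c : ((DA Ps).card : ℝ) ≤ (v : ℝ) ^ 360300 := by exact_mod_cast this
  rw [nsmul_eq_mul]
  refine (mul_le_mul_of_nonneg_right c (by positivity)).trans ?_
  rw [← pow_add]
  exact pow_le_pow_right₀ (one_le_two.trans v2) (by norm_num)

end Pool.Agent.Work.MP_5d318d_nt.Zh
end
end

-- merged part: Pool.Agent.Work.MP_5d318d_nt.Z.Box
section
/-!
# Bilinear forms on one box

PLAN.
Throughout `M = v ^ J`, `N = v ^ K`.  Keep powers of `v` symbolic: compare them with `pow_le_pow_right₀`,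
`pow_add`, `omega`; never let `norm_num`/`simp` evaluate `v ^ 720000` or `10 ^ 12` against them.
* `ls_le`: `typeII_le` with index set `I`, `q = id`, `a d = (a % d).toNat`, `w = v ^ 20`, `E = 17955`,
  `B = 2 M N / v ^ 40` (`kz_eq_kap`, `coprime_toNat_mod`, `DA_isCoprime`, `le_two_totient`, `DA_dvd_lt`).  For
  `2 ≤ j < E` put `W = w ^ j`, `v ^ 40 ≤ W ≤ v ^ 359080`, `c = v ^ 41 ≥ w ^ 2 * HH ..`; the left side of the condition
  is at most `M N (M N + W ^ 2 c (M + N) + W ^ 4 c ^ 2)` and each of the three terms is at most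
  `W ^ 2 M N / v ^ 80`.  Finally `v * (2 v * (17955 * B)) ≤ M N / v ^ 36`.
* `top_le`: `disp_cut` and `disp` with `R0 = v ^ (1200 i)`, `R1 = v ^ (1201 i)`, `Q0 = v ^ (1200 (300 - i))`,
  `Q1 = v ^ (1201 (300 - i))`, `P0 = v ^ 1200`, `Z = v`, `L = v ^ 110000`, `η = (v ^ 6800)⁻¹`.  One has
  `198 ≤ i ≤ 298`; write `300 - i = i'` with `i + i' = 300`.  Square roots: `√(v ^ (2 n)) = v ^ n`, so
  `√R0 = v ^ (600 i)`, `√R1 ≤ v ^ (601 i)`, `√(Z ^ 3 η) ≤ v ^ 2 / v ^ 3400`,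
  `√(Z ^ 3 (M / (R0 Q0 ^ 2))) ≤ v ^ 2 * v ^ J' / (v ^ (600 i) * Q0)` with `J ≤ 2 J' ≤ J + 1`.  The four terms
  are at most `(M N) ^ 2` times `4 / v ^ 1195`, `8 / v ^ 890`, `8 / v ^ 140`, `8 / v ^ 59`; so the norm is at most
  `M N / v ^ 29`, and `1 + HH (2 N) ≤ v`.
* `box_le`: split `DA Ps` into `DD Ps 300` and the rest (`DA_proper`, `ls_le`).  On `DD Ps 300 = DD Ps (i + i')`,
  `i = (K - 1200) / 1201`, use `sum_DD_le_split`, `kz_split`, `top_le`; the second part is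
  `(φ q)⁻¹ * BX` for the sequences cut to be prime to `q` (`IsCoprime.mul_left_iff`), `ls_le` with `I = DD Ps i`
  (`DD_upper`), `sum_inv_tot_DA_le`.
-/

noncomputable section

open Finset Real ArithmeticFunction

namespace Pool.Agent.Work.MP_5d318d_nt.Zh

open Pool.Agent.Lib.LargeSieve Pool.Agent.Lib.ANT

variable {v Q : ℕ} {Ps : Finset ℕ} {a : ℤ}

theorem Box_v (H : ZP v Q Ps a) : 100000 ≤ v := le_trans (by norm_num) H.hv

theorem Box_x (H : ZP v Q Ps a) : (100000 : ℝ) ≤ v := by exact_mod_cast Box_v H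

theorem Box_dv {x : ℝ} (hx : 1 ≤ x) {i j k l : ℕ} (h : i + l ≤ k + j) :
    x ^ i / x ^ j ≤ x ^ k / x ^ l := by
  have h0 : 0 < x := by linarith
  rw [div_le_div_iff₀ (pow_pos h0 _) (pow_pos h0 _), ← pow_add, ← pow_add]
  exact pow_le_pow_right₀ hx h

theorem Box_dv' {x : ℝ} (hx : 1 ≤ x) {i j k : ℕ} (h : i ≤ k + j) : x ^ i / x ^ j ≤ x ^ k := by
  have := Box_dv hx (i := i) (j := j) (k := k) (l := 0) h
  rwa [pow_zero, div_one] at this

theorem Box_eq {x : ℝ} (hx : 1 ≤ x) {i j k : ℕ} (h : i = k + j) : x ^ i / x ^ j = x ^ k := by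
  have h0 : 0 < x := by linarith
  rw [h, pow_add, mul_div_cancel_right₀ _ (pow_pos h0 _).ne']

theorem Box_H (H : ZP v Q Ps a) {n k : ℕ} (h : n ≤ v ^ k) (hk : k ≤ 2160000) : 1 + HH n ≤ v :=
  (H.hτ n (h.trans (Nat.pow_le_pow_right (by have := Box_v H; omega) hk))).2

theorem Box_H2 (H : ZP v Q Ps a) {k : ℕ} (hk : k < 2160000) : 1 + HH (2 * v ^ k) ≤ v := by
  refine Box_H H (k := k + 1) ?_ hk
  rw [pow_succ']
  exact Nat.mul_le_mul_right _ (by have := Box_v H; omega)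

theorem Box_sq (M : ℕ) {α : ℕ → ℝ} (hα : ∀ m, |α m| ≤ 1) : ∑ m ∈ range M, α m ^ 2 ≤ M := by
  calc _ ≤ ∑ _m ∈ range M, (1 : ℝ) := sum_le_sum fun m _ => (sq_le_one_iff_abs_le_one _).2 (hα m)
    _ = M := by simp

theorem ls_le (H : ZP v Q Ps a) (I : Finset ℕ) (hI : ∀ d ∈ I, d ∈ DA Ps ∧ d ≤ v ^ 359099)
    {J K : ℕ} (hKJ : K ≤ J) (hK : 239957 ≤ K) (hJK : 719960 ≤ J + K) (hJK' : J + K ≤ 720003)
    (α β : ℕ → ℝ) (hα : ∀ m, |α m| ≤ 1) (hβ : ∀ n, |β n| ≤ 1) (g : ℕ → ℕ)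
    (hg : ∀ m, g m < v ^ K) :
    ∑ d ∈ I, |BX (v ^ J) (v ^ K) α β g (kz d a)| ≤ (v : ℝ) ^ (J + K) / (v : ℝ) ^ 36 := by
  have hv := Box_v H
  have hx := Box_x H
  have hx1 : (1 : ℝ) ≤ v := by linarith
  have hP : ∀ p ∈ Ps, p.Prime := fun p hp => (H.hP p hp).1
  obtain ⟨D, hD⟩ : ∃ D, J + K = D + 40 := ⟨J + K - 40, by omega⟩
  obtain ⟨E, hE⟩ : ∃ E : ℕ, E = 17955 := ⟨_, rfl⟩
  have h0 : ∀ d ∈ I, 0 < d := fun d hd => (DA_bounds (by omega) H.hP (hI d hd).1).1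
  have hH1 : HH ((v ^ 20) ^ (2 * E)) ≤ v := by
    have := Box_H H (n := (v ^ 20) ^ (2 * E)) (k := 20 * (2 * E)) (pow_mul _ _ _).ge (by omega)
    linarith
  have hH2 : HH ((v ^ 20) ^ E) ≤ v := by
    have := Box_H H (n := (v ^ 20) ^ E) (k := 20 * E) (pow_mul _ _ _).ge (by omega)
    linarith
  have key := typeII_le I id (fun d => (a % d).toNat) (Set.injOn_id _) (v ^ 20) E
    (le_trans (by omega) (Nat.le_self_pow (by norm_num) v)) h0
    (fun d hd => lt_of_le_of_lt (hI d hd).2 (by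
      rw [← pow_mul]
      exact Nat.pow_lt_pow_right (by omega) (by omega)))
    (fun d hd => le_two_totient (by omega) H.hP (hI d hd).1)
    (fun d hd f hf h1 => le_trans (by
      rw [← pow_mul]
      exact Nat.pow_le_pow_right (by omega) (by omega)) (DA_dvd_lt H.hP (hI d hd).1 hf h1).le)
    (fun d hd => coprime_toNat_mod (h0 d hd) (DA_isCoprime hP H.hPa (hI d hd).1))
    (v ^ J) (v ^ K) (by positivity) α β g hg (2 * (v : ℝ) ^ D) (by positivity) (fun j hj => by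
      obtain ⟨hj1, hj2⟩ := mem_Ico.1 hj
      have c1 : (((v ^ 20 : ℕ) : ℝ)) ^ (2 * j + 2) * HH ((v ^ 20) ^ (2 * E)) ≤
          (v : ℝ) ^ (40 * j + 41) := by
        rw [Nat.cast_pow, ← pow_mul, show 40 * j + 41 = 20 * (2 * j + 2) + 1 by omega, pow_succ]
        exact mul_le_mul_of_nonneg_left hH1 (by positivity)
      have c0 := HH_nonneg ((v ^ 20) ^ (2 * E))
      have s1 := Box_sq (v ^ J) hα
      have s2 := Box_sq (v ^ K) hβ
      have t1 := pow_le_pow_right₀ hx1 (show J + J + K + K ≤ 40 * j + 2 * D by omega)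
      have t2 := pow_le_pow_right₀ hx1
        (show J + J + (40 * j + 41) + K ≤ 40 * j + 2 * D by omega)
      have t3 := pow_le_pow_right₀ hx1
        (show 40 * j + 41 + J + K + K ≤ 40 * j + 2 * D by omega)
      have t4 := pow_le_pow_right₀ hx1
        (show 40 * j + 41 + J + (40 * j + 41) + K ≤ 40 * j + 2 * D by omega)
      rw [Nat.cast_pow] at s1 s2
      calc _ ≤ (((v : ℝ) ^ J + (v : ℝ) ^ (40 * j + 41)) * (v : ℝ) ^ J) *
            (((v : ℝ) ^ K + (v : ℝ) ^ (40 * j + 41)) * (v : ℝ) ^ K) := by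
            rw [Nat.cast_pow v J, Nat.cast_pow v K]
            gcongr
        _ = (v : ℝ) ^ (J + J + K + K) + (v : ℝ) ^ (J + J + (40 * j + 41) + K) +
            (v : ℝ) ^ (40 * j + 41 + J + K + K) +
            (v : ℝ) ^ (40 * j + 41 + J + (40 * j + 41) + K) := by ring
        _ ≤ 4 * (v : ℝ) ^ (40 * j + 2 * D) := by linarith
        _ = _ := by rw [Nat.cast_pow]; ring)
  have e : ∑ d ∈ I, |BX (v ^ J) (v ^ K) α β g (kz d a)| = _ :=
    sum_congr rfl fun d hd => by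
      simp only [BX, ← Nat.cast_mul, kz_eq_kap (h0 d hd)]
      rfl
  rw [e]
  refine key.trans ?_
  rw [Box_eq hx1 (k := D + 4) (by omega)]
  have h2 := Box_H2 H (k := K) (by omega)
  have h3 := HH_nonneg ((v ^ 20) ^ E)
  have hE' : (E : ℝ) = 17955 := by rw [hE]; norm_num
  calc _ ≤ (v : ℝ) * (2 * v * (E * (2 * (v : ℝ) ^ D))) := by gcongr
    _ = 71820 * (v : ℝ) ^ (D + 2) := by rw [hE']; ring
    _ ≤ v * (v : ℝ) ^ (D + 3) := by
        have := pow_le_pow_right₀ hx1 (show D + 2 ≤ D + 3 by omega)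
        gcongr
        linarith
    _ = _ := by ring

theorem Box_DD (H : ZP v Q Ps a) {i r : ℕ} (hi : i ≤ 300) (hr : r ∈ DD Ps i) :
    Squarefree r ∧ (∀ p ∈ r.primeFactors, v ^ 1200 < p) ∧ v ^ (1200 * i) ≤ r ∧
      r ≤ v ^ (1201 * i) ∧ IsCoprime a (r : ℤ) := by
  have hP : ∀ p ∈ Ps, p.Prime := fun p hp => (H.hP p hp).1
  have h := (mem_DD hP).1 hr
  exact ⟨h.1, fun p hp => (H.hP p (h.2.1 hp)).2.1, DD_lower H.hP hr, DD_upper H.hP hr,
    DA_isCoprime hP H.hPa (mem_DA.2 ⟨i, hi, hr⟩)⟩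

theorem Box_eta {x : ℝ} (hx : 10 ^ 12 ≤ x) {i K : ℕ} (hi : 198 ≤ i) (hK : 1201 * i + 1200 ≤ K) :
    16 ^ 16 * (1 / x ^ 110000 + x ^ 9 * (1 / √(x ^ (1200 * i)) + x * √(x ^ (1201 * i)) / x ^ K)) ≤
      ((x ^ 6800)⁻¹) ^ 16 := by
  have hx1 : 1 ≤ x := le_trans (by norm_num) hx
  have h0 : 0 < x := by linarith
  have s0 : √(x ^ (1200 * i)) = x ^ (600 * i) := by
    rw [show 1200 * i = 600 * i * 2 by omega, pow_mul, Real.sqrt_sq (by positivity)]
  have s1 : √(x ^ (1201 * i)) ≤ x ^ (601 * i) := by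
    rw [Real.sqrt_le_left (by positivity), ← pow_mul]
    exact pow_le_pow_right₀ hx1 (by omega)
  obtain ⟨F, hF⟩ : ∃ F : ℕ, F = 108800 := ⟨_, rfl⟩
  obtain ⟨G, hG⟩ : ∃ G : ℕ, G = 110000 := ⟨_, rfl⟩
  have t1 := Box_dv hx1 (show 0 + (F + 2) ≤ 0 + G by omega)
  have t2 := Box_dv hx1 (show 9 + (F + 2) ≤ 0 + 600 * i by omega)
  have t3 := Box_dv hx1 (show 10 + 601 * i + (F + 2) ≤ 0 + K by omega)
  have h2 : 3 * 16 ^ 16 ≤ x ^ 2 := le_trans (by norm_num) (pow_le_pow_left₀ (by norm_num) hx 2)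
  rw [s0, ← hG, inv_pow, ← pow_mul, show 6800 * 16 = F by omega]
  calc _ ≤ 16 ^ 16 * (1 / x ^ G + x ^ 9 * (1 / x ^ (600 * i) + x * x ^ (601 * i) / x ^ K)) := by
        gcongr
    _ = 16 ^ 16 * (x ^ 0 / x ^ G + x ^ 9 / x ^ (600 * i) + x ^ (10 + 601 * i) / x ^ K) := by ring
    _ ≤ 16 ^ 16 * (3 * (x ^ 0 / x ^ (F + 2))) := by
        refine mul_le_mul_of_nonneg_left ?_ (by norm_num)
        linarith
    _ = 3 * 16 ^ 16 * (x ^ (F + 2))⁻¹ := by ring
    _ ≤ x ^ 2 * (x ^ (F + 2))⁻¹ := by gcongr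
    _ = _ := by rw [pow_add]; field_simp

theorem Box_fin {x : ℝ} (hx : 32 ≤ x) {i i' J K D : ℕ} (hii : i + i' = 300) (hi : i ≤ 298)
    (hKJ : K ≤ J) (hJK : 719960 ≤ J + K) (hK : 1201 * i + 1200 ≤ K) (hK' : K < 1201 * i + 2401)
    (hD : J + K = D + 29) :
    x ^ (1201 * i) * x ^ J * (4 * x ^ 5 * (x ^ J * x ^ K) +
      8 * x ^ 6 * (x ^ J * x ^ K) * (x ^ K / x ^ (1200 * i)) / x ^ 1200 +
      8 * x ^ (1201 * i) * (x ^ K / x ^ (1200 * i)) * x ^ K *
        (x ^ (1201 * i') * √(x ^ 3 * (x ^ J / (x ^ (1200 * i) * (x ^ (1200 * i')) ^ 2))) +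
          (x ^ (1201 * i')) ^ 2 * √(x ^ 3 * (x ^ 6800)⁻¹))) ≤ (x ^ D) ^ 2 := by
  have hx1 : 1 ≤ x := by linarith
  have h0 : 0 < x := by linarith
  obtain ⟨J', h1, h2⟩ : ∃ J', J ≤ 2 * J' ∧ 2 * J' ≤ J + 1 := ⟨(J + 1) / 2, by omega, by omega⟩
  obtain ⟨F, hF⟩ : ∃ F, 2 * D = F + 1 := ⟨2 * D - 1, by omega⟩
  obtain ⟨A, hA⟩ : ∃ A : ℕ, A = 1200 := ⟨_, rfl⟩
  obtain ⟨G, hG⟩ : ∃ G : ℕ, G = 3400 := ⟨_, rfl⟩
  have s1 : √(x ^ 3 * (x ^ J / (x ^ (1200 * i) * (x ^ (1200 * i')) ^ 2))) ≤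
      x ^ (2 + J') / x ^ (600 * i + 1200 * i') := by
    rw [Real.sqrt_le_left (by positivity), div_pow, ← pow_mul, ← pow_mul, ← pow_mul, ← pow_add,
      ← mul_div_assoc, ← pow_add]
    exact Box_dv hx1 (by omega)
  have s2 : √(x ^ 3 * (x ^ 6800)⁻¹) ≤ x ^ 2 / x ^ G := by
    rw [Real.sqrt_le_left (by positivity), div_pow, ← pow_mul, ← pow_mul, ← div_eq_mul_inv]
    exact Box_dv hx1 (by omega)
  have t1 := pow_le_pow_right₀ hx1 (show 1201 * i + J + 5 + J + K ≤ F by omega)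
  have t2 := Box_dv' hx1 (show 1201 * i + J + 6 + J + K + K ≤ F + (1200 * i + A) by omega)
  have t3 := Box_dv' hx1 (show 1201 * i + J + 1201 * i + K + K + 1201 * i' + (2 + J') ≤
    F + (1200 * i + (600 * i + 1200 * i')) by omega)
  have t4 := Box_dv' hx1 (show 1201 * i + J + 1201 * i + K + K + 1201 * i' * 2 + 2 ≤
    F + (1200 * i + G) by omega)
  have t0 : 0 < x ^ F := by positivity
  rw [show x ^ 1200 = x ^ A by rw [hA]]
  calc _ ≤ x ^ (1201 * i) * x ^ J * (4 * x ^ 5 * (x ^ J * x ^ K) +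
        8 * x ^ 6 * (x ^ J * x ^ K) * (x ^ K / x ^ (1200 * i)) / x ^ A +
        8 * x ^ (1201 * i) * (x ^ K / x ^ (1200 * i)) * x ^ K *
          (x ^ (1201 * i') * (x ^ (2 + J') / x ^ (600 * i + 1200 * i')) +
            (x ^ (1201 * i')) ^ 2 * (x ^ 2 / x ^ G))) := by gcongr
    _ = 4 * x ^ (1201 * i + J + 5 + J + K) +
        8 * (x ^ (1201 * i + J + 6 + J + K + K) / x ^ (1200 * i + A)) +
        8 * (x ^ (1201 * i + J + 1201 * i + K + K + 1201 * i' + (2 + J')) /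
          x ^ (1200 * i + (600 * i + 1200 * i'))) +
        8 * (x ^ (1201 * i + J + 1201 * i + K + K + 1201 * i' * 2 + 2) / x ^ (1200 * i + G)) := by
        ring
    _ ≤ 32 * x ^ F := by linarith
    _ ≤ x * x ^ F := by gcongr
    _ = _ := by rw [← pow_succ', ← hF, ← pow_mul, mul_comm]

theorem top_le (H : ZP v Q Ps a) {J K i : ℕ} (hKJ : K ≤ J) (hK : 239957 ≤ K)
    (hJK : 719960 ≤ J + K) (hJK' : J + K ≤ 720003) (hi : 1201 * i + 1200 ≤ K)
    (hi' : K < 1201 * i + 2401) (α β : ℕ → ℝ) (hα : ∀ m, |α m| ≤ 1) (hβ : ∀ n, |β n| ≤ 1)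
    (hnd : ∀ n : ℕ, β n ≠ 0 → ¬ (n : ℤ) ∣ a) (g : ℕ → ℕ) (hg : ∀ m, g m < v ^ K) :
    ∑ r ∈ DD Ps i, ∑ q ∈ (DD Ps (300 - i)).filter (fun q => r.Coprime q),
      |BX (v ^ J) (v ^ K) α β g (kr r q a)| ≤ (v : ℝ) ^ (J + K) / (v : ℝ) ^ 28 := by
  have hv := Box_v H
  have hx := Box_x H
  have hx1 : (1 : ℝ) ≤ v := by linarith
  have hx12 : (10 : ℝ) ^ 12 ≤ v := by exact_mod_cast H.hv
  obtain ⟨D, hD⟩ : ∃ D, J + K = D + 29 := ⟨J + K - 29, by omega⟩
  obtain ⟨i', hii, e⟩ : ∃ i', i + i' = 300 ∧ 300 - i = i' := ⟨300 - i, by omega, rfl⟩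
  have pw : ∀ {k l : ℕ}, k ≤ l → v ^ k ≤ v ^ l := fun h => Nat.pow_le_pow_right (by omega) h
  rw [e]
  refine (disp_cut _ _ a _ (by positivity) α β hα hβ g hg (B := (v : ℝ) ^ D)
    fun α' β' c h1 h2 h3 h4 h5 => ?_).trans ?_
  · have hD' : DH (DD Ps i) (DD Ps i') a (v ^ (1200 * i)) (v ^ (1201 * i)) (v ^ (1200 * i'))
        (v ^ (1201 * i')) (v ^ 1200) (v ^ J) (v ^ K) v β' c :=
      ⟨fun r hr => Box_DD H (by omega) hr, fun r hr => Box_DD H (by omega) hr,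
        le_trans (by omega) (Nat.le_self_pow (by norm_num) v), by positivity, by positivity, h2,
        fun n hn => hnd n (h3 n hn), h4, h5, hx1, fun n hn => H.hτ n (hn.trans (by
          obtain ⟨T, hT⟩ : ∃ T : ℕ, T = 2159999 := ⟨_, rfl⟩
          have u1 : v ^ J * v ^ K ≤ v ^ T := by rw [← pow_add]; exact pw (by omega)
          have u2 : a.natAbs ≤ v ^ T := H.ha.trans (pw (by omega))
          have u3 : v ^ (1201 * i) * (v ^ (1201 * i')) ^ 4 ≤ v ^ T := by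
            rw [← pow_mul, ← pow_add]; exact pw (by omega)
          have u4 : v ^ (1201 * i) ≤ v ^ T := pw (by omega)
          have u5 : v ^ (1201 * i') ≤ v ^ T := pw (by omega)
          calc _ ≤ 5 * v ^ T := by omega
            _ ≤ v * v ^ T := Nat.mul_le_mul_right _ (by omega)
            _ = v ^ (T + 1) := (pow_succ' _ _).symm
            _ ≤ _ := pw (by omega)))⟩
    have h6 := disp hD' (L := v ^ 110000) (η := ((v : ℝ) ^ 6800)⁻¹) (by positivity)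
      (by positivity) (by rw [← pow_add]; exact pw (by omega)) (by positivity) (by
        simp only [Nat.cast_pow]
        exact Box_eta hx12 (by omega) hi) α' h1
    simp only [Nat.cast_pow] at h6
    exact le_of_sq_le_sq (h6.trans (Box_fin (by linarith) hii (by omega) hKJ hJK hi hi' hD))
      (by positivity)
  · rw [Box_eq hx1 (k := D + 1) (by omega), pow_succ']
    exact mul_le_mul_of_nonneg_right (Box_H2 H (by omega)) (by positivity)

theorem Box_split {r q : ℕ} (h : r.Coprime q) (a : ℤ) (M N : ℕ) (α β : ℕ → ℝ) (g : ℕ → ℕ) :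
    BX M N α β g (kz (r * q) a) = BX M N α β g (kr r q a) + (q.totient : ℝ)⁻¹ *
      BX M N (fun m => if IsCoprime (m : ℤ) (q : ℤ) then α m else 0)
        (fun n => if IsCoprime (n : ℤ) (q : ℤ) then β n else 0) g (kz r a) := by
  simp only [BX, mul_sum, ← sum_add_distrib]
  refine sum_congr rfl fun m _ => sum_congr rfl fun n _ => ?_
  rw [kz_split h]
  by_cases h0 : n ≤ g m
  · by_cases h1 : IsCoprime (m : ℤ) (q : ℤ) <;> by_cases h2 : IsCoprime (n : ℤ) (q : ℤ) <;>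
      simp only [h0, h1, h2, IsCoprime.mul_left_iff, if_true, if_false, and_self, and_false,
        false_and] <;> ring
  · simp only [h0, if_false, mul_zero, add_zero]

theorem box_le (H : ZP v Q Ps a) {J K : ℕ} (hKJ : K ≤ J) (hK : 239957 ≤ K)
    (hJK : 719960 ≤ J + K) (hJK' : J + K ≤ 720003) (α β : ℕ → ℝ) (hα : ∀ m, |α m| ≤ 1)
    (hβ : ∀ n, |β n| ≤ 1) (hnd : ∀ n : ℕ, β n ≠ 0 → ¬ (n : ℤ) ∣ a) (g : ℕ → ℕ)
    (hg : ∀ m, g m < v ^ K) :
    ∑ d ∈ DA Ps, |BX (v ^ J) (v ^ K) α β g (kz d a)| ≤ (v : ℝ) ^ (J + K) / (v : ℝ) ^ 26 := by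
  have hv := Box_v H
  have hx := Box_x H
  have hx1 : (1 : ℝ) ≤ v := by linarith
  have hP : ∀ p ∈ Ps, p.Prime := fun p hp => (H.hP p hp).1
  obtain ⟨i, hi, hi'⟩ : ∃ i, 1201 * i + 1200 ≤ K ∧ K < 1201 * i + 2401 :=
    ⟨(K - 1200) / 1201, by omega, by omega⟩
  obtain ⟨D, hD⟩ : ∃ D, J + K = D + 36 := ⟨J + K - 36, by omega⟩
  have h1 := ls_le H (DA Ps \ DD Ps 300) (fun d hd => ⟨(mem_sdiff.1 hd).1,
    DA_proper (by omega) H.hP (mem_sdiff.1 hd).1 (mem_sdiff.1 hd).2⟩) hKJ hK hJK hJK' α β hα hβ g hg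
  have h2 := top_le H hKJ hK hJK hJK' hi hi' α β hα hβ hnd g hg
  have h3 := sum_DD_le_split hP i (300 - i) (fun d => |BX (v ^ J) (v ^ K) α β g (kz d a)|)
    fun _ => abs_nonneg _
  rw [show i + (300 - i) = 300 by omega] at h3
  set F : ℕ → ℕ → ℝ := fun r q => |BX (v ^ J) (v ^ K)
    (fun m => if IsCoprime (m : ℤ) (q : ℤ) then α m else 0)
    (fun n => if IsCoprime (n : ℤ) (q : ℤ) then β n else 0) g (kz r a)| with hF
  have h4 : ∀ q, ∑ r ∈ DD Ps i, F r q ≤ (v : ℝ) ^ (J + K) / (v : ℝ) ^ 36 := fun q =>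
    ls_le H _ (fun d hd => ⟨mem_DA.2 ⟨i, by omega, hd⟩, (DD_upper H.hP hd).trans
      (Nat.pow_le_pow_right (by omega) (by omega))⟩) hKJ hK hJK hJK' _ _
      (fun m => by split_ifs; exacts [hα m, by simp]) (fun n => by split_ifs; exacts [hβ n, by simp])
      g hg
  have h5 : ∑ q ∈ DD Ps (300 - i), (q.totient : ℝ)⁻¹ ≤ 2 * v := by
    have u1 := sum_inv_tot_DA_le (by omega) H.hP
    have u2 := Box_H H (le_refl (v ^ 360300)) (by omega)
    have u3 : ∑ q ∈ DD Ps (300 - i), (q.totient : ℝ)⁻¹ ≤ ∑ d ∈ DA Ps, (d.totient : ℝ)⁻¹ :=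
      sum_le_sum_of_subset_of_nonneg (fun d hd => mem_DA.2 ⟨_, by omega, hd⟩)
        fun _ _ _ => by positivity
    linarith
  rw [Box_eq hx1 hD] at h1 h4
  have h6 : ∑ r ∈ DD Ps i, ∑ q ∈ (DD Ps (300 - i)).filter (fun q => r.Coprime q),
      (q.totient : ℝ)⁻¹ * F r q ≤ 2 * v * (v : ℝ) ^ D := by
    calc _ ≤ ∑ r ∈ DD Ps i, ∑ q ∈ DD Ps (300 - i), (q.totient : ℝ)⁻¹ * F r q :=
          sum_le_sum fun r _ => sum_le_sum_of_subset_of_nonneg (filter_subset _ _)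
            fun _ _ _ => mul_nonneg (by positivity) (abs_nonneg _)
      _ = ∑ q ∈ DD Ps (300 - i), (q.totient : ℝ)⁻¹ * ∑ r ∈ DD Ps i, F r q := by
          rw [sum_comm]
          exact sum_congr rfl fun q _ => (mul_sum _ _ _).symm
      _ ≤ ∑ q ∈ DD Ps (300 - i), (q.totient : ℝ)⁻¹ * (v : ℝ) ^ D :=
          sum_le_sum fun q _ => mul_le_mul_of_nonneg_left (h4 q) (by positivity)
      _ ≤ _ := by
          rw [← sum_mul]
          exact mul_le_mul_of_nonneg_right h5 (by positivity)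
  have h7 : ∑ r ∈ DD Ps i, ∑ q ∈ (DD Ps (300 - i)).filter (fun q => r.Coprime q),
      |BX (v ^ J) (v ^ K) α β g (kz (r * q) a)| ≤
      ∑ r ∈ DD Ps i, ∑ q ∈ (DD Ps (300 - i)).filter (fun q => r.Coprime q),
        |BX (v ^ J) (v ^ K) α β g (kr r q a)| +
      ∑ r ∈ DD Ps i, ∑ q ∈ (DD Ps (300 - i)).filter (fun q => r.Coprime q),
        (q.totient : ℝ)⁻¹ * F r q := by
    rw [← sum_add_distrib]
    refine sum_le_sum fun r _ => ?_
    rw [← sum_add_distrib]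
    refine sum_le_sum fun q hq => ?_
    rw [Box_split (mem_filter.1 hq).2]
    refine (abs_add_le _ _).trans (add_le_add le_rfl ?_)
    rw [abs_mul, abs_of_nonneg (by positivity)]
  rw [← sum_sdiff (show DD Ps 300 ⊆ DA Ps from fun d hd => mem_DA.2 ⟨300, le_rfl, hd⟩),
    Box_eq hx1 (k := D + 10) (by omega)]
  rw [Box_eq hx1 (k := D + 8) (by omega)] at h2
  have t1 := pow_le_pow_right₀ hx1 (show D ≤ D + 8 by omega)
  have t2 := pow_le_pow_right₀ hx1 (show D + 1 ≤ D + 8 by omega)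
  have t3 := pow_le_pow_right₀ hx1 (show D + 8 + 1 ≤ D + 10 by omega)
  have t4 : 4 * (v : ℝ) ^ (D + 8) ≤ v * (v : ℝ) ^ (D + 8) :=
    mul_le_mul_of_nonneg_right (by linarith) (by positivity)
  rw [pow_succ'] at t2 t3
  linarith

end Pool.Agent.Work.MP_5d318d_nt.Zh
end
end

-- merged part: Pool.Agent.Work.MP_5d318d_nt.Z.Two
section
/-!
# Type II sums

PLAN.
* `BS_symm`: `sum_comm`, `mul_comm`.
* `KB_split`: both sides are sums over pairs `(m, n)`; a pair with `α m * β n ≠ 0`, `0 < m n ≤ y` lies in exactly one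
  box, `j = Nat.log v m ≤ 480002`, `k = Nat.log v n` (`Nat.lt_pow_succ_log_self`, `Nat.log_le_log`/`Nat.log_pow`,
  `Nat.le_div_iff_mul_le`).  It is easiest to write both sides as sums over `range (v ^ 480003) ×ˢ range (v ^ 480003)`.
* `BS_triv`: `abs_sum_le_sum_abs`, swap, `sum_abs_kz_DA_le` (`H.hne`).
* `BS_zero`: `v ^ j ≤ m`, `v ^ k ≤ n` (`Nat.pow_log_le_self`).
* `BS_main`: split `m` modulo `e`: `BS = ∑ b ∈ range e, BX (v ^ (j+1)) (v ^ (k+1)) (α_b) (β_b) g κ` with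
  `α_b m = if m % e = b ∧ Nat.log v m = j ∧ 0 < m ∧ m.Coprime Q then α m else 0`,
  `β_b n = if (e : ℤ) ∣ b * n - a ∧ Nat.log v n = k ∧ 0 < n ∧ n.Coprime Q then β n else 0`,
  `g m = min (y / m) (v ^ (k+1) - 1)`; `box_le` with `J = j + 1`, `K = k + 1` (`H.hnd`, `v ^ 2 < v ^ k ≤ n`).
* `KB_le`: every box contributes at most `v ^ 719978` (`BS_symm` when `j < k`), and `480003 ^ 2 ≤ 10 ^ 12 ≤ v`.
-/

noncomputable section

open Finset Real ArithmeticFunction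

namespace Pool.Agent.Work.MP_5d318d_nt.Zh

open Pool.Agent.Lib.LargeSieve Pool.Agent.Lib.ANT

variable {v Q : ℕ} {Ps : Finset ℕ} {a : ℤ}

/-- the part of a bilinear form in one box -/
def BS (v Q : ℕ) (a : ℤ) (e y : ℕ) (α β : ℕ → ℝ) (j k : ℕ) (κ : ℤ → ℝ) : ℝ :=
  ∑ m ∈ range (v ^ (j + 1)), ∑ n ∈ range (v ^ (k + 1)),
    if Nat.log v m = j ∧ Nat.log v n = k ∧ 0 < m * n ∧ m * n ≤ y ∧ (m * n).Coprime Q ∧
      (e : ℤ) ∣ ((m * n : ℕ) : ℤ) - a then α m * β n * κ ((m * n : ℕ) : ℤ) else 0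

theorem BS_symm (v Q : ℕ) (a : ℤ) (e y : ℕ) (α β : ℕ → ℝ) (j k : ℕ) (κ : ℤ → ℝ) :
    BS v Q a e y α β j k κ = BS v Q a e y β α k j κ := by
  unfold BS
  rw [sum_comm]
  refine sum_congr rfl fun n _ => sum_congr rfl fun m _ => ?_
  rw [mul_comm n m, mul_comm (β n)]
  exact if_congr and_left_comm rfl rfl

theorem Two_box (hv : 2 ≤ v) {T : ℕ} (hT : 0 < T) (f : ℕ → ℝ) :
    ∑ j ∈ range T, ∑ m ∈ range (v ^ (j + 1)), (if Nat.log v m = j then f m else 0) =
      ∑ m ∈ range (v ^ T), f m := by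
  rw [← sum_fiberwise_of_maps_to (s := range (v ^ T)) (t := range T) (g := Nat.log v) fun m hm => by
    rcases Nat.eq_zero_or_pos m with rfl | h
    · simpa using hT
    · exact mem_range.2 (Nat.log_lt_of_lt_pow h.ne' (mem_range.1 hm))]
  refine sum_congr rfl fun j hj => ?_
  rw [← sum_filter]
  refine sum_congr (ext fun m => ?_) fun _ _ => rfl
  simp only [mem_filter, mem_range]
  refine and_congr_left fun h => ?_
  have h1 : m < v ^ (j + 1) := h ▸ Nat.lt_pow_succ_log_self hv m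
  exact iff_of_true h1 (h1.trans_le (Nat.pow_le_pow_right (by omega) (mem_range.1 hj)))

theorem Two_Icc (W y : ℕ) (f : ℕ → ℝ) (hf : ∀ m, W ≤ m → f m = 0) :
    ∑ m ∈ Icc 1 y, f m = ∑ m ∈ range W, if 0 < m ∧ m ≤ y then f m else 0 := by
  rw [← sum_filter]
  refine (sum_subset (fun m hm => mem_Icc.2 (mem_filter.1 hm).2) fun m h1 h2 => hf m ?_).symm
  by_contra h3
  exact h2 (mem_filter.2 ⟨mem_range.2 (not_le.1 h3), mem_Icc.1 h1⟩)

theorem KB_split (hv : 2 ≤ v) (Q : ℕ) (a : ℤ) (e y : ℕ) (α β : ℕ → ℝ)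
    (hα0 : ∀ m, v ^ 480002 < m → α m = 0) (hβ0 : ∀ n, v ^ 480002 < n → β n = 0) (κ : ℤ → ℝ) :
    ∑ m ∈ Icc 1 y, ∑ n ∈ Icc 1 (y / m),
      (if (m * n).Coprime Q ∧ (e : ℤ) ∣ ((m * n : ℕ) : ℤ) - a then
        α m * β n * κ ((m * n : ℕ) : ℤ) else 0) =
      ∑ j ∈ range 480003, ∑ k ∈ range 480003, BS v Q a e y α β j k κ := by
  have hW : ∀ m, v ^ 480003 ≤ m → v ^ 480002 < m := fun m hm =>
    (Nat.pow_lt_pow_right hv (by norm_num)).trans_le hm
  set G : ℕ → ℕ → ℝ := fun m n => if 0 < m * n ∧ m * n ≤ y ∧ (m * n).Coprime Q ∧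
    (e : ℤ) ∣ ((m * n : ℕ) : ℤ) - a then α m * β n * κ ((m * n : ℕ) : ℤ) else 0 with hG
  have e1 : ∀ j, ∑ k ∈ range 480003, BS v Q a e y α β j k κ = ∑ m ∈ range (v ^ (j + 1)),
      if Nat.log v m = j then ∑ n ∈ range (v ^ 480003), G m n else 0 := fun j => by
    unfold BS
    rw [sum_comm]
    refine sum_congr rfl fun m _ => ?_
    split_ifs with h
    · rw [← Two_box hv (by norm_num)]
      refine sum_congr rfl fun k _ => sum_congr rfl fun n _ => ?_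
      simp only [h, true_and, hG, ite_and]
    · simp only [h, false_and, if_false, sum_const_zero]
  rw [sum_congr rfl fun j _ => e1 j, Two_box hv (by norm_num),
    Two_Icc (v ^ 480003) _ _ fun m hm => by
      simp only [hα0 m (hW m hm), zero_mul, ite_self, sum_const_zero]]
  refine sum_congr rfl fun m _ => ?_
  split_ifs with h
  · rw [Two_Icc (v ^ 480003) _ _ fun n hn => by
      simp only [hβ0 n (hW n hn), zero_mul, mul_zero, ite_self]]
    refine sum_congr rfl fun n _ => ?_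
    simp only [hG]
    rw [← ite_and]
    refine if_congr ?_ rfl rfl
    rw [Nat.le_div_iff_mul_le h.1, mul_comm n m, and_assoc, Nat.mul_pos_iff_of_pos_left h.1]
  · refine (sum_eq_zero fun n _ => if_neg fun h1 => h ?_).symm
    exact ⟨Nat.pos_of_mul_pos_right h1.1,
      (Nat.le_mul_of_pos_right m (Nat.pos_of_mul_pos_left h1.1)).trans h1.2.1⟩

theorem BS_triv (H : ZP v Q Ps a) (e : ℕ) {y : ℕ} (hy : y ≤ v ^ 720001) (α β : ℕ → ℝ)
    (hα : ∀ m, |α m| ≤ 1) (hβ : ∀ n, |β n| ≤ 1) (j k : ℕ) :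
    ∑ d ∈ DA Ps, |BS v Q a e y α β j k (kz d a)| ≤ (v : ℝ) ^ (j + k + 2) * (3 * v) := by
  have hv : 1 ≤ v := le_trans (by norm_num) H.hv
  unfold BS
  refine (sum_le_sum fun d _ => (abs_sum_le_sum_abs _ _).trans
    (sum_le_sum fun m _ => abs_sum_le_sum_abs _ _)).trans ?_
  rw [sum_comm]
  refine (sum_le_card_nsmul _ _ ((v : ℝ) ^ (k + 1) * (3 * v)) fun m _ => ?_).trans (le_of_eq ?_)
  · rw [sum_comm]
    refine (sum_le_card_nsmul _ _ (3 * v : ℝ) fun n _ => ?_).trans (le_of_eq ?_)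
    · split_ifs with h
      · refine le_trans (sum_le_sum fun d _ => ?_) (sum_abs_kz_DA_le H (H.hne _ h.2.2.2.2.1) ?_)
        · rw [abs_mul, abs_mul]
          exact mul_le_of_le_one_left (abs_nonneg _) (mul_le_one₀ (hα m) (abs_nonneg _) (hβ n))
        · rw [Int.natAbs_natCast]
          exact h.2.2.2.1.trans (hy.trans (Nat.pow_le_pow_right hv (by norm_num)))
      · simp only [abs_zero, sum_const_zero]
        positivity
    · rw [card_range, nsmul_eq_mul, Nat.cast_pow]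
  · rw [card_range, nsmul_eq_mul, Nat.cast_pow, ← mul_assoc, ← pow_add]
    congr 2
    omega

theorem BS_zero (hv : 2 ≤ v) (Q : ℕ) (a : ℤ) (e : ℕ) {y : ℕ} (hy : y ≤ v ^ 720001)
    (α β : ℕ → ℝ) {j k : ℕ} (hjk : 720001 < j + k) (κ : ℤ → ℝ) :
    BS v Q a e y α β j k κ = 0 := by
  refine sum_eq_zero fun m _ => sum_eq_zero fun n _ => if_neg fun h => ?_
  have h1 : v ^ j ≤ m := h.1 ▸ Nat.pow_log_le_self v (Nat.pos_of_mul_pos_right h.2.2.1).ne'
  have h2 : v ^ k ≤ n := h.2.1 ▸ Nat.pow_log_le_self v (Nat.pos_of_mul_pos_left h.2.2.1).ne'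
  have h3 := (Nat.mul_le_mul h1 h2).trans (h.2.2.2.1.trans hy)
  rw [← pow_add] at h3
  exact absurd h3 (not_le.2 (Nat.pow_lt_pow_right hv hjk))

theorem BS_main (H : ZP v Q Ps a) {e : ℕ} (he : 0 < e) (hev : e ≤ v) (y : ℕ) (α β : ℕ → ℝ)
    (hα : ∀ m, |α m| ≤ 1) (hβ : ∀ n, |β n| ≤ 1) {j k : ℕ} (hkj : k ≤ j) (hj : j ≤ 480002)
    (h1 : 719960 ≤ j + k + 2) (h2 : j + k ≤ 720001) :
    ∑ d ∈ DA Ps, |BS v Q a e y α β j k (kz d a)| ≤ (v : ℝ) ^ 719978 := by
  have hv : 2 ≤ v := le_trans (by norm_num) H.hv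
  have hv' : (1 : ℝ) ≤ v := by exact_mod_cast le_trans one_le_two hv
  set A : ℕ → ℕ → ℝ := fun b m =>
    if m % e = b ∧ Nat.log v m = j ∧ 0 < m ∧ m.Coprime Q then α m else 0 with hA
  set B : ℕ → ℕ → ℝ := fun b n =>
    if (e : ℤ) ∣ (b : ℤ) * n - a ∧ Nat.log v n = k ∧ 0 < n ∧ n.Coprime Q then β n else 0 with hB
  set g : ℕ → ℕ := fun m => min (y / m) (v ^ (k + 1) - 1) with hg
  have e1 : ∀ κ, BS v Q a e y α β j k κ =
      ∑ b ∈ range e, BX (v ^ (j + 1)) (v ^ (k + 1)) (A b) (B b) g κ := fun κ => by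
    unfold BS BX
    rw [sum_comm (s := range e)]
    refine sum_congr rfl fun m _ => ?_
    rw [sum_comm (s := range e)]
    refine sum_congr rfl fun n hn => ?_
    rw [sum_eq_single_of_mem (m % e) (mem_range.2 (Nat.mod_lt m he)) fun b _ hb => by
      simp only [hA, hb.symm, false_and, if_false, zero_mul, ite_self]]
    have d1 : (e : ℤ) ∣ ((m % e : ℕ) : ℤ) * n - a ↔ (e : ℤ) ∣ ((m * n : ℕ) : ℤ) - a := by
      refine dvd_iff_dvd_of_dvd_sub ⟨-(((m / e : ℕ) : ℤ) * n), ?_⟩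
      have : (m : ℤ) = (m % e : ℕ) + e * (m / e : ℕ) := by exact_mod_cast (Nat.mod_add_div m e).symm
      rw [Nat.cast_mul]
      linear_combination (-(n : ℤ)) * this
    have d2 : n ≤ g m ↔ n ≤ y / m := by
      have := mem_range.1 hn
      simp only [hg, le_min_iff]
      exact and_iff_left (by omega)
    simp only [hA, hB, true_and, d1, d2, ite_mul, mul_ite, zero_mul, mul_zero, ← ite_and]
    refine if_congr ?_ (by rw [Nat.cast_mul]) rfl
    rw [Nat.coprime_mul_iff_left, CanonicallyOrderedAdd.mul_pos]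
    constructor
    · rintro ⟨a1, a2, ⟨a3, a4⟩, a5, ⟨a6, a7⟩, a8⟩
      exact ⟨(Nat.le_div_iff_mul_le a3).2 (mul_comm m n ▸ a5), ⟨a8, a2, a4, a7⟩, a1, a3, a6⟩
    · rintro ⟨a5, ⟨a8, a2, a4, a7⟩, a1, a3, a6⟩
      exact ⟨a1, a2, ⟨a3, a4⟩, mul_comm n m ▸ (Nat.le_div_iff_mul_le a3).1 a5, ⟨a6, a7⟩, a8⟩
  simp only [e1]
  refine (sum_le_sum fun d _ => abs_sum_le_sum_abs _ _).trans ?_
  rw [sum_comm]
  refine (sum_le_card_nsmul _ _ ((v : ℝ) ^ 719977) fun b _ => ?_).trans ?_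
  · refine (box_le H (J := j + 1) (K := k + 1) (by omega) (by omega) (by omega) (by omega) _ _
      (fun m => ?_) (fun n => ?_) (fun n hn => ?_) g fun m => ?_).trans ?_
    · simp only [hA]
      split_ifs
      exacts [hα m, by simp]
    · simp only [hB]
      split_ifs
      exacts [hβ n, by simp]
    · have h3 := (ite_ne_right_iff.1 hn).1
      refine H.hnd n ?_ h3.2.2.2
      exact (Nat.pow_lt_pow_right hv (by omega)).trans_le
        (h3.2.1 ▸ Nat.pow_log_le_self v h3.2.2.1.ne' : v ^ k ≤ n)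
    · exact (min_le_right _ _).trans_lt (Nat.sub_lt (by positivity) one_pos)
    · rw [div_le_iff₀ (by positivity), ← pow_add]
      exact pow_le_pow_right₀ hv' (by omega)
  · rw [card_range, nsmul_eq_mul, pow_succ' (v : ℝ) 719977]
    exact mul_le_mul_of_nonneg_right (by exact_mod_cast hev) (by positivity)

theorem KB_le (H : ZP v Q Ps a) {e y : ℕ} (he : 0 < e) (hev : e ≤ v) (hy : y ≤ v ^ 720001)
    (α β : ℕ → ℝ) (hα : ∀ m, |α m| ≤ 1) (hβ : ∀ n, |β n| ≤ 1)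
    (hα0 : ∀ m, v ^ 480002 < m → α m = 0) (hβ0 : ∀ n, v ^ 480002 < n → β n = 0) :
    KB Q Ps a e y α β ≤ (v : ℝ) ^ 719979 := by
  have hv : 2 ≤ v := le_trans (by norm_num) H.hv
  have hv3 : (3 : ℝ) ≤ v := by exact_mod_cast le_trans (by norm_num) H.hv
  have key : ∀ j ∈ range 480003, ∀ k ∈ range 480003,
      ∑ d ∈ DA Ps, |BS v Q a e y α β j k (kz d a)| ≤ (v : ℝ) ^ 719978 := by
    intro j hj k hk
    rw [mem_range] at hj hk
    by_cases h1 : 720001 < j + k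
    · simp only [BS_zero hv Q a e hy α β h1, abs_zero, sum_const_zero]
      positivity
    by_cases h2 : 719960 ≤ j + k + 2
    · rcases le_total k j with h3 | h3
      · exact BS_main H he hev y α β hα hβ h3 (by omega) h2 (by omega)
      · simp only [BS_symm v Q a e y α β j k]
        exact BS_main H he hev y β α hβ hα h3 (by omega) (by omega) (by omega)
    · refine (BS_triv H e hy α β hα hβ j k).trans ?_
      calc (v : ℝ) ^ (j + k + 2) * (3 * v) ≤ (v : ℝ) ^ (j + k + 2) * (v * v) := by gcongr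
        _ = (v : ℝ) ^ (j + k + 2 + 2) := by rw [pow_add _ (j + k + 2) 2, sq]
        _ ≤ _ := pow_le_pow_right₀ (by linarith) (by omega)
  unfold KB
  simp only [KB_split hv Q a e y α β hα0 hβ0]
  refine (sum_le_sum fun d _ => (abs_sum_le_sum_abs _ _).trans
    (sum_le_sum fun m _ => abs_sum_le_sum_abs _ _)).trans ?_
  rw [sum_comm]
  refine (sum_le_card_nsmul _ _ (480003 * (v : ℝ) ^ 719978) fun j hj => ?_).trans ?_
  · rw [sum_comm]
    refine (sum_le_card_nsmul _ _ _ (key j hj)).trans (le_of_eq ?_)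
    rw [card_range, nsmul_eq_mul, Nat.cast_ofNat]
  · rw [card_range, nsmul_eq_mul, Nat.cast_ofNat, pow_succ' (v : ℝ) 719978, ← mul_assoc]
    refine mul_le_mul_of_nonneg_right ?_ (by positivity)
    have : ((10 ^ 12 : ℕ) : ℝ) ≤ v := Nat.cast_le.2 H.hv
    norm_num at this ⊢
    linarith

end Pool.Agent.Work.MP_5d318d_nt.Zh
end
end

-- merged part: Pool.Agent.Work.MP_5d318d_nt.Z.Equi
section
/-!
# Equidistribution over the family

PLAN.
* `KK_eq_KB`: for fixed `d` this is `sum_mul_weight` (or a direct `sum_sigma'`/`sum_bij`): extend `α`, `β` by zero at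
  `0` to arithmetic functions and take the weight `κ n = if .. then kz d a n else 0`.
* `KK_congr`, `KB_congr`, `KK_add_le`, `KK_smul`: termwise.
* `KK_div`: `ξ = ξ1 + ξ2`, `ξ1` the part on `u ≤ v ^ 359400`.  `∑ u ∈ n.divisors, ξ u` is the convolution with `1`
  (`Nat.sum_divisorsAntidiagonal`).  `KB_typeI` with `F = 1`; for `ξ2` replace `1` by the indicator of
  `n ≤ v ^ 480002` (`KB_congr`: `v ^ 359400 < m`, `m n ≤ v ^ 720001`) and use `KB_le`.
* `KK_low`: `sum_abs_kz_DA_le`, `H.hne`.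
* `KK_Lam`: `vaughan U U` with `U = v ^ 240001`; `cc U`, `abs_cc_le`, `cc_eq_zero` from `MeanValue`
  (`U * U = v ^ 480002`), `high_zeta_nonneg`, `high_zeta_le`, `high_zeta_eq_zero`, `log_nat_mono`, `log_le_HH`;
  `log n ≤ v` for `n ≤ v ^ 2160000`.  Divide the sequences bounded by `v` by `v` (`KK_smul`).  In the last term both
  variables exceed `U`, so both are at most `v ^ 480000`; cut them there by `KB_congr`.
-/

noncomputable section

open Finset Real ArithmeticFunction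

namespace Pool.Agent.Work.MP_5d318d_nt.Zh

open Pool.Agent.Lib.LargeSieve Pool.Agent.Lib.ANT

variable {v Q : ℕ} {Ps : Finset ℕ} {a : ℤ}

theorem KK_eq_KB (Q : ℕ) (Ps : Finset ℕ) (a : ℤ) (e y : ℕ) (g α β : ℕ → ℝ)
    (h : ∀ n, 0 < n → n ≤ y → g n = ∑ x ∈ n.divisorsAntidiagonal, α x.1 * β x.2) :
    KK Q Ps a e y g = KB Q Ps a e y α β := by
  have k : ∀ (f : ℕ → ℝ) {n}, n ≠ 0 → toArithmeticFunction f n = f n := fun _ _ hn => if_neg hn
  refine sum_congr rfl fun d _ => congrArg _ ((sum_congr rfl fun n hn => ?_).trans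
    ((sum_mul_weight (toArithmeticFunction α) (toArithmeticFunction β)
      (fun n => if n.Coprime Q ∧ (e : ℤ) ∣ (n : ℤ) - a then kz d a n else 0) y).trans
      (sum_congr rfl fun m hm => sum_congr rfl fun n hn => ?_)))
  · rw [h n (mem_Icc.1 hn).1 (mem_Icc.1 hn).2, mul_ite, mul_zero, ArithmeticFunction.mul_apply]
    refine if_congr Iff.rfl (congrArg (· * _) (sum_congr rfl fun x hx => ?_)) rfl
    rw [k _ (Nat.left_ne_zero_of_mem_divisorsAntidiagonal hx),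
      k _ (Nat.right_ne_zero_of_mem_divisorsAntidiagonal hx)]
  · rw [k _ (Nat.ne_of_gt (mem_Icc.1 hm).1), k _ (Nat.ne_of_gt (mem_Icc.1 hn).1), ← mul_assoc,
      mul_ite, mul_zero]

theorem KK_congr (Q : ℕ) (Ps : Finset ℕ) (a : ℤ) (e y : ℕ) {g g' : ℕ → ℝ}
    (h : ∀ n, 0 < n → n ≤ y → g n = g' n) : KK Q Ps a e y g = KK Q Ps a e y g' :=
  sum_congr rfl fun _ _ => congrArg _ (sum_congr rfl fun n hn => by
    rw [h n (mem_Icc.1 hn).1 (mem_Icc.1 hn).2])

theorem KB_congr (Q : ℕ) (Ps : Finset ℕ) (a : ℤ) (e y : ℕ) {α β α' β' : ℕ → ℝ}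
    (h : ∀ m n, 0 < m → 0 < n → m * n ≤ y → α m * β n = α' m * β' n) :
    KB Q Ps a e y α β = KB Q Ps a e y α' β' :=
  sum_congr rfl fun _ _ => congrArg _ (sum_congr rfl fun m hm => sum_congr rfl fun n hn => by
    rw [h m n (mem_Icc.1 hm).1 (mem_Icc.1 hn).1
      (mul_comm n m ▸ (Nat.le_div_iff_mul_le (mem_Icc.1 hm).1).1 (mem_Icc.1 hn).2)])

theorem KK_add_le (Q : ℕ) (Ps : Finset ℕ) (a : ℤ) (e y : ℕ) (g g' : ℕ → ℝ) :
    KK Q Ps a e y (fun n => g n + g' n) ≤ KK Q Ps a e y g + KK Q Ps a e y g' := by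
  rw [KK, KK, KK, ← sum_add_distrib]
  refine sum_le_sum fun d _ => le_trans (le_of_eq (congrArg _ ?_)) (abs_add_le _ _)
  rw [← sum_add_distrib]
  refine sum_congr rfl fun n _ => ?_
  split_ifs
  exacts [add_mul _ _ _, (add_zero _).symm]

theorem KK_smul (Q : ℕ) (Ps : Finset ℕ) (a : ℤ) (e y : ℕ) (c : ℝ) (g : ℕ → ℝ) :
    KK Q Ps a e y (fun n => c * g n) = |c| * KK Q Ps a e y g := by
  simp only [KK, mul_sum, ← abs_mul, mul_ite, mul_zero, mul_assoc]

theorem Equi_one (H : ZP v Q Ps a) : 1 ≤ v := le_trans (by norm_num) H.hv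

theorem Equi_five (H : ZP v Q Ps a) : (5 : ℝ) ≤ v := by
  exact_mod_cast le_trans (by norm_num) H.hv

theorem Equi_pow (H : ZP v Q Ps a) {i j : ℕ} (h : i ≤ j) : v ^ i ≤ v ^ j :=
  Nat.pow_le_pow_right (Equi_one H) h

theorem Equi_powR (H : ZP v Q Ps a) {i j : ℕ} (h : i ≤ j) : (v : ℝ) ^ i ≤ (v : ℝ) ^ j := by
  exact_mod_cast Equi_pow H h

theorem Equi_cut (H : ZP v Q Ps a) {i j m n : ℕ} (h : 720001 ≤ i + j) (hm : v ^ i < m)
    (hy : m * n ≤ v ^ 720001) : n ≤ v ^ j :=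
  not_lt.1 fun hn => (Nat.mul_lt_mul'' hm hn).not_ge
    (hy.trans ((Equi_pow H h).trans (pow_add _ _ _).le))

theorem Equi_log (H : ZP v Q Ps a) {i n : ℕ} (hi : i ≤ 2160000) (h : n ≤ v ^ i) :
    Real.log n ≤ v := by
  linarith [log_le_HH n, (H.hτ n (h.trans (Equi_pow H hi))).2]

theorem Equi_div (Q : ℕ) (Ps : Finset ℕ) (a : ℤ) (e y : ℕ) (ξ : ℕ → ℝ) :
    KK Q Ps a e y (fun n => ∑ u ∈ n.divisors, ξ u) = KB Q Ps a e y ξ fun _ => 1 :=
  KK_eq_KB _ _ _ _ _ _ _ _ fun n _ _ => by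
    simp only [mul_one, Nat.sum_divisorsAntidiagonal fun u _ => ξ u]

theorem KK_div (H : ZP v Q Ps a) {e y : ℕ} (he : 0 < e) (hev : e ≤ v) (hy : y ≤ v ^ 720001)
    (ξ : ℕ → ℝ) (hξ : ∀ u, |ξ u| ≤ 1) (hξ0 : ∀ u, v ^ 480002 < u → ξ u = 0) :
    KK Q Ps a e y (fun n => ∑ u ∈ n.divisors, ξ u) ≤ 2 * (v : ℝ) ^ 719979 := by
  have h1 := KB_typeI H he hev y (fun u => if u ≤ v ^ 359400 then ξ u else 0) (fun _ => 1)
    (fun u => by split_ifs; exacts [hξ u, by simp]) (fun u hu => if_neg hu.not_ge)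
    monotone_const (fun _ => zero_le_one) (by linarith [Equi_five H])
  have h2 := KB_le H he hev hy (fun u => if u ≤ v ^ 359400 then 0 else ξ u)
    (fun n => if n ≤ v ^ 480002 then 1 else 0)
    (fun u => by split_ifs; exacts [by simp, hξ u]) (fun u => by split_ifs <;> simp)
    (fun u hu => by rw [hξ0 u hu, ite_self]) (fun u hu => if_neg hu.not_ge)
  rw [KB_congr (α' := fun u => if u ≤ v ^ 359400 then 0 else ξ u) (β' := fun _ => 1) _ _ _ _ _
    fun m n _ _ h => by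
      by_cases hm : m ≤ v ^ 359400
      · simp only [if_pos hm, zero_mul]
      · rw [if_pos (Equi_cut H (by norm_num) (not_le.1 hm) (h.trans hy))]] at h2
  rw [← Equi_div] at h1 h2
  refine le_trans (le_of_eq (KK_congr _ _ _ _ _ fun n _ _ => ?_))
    ((KK_add_le _ _ _ _ _ _ _).trans ((add_le_add h1 h2).trans ?_))
  · rw [← sum_add_distrib]
    exact sum_congr rfl fun u _ => by split_ifs <;> simp
  · linarith [Equi_powR H (show 719710 ≤ 719979 by norm_num)]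

theorem KK_low (H : ZP v Q Ps a) (e y : ℕ) (g : ℕ → ℝ) (hg : ∀ n, |g n| ≤ v)
    (hg0 : ∀ n, v ^ 240001 < n → g n = 0) : KK Q Ps a e y g ≤ (v : ℝ) ^ 240004 := by
  have h5 := Equi_five H
  refine (sum_le_sum fun d _ => abs_sum_le_sum_abs _ _).trans (sum_comm.trans_le
    ((sum_le_sum (g := fun n => if n ∈ Icc 1 (v ^ 240001) then (v : ℝ) * (3 * v) else 0)
      fun n hn => ?_).trans ?_))
  · by_cases h : n.Coprime Q ∧ (e : ℤ) ∣ (n : ℤ) - a
    · simp only [if_pos h, abs_mul, ← mul_sum]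
      by_cases h' : n ≤ v ^ 240001
      · rw [if_pos (mem_Icc.2 ⟨(mem_Icc.1 hn).1, h'⟩)]
        exact mul_le_mul (hg n) (sum_abs_kz_DA_le H (H.hne n h.1)
          (h'.trans (Equi_pow H (by norm_num)))) (by positivity) (by positivity)
      · rw [hg0 n (not_le.1 h'), abs_zero, zero_mul]
        positivity
    · simp only [if_neg h, abs_zero, sum_const_zero]
      positivity
  · have h : ((#(Icc 1 y ∩ Icc 1 (v ^ 240001)) : ℕ) : ℝ) ≤ (v : ℝ) ^ 240001 := by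
      exact_mod_cast (card_le_card inter_subset_right).trans (by simp)
    rw [sum_ite_mem, sum_const, nsmul_eq_mul, show 240004 = 240001 + 3 from rfl, pow_add]
    exact mul_le_mul h (by nlinarith [mul_nonneg (sub_nonneg.2 h5) (sq_nonneg (v : ℝ))])
      (by positivity) (by positivity)

theorem KK_Lam (H : ZP v Q Ps a) {e y : ℕ} (he : 0 < e) (hev : e ≤ v) (hy : y ≤ v ^ 720001) :
    KK Q Ps a e y (fun n => vonMangoldt n) ≤ (v : ℝ) ^ 719982 := by
  have h5 := Equi_five H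
  have h0 : (0 : ℝ) < v := by linarith
  have hU : v ^ 240001 * v ^ 240001 = v ^ 480002 := by rw [← pow_add]
  generalize hu : v ^ 240001 = U at hU
  have h1 := KK_low H e y (lowPart vonMangoldt U) (fun n => by
    rw [lowPart_apply]
    split_ifs with h
    · rw [abs_of_nonneg vonMangoldt_nonneg]
      exact vonMangoldt_le_log.trans (Equi_log H (by norm_num) (h.trans hu.ge))
    · simp) fun n hn => by rw [lowPart_apply, if_neg (hu ▸ hn).not_ge]
  have h2 := KB_typeI H he hev y (lowPart muR U) (fun n => Real.log n) (fun n => by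
    rw [lowPart_apply]
    split_ifs
    exacts [abs_muR_le n, by simp]) (fun n hn => by
      rw [lowPart_apply, if_neg ((hu.ge.trans (Equi_pow H (by norm_num))).trans_lt hn).not_ge])
    log_nat_mono log_natCast_nonneg (Equi_log H (by norm_num) hy)
  have h3 := KK_div H he hev hy (fun u => cc U u / v) (fun u => by
    by_cases h : u ≤ v ^ 480002
    · rw [abs_div, abs_of_pos h0, div_le_one h0]
      exact (abs_cc_le U u).trans (Equi_log H (by norm_num) h)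
    · simp [cc_eq_zero (hU ▸ not_le.1 h)]) fun u h => by rw [cc_eq_zero (hU ▸ h), zero_div]
  have h4 := KB_le H he hev hy (fun m => if m ≤ v ^ 480002 then highPart muR U m else 0)
    (fun n => if n ≤ v ^ 480002 then (highPart vonMangoldt U * zetaR) n / v else 0) (fun n => by
      rw [highPart_apply]
      split_ifs
      exacts [by simp, abs_muR_le n, by simp]) (fun n => by
      split_ifs with h
      · rw [abs_div, abs_of_pos h0, div_le_one h0, abs_of_nonneg (high_zeta_nonneg _ _)]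
        exact (high_zeta_le U n).trans (Equi_log H (by norm_num) h)
      · simp) (fun u h => if_neg h.not_ge) fun u h => if_neg h.not_ge
  rw [KB_congr (α' := highPart muR U) (β' := fun n => (highPart vonMangoldt U * zetaR) n / v)
    _ _ _ _ _ fun m n _ _ h => by
      by_cases hm : m ≤ U
      · simp only [highPart_apply, if_pos hm, ite_self, zero_mul]
      by_cases hn : n ≤ U
      · simp only [high_zeta_eq_zero hn, zero_div, ite_self, mul_zero]
      rw [if_pos (Equi_cut H (by norm_num) (hu ▸ not_le.1 hm) (h.trans hy)),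
        if_pos (Equi_cut H (by norm_num) (hu ▸ not_le.1 hn) ((mul_comm n m ▸ h).trans hy))],
    ← KK_eq_KB _ _ _ _ _ _ _ _ fun _ _ _ => rfl] at h4
  rw [← KK_eq_KB _ _ _ _ _ _ _ _ fun _ _ _ => rfl] at h2
  have h6 := mul_le_mul_of_nonneg_left h3 (abs_nonneg (-v : ℝ))
  have h7 := mul_le_mul_of_nonneg_left h4 (abs_nonneg (v : ℝ))
  rw [← KK_smul] at h6 h7
  refine le_trans (le_of_eq (KK_congr _ _ _ _ _ fun n hn _ => ?_))
    ((KK_add_le _ _ _ _ _ _ _).trans ((add_le_add ((KK_add_le _ _ _ _ _ _ _).trans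
      (add_le_add h1 h2)) ((KK_add_le _ _ _ _ _ _ _).trans (add_le_add h6 h7))).trans ?_))
  · have h := congrArg (· n) (vaughan U U)
    have h8 : (cc U * zetaR) n = ∑ u ∈ n.divisors, cc U u := coe_mul_zeta_apply
    rw [← mul_assoc, ← cc] at h
    simp only [ArithmeticFunction.add_apply, h8] at h
    rw [ArithmeticFunction.mul_apply, ArithmeticFunction.mul_apply] at h
    simp only [← mul_div_assoc, ← sum_div, neg_mul, neg_div, mul_div_cancel_left₀ _ h0.ne',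
      ← log_apply]
    linarith
  · have a1 := Equi_powR H (show 240004 ≤ 719980 by norm_num)
    have a2 := Equi_powR H (show 719710 ≤ 719980 by norm_num)
    have a3 := Equi_powR H (show 719981 ≤ 719982 by norm_num)
    have a4 : (v : ℝ) ^ 719980 = v * v ^ 719979 := pow_succ' _ _
    have a5 : 5 * (v : ℝ) ^ 719980 ≤ v ^ 719981 :=
      (mul_le_mul_of_nonneg_right h5 (pow_pos h0 _).le).trans_eq (pow_succ' _ _).symm
    rw [abs_neg, abs_of_pos h0, mul_left_comm, ← a4]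
    linarith [pow_pos h0 719980]

end Pool.Agent.Work.MP_5d318d_nt.Zh
end
end

-- merged part: Pool.Agent.Work.MP_5d318d_nt.Z.Lc
section
/-!
# The test functions as divisor sums

PLAN.
* `sum_lc`: unfold `lc`, `sum_mul`, swap (`sum_comm'` or `sum_filter` and `sum_comm`), `sum_subset`.
* `lam_eq_lc`: `sum_lc` with the indicator; `lam_eq_div`: take `T` large and restrict to the divisors of `n`.
* `abs_lc_le`: `|muR| ≤ 1`, `e / φ(r) ≤ Z * (e / r)`, `r = e r'`, `r' ≤ R`.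
* `lc_RR`: `r = e r'` (`sum_bij`/`sum_nbij'` with `r / e`); `Nat.squarefree_mul_iff`, `isMultiplicative_moebius`,
  `moebius_sq_eq_one_of_squarefree`, `Nat.totient_mul`; if `e` is not squarefree both sides vanish.
* `sum_S2`: `sum_image`, `sum_product`; injectivity by `DA_coprime_of_le`, `DD_eq_of_dvd`.
* `sum_lc_S2`: `sum_lc` three times, `sum_S2`; divisors of `r0 * d` for coprime `r0, d` are the products
  (`Nat.divisors_mul`, `Nat.Coprime.mul_injOn_divisors`, or `Nat.Coprime.sum_divisors_mul`-type lemma).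
* `lam_S2`: `lam_eq_lc`, `sum_lc_S2`, `IsCoprime.mul_dvd`.  `lc_top`: `DD_eq_of_dvd`, `le_two_totient`.
* `abs_mean_le`: with `g = gcd n r`, `r' = r / g`: the divisors of `r` prime to `n` are the divisors of `r'`,
  `muR (r / d) = muR g * muR (r' / d)`, `sum_div_totient_mul_muR`, `φ r = φ r' * φ g ≤ φ r' * g`.
-/

noncomputable section

open Finset Real ArithmeticFunction

namespace Pool.Agent.Work.MP_5d318d_nt.Zh

open Pool.Agent.Lib.LargeSieve Pool.Agent.Lib.ANT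

variable {v Q : ℕ} {Ps : Finset ℕ} {a : ℤ}

theorem Lc_mul {m n : ℕ} (h : m.Coprime n) : muR (m * n) = muR m * muR n :=
  isMultiplicative_moebius.intCast.map_mul_of_coprime h

theorem Lc_sq {r : ℕ} (h : Squarefree r) : muR r * muR r = 1 := by
  rw [muR, intCoe_apply, ← sq]
  exact_mod_cast moebius_sq_eq_one_of_squarefree h

theorem Lc_div {m n : ℕ} (h : m.Coprime n) (f : ℕ → ℝ) :
    ∑ d ∈ (m * n).divisors, f d = ∑ a ∈ m.divisors, ∑ b ∈ n.divisors, f (a * b) := by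
  rw [Nat.divisors_mul, mul_def, sum_image h.mul_injOn_divisors, sum_product]

theorem Lc_sub {r N : ℕ} (h : r ≤ N) : r.divisors ⊆ Icc 1 N := fun _ he =>
  mem_Icc.2 ⟨Nat.pos_of_mem_divisors he, (Nat.divisor_le he).trans h⟩

theorem Lc_cop (hP : PW v Ps) {r d : ℕ} (hr : r ∈ RR Q 0 v) (hd : d ∈ DD Ps 300) : r.Coprime d :=
  DA_coprime_of_le hP (mem_DA.2 ⟨300, le_rfl, hd⟩) (RR_pos hr)
    ((RR_le hr).trans (Nat.le_self_pow (by norm_num) v))

theorem Lc_DD (hP : PW v Ps) : (∀ r ∈ DD Ps 300, r ≠ 0) ∧ ∀ r ∈ DD Ps 300, r.divisors ⊆ DA Ps :=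
  ⟨fun _ hr => ((mem_DD fun p hp => (hP p hp).1).1 hr).1.ne_zero, fun _ hr _ he =>
    DA_of_dvd (fun p hp => (hP p hp).1) (mem_DA.2 ⟨300, le_rfl, hr⟩) (Nat.dvd_of_mem_divisors he)⟩

theorem sum_lc (S T : Finset ℕ) (h0 : ∀ r ∈ S, r ≠ 0) (hT : ∀ r ∈ S, r.divisors ⊆ T)
    (F : ℕ → ℝ) : ∑ e ∈ T, lc S e * F e =
      ∑ r ∈ S, muR r / r.totient * ∑ e ∈ r.divisors, e * muR (r / e) * F e := by
  simp only [lc, sum_mul, sum_filter, mul_sum]
  rw [sum_comm]
  refine sum_congr rfl fun r hr => ?_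
  rw [← sum_subset (hT r hr) fun e _ he => by
    rw [if_neg fun h => he (Nat.mem_divisors.2 ⟨h, h0 r hr⟩), zero_mul]]
  exact sum_congr rfl fun e he => by rw [if_pos (Nat.dvd_of_mem_divisors he), mul_assoc]

theorem lam_eq_lc (S T : Finset ℕ) (h0 : ∀ r ∈ S, r ≠ 0) (hT : ∀ r ∈ S, r.divisors ⊆ T)
    (m : ℤ) : lam S m = ∑ e ∈ T, if (e : ℤ) ∣ m then lc S e else 0 := by
  have := sum_lc S T h0 hT fun e => if (e : ℤ) ∣ m then 1 else 0
  simp only [mul_ite, mul_one, mul_zero] at this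
  exact this.symm

theorem lam_eq_div (S : Finset ℕ) (h0 : ∀ r ∈ S, r ≠ 0) {n : ℕ} (hn : 0 < n) :
    lam S n = ∑ e ∈ n.divisors, lc S e := by
  rw [lam_eq_lc S (n.divisors ∪ S.biUnion Nat.divisors) h0 fun r hr =>
    (subset_biUnion_of_mem _ hr).trans subset_union_right, ← sum_filter]
  refine sum_congr ?_ fun _ _ => rfl
  ext e
  simp only [mem_filter, mem_union, Nat.mem_divisors, Int.natCast_dvd_natCast]
  exact ⟨fun h => ⟨h.2, hn.ne'⟩, fun h => ⟨Or.inl h, h.1⟩⟩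

theorem lam_neg (S : Finset ℕ) (m : ℤ) : lam S (-m) = lam S m := by
  simp only [lam, ram, dvd_neg]

theorem lc_ne_zero {S : Finset ℕ} {e : ℕ} (h : lc S e ≠ 0) : ∃ r ∈ S, e ∣ r := by
  obtain ⟨r, hr, -⟩ := exists_ne_zero_of_sum_ne_zero h
  exact ⟨r, mem_filter.1 hr⟩

theorem abs_lc_le {S : Finset ℕ} {R : ℕ} {Z : ℝ} (hZ : 0 ≤ Z)
    (hS : ∀ r ∈ S, 0 < r ∧ r ≤ R ∧ (r : ℝ) / r.totient ≤ Z) (e : ℕ) : |lc S e| ≤ Z * HH R := by
  rw [HH, mul_sum]
  refine (abs_sum_le_sum_abs _ _).trans ((sum_le_sum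
    (g := fun r => Z * (1 / ((r / e : ℕ) : ℝ))) fun r hr => ?_).trans ?_)
  · obtain ⟨hr, k, rfl⟩ := mem_filter.1 hr
    obtain ⟨h0, -, h2⟩ := hS _ hr
    have k0 : (0 : ℝ) < k := by exact_mod_cast Nat.pos_of_mul_pos_left h0
    rw [Nat.mul_div_cancel_left _ (Nat.pos_of_mul_pos_right h0), abs_mul, abs_mul, abs_div,
      Nat.abs_cast, Nat.abs_cast]
    calc _ ≤ 1 / ((e * k).totient : ℝ) * (e * 1) := by gcongr <;> exact abs_muR_le _
      _ = (e * k : ℕ) / (e * k).totient * (1 / k) := by push_cast; field_simp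
      _ ≤ _ := by gcongr
  · rw [← sum_image (f := fun j : ℕ => Z * (1 / (j : ℝ))) (g := (· / e)) fun x hx y hy =>
      (Nat.div_left_inj (mem_filter.1 hx).2 (mem_filter.1 hy).2).1]
    refine sum_le_sum_of_subset_of_nonneg (fun j hj => ?_) fun _ _ _ => by positivity
    obtain ⟨r, hr, rfl⟩ := mem_image.1 hj
    obtain ⟨hr, h⟩ := mem_filter.1 hr
    obtain ⟨h0, h1, -⟩ := hS _ hr
    exact Lc_sub h1 (Nat.mem_divisors.2 ⟨Nat.div_dvd_of_dvd h, h0.ne'⟩)

theorem lam_coprime {S : Finset ℕ} (hS : ∀ r ∈ S, Squarefree r) {n : ℤ}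
    (hn : ∀ r ∈ S, IsCoprime n (r : ℤ)) : lam S n = Sg S := by
  refine sum_congr rfl fun r hr => ?_
  rw [ram_of_coprime (hS r hr).ne_zero (hn r hr), div_mul_eq_mul_div, Lc_sq (hS r hr), one_div]

theorem lc_RR {R1 R e : ℕ} (he : R1 < e) : lc (RR Q R1 R) e =
    ∑ r' ∈ (Icc 1 R).filter (fun r' => Squarefree r' ∧ r'.Coprime Q),
      if e ≤ R / r' ∧ e.Coprime (r' * Q) then
        (r'.totient : ℝ)⁻¹ * (muR e * (e / e.totient)) else 0 := by
  have e0 : 0 < e := by omega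
  by_cases hs : Squarefree e
  swap
  · rw [lc, sum_eq_zero fun r hr => absurd
      ((mem_filter.1 (mem_filter.1 hr).1).2.1.squarefree_of_dvd (mem_filter.1 hr).2) hs]
    simp [muR, moebius_eq_zero_of_not_squarefree hs]
  rw [← sum_filter, lc]
  refine (sum_nbij (fun r' => e * r') (fun r' h => ?_)
    (fun a _ b _ h => Nat.eq_of_mul_eq_mul_left e0 h) (fun r h => ?_) fun r' h => ?_).symm
  · simp only [RR, mem_filter, mem_Icc, mem_Ioc, Nat.coprime_mul_iff_right] at h ⊢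
    obtain ⟨⟨⟨h1, -⟩, h2, h3⟩, h4, h5, h6⟩ := h
    exact ⟨⟨⟨he.trans_le (Nat.le_mul_of_pos_right _ h1), (Nat.le_div_iff_mul_le h1).1 h4⟩,
      Nat.squarefree_mul_iff.2 ⟨h5, hs, h2⟩, h6.symm, h3.symm⟩, dvd_mul_right _ _⟩
  · simp only [RR, coe_filter, mem_filter, mem_Ioc, Set.mem_ofPred_eq] at h
    obtain ⟨⟨⟨h1, h2⟩, h3, h4⟩, k, rfl⟩ := h
    obtain ⟨h5, -, h6⟩ := Nat.squarefree_mul_iff.1 h3
    have k0 : 0 < k := Nat.pos_of_ne_zero h6.ne_zero
    refine ⟨k, ?_, rfl⟩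
    simp only [coe_filter, mem_filter, mem_Icc, Set.mem_ofPred_eq, Nat.coprime_mul_iff_right]
      at h4 ⊢
    exact ⟨⟨⟨k0, (Nat.le_mul_of_pos_left _ e0).trans h2⟩, h6, h4.2.symm⟩,
      (Nat.le_div_iff_mul_le k0).2 h2, h5, h4.1.symm⟩
  · obtain ⟨h1, -, h2⟩ := mem_filter.1 h
    have hc := (Nat.coprime_mul_iff_right.1 h2).1
    rw [Nat.mul_div_cancel_left _ e0, Lc_mul hc, Nat.totient_mul hc, Nat.cast_mul]
    linear_combination -(muR e * e / (e.totient * r'.totient)) * Lc_sq (mem_filter.1 h1).2.1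

theorem sum_S2 (hv : 1 ≤ v) (hP : PW v Ps) (f : ℕ → ℝ) :
    ∑ r ∈ S2 v Q Ps, f r = ∑ r0 ∈ RR Q 0 v, ∑ d ∈ DD Ps 300, f (r0 * d) := by
  rw [S2, sum_image, sum_product]
  rintro ⟨r, d⟩ h ⟨r', d'⟩ h' (e : r * d = r' * d')
  simp only [coe_product, Set.mem_prod, mem_coe] at h h'
  obtain rfl : d = d' := DD_eq_of_dvd (fun p hp => (hP p hp).1) h.2 h'.2
    ((Lc_cop hP h'.1 h.2).symm.dvd_of_dvd_mul_left (e ▸ dvd_mul_left d r))
  rw [mul_right_cancel₀ ((Lc_DD hP).1 d h.2) e]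

theorem mem_S2 (hv : 1 ≤ v) (hP : PW v Ps) {r : ℕ} (hr : r ∈ S2 v Q Ps) :
    Squarefree r ∧ v ^ 360000 < r ∧ r ≤ v ^ 360301 ∧ (∀ p ∈ r.primeFactors, p ≤ v ^ 1201) ∧
      ((∀ p ∈ Ps, ¬ p ∣ Q) → Q.Coprime r) := by
  obtain ⟨⟨r, d⟩, h, rfl⟩ := mem_image.1 hr
  obtain ⟨h, hd⟩ := mem_product.1 h
  obtain ⟨d1, d2, -⟩ := (mem_DD fun p hp => (hP p hp).1).1 hd
  obtain ⟨-, r1, r2⟩ := mem_filter.1 h
  refine ⟨Nat.squarefree_mul_iff.2 ⟨Lc_cop hP h hd, r1, d1⟩,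
    (DD_lower' hP (by norm_num) hd).trans_le (Nat.le_mul_of_pos_left _ (RR_pos h)),
    (Nat.mul_le_mul (RR_le h) (DD_upper hP hd)).trans_eq (pow_succ' v 360300).symm,
    fun p hp => ?_, fun H => r2.mul_right (Nat.coprime_of_dvd fun p hp hpd =>
      H p (d2 (Nat.mem_primeFactors.2 ⟨hp, hpd, d1.ne_zero⟩))).symm⟩
  rw [Nat.primeFactors_mul r1.ne_zero d1.ne_zero, mem_union] at hp
  exact hp.elim (fun h' => ((Nat.le_of_mem_primeFactors h').trans (RR_le h)).trans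
    (Nat.le_self_pow (by norm_num) v)) fun h' => (hP p (d2 h')).2.2

theorem sum_lc_S2 (hv : 1 ≤ v) (hP : PW v Ps) (F : ℕ → ℝ) :
    ∑ h ∈ Icc 1 (v ^ 360301), lc (S2 v Q Ps) h * F h =
      ∑ f ∈ Icc 1 v, ∑ d ∈ DA Ps, lc (RR Q 0 v) f * lc (DD Ps 300) d * F (f * d) := by
  have e : ∀ f, ∑ d ∈ DA Ps, lc (RR Q 0 v) f * lc (DD Ps 300) d * F (f * d) = lc (RR Q 0 v) f *
      ∑ r ∈ DD Ps 300, muR r / r.totient * ∑ e ∈ r.divisors, e * muR (r / e) * F (f * e) :=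
    fun f => by
      rw [← sum_lc _ (DA Ps) (Lc_DD hP).1 (Lc_DD hP).2, mul_sum]
      simp only [mul_assoc]
  simp only [e]
  rw [sum_lc _ _ (fun r hr => (mem_S2 hv hP hr).1.ne_zero) fun r hr =>
    Lc_sub (mem_S2 hv hP hr).2.2.1, sum_lc _ _ (fun r hr => (RR_pos hr).ne') fun r hr =>
    Lc_sub (RR_le hr), sum_S2 hv hP]
  refine sum_congr rfl fun r hr => ?_
  simp only [mul_sum]
  rw [sum_comm (s := r.divisors)]
  refine sum_congr rfl fun d hd => ?_
  have hc := Lc_cop hP hr hd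
  rw [Lc_div hc]
  refine sum_congr rfl fun a ha => sum_congr rfl fun b hb => ?_
  have ha := Nat.dvd_of_mem_divisors ha
  have hb := Nat.dvd_of_mem_divisors hb
  rw [Lc_mul hc, Nat.totient_mul hc, ← Nat.div_mul_div_comm ha hb,
    Lc_mul (hc.of_dvd (Nat.div_dvd_of_dvd ha) (Nat.div_dvd_of_dvd hb)), Nat.cast_mul, Nat.cast_mul]
  ring

theorem lam_S2 (hv : 1 ≤ v) (hP : PW v Ps) (m : ℤ) :
    lam (S2 v Q Ps) m = lam (RR Q 0 v) m * lam (DD Ps 300) m := by
  have := sum_lc_S2 (Q := Q) hv hP fun e => if (e : ℤ) ∣ m then 1 else 0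
  simp only [mul_ite, mul_one, mul_zero] at this
  rw [lam_eq_lc _ _ (fun r hr => (mem_S2 hv hP hr).1.ne_zero) fun r hr =>
    Lc_sub (mem_S2 hv hP hr).2.2.1, lam_eq_lc _ _ (fun r hr => (RR_pos hr).ne') fun r hr =>
    Lc_sub (RR_le hr), lam_eq_lc _ _ (Lc_DD hP).1 (Lc_DD hP).2, sum_mul_sum, this]
  refine sum_congr rfl fun f hf => sum_congr rfl fun d hd => ?_
  have hc := Nat.isCoprime_iff_coprime.2 (DA_coprime_of_le hP hd (mem_Icc.1 hf).1
    ((mem_Icc.1 hf).2.trans (Nat.le_self_pow (by norm_num) v)))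
  rw [ite_zero_mul_ite_zero, Nat.cast_mul]
  exact if_congr ⟨fun h => ⟨dvd_of_mul_right_dvd h, dvd_of_mul_left_dvd h⟩,
    fun h => hc.mul_dvd h.1 h.2⟩ rfl rfl

theorem Sg_S2 (hv : 1 ≤ v) (hP : PW v Ps) :
    Sg (S2 v Q Ps) = Sg (RR Q 0 v) * Sg (DD Ps 300) := by
  rw [Sg, sum_S2 hv hP, Sg, Sg, sum_mul_sum]
  refine sum_congr rfl fun r hr => sum_congr rfl fun d hd => ?_
  rw [Nat.totient_mul (Lc_cop hP hr hd), Nat.cast_mul, mul_inv]

theorem lc_top (hv : 2 ≤ v) (hP : PW v Ps) {d : ℕ} (hd : d ∈ DD Ps 300) :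
    |lc (DD Ps 300) d| ≤ 2 := by
  have e : (DD Ps 300).filter (fun r => d ∣ r) = {d} := by
    ext r
    simp only [mem_filter, mem_singleton]
    exact ⟨fun h => (DD_eq_of_dvd (fun p hp => (hP p hp).1) hd h.1 h.2).symm,
      fun h => by rw [h]; exact ⟨hd, dvd_rfl⟩⟩
  have t0 : (0 : ℝ) < d.totient := by
    exact_mod_cast Nat.totient_pos.2 (Nat.pos_of_ne_zero ((Lc_DD hP).1 d hd))
  rw [lc, e, sum_singleton, abs_mul, abs_mul, abs_div, Nat.abs_cast, Nat.abs_cast]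
  calc _ ≤ 1 / (d.totient : ℝ) * (d * 1) := by gcongr <;> exact abs_muR_le _
    _ ≤ 2 := by
      rw [mul_one, one_div_mul_eq_div, div_le_iff₀ t0]
      exact_mod_cast le_two_totient hv hP (mem_DA.2 ⟨300, le_rfl, hd⟩)

theorem abs_mean_le {r : ℕ} (hr : Squarefree r) (n : ℕ) :
    |∑ d ∈ r.divisors, (d : ℝ) * muR (r / d) *
      (if IsCoprime (n : ℤ) (d : ℤ) then (d.totient : ℝ)⁻¹ else 0)| ≤
      (Nat.gcd n r : ℝ) / r.totient := by
  obtain ⟨r', e⟩ := Nat.gcd_dvd_right n r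
  have hn := Nat.gcd_dvd_left n r
  have k : n.gcd r' ∣ n.gcd r := Nat.gcd_dvd_gcd_of_dvd_right n (Dvd.intro_left _ e.symm)
  generalize Nat.gcd n r = g at *
  subst e
  obtain ⟨hc, hg, hr'⟩ := Nat.squarefree_mul_iff.1 hr
  have hc' : n.Coprime r' := Nat.eq_one_of_dvd_coprimes hc k (Nat.gcd_dvd_right _ _)
  rw [Lc_div hc, sum_eq_single 1 (fun a ha h1 => sum_eq_zero fun b _ => by
    rw [if_neg fun h => h1 (Nat.eq_one_of_dvd_coprimes (Nat.isCoprime_iff_coprime.1 h)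
      ((Nat.dvd_of_mem_divisors ha).trans hn) (dvd_mul_right _ _)), mul_zero])
    fun h => absurd (Nat.one_mem_divisors.2 hg.ne_zero) h,
    sum_congr (g := fun b : ℕ => muR g * (b / b.totient * muR (r' / b))) rfl fun b hb => by
      have hb := Nat.dvd_of_mem_divisors hb
      rw [one_mul, if_pos (Nat.isCoprime_iff_coprime.2 (hc'.coprime_dvd_right hb)),
        Nat.mul_div_assoc _ hb, Lc_mul (hc.coprime_dvd_right (Nat.div_dvd_of_dvd hb))]
      ring,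
    ← mul_sum, sum_div_totient_mul_muR hr', abs_mul, abs_inv, Nat.abs_cast, Nat.totient_mul hc,
    Nat.cast_mul, ← div_div, div_eq_mul_inv (_ / _)]
  refine mul_le_mul_of_nonneg_right ((abs_muR_le _).trans ?_) (by positivity)
  rw [one_le_div (by exact_mod_cast Nat.totient_pos.2 (Nat.pos_of_ne_zero hg.ne_zero))]
  exact_mod_cast Nat.totient_le g

end Pool.Agent.Work.MP_5d318d_nt.Zh
end
end

-- merged part: Pool.Agent.Work.MP_5d318d_nt.Z.Phi
section
/-!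
# Correlations with the new test function

PLAN.
* `lam_D_split`: `lam_eq_lc` with `T = DA Ps` (`DA_of_dvd`), and the indicator of `d ∣ n - a` is `kz d a n` plus the mean part.
* `sum_abs_Bb_le`: `sum_lc`, `abs_mean_le`, `sum_gcd_le`; `(φ r)⁻¹ ≤ 2 / v ^ 360000` (`le_two_totient`, `DD_lower`),
  `sum_inv_tot_DA_le`.
* `phi_le`: `lam_S2`, `lam_eq_lc` for `RR Q 0 v` with `T = Icc 1 v`, `lam_D_split`; all `lc` are at most `v ^ 2`
  (`abs_lc_le`, `div_totient_le_card_divisors`); swap the sums.  The rest is at most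
  `v ^ 6 * v ^ 3 * (8 * v ^ 360003)`.
* `phi_div`: `KK_smul`, `KK_div` for `ξ / v ^ 4`.  `phi_lam`: `lam_eq_div`, `abs_lc_le`, `lc_ne_zero` (only `n ≥ 1`
  occur in `Phi`).  `phi_Lam`: `KK_Lam`, `vonMangoldt_le_log`, `log_le_HH`.
-/

noncomputable section

open Finset Real ArithmeticFunction

namespace Pool.Agent.Work.MP_5d318d_nt.Zh

open Pool.Agent.Lib.LargeSieve Pool.Agent.Lib.ANT

variable {v Q : ℕ} {Ps : Finset ℕ} {a : ℤ}

/-- the mean part of the new test function -/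
def Bb (Ps : Finset ℕ) (n : ℕ) : ℝ :=
  ∑ d ∈ DA Ps, lc (DD Ps 300) d * (if IsCoprime (n : ℤ) (d : ℤ) then (d.totient : ℝ)⁻¹ else 0)

theorem Phi_ne (hP : ∀ p ∈ Ps, p.Prime) : ∀ r ∈ DD Ps 300, r ≠ 0 :=
  fun _ hr => ((mem_DD hP).1 hr).1.ne_zero

theorem Phi_DA {r : ℕ} (hr : r ∈ DD Ps 300) : r ∈ DA Ps := mem_DA.2 ⟨300, le_rfl, hr⟩

theorem Phi_sub (hP : ∀ p ∈ Ps, p.Prime) : ∀ r ∈ DD Ps 300, r.divisors ⊆ DA Ps :=
  fun _ hr _ hf => DA_of_dvd hP (Phi_DA hr) (Nat.dvd_of_mem_divisors hf)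

theorem Phi_v (H : ZP v Q Ps a) : (10 : ℝ) ≤ v := by
  have : 10 ≤ v := le_trans (by norm_num) H.hv
  exact_mod_cast this

theorem Phi_pow (H : ZP v Q Ps a) {i j : ℕ} (h : i ≤ j) : v ^ i ≤ v ^ j :=
  Nat.pow_le_pow_right (lt_of_lt_of_le (by norm_num) H.hv) h

theorem Phi_powR (H : ZP v Q Ps a) {i j : ℕ} (h : i ≤ j) : (v : ℝ) ^ i ≤ (v : ℝ) ^ j :=
  pow_le_pow_right₀ (by linarith [Phi_v H]) h

theorem Phi_ten (H : ZP v Q Ps a) {i j : ℕ} (h : i < j) {c : ℝ} (hc : c ≤ 10) :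
    c * (v : ℝ) ^ i ≤ (v : ℝ) ^ j := by
  refine le_trans ?_ (Phi_powR H (Nat.succ_le_of_lt h))
  rw [pow_succ, mul_comm]
  exact mul_le_mul_of_nonneg_left (hc.trans (Phi_v H)) (by positivity)

theorem Phi_lc (H : ZP v Q Ps a) {S : Finset ℕ} (hS : ∀ r ∈ S, 0 < r ∧ r ≤ v ^ 2160000)
    (e : ℕ) : |lc S e| ≤ (v : ℝ) ^ 2 := by
  have h := abs_lc_le (Z := v) (R := v ^ 2160000) (Nat.cast_nonneg v) (fun r hr =>
    ⟨(hS r hr).1, (hS r hr).2,
      (div_totient_le_card_divisors r).trans (H.hτ r (hS r hr).2).1⟩) e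
  refine h.trans ?_
  rw [sq]
  exact mul_le_mul_of_nonneg_left (by linarith [(H.hτ _ le_rfl).2]) (Nat.cast_nonneg v)

theorem lam_D_split (hP : ∀ p ∈ Ps, p.Prime) (a : ℤ) (n : ℕ) :
    lam (DD Ps 300) ((n : ℤ) - a) = ∑ d ∈ DA Ps, lc (DD Ps 300) d * kz d a n + Bb Ps n := by
  rw [lam_eq_lc (DD Ps 300) (DA Ps) (Phi_ne hP) (Phi_sub hP), Bb, ← sum_add_distrib]
  refine sum_congr rfl fun d _ => ?_
  unfold kz
  split_ifs <;> ring

theorem sum_abs_Bb_le (H : ZP v Q Ps a) {y : ℕ} (hy : y ≤ v ^ 720001) :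
    ∑ n ∈ Icc 1 y, |Bb Ps n| ≤ 8 * (v : ℝ) ^ 360003 := by
  have hP : ∀ p ∈ Ps, p.Prime := fun p hp => (H.hP p hp).1
  have hv := Phi_v H
  have hv2 : 2 ≤ v := le_trans (by norm_num) H.hv
  have h1 : ∀ n : ℕ, |Bb Ps n| ≤
      ∑ r ∈ DD Ps 300, (r.totient : ℝ)⁻¹ * ((Nat.gcd n r : ℝ) / r.totient) := by
    intro n
    rw [Bb, sum_lc _ _ (Phi_ne hP) (Phi_sub hP)]
    refine (abs_sum_le_sum_abs _ _).trans (sum_le_sum fun r hr => ?_)
    rw [abs_mul]
    refine mul_le_mul ?_ (abs_mean_le ((mem_DD hP).1 hr).1 n) (abs_nonneg _) (by positivity)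
    rw [abs_div, Nat.abs_cast, inv_eq_one_div]
    exact div_le_div_of_nonneg_right (abs_muR_le r) (Nat.cast_nonneg _)
  refine (sum_le_sum fun n _ => h1 n).trans ?_
  rw [sum_comm]
  have h2 : ∀ r ∈ DD Ps 300,
      ∑ n ∈ Icc 1 y, (r.totient : ℝ)⁻¹ * ((Nat.gcd n r : ℝ) / r.totient) ≤
        (r.totient : ℝ)⁻¹ * (2 * (v : ℝ) ^ 360002) := by
    intro r hr
    obtain ⟨hr0, hr1⟩ := DA_bounds (by omega) H.hP (Phi_DA hr)
    have ht : (0 : ℝ) < r.totient := by exact_mod_cast Nat.totient_pos.2 hr0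
    have a0 : v ^ 360000 ≤ 2 * r.totient := (Phi_pow H (j := 1200 * 300) (by norm_num)).trans
      ((DD_lower H.hP hr).trans (le_two_totient hv2 H.hP (Phi_DA hr)))
    have a1 : (v : ℝ) ^ 360000 ≤ 2 * r.totient := by exact_mod_cast a0
    have a2 : (y : ℝ) ≤ (v : ℝ) ^ 720001 := by exact_mod_cast hy
    have a3 := (H.hτ r (hr1.trans (Phi_pow H (by norm_num)))).1
    rw [← mul_sum, ← sum_div]
    refine mul_le_mul_of_nonneg_left ?_ (by positivity)
    rw [div_le_iff₀ ht]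
    calc ∑ n ∈ Icc 1 y, (Nat.gcd n r : ℝ) ≤ y * r.divisors.card := sum_gcd_le hr0 y
      _ ≤ (v : ℝ) ^ 720001 * v := mul_le_mul a2 a3 (by positivity) (by positivity)
      _ = (v : ℝ) ^ 360002 * (v : ℝ) ^ 360000 := by rw [← pow_succ, ← pow_add]
      _ ≤ (v : ℝ) ^ 360002 * (2 * r.totient) := mul_le_mul_of_nonneg_left a1 (by positivity)
      _ = _ := by ring
  refine (sum_le_sum h2).trans ?_
  rw [← sum_mul]
  have h3 : ∑ r ∈ DD Ps 300, (r.totient : ℝ)⁻¹ ≤ 4 * v := by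
    refine (sum_le_sum_of_subset_of_nonneg (fun r hr => Phi_DA hr)
      fun _ _ _ => by positivity).trans ((sum_inv_tot_DA_le hv2 H.hP).trans ?_)
    linarith [(H.hτ (v ^ 360300) (Phi_pow H (by norm_num))).2]
  refine (mul_le_mul_of_nonneg_right h3 (by positivity)).trans (le_of_eq ?_)
  rw [pow_succ (v : ℝ) 360002]
  generalize (v : ℝ) ^ 360002 = W
  ring

theorem phi_le (H : ZP v Q Ps a) {y : ℕ} (hy : y ≤ v ^ 720001) (g : ℕ → ℝ)
    (hg : ∀ n, 0 < n → n ≤ y → |g n| ≤ (v : ℝ) ^ 6) {κ : ℝ}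
    (hκ : ∀ e, 0 < e → e ≤ v → KK Q Ps a e y g ≤ κ) :
    |Phi v Q Ps a y g| ≤ (v : ℝ) ^ 5 * κ + (v : ℝ) ^ 360020 := by
  have hP : ∀ p ∈ Ps, p.Prime := fun p hp => (H.hP p hp).1
  have hv1 : 1 ≤ v := le_trans (by norm_num) H.hv
  have hR : ∀ e, |lc (RR Q 0 v) e| ≤ (v : ℝ) ^ 2 := Phi_lc H fun r hr =>
    ⟨RR_pos hr, (RR_le hr).trans (by simpa using Phi_pow H (i := 1) (j := 2160000) (by norm_num))⟩
  have hD : ∀ d, |lc (DD Ps 300) d| ≤ (v : ℝ) ^ 2 := Phi_lc H fun r hr =>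
    ⟨(DA_bounds hv1 H.hP (Phi_DA hr)).1,
      (DA_bounds hv1 H.hP (Phi_DA hr)).2.trans (Phi_pow H (by norm_num))⟩
  have hl : ∀ m : ℤ, lam (RR Q 0 v) m =
      ∑ e ∈ Icc 1 v, if (e : ℤ) ∣ m then lc (RR Q 0 v) e else 0 :=
    lam_eq_lc _ _ (fun r hr => (RR_pos hr).ne') fun r hr f hf =>
      mem_Icc.2 ⟨Nat.pos_of_mem_divisors hf, (Nat.divisor_le hf).trans (RR_le hr)⟩
  have hl' : ∀ m : ℤ, |lam (RR Q 0 v) m| ≤ (v : ℝ) ^ 3 := by
    intro m
    rw [hl]
    refine (abs_sum_le_sum_abs _ _).trans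
      ((sum_le_card_nsmul _ _ ((v : ℝ) ^ 2) fun e _ => ?_).trans (le_of_eq ?_))
    · split_ifs
      · exact hR e
      · rw [abs_zero]
        positivity
    · rw [Nat.card_Icc, nsmul_eq_mul, Nat.add_sub_cancel]
      ring
  have e1 : Phi v Q Ps a y g =
      ∑ e ∈ Icc 1 v, lc (RR Q 0 v) e * ∑ d ∈ DA Ps, lc (DD Ps 300) d * (∑ n ∈ Icc 1 y,
        if n.Coprime Q ∧ (e : ℤ) ∣ (n : ℤ) - a then g n * kz d a n else 0) +
      ∑ n ∈ Icc 1 y,
        if n.Coprime Q then g n * lam (RR Q 0 v) ((n : ℤ) - a) * Bb Ps n else 0 := by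
    simp only [mul_sum]
    rw [sum_congr rfl fun e _ => sum_comm, sum_comm, ← sum_add_distrib, Phi]
    refine sum_congr rfl fun n _ => ?_
    by_cases hn : n.Coprime Q
    · rw [if_pos hn, if_pos hn, lam_S2 hv1 H.hP, lam_D_split hP, mul_add, mul_add, ← mul_assoc,
        ← mul_assoc, hl, mul_assoc (g n), sum_mul_sum, mul_sum]
      refine congrArg (· + _) (sum_congr rfl fun e _ => ?_)
      rw [mul_sum]
      refine sum_congr rfl fun d _ => ?_
      by_cases he : (e : ℤ) ∣ (n : ℤ) - a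
      · rw [if_pos he, if_pos ⟨hn, he⟩]
        ring
      · rw [if_neg he, if_neg fun h => he h.2]
        ring
    · simp [hn]
  rw [e1]
  refine (abs_add_le _ _).trans (add_le_add ?_ ?_)
  · refine (abs_sum_le_sum_abs _ _).trans
      ((sum_le_card_nsmul _ _ ((v : ℝ) ^ 2 * ((v : ℝ) ^ 2 * κ)) fun e he => ?_).trans (le_of_eq ?_))
    · rw [abs_mul]
      refine mul_le_mul (hR e) ?_ (abs_nonneg _) (by positivity)
      refine le_trans ?_ (mul_le_mul_of_nonneg_left (hκ e (mem_Icc.1 he).1 (mem_Icc.1 he).2)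
        (by positivity))
      rw [KK, mul_sum]
      refine (abs_sum_le_sum_abs _ _).trans (sum_le_sum fun d _ => ?_)
      rw [abs_mul]
      exact mul_le_mul_of_nonneg_right (hD d) (abs_nonneg _)
    · rw [Nat.card_Icc, nsmul_eq_mul, Nat.add_sub_cancel]
      ring
  · calc _ ≤ ∑ n ∈ Icc 1 y, (v : ℝ) ^ 6 * (v : ℝ) ^ 3 * |Bb Ps n| := by
          refine (abs_sum_le_sum_abs _ _).trans (sum_le_sum fun n hn => ?_)
          split_ifs
          · rw [abs_mul, abs_mul]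
            exact mul_le_mul_of_nonneg_right (mul_le_mul (hg n (mem_Icc.1 hn).1 (mem_Icc.1 hn).2)
              (hl' _) (abs_nonneg _) (by positivity)) (abs_nonneg _)
          · rw [abs_zero]
            positivity
      _ ≤ (v : ℝ) ^ 6 * (v : ℝ) ^ 3 * (8 * (v : ℝ) ^ 360003) := by
          rw [← mul_sum]
          exact mul_le_mul_of_nonneg_left (sum_abs_Bb_le H hy) (by positivity)
      _ = 8 * (v : ℝ) ^ 360012 := by rw [mul_left_comm, ← pow_add, ← pow_add]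
      _ ≤ _ := Phi_ten H (by norm_num) (by norm_num)

theorem phi_div (H : ZP v Q Ps a) {y : ℕ} (hy : y ≤ v ^ 720001) (ξ : ℕ → ℝ)
    (hξ : ∀ u, |ξ u| ≤ (v : ℝ) ^ 4) (hξ0 : ∀ u, v ^ 480002 < u → ξ u = 0) :
    |Phi v Q Ps a y (fun n => ∑ u ∈ n.divisors, ξ u)| ≤ (v : ℝ) ^ 719990 := by
  have hv : (0 : ℝ) < (v : ℝ) ^ 4 := pow_pos (by linarith [Phi_v H]) 4
  refine (phi_le H hy _ (κ := (v : ℝ) ^ 4 * (2 * (v : ℝ) ^ 719979)) (fun n _ hn => ?_)
    fun e he hev => ?_).trans ?_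
  · refine (abs_sum_le_sum_abs _ _).trans
      ((sum_le_card_nsmul _ _ _ fun u _ => hξ u).trans ?_)
    rw [nsmul_eq_mul]
    refine (mul_le_mul_of_nonneg_right
      (H.hτ n (hn.trans (hy.trans (Phi_pow H (by norm_num))))).1 hv.le).trans ?_
    rw [← pow_succ']
    exact Phi_powR H (by norm_num)
  · rw [KK_congr Q Ps a e y (g' := fun n => (v : ℝ) ^ 4 * ∑ u ∈ n.divisors, ξ u / (v : ℝ) ^ 4)
      fun n _ _ => by rw [← sum_div, mul_div_cancel₀ _ hv.ne'], KK_smul, abs_of_pos hv]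
    refine mul_le_mul_of_nonneg_left (KK_div H he hev hy _ (fun u => ?_) fun u hu => ?_) hv.le
    · rw [abs_div, abs_of_pos hv, div_le_one hv]
      exact hξ u
    · rw [hξ0 u hu, zero_div]
  · rw [mul_left_comm ((v : ℝ) ^ 4), mul_left_comm, ← pow_add, ← pow_add]
    linarith [Phi_powR H (i := 360020) (j := 5 + (4 + 719979)) (by norm_num),
      Phi_ten H (i := 5 + (4 + 719979)) (j := 719990) (c := 3) (by norm_num) (by norm_num)]

theorem phi_lam (H : ZP v Q Ps a) {y : ℕ} (hy : y ≤ v ^ 720001) (S : Finset ℕ)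
    (hS : ∀ r ∈ S, 0 < r ∧ r ≤ v ^ 480002) :
    |Phi v Q Ps a y (fun n => lam S n)| ≤ (v : ℝ) ^ 719990 := by
  have e : Phi v Q Ps a y (fun n => lam S n) =
      Phi v Q Ps a y (fun n => ∑ u ∈ n.divisors, lc S u) :=
    sum_congr rfl fun n hn => by
      beta_reduce
      rw [lam_eq_div S (fun r hr => (hS r hr).1.ne') (mem_Icc.1 hn).1]
  rw [e]
  refine phi_div H hy _ (fun u => (Phi_lc H (fun r hr => ⟨(hS r hr).1, (hS r hr).2.trans
    (Phi_pow H (by norm_num))⟩) u).trans (Phi_powR H (by norm_num))) fun u hu => ?_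
  by_contra h
  obtain ⟨r, hr, hur⟩ := lc_ne_zero h
  exact absurd ((Nat.le_of_dvd (hS r hr).1 hur).trans (hS r hr).2) (not_le.2 hu)

theorem phi_Lam (H : ZP v Q Ps a) {y : ℕ} (hy : y ≤ v ^ 720001) :
    |Phi v Q Ps a y (fun n => vonMangoldt n)| ≤ (v : ℝ) ^ 719990 := by
  refine (phi_le H hy _ (fun n _ hn => ?_) fun e he hev => KK_Lam H he hev hy).trans ?_
  · rw [abs_of_nonneg vonMangoldt_nonneg]
    have h1 := (H.hτ n (hn.trans (hy.trans (Phi_pow H (by norm_num))))).2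
    have h2 := Phi_powR H (i := 1) (j := 6) (by norm_num)
    rw [pow_one] at h2
    linarith [vonMangoldt_le_log (n := n), log_le_HH n]
  · rw [← pow_add]
    linarith [Phi_powR H (i := 360020) (j := 5 + 719982) (by norm_num),
      Phi_ten H (i := 5 + 719982) (j := 719990) (c := 2) (by norm_num) (by norm_num)]

end Pool.Agent.Work.MP_5d318d_nt.Zh
end
end

-- merged part: Pool.Agent.Work.MP_5d318d_nt.Z.Mass
section
/-!
# Mass and size of the new test function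

PLAN.
* `esymm_ge`: induction on `J`.  `(J + 1) e_(J+1) = ∑ S ∈ powersetCard J s, (∏ S) * ∑ i ∈ s \ S, x i`
  (count pairs `(S, i)`; `Finset.sum_powersetCard_insert`-type lemmas, or `sum_sigma'` and `sum_nbij'` with `insert`
  and `erase`), and `∑ i ∈ s \ S, x i ≥ σ - J μ`.
* `card_big_primes`: the product of these primes divides `m`, so `v ^ (1200 * card) ≤ m ≤ v ^ 720000`
  (`Finset.prod_primes_dvd`, `Finset.pow_card_le_prod`).
* `exists_mass`: `abs_sum_inv_prime_Ioc_sub_le` with `y = v ^ 1200`, `z = v ^ 1201`: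
  `log (1201 / 1200) ≥ 1 / 1201`, so for large `v` the sum of `1 / p` over `PP v Q` is at least `1 / 2000`;
  `esymm_ge` with `μ = 1 / v ^ 1200`, `sum_DD`, `1 / d ≤ 1 / φ(d)`; `c0 = (1 / 4000) ^ 300 / 300!` (keep it opaque;
  it is at most `1`).
* `abs_term_le`: induction on the finset of primes, or `ram` multiplicative: for squarefree `d`,
  `|ram d m| = ∏ p, (if p ∣ m then p - 1 else 1)`.  One way: `ram (p * d) m = ram p m * ram d m` for `p ∤ d`.
* `exists_CB`: `sum_DD`, `abs_term_le`, `Finset.prod_one_add`/`Finset.prod_add_one` (sum over all subsets),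
  `1 + b p ≤ (if p ∣ m then 2 else 1) * exp (2 / p)`, `card_big_primes`, Mertens on the window (sum at most `1`);
  `CB = 2 ^ 600 * exp 2`.
* `ZP_of_GP`: direct.
-/

noncomputable section

open Finset Real ArithmeticFunction

namespace Pool.Agent.Work.MP_5d318d_nt.Zh

open Pool.Agent.Lib.LargeSieve Pool.Agent.Lib.ANT

variable {v Q : ℕ} {Ps : Finset ℕ} {a : ℤ}

theorem Mass_step (s : Finset ℕ) (x : ℕ → ℝ) (J : ℕ) :
    ∑ S ∈ s.powersetCard J, (∏ i ∈ S, x i) * ∑ i ∈ s \ S, x i =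
      (J + 1 : ℕ) * ∑ S ∈ s.powersetCard (J + 1), ∏ i ∈ S, x i := by
  have e : ∀ S ∈ s.powersetCard (J + 1), (J + 1 : ℕ) * ∏ i ∈ S, x i = ∑ _i ∈ S, ∏ i ∈ S, x i :=
    fun S hS => by rw [sum_const, (mem_powersetCard.1 hS).2, nsmul_eq_mul]
  rw [mul_sum, sum_congr rfl e]
  simp only [mul_sum]
  rw [sum_sigma', sum_sigma']
  refine sum_nbij' (fun y => ⟨insert y.2 y.1, y.2⟩) (fun y => ⟨y.1.erase y.2, y.2⟩) ?_ ?_ ?_ ?_ ?_
  · rintro ⟨S, i⟩ h
    simp only [mem_sigma, mem_powersetCard, mem_sdiff] at h ⊢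
    exact ⟨⟨insert_subset h.2.1 h.1.1, by rw [card_insert_of_notMem h.2.2, h.1.2]⟩,
      mem_insert_self _ _⟩
  · rintro ⟨S, i⟩ h
    simp only [mem_sigma, mem_powersetCard, mem_sdiff] at h ⊢
    exact ⟨⟨(erase_subset _ _).trans h.1.1, by rw [card_erase_of_mem h.2, h.1.2]; rfl⟩, h.1.1 h.2,
      notMem_erase _ _⟩
  · rintro ⟨S, i⟩ h
    rw [erase_insert (mem_sdiff.1 (mem_sigma.1 h).2).2]
  · rintro ⟨S, i⟩ h
    rw [insert_erase (mem_sigma.1 h).2]
  · rintro ⟨S, i⟩ h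
    rw [prod_insert (mem_sdiff.1 (mem_sigma.1 h).2).2, mul_comm]

theorem esymm_ge (s : Finset ℕ) (x : ℕ → ℝ) {μ : ℝ} (h0 : ∀ i ∈ s, 0 ≤ x i)
    (h1 : ∀ i ∈ s, x i ≤ μ) (hμ : 0 ≤ μ) {σ : ℝ} (hσ : 0 ≤ σ) (J : ℕ)
    (h : σ + J * μ ≤ ∑ i ∈ s, x i) :
    σ ^ J / J.factorial ≤ ∑ S ∈ s.powersetCard J, ∏ i ∈ S, x i := by
  induction J with
  | zero => simp
  | succ J ih =>
    push_cast at h
    have i := ih (by linarith)
    have k : (∑ S ∈ s.powersetCard J, ∏ i ∈ S, x i) * σ ≤ _ := (sum_mul _ _ _).le.trans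
      ((sum_le_sum fun S hS => ?_).trans (Mass_step s x J).le)
    · have p : (0 : ℝ) < (J + 1 : ℕ) := by positivity
      rw [Nat.factorial_succ, Nat.cast_mul, mul_comm, ← div_div, div_le_iff₀' p, pow_succ,
        mul_div_right_comm]
      exact (mul_le_mul_of_nonneg_right i hσ).trans k
    · obtain ⟨a, b⟩ := mem_powersetCard.1 hS
      refine mul_le_mul_of_nonneg_left ?_ (prod_nonneg fun i hi => h0 i (a hi))
      have := sum_le_card_nsmul S x μ fun i hi => h1 i (a hi)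
      rw [b, nsmul_eq_mul] at this
      rw [sum_sdiff_eq_sub a]
      linarith

theorem card_big_primes (hv : 2 ≤ v) {m : ℕ} (hm : 0 < m) (hm' : m ≤ v ^ 720000)
    (S : Finset ℕ) (hS : ∀ p ∈ S, p.Prime ∧ v ^ 1200 < p ∧ p ∣ m) : S.card ≤ 600 := by
  have h1 := Nat.le_of_dvd hm
    (prod_primes_dvd m (fun p hp => (hS p hp).1.prime) fun p hp => (hS p hp).2.2)
  have h2 := pow_card_le_prod S (fun p => p) (v ^ 1200) fun p hp => (hS p hp).2.1.le
  rw [← pow_mul] at h2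
  have := (Nat.pow_le_pow_iff_right hv).1 (h2.trans (h1.trans hm'))
  omega

theorem PW_PP (v Q : ℕ) : PW v (PP v Q) := by
  exact fun p hp => ⟨(mem_filter.1 hp).2.1, mem_Ioc.1 (mem_filter.1 hp).1⟩

theorem PP_not_dvd (v Q : ℕ) : ∀ p ∈ PP v Q, ¬ p ∣ Q := by
  exact fun p hp => (mem_filter.1 hp).2.2

theorem Mass_win (hv : 2 ≤ v) :
    1 / 1201 - 1 / (25 * Real.log v) ≤
      ∑ p ∈ (Ioc (v ^ 1200) (v ^ 1201)).filter Nat.Prime, (p : ℝ)⁻¹ ∧
    ∑ p ∈ (Ioc (v ^ 1200) (v ^ 1201)).filter Nat.Prime, (p : ℝ)⁻¹ ≤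
      1 / 1200 + 1 / (25 * Real.log v) := by
  have h := abs_sum_inv_prime_Ioc_sub_le (v ^ 1200) (v ^ 1201)
    (hv.trans (Nat.le_self_pow (by norm_num) v)) (Nat.pow_le_pow_right (by omega) (by norm_num))
  have L : 0 < Real.log v := Real.log_pos (by exact_mod_cast hv)
  rw [Nat.cast_pow, Nat.cast_pow, Real.log_pow, Real.log_pow,
    ← Real.log_div (by positivity) (by positivity), mul_div_mul_right _ _ L.ne', abs_le,
    show (48 : ℝ) / ((1200 : ℕ) * Real.log v) = 1 / (25 * Real.log v) by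
      push_cast; field_simp; norm_num] at h
  have a := Real.one_sub_inv_le_log_of_pos (x := (1201 : ℕ) / (1200 : ℕ)) (by positivity)
  have b := Real.log_le_sub_one_of_pos (x := (1201 : ℕ) / (1200 : ℕ)) (by positivity)
  generalize Real.log (((1201 : ℕ) : ℝ) / (1200 : ℕ)) = t at h a b
  norm_num at a b
  constructor <;> linarith [h.1, h.2]

theorem Mass_c (J : ℕ) : 0 < (1 / 4000 : ℝ) ^ J / J.factorial ∧
    (1 / 4000 : ℝ) ^ J / J.factorial ≤ 1 :=
  ⟨by positivity, div_le_one_of_le₀ ((pow_le_one₀ (by norm_num) (by norm_num)).trans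
    (by exact_mod_cast J.factorial_pos)) (by positivity)⟩

theorem exists_mass : ∃ c0 : ℝ, 0 < c0 ∧ c0 ≤ 1 ∧ ∃ v0 : ℕ, ∀ v, v0 ≤ v → ∀ Q, 0 < Q →
    Q ≤ v ^ 720000 → c0 ≤ Sg (DD (PP v Q) 300) := by
  refine ⟨_, (Mass_c 300).1, (Mass_c 300).2, ⌈Real.exp 100⌉₊ + 10 ^ 7, fun v hv => ?_⟩
  have v7 : (10 : ℝ) ^ 7 ≤ v := by exact_mod_cast le_of_add_le_right hv
  have v2 : 2 ≤ v := le_trans (by norm_num) (le_of_add_le_right hv)
  have L : 100 ≤ Real.log v := (Real.le_log_iff_exp_le (by linarith)).2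
    (Nat.ceil_le.1 (le_of_add_le_left hv))
  intro Q h0 h1
  have hP := PW_PP v Q
  have hb : ∀ p : ℕ, v ^ 1200 < p → (p : ℝ)⁻¹ ≤ 1 / 10 ^ 7 := fun p hp => by
    have : (v : ℝ) ≤ p := by exact_mod_cast (Nat.le_self_pow (by norm_num) v).trans hp.le
    rw [one_div]
    exact inv_anti₀ (by norm_num) (v7.trans this)
  have w := (Mass_win v2).1
  rw [← sum_filter_add_sum_filter_not _ (· ∣ Q), filter_filter _ _ (Ioc _ _),
    filter_filter _ _ (Ioc _ _)] at w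
  have c := card_big_primes v2 h0 h1 ((Ioc (v ^ 1200) (v ^ 1201)).filter fun p => p.Prime ∧ p ∣ Q)
    fun p hp => ⟨(mem_filter.1 hp).2.1, (mem_Ioc.1 (mem_filter.1 hp).1).1, (mem_filter.1 hp).2.2⟩
  have d := sum_le_card_nsmul ((Ioc (v ^ 1200) (v ^ 1201)).filter fun p => p.Prime ∧ p ∣ Q) _ _
    fun p hp => hb p (mem_Ioc.1 (mem_filter.1 hp).1).1
  rw [nsmul_eq_mul] at d
  have c' := mul_le_mul_of_nonneg_right (Nat.cast_le (α := ℝ).2 c)
    (show (0 : ℝ) ≤ 1 / 10 ^ 7 by norm_num)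
  have l : 1 / (25 * Real.log v) ≤ 1 / 2500 := one_div_le_one_div_of_le (by norm_num) (by linarith)
  refine (esymm_ge (PP v Q) (fun p => (p : ℝ)⁻¹) (fun _ _ => by positivity)
    (fun p hp => hb p (hP p hp).2.1) (by norm_num) (by norm_num) 300 ?_).trans ?_
  · rw [PP]
    push_cast at c' ⊢
    linarith
  · rw [Sg, sum_DD fun p hp => (hP p hp).1]
    refine sum_le_sum fun S hS => ?_
    rw [prod_inv_distrib, ← Nat.cast_prod]
    exact inv_anti₀ (Nat.cast_pos.2 (Nat.totient_pos.2 (prod_pos fun p hp =>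
      (hP p ((mem_powersetCard.1 hS).1 hp)).1.pos))) (Nat.cast_le.2 (Nat.totient_le _))

theorem Mass_ram {p d : ℕ} (h : p.Coprime d) (m : ℤ) : ram (p * d) m = ram p m * ram d m := by
  rw [ram, ram, ram, Lc_div h, sum_mul_sum]
  refine sum_congr rfl fun a ha => sum_congr rfl fun b hb => ?_
  have ha' := Nat.dvd_of_mem_divisors ha
  have hb' := Nat.dvd_of_mem_divisors hb
  have c : IsCoprime (a : ℤ) b := Nat.isCoprime_iff_coprime.2 (h.of_dvd ha' hb')
  rw [ite_zero_mul_ite_zero, ← Nat.div_mul_div_comm ha' hb',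
    Lc_mul (h.of_dvd (Nat.div_dvd_of_dvd ha') (Nat.div_dvd_of_dvd hb')), Nat.cast_mul, Nat.cast_mul]
  exact if_congr ⟨fun k => ⟨(dvd_mul_right _ _).trans k, (dvd_mul_left _ _).trans k⟩,
    fun k => c.mul_dvd k.1 k.2⟩ (by ring) rfl

theorem Mass_prime {p : ℕ} (hp : p.Prime) (m : ℤ) : |muR p / p.totient * ram p m| =
    if (p : ℤ) ∣ m then (1 : ℝ) else ((p : ℝ) - 1)⁻¹ := by
  have h : (0 : ℝ) < p - 1 := sub_pos.2 (by exact_mod_cast hp.one_lt)
  have e : muR p = -1 := by rw [muR, intCoe_apply, moebius_apply_prime hp]; simp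
  have e1 : muR 1 = 1 := by simp [muR]
  rw [ram, hp.sum_divisors, Nat.div_self hp.pos, Nat.div_one, e, e1, Nat.totient_prime hp,
    Nat.cast_pred hp.pos, Nat.cast_one, if_pos (one_dvd m), Nat.cast_one, abs_mul, abs_div,
    abs_of_pos h]
  split_ifs
  · rw [mul_one, one_mul, ← sub_eq_add_neg, abs_of_pos h, abs_neg, abs_one, one_div_mul_cancel h.ne']
  · simp

theorem abs_term_le (S : Finset ℕ) (hS : ∀ p ∈ S, p.Prime) (m : ℤ) :
    |muR (∏ p ∈ S, p) / (∏ p ∈ S, p).totient * ram (∏ p ∈ S, p) m| ≤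
      ∏ p ∈ S, if (p : ℤ) ∣ m then (1 : ℝ) else ((p : ℝ) - 1)⁻¹ := by
  induction S using Finset.induction_on with
  | empty => simp [ram, muR]
  | insert p S hp ih =>
    have h := hS p (mem_insert_self _ _)
    have c : p.Coprime (∏ q ∈ S, q) := Nat.Coprime.prod_right fun q hq =>
      (Nat.coprime_primes h (hS q (mem_insert_of_mem hq))).2 fun e => hp (e ▸ hq)
    rw [prod_insert hp, prod_insert hp, Mass_ram c, Lc_mul c, Nat.totient_mul c, Nat.cast_mul,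
      mul_div_mul_comm, mul_mul_mul_comm, abs_mul, ← Mass_prime h]
    exact mul_le_mul_of_nonneg_left (ih fun q hq => hS q (mem_insert_of_mem hq)) (abs_nonneg _)

theorem exists_CB : ∃ CB : ℝ, 1 ≤ CB ∧ ∀ (v : ℕ) (Ps : Finset ℕ), 10 ^ 12 ≤ v → PW v Ps →
    ∀ m : ℤ, 0 < m → m ≤ (v : ℤ) ^ 720000 → |lam (DD Ps 300) m| ≤ CB := by
  refine ⟨2 ^ 600 * Real.exp 2, one_le_mul_of_one_le_of_one_le (one_le_pow₀ one_le_two)
    (Real.one_le_exp zero_le_two), fun v Ps hv hP m h0 h1 => ?_⟩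
  have v2 : 2 ≤ v := le_trans (by norm_num) hv
  have p2 : ∀ p ∈ Ps, (2 : ℝ) ≤ p := fun p hp => by exact_mod_cast (hP p hp).1.two_le
  have b0 : ∀ p ∈ Ps, 0 ≤ if (p : ℤ) ∣ m then (1 : ℝ) else ((p : ℝ) - 1)⁻¹ := fun p hp => by
    split_ifs
    exacts [zero_le_one, inv_nonneg.2 (by linarith [p2 p hp])]
  rw [lam, sum_DD fun p hp => (hP p hp).1]
  refine (abs_sum_le_sum_abs _ _).trans ((sum_le_sum fun S hS => abs_term_le S
    (fun p hp => (hP p ((mem_powersetCard.1 hS).1 hp)).1) m).trans ?_)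
  refine (sum_le_sum_of_subset_of_nonneg (t := Ps.powerset)
    (fun S hS => mem_powerset.2 (mem_powersetCard.1 hS).1)
    fun S hS _ => prod_nonneg fun p hp => b0 p (mem_powerset.1 hS hp)).trans ?_
  rw [← prod_one_add]
  refine (prod_le_prod (g := fun p : ℕ => (if (p : ℤ) ∣ m then 2 else 1) * Real.exp (2 * (p : ℝ)⁻¹))
    (fun p hp => add_nonneg zero_le_one (b0 p hp)) fun p hp => ?_).trans ?_
  · have a := Real.add_one_le_exp (2 * (p : ℝ)⁻¹)
    have b := p2 p hp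
    have c : ((p : ℝ) - 1)⁻¹ ≤ 2 * (p : ℝ)⁻¹ := by
      rw [← div_eq_mul_inv, inv_eq_one_div, div_le_div_iff₀ (by linarith) (by linarith)]
      linarith
    have d : 0 ≤ (p : ℝ)⁻¹ := by positivity
    split_ifs <;> linarith
  · rw [prod_mul_distrib, ← Real.exp_sum, ← mul_sum, prod_ite, prod_const, prod_const, one_pow,
      mul_one]
    lift m to ℕ using h0.le
    refine mul_le_mul (pow_le_pow_right₀ one_le_two (card_big_primes v2 (by exact_mod_cast h0)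
      (by exact_mod_cast h1) _ fun p hp => ?_)) (Real.exp_le_exp.2 ?_) (by positivity)
      (pow_nonneg zero_le_two _)
    · obtain ⟨a, b⟩ := mem_filter.1 hp
      exact ⟨(hP p a).1, (hP p a).2.1, Int.natCast_dvd_natCast.1 b⟩
    · have a := (Mass_win v2).2
      have b : ∑ p ∈ Ps, (p : ℝ)⁻¹ ≤ _ := (sum_le_sum_of_subset_of_nonneg
        (fun p hp => mem_filter.2 ⟨mem_Ioc.2 (hP p hp).2, (hP p hp).1⟩)
        fun _ _ _ => by positivity).trans a
      have c : Real.log 2 ≤ Real.log v := Real.log_le_log two_pos (by exact_mod_cast v2)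
      have d : 1 / (25 * Real.log v) ≤ 1 / 2 :=
        one_div_le_one_div_of_le two_pos (by linarith [Real.log_two_gt_d9])
      linarith

theorem GP.Q_bounds {X : ℝ} (G : GP X v Q) : v ^ 719998 ≤ Q ∧ Q ≤ v ^ 720000 := by
  have v0 : 0 < v := lt_of_lt_of_le (by norm_num) G.hv
  have a : v ^ (719998 + 1) ≤ v * Q := by exact_mod_cast G.hX0.trans G.hQ0
  rw [pow_succ'] at a
  exact ⟨Nat.le_of_mul_le_mul_left a v0, by exact_mod_cast G.hQ1.trans G.hX1⟩

theorem ZP_of_GP {X : ℝ} (G : GP X v Q) {j : ℤ} (hj : j ≠ 0) (hj' : |j| ≤ 2 * v) :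
    ZP v Q (PP v Q) (j * Q) := by
  obtain ⟨q0, q1⟩ := G.Q_bounds
  have v2 : 2 ≤ v := le_trans (by norm_num) G.hv
  have q2 : 2 ≤ Q := v2.trans ((Nat.le_self_pow (by norm_num) v).trans q0)
  have j2 : j.natAbs ≤ v ^ 2 := by
    have : j.natAbs ≤ 2 * v := by
      rw [Int.abs_eq_natAbs] at hj'
      exact_mod_cast hj'
    exact this.trans (by rw [sq]; exact Nat.mul_le_mul_right v v2)
  have nd : ∀ n : ℕ, v ^ 2 < n → n.Coprime Q → ¬ (n : ℤ) ∣ j * Q := fun n h c k =>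
    (j2.trans_lt h).not_ge (Nat.le_of_dvd (Int.natAbs_pos.2 hj) (Int.natCast_dvd.1
      ((Nat.isCoprime_iff_coprime.2 c).dvd_of_dvd_mul_right k)))
  refine ⟨G.hv, G.hτ, PW_PP v Q, fun p hp => ?_, ?_, by omega, q1, nd, fun n c e => ?_⟩
  · obtain ⟨a, b, -⟩ := PW_PP v Q p hp
    exact ((Nat.prime_iff_prime_int.1 a).coprime_iff_not_dvd.2 (nd p
      ((Nat.pow_le_pow_right (by omega) (by norm_num)).trans_lt b)
      (a.coprime_iff_not_dvd.2 (PP_not_dvd v Q p hp)))).symm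
  · rw [Int.natAbs_mul, Int.natAbs_natCast, show 720002 = 2 + 720000 from rfl, pow_add]
    exact Nat.mul_le_mul j2 q1
  · have := c.symm.eq_one_of_dvd (Int.natCast_dvd_natCast.1 (e ▸ dvd_mul_left _ _))
    omega

end Pool.Agent.Work.MP_5d318d_nt.Zh
end
end

-- merged part: Pool.Agent.Work.MP_5d318d_nt.Z.Corr
section
/-!
# Off-diagonal terms

PLAN.
* `Phi_eq`: `Phi` as a sum over the integers of `Ioc 0 y` (`sum_filter`, `Nat.isCoprime_iff_coprime`, `sum_nbij'` with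
  `Int.toNat`).
* `window_le`: `Ioc u w` is empty or splits into its positive part and its nonpositive part; `0` is not prime to
  `Q > 1`; the positive part is a difference of two sums over `Ioc 0 y`; on the negative part substitute `m ↦ -m`
  (`hg`, `lam_neg`).
* `corr_split`: `sum_red_fiber_int` turns the left sum into `∑ m ∈ J, m prime to Q, g m * FF .. (m % Q)`; since
  `Ioc 0 N ⊆ J`, `class_sum` for the function cut to `Ioc 0 N` gives the sum over `|k| ≤ L / Q ≤ 2 v`; the term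
  `k = 0` is the diagonal.  For `k ≠ 0` the conditions `m ∈ J`, `m + k Q ∈ Ioc 0 N` define
  `Ioc (max u (-(k Q))) (min (u + L) (N - k Q))`; `window_le` with `a = -k * Q`; `4 v * 4 v ^ 719990 ≤ v ^ 719992`.
-/

noncomputable section

open Finset Real ArithmeticFunction

namespace Pool.Agent.Work.MP_5d318d_nt.Zh

open Pool.Agent.Lib.LargeSieve Pool.Agent.Lib.ANT

variable {v Q : ℕ} {Ps : Finset ℕ} {a : ℤ}

theorem Phi_eq (v Q : ℕ) (Ps : Finset ℕ) (a : ℤ) (y : ℕ) (g : ℤ → ℝ) :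
    Phi v Q Ps a y (fun n => g n) = ∑ m ∈ (Ioc (0 : ℤ) y).filter (fun m => IsCoprime m (Q : ℤ)),
      g m * lam (S2 v Q Ps) (m - a) := by
  rw [Phi, ← sum_filter]
  refine sum_bij (fun n _ => (n : ℤ)) (fun n hn => ?_) (fun _ _ _ _ e => Int.natCast_inj.1 e)
    (fun m hm => ?_) fun _ _ => rfl
  · obtain ⟨h1, h2⟩ := mem_filter.1 hn
    rw [mem_Icc] at h1
    exact mem_filter.2 ⟨mem_Ioc.2 ⟨by omega, by omega⟩, Nat.isCoprime_iff_coprime.2 h2⟩
  · obtain ⟨h1, h2⟩ := mem_filter.1 hm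
    rw [mem_Ioc] at h1
    lift m to ℕ using h1.1.le
    exact ⟨m, mem_filter.2 ⟨mem_Icc.2 ⟨by omega, by omega⟩, Nat.isCoprime_iff_coprime.1 h2⟩, rfl⟩

theorem Corr_pos (g : ℤ → ℝ) (a : ℤ) {Y : ℕ} {Φ : ℝ}
    (h : ∀ y, y ≤ Y → |Phi v Q Ps a y (fun n => g n)| ≤ Φ) {p q : ℤ} (hp : 0 ≤ p) (hq : q ≤ Y) :
    |∑ m ∈ (Ioc p q).filter (fun m => IsCoprime m (Q : ℤ)), g m * lam (S2 v Q Ps) (m - a)| ≤
      2 * Φ := by
  rcases le_or_gt q p with c | c
  · rw [Ioc_eq_empty_of_le c, filter_empty, sum_empty, abs_zero]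
    linarith [(abs_nonneg _).trans (h 0 (Nat.zero_le _))]
  lift q to ℕ using hp.trans c.le
  lift p to ℕ using hp
  have a1 := h q (by omega)
  have a2 := h p (by omega)
  rw [Phi_eq] at a1 a2
  rw [← Ioc_union_Ioc_eq_Ioc (Int.natCast_nonneg p) c.le, filter_union,
    sum_union (disjoint_filter_filter (Ioc_disjoint_Ioc_of_le le_rfl))] at a1
  rw [abs_le] at *
  constructor <;> linarith [a1.1, a1.2, a2.1, a2.2]

theorem window_le (hQ : 1 < Q) (g : ℤ → ℝ) (hg : ∀ m, g (-m) = g m) (a : ℤ) {Y : ℕ} {Φ : ℝ}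
    (h1 : ∀ y, y ≤ Y → |Phi v Q Ps a y (fun n => g n)| ≤ Φ)
    (h2 : ∀ y, y ≤ Y → |Phi v Q Ps (-a) y (fun n => g n)| ≤ Φ) {u w : ℤ} (hu : -(Y : ℤ) ≤ u)
    (hw : w ≤ Y) :
    |∑ m ∈ (Ioc u w).filter (fun m => IsCoprime m (Q : ℤ)), g m * lam (S2 v Q Ps) (m - a)| ≤
      4 * Φ := by
  have a1 := Corr_pos g a h1 (le_max_right u 0) hw
  have a2 := Corr_pos g (-a) h2 (le_max_right (-w - 1) 0) (show -u - 1 ≤ Y by omega)
  have c0 : ∀ m : ℤ, IsCoprime m (Q : ℤ) → m ≠ 0 := by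
    rintro _ k rfl
    have := Int.isUnit_iff.1 (isCoprime_zero_left.1 k)
    omega
  have e1 : ((Ioc u w).filter (fun m => IsCoprime m (Q : ℤ))).filter (0 < ·) =
      (Ioc (max u 0) w).filter (fun m => IsCoprime m (Q : ℤ)) := by
    ext m
    simp only [mem_filter, mem_Ioc, max_lt_iff]
    tauto
  have e2 : ∑ m ∈ ((Ioc u w).filter (fun m => IsCoprime m (Q : ℤ))).filter (¬ 0 < ·),
      g m * lam (S2 v Q Ps) (m - a) = ∑ m ∈ (Ioc (max (-w - 1) 0) (-u - 1)).filter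
        (fun m => IsCoprime m (Q : ℤ)), g m * lam (S2 v Q Ps) (m - -a) := by
    refine sum_nbij' (fun m => -m) (fun m => -m) (fun m hm => ?_) (fun m hm => ?_)
      (fun _ _ => neg_neg _) (fun _ _ => neg_neg _) fun m _ => ?_
    · simp only [mem_filter, mem_Ioc, max_lt_iff] at hm ⊢
      have := c0 m hm.1.2
      exact ⟨by omega, hm.1.2.neg_left⟩
    · simp only [mem_filter, mem_Ioc, max_lt_iff] at hm ⊢
      exact ⟨⟨by omega, hm.2.neg_left⟩, by omega⟩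
    · rw [hg, ← lam_neg, neg_sub, neg_sub_neg]
  rw [← sum_filter_add_sum_filter_not _ (0 < ·), e1, e2]
  exact (abs_add_le _ _).trans (by linarith)

theorem corr_split (hv : 16 ≤ v) (hQ : 1 < Q) (g : ℤ → ℝ) (hg : ∀ m, g (-m) = g m)
    (h : ∀ j : ℤ, j ≠ 0 → |j| ≤ 2 * v → ∀ y, y ≤ v ^ 720001 →
      |Phi v Q Ps (j * Q) y (fun n => g n)| ≤ (v : ℝ) ^ 719990)
    {u : ℤ} {L N : ℕ} (hu0 : u ≤ 0) (hu1 : (N : ℤ) ≤ u + L) (hL : L ≤ 2 * v * Q)
    (hL' : L ≤ v ^ 720001) :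
    |∑ A ∈ red Q, (∑ m ∈ (Ioc u (u + L)).filter (fun m : ℤ => m % Q = A), g m) *
        FF Q (S2 v Q Ps) (Ioc (0 : ℤ) N) A -
      ∑ m ∈ (Ioc (0 : ℤ) N).filter (fun m => IsCoprime m (Q : ℤ)), g m * lam (S2 v Q Ps) m| ≤
      (v : ℝ) ^ 719992 := by
  have Q0 : 0 < Q := by omega
  have e1 : ∑ A ∈ red Q, (∑ m ∈ (Ioc u (u + L)).filter (fun m : ℤ => m % Q = A), g m) *
      FF Q (S2 v Q Ps) (Ioc (0 : ℤ) N) A = ∑ k ∈ Icc (-((L / Q : ℕ) : ℤ)) (L / Q : ℕ),
        ∑ m ∈ (Ioc (max u (-k * Q)) (min (u + L) (N + -k * Q))).filter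
          (fun m => IsCoprime m (Q : ℤ)), g m * lam (S2 v Q Ps) (m - -k * Q) := by
    have a : ∀ A ∈ red Q, (∑ m ∈ (Ioc u (u + L)).filter (fun m : ℤ => m % Q = A), g m) *
        FF Q (S2 v Q Ps) (Ioc (0 : ℤ) N) A = ∑ m ∈ (Ioc u (u + L)).filter (fun m : ℤ => m % Q = A),
          ∑ k ∈ Icc (-((L / Q : ℕ) : ℤ)) (L / Q : ℕ),
            if m + k * Q ∈ Ioc (0 : ℤ) N then g m * lam (S2 v Q Ps) (m + k * Q) else 0 := by
      intro A _
      rw [sum_mul]
      refine sum_congr rfl fun m hm => ?_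
      obtain ⟨m1, m2⟩ := mem_filter.1 hm
      have b : (Ioc (0 : ℤ) N).filter (fun n : ℤ => n % Q = A) =
          ((Ioc u (u + L)).filter fun n => n % Q = m % Q).filter (· ∈ Ioc (0 : ℤ) N) := by
        ext n
        simp only [mem_filter, mem_Ioc, m2]
        omega
      rw [FF, b, sum_filter, class_sum _ Q0 u L m1, mul_sum]
      refine sum_congr rfl fun k _ => ?_
      by_cases c : m + k * Q ∈ Ioc (0 : ℤ) N
      · rw [if_pos c, if_pos c, if_pos]
        rw [mem_Ioc] at c ⊢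
        omega
      · simp only [c, if_false, ite_self, mul_zero]
    rw [sum_congr rfl a, sum_red_fiber_int Q0, sum_comm]
    refine sum_congr rfl fun k _ => ?_
    rw [← sum_filter]
    refine sum_congr ?_ fun m _ => by rw [neg_mul, sub_neg_eq_add]
    ext m
    simp only [mem_filter, mem_Ioc, max_lt_iff, le_min_iff, neg_mul]
    constructor
    · exact fun k => ⟨by omega, k.1.2⟩
    · exact fun k => ⟨⟨by omega, k.2⟩, by omega⟩
  have d : L / Q ≤ 2 * v := Nat.div_le_of_le_mul (by rwa [mul_comm])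
  generalize L / Q = K at e1 d
  have z : (0 : ℤ) ∈ Icc (-(K : ℤ)) K := mem_Icc.2 ⟨by omega, by omega⟩
  rw [e1, ← add_sum_erase _ _ z]
  simp only [neg_zero, zero_mul, add_zero, sub_zero, max_eq_right hu0, min_eq_right hu1,
    add_sub_cancel_left]
  refine (abs_sum_le_sum_abs _ _).trans
    ((sum_le_card_nsmul _ _ (4 * (v : ℝ) ^ 719990) fun k hk => ?_).trans ?_)
  · obtain ⟨k0, k1⟩ := mem_erase.1 hk
    have k2 : |k| ≤ 2 * v := abs_le.2 (by rw [mem_Icc] at k1; omega)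
    generalize v ^ 720001 = Y at *
    refine window_le hQ g hg _ (h (-k) (by omega) (by rwa [abs_neg])) ?_
      (le_max_of_le_left (by omega)) (min_le_of_left_le (by omega))
    rw [neg_mul, neg_neg]
    exact h k k0 k2
  · have c : ((((Icc (-(K : ℤ)) K).erase 0).card : ℕ) : ℝ) ≤ 4 * v := by
      rw [card_erase_of_mem z, Int.card_Icc]
      exact_mod_cast (by omega : ((K : ℤ) + 1 - -(K : ℤ)).toNat - 1 ≤ 4 * v)
    have v16 : (16 : ℝ) ≤ v := by exact_mod_cast hv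
    rw [nsmul_eq_mul, show 719992 = 2 + 719990 from rfl, pow_add, ← mul_assoc]
    exact mul_le_mul_of_nonneg_right (by nlinarith) (by positivity)

end Pool.Agent.Work.MP_5d318d_nt.Zh
end
end

-- merged part: Pool.Agent.Work.MP_5d318d_nt.Z.Mu1
section
/-!
# Moebius sums with a coprimality condition
-/

noncomputable section

open Finset Real ArithmeticFunction

namespace Pool.Agent.Work.MP_5d318d_nt.Zh.Mu1

open Pool.Agent.Lib.LargeSieve Pool.Agent.Lib.ANT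

lemma muR_eq (n : ℕ) : muR n = ((moebius n : ℤ) : ℝ) := by simp [muR]

lemma muR_mul_prime {p m : ℕ} (hp : p.Prime) : muR (p * m) = if p ∣ m then 0 else -muR m := by
  rw [muR_eq, muR_eq]
  split_ifs with h
  · obtain ⟨t, rfl⟩ := h
    rw [moebius_eq_zero_of_not_squarefree]
    · simp
    · intro hs
      exact hp.one_lt.ne' (Nat.isUnit_iff.1 (hs p ⟨t, by ring⟩))
  · rw [isMultiplicative_moebius.map_mul_of_coprime ((Nat.Prime.coprime_iff_not_dvd hp).2 h),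
      moebius_apply_prime hp]
    simp

lemma Mk_zero (k : ℕ) : Mk k 0 = 0 := by simp [Mk]

lemma Mk_succ (k x : ℕ) :
    Mk k (x + 1) = Mk k x + if (x + 1).Coprime k then muR (x + 1) else 0 := by
  rw [Mk, sum_Icc_succ_top (by omega), Mk]

lemma Mk_rec {k p : ℕ} (hp : p.Prime) (hpk : ¬ p ∣ k) (x : ℕ) :
    Mk (k * p) x = Mk k x + Mk (k * p) (x / p) := by
  induction x with
  | zero => simp [Mk_zero]
  | succ x ih =>
    rw [Mk_succ, Mk_succ, ih, Nat.succ_div]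
    have hk : p.Coprime k := (Nat.Prime.coprime_iff_not_dvd hp).2 hpk
    by_cases h : p ∣ x + 1
    · rw [if_pos h]
      have e0 := Nat.succ_div (a := x) (b := p)
      rw [if_pos h] at e0
      obtain ⟨m, hm⟩ := h
      have e : x / p + 1 = m := by
        rw [hm, Nat.mul_div_cancel_left _ hp.pos] at e0
        exact e0.symm
      rw [Mk_succ, e, hm, muR_mul_prime hp]
      have h0 : ¬ (p * m).Coprime (k * p) := fun h => by
        have := (Nat.coprime_mul_iff_right.1 (Nat.coprime_mul_iff_left.1 h).1).2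
        exact hp.one_lt.ne' (by simpa using this)
      rw [if_neg h0]
      by_cases h1 : p ∣ m
      · have h2 : ¬ m.Coprime (k * p) := fun h =>
          (Nat.Prime.coprime_iff_not_dvd hp).1 (Nat.coprime_mul_iff_right.1 h).2.symm h1
        rw [if_neg h2, if_pos h1]; simp
      · have h2 : m.Coprime p := ((Nat.Prime.coprime_iff_not_dvd hp).2 h1).symm
        rw [if_neg h1]
        by_cases h3 : m.Coprime k
        · rw [if_pos (Nat.Coprime.mul_left hk h3), if_pos (Nat.Coprime.mul_right h3 h2)]; ring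
        · rw [if_neg (fun h => h3 (Nat.coprime_mul_iff_left.1 h).2),
            if_neg (fun h => h3 (Nat.coprime_mul_iff_right.1 h).1)]; ring
    · have h2 : (x + 1).Coprime p := ((Nat.Prime.coprime_iff_not_dvd hp).2 h).symm
      rw [if_neg h, add_zero]
      by_cases h3 : (x + 1).Coprime k
      · rw [if_pos h3, if_pos (Nat.Coprime.mul_right h3 h2)]; ring
      · rw [if_neg h3, if_neg (fun h => h3 (Nat.coprime_mul_iff_right.1 h).1)]; ring

lemma Mk_mul_dvd {k p : ℕ} (hpk : p ∣ k) (x : ℕ) : Mk (k * p) x = Mk k x := by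
  refine sum_congr rfl fun n _ => ?_
  have : n.Coprime (k * p) ↔ n.Coprime k :=
    ⟨fun h => (Nat.coprime_mul_iff_right.1 h).1,
      fun h => Nat.Coprime.mul_right h (Nat.Coprime.coprime_dvd_right hpk h)⟩
  simp only [this]

lemma Mk_step {k p X : ℕ} (hp : p.Prime) (hpk : ¬ p ∣ k) {a b z : ℝ} (ha : 0 ≤ a) (hb : 0 ≤ b)
    (hz : 0 ≤ z) (h : ∀ x ≤ X, |Mk k x| ≤ a * x + b * √(x * z)) :
    ∀ x ≤ X, |Mk (k * p) x| ≤ a * (p / (p - 1)) * x + 4 * b * √(x * z) := by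
  intro x
  have hp2 : (2 : ℝ) ≤ p := by exact_mod_cast hp.two_le
  induction x using Nat.strong_induction_on with
  | _ x ih =>
    intro hx
    rcases Nat.eq_zero_or_pos x with rfl | hx0
    · simp [Mk_zero]
    have h1 := ih (x / p) (Nat.div_lt_self hx0 hp.one_lt) ((Nat.div_le_self _ _).trans hx)
    have h2 := h x hx
    have h3 : ((x / p : ℕ) : ℝ) ≤ x / p := Nat.cast_div_le
    have h4 : √(((x / p : ℕ) : ℝ) * z) ≤ 3 / 4 * √(x * z) := by
      rw [Real.sqrt_le_left (by positivity), mul_pow, Real.sq_sqrt (by positivity)]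
      have : ((x / p : ℕ) : ℝ) ≤ x / 2 := h3.trans (by gcongr)
      nlinarith [mul_le_mul_of_nonneg_right this hz, mul_nonneg (Nat.cast_nonneg (α := ℝ) x) hz]
    have h5 : a * (p / (p - 1)) * ((x / p : ℕ) : ℝ) ≤ a * (p / (p - 1)) * (x / p) := by
      have : (0 : ℝ) < p - 1 := by linarith
      gcongr
    have h6 : a * (p / (p - 1)) * (x / p) + a * x = a * (p / (p - 1)) * x := by
      have : (0 : ℝ) < p - 1 := by linarith
      field_simp; ring
    rw [Mk_rec hp hpk]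
    refine (abs_add_le _ _).trans ?_
    nlinarith [mul_le_mul_of_nonneg_left h4 hb]

/-- Moebius sums over integers prime to `k`. -/
theorem Mk_le {X : ℕ} {ε z : ℝ} (hε : 0 ≤ ε) (hz : 0 ≤ z)
    (h : ∀ x ≤ X, |Mk 1 x| ≤ ε * x + √(x * z)) {k : ℕ} (hk : k ≠ 0) :
    ∀ x ≤ X, |Mk k x| ≤ ε * (k / k.totient) * x + 4 ^ k.primeFactors.card * √(x * z) := by
  induction k using induction_on_primes with
  | zero => exact absurd rfl hk
  | one => simpa using h
  | prime_mul p k hp ih =>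
    have hk0 : k ≠ 0 := fun h => hk (by simp [h])
    have hp2 : (2 : ℝ) ≤ p := by exact_mod_cast hp.two_le
    have hφ : (0 : ℝ) < k.totient := by exact_mod_cast Nat.totient_pos.2 (Nat.pos_of_ne_zero hk0)
    have ih := ih hk0
    intro x hx
    have hpf : (p * k).primeFactors = insert p k.primeFactors := by
      rw [Nat.primeFactors_mul hp.ne_zero hk0, hp.primeFactors]; rfl
    by_cases hpk : p ∣ k
    · have hm : p ∈ k.primeFactors := Nat.mem_primeFactors.2 ⟨hp, hpk, hk0⟩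
      rw [hpf, insert_eq_of_mem hm, Nat.totient_mul_of_prime_of_dvd hp hpk, mul_comm p k,
        Mk_mul_dvd hpk]
      refine (ih x hx).trans_eq ?_
      push_cast; field_simp
    · have hm : p ∉ k.primeFactors := fun h => hpk (Nat.dvd_of_mem_primeFactors h)
      rw [hpf, card_insert_of_notMem hm, Nat.totient_mul_of_prime_of_not_dvd hp hpk,
        mul_comm p k]
      refine (Mk_step hp hpk (by positivity) (by positivity) hz ih x hx).trans_eq ?_
      have : (0 : ℝ) < p - 1 := by linarith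
      push_cast [hp.one_le]; field_simp; ring

lemma sum_Icc_dvd {d : ℕ} (hd : 0 < d) (N : ℕ) (F : ℕ → ℝ) :
    ∑ k ∈ Icc 1 N, (if d ∣ k then F k else 0) = ∑ m ∈ Icc 1 (N / d), F (d * m) := by
  rw [← sum_filter]
  symm
  refine sum_bij (fun m _ => d * m) (fun m hm => ?_) (fun a _ b _ h => ?_) (fun k hk => ?_)
    fun _ _ => rfl
  · rw [mem_Icc] at hm
    refine mem_filter.2 ⟨mem_Icc.2 ⟨Nat.mul_pos hd hm.1, ?_⟩, dvd_mul_right _ _⟩
    rw [mul_comm]; exact (Nat.le_div_iff_mul_le hd).1 hm.2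
  · exact Nat.eq_of_mul_eq_mul_left hd h
  · obtain ⟨h1, m, rfl⟩ := mem_filter.1 hk
    rw [mem_Icc] at h1
    refine ⟨m, mem_Icc.2 ⟨Nat.pos_of_mul_pos_left h1.1, ?_⟩, rfl⟩
    rw [Nat.le_div_iff_mul_le hd, mul_comm]; exact h1.2

lemma div_totient_eq {n : ℕ} (hn : Squarefree n) :
    (n : ℝ) / n.totient = ∑ f ∈ n.divisors, (f.totient : ℝ)⁻¹ := by
  rw [← prod_primeFactors_one_add_inv n (Nat.pos_of_ne_zero hn.ne_zero)]
  have h := IsMultiplicative.prodPrimeFactors_one_add_of_squarefree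
    (IsMultiplicative.prodPrimeFactors (fun p : ℕ => ((p : ℝ) - 1)⁻¹)) hn
  refine Eq.trans (prod_congr rfl fun p hp => ?_) (h.trans (sum_congr rfl fun f hf => ?_))
  · have hp' := Nat.prime_of_mem_primeFactors hp
    rw [prodPrimeFactors_apply hp'.ne_zero, hp'.primeFactors, prod_singleton]
  · rw [prodPrimeFactors_apply (Nat.pos_of_mem_divisors hf).ne',
      inv_totient_eq (hn.squarefree_of_dvd (Nat.dvd_of_mem_divisors hf))]

lemma muR_of_not {n : ℕ} (hn : ¬ Squarefree n) : muR n = 0 := by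
  rw [muR_eq, moebius_eq_zero_of_not_squarefree hn]; simp

lemma muR_mul (f m : ℕ) : muR (f * m) = if f.Coprime m then muR f * muR m else 0 := by
  split_ifs with h
  · rw [muR_eq, muR_eq, muR_eq, isMultiplicative_moebius.map_mul_of_coprime h]; simp
  · exact muR_of_not fun hs => h (Nat.coprime_of_squarefree_mul hs)

lemma Ms_eq (k y : ℕ) : Ms k y =
    ∑ f ∈ Icc 1 y, if f.Coprime k then muR f / f.totient * Mk (k * f) (y / f) else 0 := by
  have h1 : ∀ n ∈ Icc 1 y, (if n.Coprime k then muR n * (n / n.totient) else 0) =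
      ∑ f ∈ Icc 1 y, if f ∣ n then (if n.Coprime k then muR n / f.totient else 0) else 0 := by
    intro n hn
    rw [mem_Icc] at hn
    by_cases hs : Squarefree n
    · rw [← sum_filter, div_totient_eq hs]
      have : (Icc 1 y).filter (· ∣ n) = n.divisors := by
        ext f
        rw [mem_filter, mem_Icc, Nat.mem_divisors]
        exact ⟨fun h => ⟨h.2, by omega⟩, fun h => ⟨⟨Nat.pos_of_dvd_of_pos h.1 hn.1,
          (Nat.le_of_dvd hn.1 h.1).trans hn.2⟩, h.1⟩⟩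
      rw [this]
      split_ifs
      · rw [mul_sum]; exact sum_congr rfl fun f _ => (div_eq_mul_inv _ _).symm
      · simp
    · simp [muR_of_not hs]
  rw [Ms, sum_congr rfl h1, sum_comm]
  refine sum_congr rfl fun f hf => ?_
  rw [sum_Icc_dvd (mem_Icc.1 hf).1, Mk, mul_sum]
  split_ifs with h
  · refine sum_congr rfl fun m _ => ?_
    rw [muR_mul]
    by_cases h2 : m.Coprime k <;> by_cases h3 : f.Coprime m
    · rw [if_pos (Nat.Coprime.mul_left h h2), if_pos h3,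
        if_pos (Nat.Coprime.mul_right h2 h3.symm)]; ring
    · rw [if_neg h3, if_neg (fun h : m.Coprime (k * f) =>
        h3 (Nat.coprime_mul_iff_right.1 h).2.symm)]; simp
    · rw [if_neg (fun h => h2 (Nat.coprime_mul_iff_left.1 h).2),
        if_neg (fun h => h2 (Nat.coprime_mul_iff_right.1 h).1)]; simp
    · rw [if_neg (fun h => h2 (Nat.coprime_mul_iff_left.1 h).2),
        if_neg (fun h => h2 (Nat.coprime_mul_iff_right.1 h).1)]; simp
  · exact sum_eq_zero fun m _ => if_neg fun h2 => h (Nat.coprime_mul_iff_left.1 h2).1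

end Pool.Agent.Work.MP_5d318d_nt.Zh.Mu1
end
end

-- merged part: Pool.Agent.Work.MP_5d318d_nt.Z.MuStar
section
/-!
# Moebius sums with coprimality conditions

PLAN.
* `Mk_rec`: split `n` prime to `k` by `p ∣ n`; `n = p n'`, `muR (p n') = - muR n'` for `p ∤ n'` and `0` otherwise.
* `Mk_le`: induction on `k` (`induction_on_primes`; if `p ∣ k` nothing changes), inside a strong induction on `x`:
  `1 + 1 / (p - 1) = p / (p - 1)` and `1 + 4 / √p ≤ 4`.
* `Ms_le`: `n / φ(n) = ∑ f ∈ n.divisors, muR f ^ 2 / φ(f)` (only squarefree `n` matter), so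
  `Ms k y = ∑ f, muR f / φ(f) * Mk (k f) (y / f)` over squarefree `f ≤ y` prime to `k`; `f ≤ 2 ^ ω(f) * φ(f)`.
* `Ms_le'`: `k / φ(k) ≤ Lg`, `4 ^ ω(k) ≤ τ(k) ^ 2 ≤ v ^ 2` (`two_pow_card_le`), `v ^ 2 * √(y v ^ 100000) ≤ y / v ^ 100000 ≤ ε y`.
* `Wsum_le`: `Y0 / e = ∑ t ∈ Icc 1 Y0, if e ≤ Y0 / t then 1 else 0`, each `t` gives at most `2 ε Y0 / t`; Abel
  summation for `∑ a e / e` (induction on `U`) gives `ε (2 + HH U)`.
-/

noncomputable section

open Finset Real ArithmeticFunction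

namespace Pool.Agent.Work.MP_5d318d_nt.Zh

open Pool.Agent.Lib.LargeSieve Pool.Agent.Lib.ANT

theorem Mk_rec {k p : ℕ} (hp : p.Prime) (hpk : ¬ p ∣ k) (x : ℕ) :
    Mk (p * k) x = Mk k x + Mk (p * k) (x / p) := by
  rw [mul_comm p k]; exact Mu1.Mk_rec hp hpk x

theorem Mk_le {Y : ℕ} {ε z : ℝ} (hε : 0 ≤ ε) (hz : 0 ≤ z)
    (hμ : ∀ x : ℕ, x ≤ Y → |Mk 1 x| ≤ ε * x + √(x * z)) {k : ℕ} (hk : k ≠ 0) {x : ℕ}
    (hx : x ≤ Y) :
    |Mk k x| ≤ ε * x * (k / k.totient) + 4 ^ k.primeFactors.card * √(x * z) := by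
  have := Mu1.Mk_le hε hz hμ hk x hx
  calc _ ≤ _ := this
    _ = _ := by ring

lemma MuStar_le_totient {f : ℕ} (hf : Squarefree f) :
    (f : ℝ) ≤ 2 ^ f.primeFactors.card * f.totient := by
  have h1 := Nat.totient_mul_prod_primeFactors f
  have h2 := Nat.prod_primeFactors_of_squarefree hf
  have h0 : 0 < f := Nat.pos_of_ne_zero hf.ne_zero
  rw [h2, mul_comm f] at h1
  have h3 : f.totient = ∏ p ∈ f.primeFactors, (p - 1) := Nat.eq_of_mul_eq_mul_right h0 h1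
  have h4 : f ≤ 2 ^ f.primeFactors.card * f.totient := by
    calc f = ∏ p ∈ f.primeFactors, p := h2.symm
      _ ≤ ∏ p ∈ f.primeFactors, (2 * (p - 1)) := by
        refine prod_le_prod' fun p hp => ?_
        have := (Nat.prime_of_mem_primeFactors hp).two_le
        omega
      _ = _ := by rw [prod_mul_distrib, prod_const, h3]
  exact_mod_cast h4

theorem Ms_le {Y : ℕ} {ε z Lg : ℝ} (hε : 0 ≤ ε) (hz : 0 ≤ z)
    (hμ : ∀ x : ℕ, x ≤ Y → |Mk 1 x| ≤ ε * x + √(x * z)) {k : ℕ} (hk : k ≠ 0) {y : ℕ}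
    (hy : y ≤ Y)
    (hE : ∑ f ∈ (Icc 1 y).filter Squarefree, (8 : ℝ) ^ f.primeFactors.card / f ≤ Lg) :
    |Ms k y| ≤ Lg * (ε * y * (k / k.totient) + 4 ^ k.primeFactors.card * √(y * z)) := by
  have hφk : (0 : ℝ) < k.totient := by
    exact_mod_cast Nat.totient_pos.2 (Nat.pos_of_ne_zero hk)
  have hA0 : 0 ≤ ε * y * (k / k.totient) := by positivity
  have hB0 : (0 : ℝ) ≤ 4 ^ k.primeFactors.card * √(y * z) := by positivity
  rw [Mu1.Ms_eq]
  refine (abs_sum_le_sum_abs _ _).trans ?_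
  refine le_trans ?_ (mul_le_mul_of_nonneg_right hE (add_nonneg hA0 hB0))
  rw [sum_filter, sum_mul]
  refine sum_le_sum fun f hf => ?_
  have hf0 : 0 < f := (mem_Icc.1 hf).1
  have hfr : (0 : ℝ) < f := by exact_mod_cast hf0
  by_cases hs : Squarefree f
  · rw [if_pos hs]
    by_cases hc : f.Coprime k
    · rw [if_pos hc]
      have hφf : (0 : ℝ) < f.totient := by exact_mod_cast Nat.totient_pos.2 hf0
      have hyf : y / f ≤ y := Nat.div_le_self _ _
      have hyr : ((y / f : ℕ) : ℝ) ≤ y := by exact_mod_cast hyf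
      have h1 := Mk_le hε hz hμ (Nat.mul_ne_zero hk hf0.ne') (hyf.trans hy)
      rw [Nat.totient_mul hc.symm, Nat.Coprime.primeFactors_mul hc.symm,
        card_union_of_disjoint (Nat.Coprime.disjoint_primeFactors hc.symm), pow_add] at h1
      push_cast at h1
      have h2 := MuStar_le_totient hs
      set w := f.primeFactors.card with hw
      have h2w : (1 : ℝ) ≤ 2 ^ w := one_le_pow₀ (by norm_num)
      have h3 : (f : ℝ) / f.totient ≤ 4 ^ w := by
        rw [div_le_iff₀ hφf]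
        refine h2.trans (mul_le_mul_of_nonneg_right ?_ hφf.le)
        exact pow_le_pow_left₀ (by norm_num) (by norm_num) _
      have h4 : ((f.totient : ℝ))⁻¹ ≤ 2 ^ w / f := by
        rw [le_div_iff₀ hfr, inv_mul_le_iff₀ hφf, mul_comm]; exact h2
      have h5 : √(((y / f : ℕ) : ℝ) * z) ≤ √(y * z) :=
        Real.sqrt_le_sqrt (mul_le_mul_of_nonneg_right hyr hz)
      have h6 : |Mk (k * f) (y / f)| ≤
          4 ^ w * (ε * y * (k / k.totient) + 4 ^ k.primeFactors.card * √(y * z)) := by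
        refine h1.trans ?_
        rw [mul_add]
        refine add_le_add ?_ ?_
        · rw [mul_div_mul_comm]
          calc ε * ((y / f : ℕ) : ℝ) * ((k : ℝ) / k.totient * (f / f.totient))
              ≤ ε * y * ((k : ℝ) / k.totient * 4 ^ w) := by gcongr
            _ = _ := by ring
        · calc (4 : ℝ) ^ k.primeFactors.card * 4 ^ w * √(((y / f : ℕ) : ℝ) * z)
              ≤ 4 ^ k.primeFactors.card * 4 ^ w * √(y * z) := by gcongr
            _ = _ := by ring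
      have h7 : |muR f / f.totient| ≤ 2 ^ w / f := by
        rw [abs_div, abs_of_pos hφf, div_eq_mul_inv]
        refine le_trans ?_ h4
        exact mul_le_of_le_one_left (inv_nonneg.2 hφf.le) (abs_muR_le f)
      rw [abs_mul]
      refine (mul_le_mul h7 h6 (abs_nonneg _) (by positivity)).trans (le_of_eq ?_)
      have h8 : (8 : ℝ) ^ w = 2 ^ w * 4 ^ w := by rw [← mul_pow]; norm_num
      rw [h8]; ring
    · rw [if_neg hc, abs_zero]; positivity
  · rw [if_neg hs, Mu1.muR_of_not hs]; simp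

theorem Ms_le' {v : ℕ} {Lg ε : ℝ} (L : LP v Lg ε) (hv : 1 ≤ v) {k y : ℕ} (hk : k ≠ 0)
    (hk' : k ≤ v ^ 2160000) (hτ : (k.divisors.card : ℝ) ≤ v) (hy : v ^ 359679 ≤ y)
    (hy' : y ≤ v ^ 720000) : |Ms k y| ≤ 2 * ε * Lg ^ 2 * y := by
  have hv1 : (1 : ℝ) ≤ v := by exact_mod_cast hv
  have hv0 : (0 : ℝ) < v := by linarith
  have hw1 : (1 : ℝ) ≤ (v : ℝ) ^ 100000 := one_le_pow₀ hv1
  have hε1 := L.hε
  have hL1 := L.hL1
  have hyr : ((v : ℝ) ^ 100000) ^ 3 * (v : ℝ) ^ 4 ≤ y := by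
    have h1 : (v : ℝ) ^ 359679 ≤ y := by exact_mod_cast hy
    refine le_trans ?_ h1
    rw [← pow_mul, ← pow_add]
    exact pow_le_pow_right₀ hv1 (by norm_num)
  have hφ := L.hφ k hk'
  have hM := fun hε => Ms_le (ε := ε) (Lg := Lg) hε (zero_le_one.trans hw1) L.hμ hk hy'
    (L.hE y hy')
  generalize (v : ℝ) ^ 100000 = w at hw1 hε1 hyr hM
  have hw0 : 0 < w := by linarith
  have hε : 0 ≤ ε := by
    by_contra h
    push Not at h
    nlinarith
  have hy0 : (0 : ℝ) ≤ y := Nat.cast_nonneg _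
  have h4 : (4 : ℝ) ^ k.primeFactors.card ≤ (v : ℝ) ^ 2 := by
    have h1 := (two_pow_card_le hk).trans hτ
    have h2 : (4 : ℝ) ^ k.primeFactors.card = (2 ^ k.primeFactors.card) ^ 2 := by
      rw [← pow_mul, mul_comm, pow_mul]; norm_num
    rw [h2]
    exact pow_le_pow_left₀ (by positivity) h1 2
  have h5 : √(y * w) ≤ y / (w * (v : ℝ) ^ 2) := by
    refine Real.sqrt_le_iff.2 ⟨by positivity, ?_⟩
    rw [div_pow, le_div_iff₀ (by positivity)]
    calc (y : ℝ) * w * (w * (v : ℝ) ^ 2) ^ 2 = (y : ℝ) * (w ^ 3 * (v : ℝ) ^ 4) := by ring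
      _ ≤ (y : ℝ) * y := mul_le_mul_of_nonneg_left hyr hy0
      _ = _ := by ring
  have h6 : (4 : ℝ) ^ k.primeFactors.card * √(y * w) ≤ ε * y * Lg := by
    calc (4 : ℝ) ^ k.primeFactors.card * √(y * w) ≤ (v : ℝ) ^ 2 * (y / (w * (v : ℝ) ^ 2)) :=
          mul_le_mul h4 h5 (Real.sqrt_nonneg _) (by positivity)
      _ = y / w := by field_simp
      _ ≤ ε * y := by
          rw [div_le_iff₀ hw0]
          nlinarith
      _ ≤ _ := le_mul_of_one_le_right (by positivity) hL1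
  have h7 : ε * y * (k / k.totient) ≤ ε * y * Lg := mul_le_mul_of_nonneg_left hφ (by positivity)
  refine (hM hε).trans ?_
  calc Lg * _ ≤ Lg * (ε * y * Lg + ε * y * Lg) :=
        mul_le_mul_of_nonneg_left (add_le_add h7 h6) (by linarith)
    _ = _ := by ring

lemma MuStar_abel (a : ℕ → ℝ) {E : ℕ} {ε : ℝ} (hE : 0 < E) (hε : 0 ≤ ε) (U : ℕ) (hU : E ≤ U)
    (h : ∀ y, E ≤ y → y ≤ U → |∑ n ∈ Icc 1 y, a n| ≤ ε * y) :
    |∑ e ∈ Ioc E U, a e / e - (∑ n ∈ Icc 1 U, a n) / U| ≤ ε * (1 + HH U) := by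
  induction U, hU using Nat.le_induction with
  | base =>
    have hEr : (0 : ℝ) < E := by exact_mod_cast hE
    have h1 := h E le_rfl le_rfl
    have h2 := HH_nonneg E
    rw [Ioc_self, sum_empty, zero_sub, abs_neg, abs_div, abs_of_pos hEr, div_le_iff₀ hEr]
    refine h1.trans (mul_le_mul_of_nonneg_right ?_ hEr.le)
    exact le_mul_of_one_le_right hε (by linarith)
  | succ U hU ih =>
    have hUr : (0 : ℝ) < U := by exact_mod_cast hE.trans_le hU
    have ih' := ih fun y h1 h2 => h y h1 (by omega)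
    have h1 := h U hU (by omega)
    have h2 : HH (U + 1) = HH U + 1 / (U + 1) := by
      rw [HH, HH, sum_Icc_succ_top (by omega)]; push_cast; ring
    rw [sum_Ioc_succ_top hU, sum_Icc_succ_top (by omega), h2]
    push_cast
    generalize ∑ n ∈ Icc 1 U, a n = S at ih' h1 ⊢
    generalize ∑ e ∈ Ioc E U, a e / e = T at ih' ⊢
    have h3 : T + a (U + 1) / (U + 1) - (S + a (U + 1)) / (U + 1) =
        (T - S / U) + S / (U * (U + 1)) := by
      field_simp; ring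
    have h4 : |S / (U * (U + 1))| ≤ ε * (1 / (U + 1)) := by
      rw [abs_div, abs_of_pos (by positivity : (0 : ℝ) < U * (U + 1)),
        div_le_iff₀ (by positivity)]
      refine h1.trans (le_of_eq ?_)
      field_simp
    rw [h3]
    refine (abs_add_le _ _).trans ?_
    linarith

lemma MuStar_Ioc (a : ℕ → ℝ) {E m : ℕ} (h : E ≤ m) :
    ∑ e ∈ Ioc E m, a e = ∑ n ∈ Icc 1 m, a n - ∑ n ∈ Icc 1 E, a n := by
  induction m, h using Nat.le_induction with
  | base => simp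
  | succ m hm ih => rw [sum_Ioc_succ_top hm, sum_Icc_succ_top (by omega), ih]; ring

lemma MuStar_floor (a : ℕ → ℝ) {E U Y0 : ℕ} {ε : ℝ} (hE : 0 < E) (hε : 0 ≤ ε)
    (h : ∀ y, E ≤ y → y ≤ U → |∑ n ∈ Icc 1 y, a n| ≤ ε * y) :
    |∑ e ∈ Ioc E U, a e * ((Y0 / e : ℕ) : ℝ)| ≤ 2 * ε * Y0 * HH Y0 := by
  have h1 : ∀ e ∈ Ioc E U, a e * ((Y0 / e : ℕ) : ℝ) =
      ∑ t ∈ Icc 1 Y0, if e ≤ Y0 / t then a e else 0 := by
    intro e he
    have he0 : 0 < e := hE.trans (mem_Ioc.1 he).1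
    have : (Icc 1 Y0).filter (fun t => e ≤ Y0 / t) = Icc 1 (Y0 / e) := by
      ext t
      rw [mem_filter, mem_Icc, mem_Icc]
      constructor
      · rintro ⟨⟨h1, _⟩, h3⟩
        refine ⟨h1, ?_⟩
        rw [Nat.le_div_iff_mul_le he0, mul_comm]
        exact (Nat.le_div_iff_mul_le h1).1 h3
      · rintro ⟨h1, h2⟩
        refine ⟨⟨h1, h2.trans (Nat.div_le_self _ _)⟩, ?_⟩
        rw [Nat.le_div_iff_mul_le h1, mul_comm]
        exact (Nat.le_div_iff_mul_le he0).1 h2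
    rw [← sum_filter, this, sum_const, Nat.card_Icc, nsmul_eq_mul, mul_comm]
    simp
  rw [sum_congr rfl h1, sum_comm, HH, mul_sum]
  refine (abs_sum_le_sum_abs _ _).trans (sum_le_sum fun t ht => ?_)
  have ht0 : 0 < t := (mem_Icc.1 ht).1
  have htr : (0 : ℝ) < t := by exact_mod_cast ht0
  have h2 : (Ioc E U).filter (fun e => e ≤ Y0 / t) = Ioc E (min U (Y0 / t)) := by
    ext e
    rw [mem_filter, mem_Ioc, mem_Ioc, le_min_iff, and_assoc]
  rw [← sum_filter, h2]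
  by_cases hm : E ≤ min U (Y0 / t)
  · rw [MuStar_Ioc a hm]
    have h3 := h _ hm (min_le_left _ _)
    have h4 := h E le_rfl (hm.trans (min_le_left _ _))
    have h5 : ((min U (Y0 / t) : ℕ) : ℝ) ≤ Y0 / t :=
      le_trans (by exact_mod_cast min_le_right _ _) Nat.cast_div_le
    have h6 : (E : ℝ) ≤ Y0 / t := le_trans (by exact_mod_cast hm) h5
    refine (abs_sub _ _).trans ?_
    have h7 := mul_le_mul_of_nonneg_left h5 hε
    have h8 := mul_le_mul_of_nonneg_left h6 hε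
    calc _ ≤ ε * (Y0 / t) + ε * (Y0 / t) := add_le_add (h3.trans h7) (h4.trans h8)
      _ = _ := by ring
  · rw [Ioc_eq_empty_of_le (not_le.1 hm).le, sum_empty, abs_zero]; positivity

theorem Wsum_le (a : ℕ → ℝ) {E U Y0 : ℕ} {Y ε Lg : ℝ} (hE : 0 < E) (hε : 0 ≤ ε)
    (hY : (Y0 : ℝ) ≤ Y) (h : ∀ y, E ≤ y → y ≤ U → |∑ n ∈ Icc 1 y, a n| ≤ ε * y)
    (hU : 1 + HH U ≤ Lg) (hY0 : 1 + HH Y0 ≤ Lg) :
    |∑ e ∈ Ioc E U, a e * (((Y0 / e : ℕ) : ℝ) - Y / e)| ≤ 4 * ε * Y * Lg := by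
  have hY' : 0 ≤ Y := (Nat.cast_nonneg _).trans hY
  have hH1 := HH_nonneg U
  have hH2 := HH_nonneg Y0
  have hL : 0 ≤ Lg := by linarith
  by_cases hEU : E ≤ U
  · have hUr : (0 : ℝ) < U := by exact_mod_cast hE.trans_le hEU
    have h1 := MuStar_floor a (Y0 := Y0) hE hε h
    have h2 := MuStar_abel a hE hε U hEU h
    have h3 : |(∑ n ∈ Icc 1 U, a n) / U| ≤ ε := by
      rw [abs_div, abs_of_pos hUr, div_le_iff₀ hUr]; exact h U hEU le_rfl
    have h4 : |∑ e ∈ Ioc E U, a e / e| ≤ 2 * ε * Lg := by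
      have h5 := abs_sub_abs_le_abs_sub (∑ e ∈ Ioc E U, a e / e) ((∑ n ∈ Icc 1 U, a n) / U)
      have h6 := mul_le_mul_of_nonneg_left hU hε
      have h7 : ε * 1 ≤ ε * Lg := mul_le_mul_of_nonneg_left (by linarith) hε
      linarith
    have h8 : ∑ e ∈ Ioc E U, a e * (((Y0 / e : ℕ) : ℝ) - Y / e) =
        ∑ e ∈ Ioc E U, a e * ((Y0 / e : ℕ) : ℝ) - Y * ∑ e ∈ Ioc E U, a e / e := by
      rw [mul_sum, ← sum_sub_distrib]
      exact sum_congr rfl fun e _ => by ring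
    have h9 : 2 * ε * Y0 * HH Y0 ≤ 2 * ε * Y * Lg := by
      have : HH Y0 ≤ Lg := by linarith
      gcongr
    rw [h8]
    refine (abs_sub _ _).trans ?_
    rw [abs_mul, abs_of_nonneg hY']
    have h10 := mul_le_mul_of_nonneg_left h4 hY'
    calc _ ≤ 2 * ε * Y * Lg + Y * (2 * ε * Lg) := add_le_add (h1.trans h9) h10
      _ = _ := by ring
  · rw [Ioc_eq_empty_of_le (not_le.1 hEU).le, sum_empty, abs_zero]; positivity

end Pool.Agent.Work.MP_5d318d_nt.Zh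
end
end

-- merged part: Pool.Agent.Work.MP_5d318d_nt.Z.Diag
section
/-!
# The diagonal cross term

PLAN.
* `cnt_eq`: `ite_coprime_eq`, swap; for `g ∣ Q` the conditions `g ∣ m`, `L ∣ m` mean `g L ∣ m`, and there are
  `N / (g L)` such `m`; `sum_muR_div`.  `abs_er_le`: each bracket lies in `[-1, 0]`.
* `diag_expand`: `lam_eq_lc` twice, swap, `cnt_eq` with `L = lcm e h` (a nonzero `lc` gives coprimality to `Q` by
  `lc_ne_zero`).  The model term is `N φ(Q) / Q * ∑ e, ∑ h, lc S e * lc S' h / lcm e h`; by `sum_lc` twice,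
  `e h / lcm e h = gcd e h` and `sum_pair_main` with `k = 0` it vanishes, as `S`, `S'` are disjoint.
* `split_gcd`: `e = g0 * e'`, `g0 = gcd e f` (for squarefree `e`; other terms vanish); `lcm e f = f e'`.
* `W_er`: swap with the sum over `g ∣ Q`; `N / (g * (L * e)) = N / (g * L) / e` (`Nat.div_div_eq_div_mul`);
  `Wsum_le` with `Y = N / (g L)`; `∑ g ∈ Q.divisors, 1 / g ≤ HH Q`.
* `inner_le`: `lc_RR`, swap with `r'` (terms with `R / r' ≤ v ^ 359680` are empty, so `r' ≤ v ^ 320`);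
  `lcm e (f d) = d * lcm e f`; `split_gcd` with `k = r' * Q * d`, `W_er` with `k f`, `L = d f`, `Ms_le'`;
  `g0 / φ(g0) ≤ 2 ^ ω(f)`, `f` has `2 ^ ω(f)` divisors, `∑ 1 / φ(r') ≤ ∑ 8 ^ ω / r' ≤ Lg`.
* `card_bad_le`: at most `v ^ 359680` small `e`, and at most `300 * R / v ^ 1200` multiples of a prime of `d`.
* `diag_le`: `diag_expand`, swap, `sum_lc_S2`.  All `lc` are at most `v ^ 2`, `|er| ≤ v`.  (a) `d ∉ DD Ps 300`:
  `v * v ^ 359099 * v ^ 360000 * v ^ 7`.  (b) `d ∈ DD Ps 300`, bad `e`: `card_bad_le`, `lc_top`.  (c) `inner_le`,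
  `|lc (RR Q 0 v) f| ≤ Lg ^ 2` (`abs_lc_le` with `L.hφ`), `f` squarefree by `lc_ne_zero`, `L.hE`, `L.hH`.
-/

noncomputable section

open Finset Real ArithmeticFunction

namespace Pool.Agent.Work.MP_5d318d_nt.Zh

open Pool.Agent.Lib.LargeSieve Pool.Agent.Lib.ANT

variable {v Q : ℕ} {Ps : Finset ℕ} {a : ℤ}

/-- error term of the count of multiples of `L` prime to `Q` -/
def er (Q N L : ℕ) : ℝ :=
  ∑ g ∈ Q.divisors, muR g * (((N / (g * L) : ℕ) : ℝ) - (N : ℝ) / (g * L))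

theorem Diag_count (K N : ℕ) :
    ((Ioc (0 : ℤ) N).filter (fun m => (K : ℤ) ∣ m)).card = N / K := by
  have : (Ioc (0 : ℤ) N).filter (fun m => (K : ℤ) ∣ m) =
      ((Ioc 0 N).filter (fun m => K ∣ m)).map Nat.castEmbedding := by
    ext x
    simp only [mem_map, mem_filter, mem_Ioc, Nat.castEmbedding_apply]
    constructor
    · intro h
      lift x to ℕ using h.1.1.le
      exact ⟨x, by exact_mod_cast h, rfl⟩
    · rintro ⟨y, h, rfl⟩
      exact_mod_cast h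
  rw [this, card_map, Nat.Ioc_filter_dvd_card_eq_div]

theorem cnt_eq (hQ : 0 < Q) {L : ℕ} (hL : 0 < L) (hc : L.Coprime Q) (N : ℕ) :
    ∑ m ∈ (Ioc (0 : ℤ) N).filter (fun m => IsCoprime m (Q : ℤ)),
      (if (L : ℤ) ∣ m then (1 : ℝ) else 0) = N * (Q.totient / Q) / L + er Q N L := by
  have h1 : ∀ m : ℤ, (if IsCoprime m (Q : ℤ) then (if (L : ℤ) ∣ m then (1 : ℝ) else 0) else 0) =
      ∑ g ∈ Q.divisors, if ((g * L : ℕ) : ℤ) ∣ m then muR g else 0 := by
    intro m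
    rw [← boole_mul, ite_coprime_eq hQ.ne', sum_mul]
    refine sum_congr rfl fun g hg => ?_
    have h2 := Nat.isCoprime_iff_coprime.2 (hc.coprime_dvd_right (Nat.dvd_of_mem_divisors hg)).symm
    rw [ite_zero_mul_ite_zero, mul_one, Nat.cast_mul]
    exact if_congr ⟨fun h => h2.mul_dvd h.1 h.2,
      fun h => ⟨dvd_of_mul_right_dvd h, dvd_of_mul_left_dvd h⟩⟩ rfl rfl
  rw [sum_filter, sum_congr rfl fun m _ => h1 m, sum_comm, ← sum_muR_div hQ.ne', er, mul_sum,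
    sum_div, ← sum_add_distrib]
  refine sum_congr rfl fun g _ => ?_
  rw [← sum_filter, sum_const, Diag_count, nsmul_eq_mul]
  ring

theorem abs_er_le (Q N L : ℕ) : |er Q N L| ≤ Q.divisors.card := by
  refine (abs_sum_le_sum_abs _ _).trans ((sum_le_card_nsmul _ _ 1 fun g _ => ?_).trans (by simp))
  rw [abs_mul, ← Nat.cast_mul]
  refine mul_le_one₀ (abs_muR_le _) (abs_nonneg _) ?_
  have h1 : ((N / (g * L) : ℕ) : ℝ) ≤ (N : ℝ) / (g * L : ℕ) := Nat.cast_div_le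
  have h2 := Nat.lt_floor_add_one ((N : ℝ) / (g * L : ℕ))
  rw [Nat.floor_div_eq_div] at h2
  rw [abs_le]
  constructor <;> linarith

theorem diag_expand (hQ : 0 < Q) (S S' : Finset ℕ) {R R' : ℕ}
    (hS : ∀ r ∈ S, 0 < r ∧ r ≤ R ∧ Q.Coprime r) (hS' : ∀ r ∈ S', 0 < r ∧ r ≤ R' ∧ Q.Coprime r)
    (hd : ∀ r ∈ S, r ∉ S') (N : ℕ) :
    ∑ m ∈ (Ioc (0 : ℤ) N).filter (fun m => IsCoprime m (Q : ℤ)), lam S m * lam S' m =
      ∑ h ∈ Icc 1 R', lc S' h * ∑ e ∈ Icc 1 R, lc S e * er Q N (Nat.lcm e h) := by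
  have s0 : ∀ r ∈ S, r ≠ 0 := fun r hr => (hS r hr).1.ne'
  have s1 : ∀ r ∈ S, r.divisors ⊆ Icc 1 R := fun r hr => Lc_sub (hS r hr).2.1
  have s0' : ∀ r ∈ S', r ≠ 0 := fun r hr => (hS' r hr).1.ne'
  have s1' : ∀ r ∈ S', r.divisors ⊆ Icc 1 R' := fun r hr => Lc_sub (hS' r hr).2.1
  have h1 : ∀ m : ℤ, lam S m * lam S' m = ∑ h ∈ Icc 1 R', ∑ e ∈ Icc 1 R,
      lc S' h * (lc S e * if ((Nat.lcm e h : ℕ) : ℤ) ∣ m then (1 : ℝ) else 0) := by
    intro m
    rw [lam_eq_lc S _ s0 s1, lam_eq_lc S' _ s0' s1', mul_comm, sum_mul_sum]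
    refine sum_congr rfl fun h _ => sum_congr rfl fun e _ => ?_
    rw [ite_zero_mul_ite_zero, mul_ite, mul_ite, mul_one, mul_zero, mul_zero]
    refine if_congr ?_ rfl rfl
    rw [← Int.lcm_natCast_natCast, Int.coe_lcm_dvd_iff, and_comm]
  have h2 : ∑ h ∈ Icc 1 R', lc S' h * ∑ e ∈ Icc 1 R, lc S e * ((Nat.lcm e h : ℕ) : ℝ)⁻¹ = 0 := by
    simp only [sum_lc S _ s0 s1]
    rw [sum_lc S' _ s0' s1']
    refine sum_eq_zero fun r' hr' => mul_eq_zero_of_right _ ?_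
    simp only [mul_sum (s := S)]
    rw [sum_comm]
    refine sum_eq_zero fun r hr => ?_
    have h3 := sum_pair_main (s0 r hr) (s0' r' hr') 0
    rw [if_neg fun h => hd r hr (by rw [h]; exact hr'), sum_comm] at h3
    rw [← mul_zero (muR r / r.totient), ← h3, mul_sum]
    refine sum_congr rfl fun h hh => ?_
    simp only [mul_sum]
    refine sum_congr rfl fun e he => ?_
    have h4 : ((Nat.gcd e h : ℕ) : ℝ) * (Nat.lcm e h : ℕ) = e * h := by
      exact_mod_cast Nat.gcd_mul_lcm e h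
    have h5 : ((Nat.lcm e h : ℕ) : ℝ) ≠ 0 := by
      exact_mod_cast (Nat.lcm_pos (Nat.pos_of_mem_divisors he) (Nat.pos_of_mem_divisors hh)).ne'
    rw [if_pos (dvd_zero _), eq_div_of_mul_eq h5 h4]
    ring
  have h6 := congrArg ((N : ℝ) * (Q.totient / Q) * ·) h2
  simp only [mul_zero] at h6
  rw [sum_congr rfl fun m _ => h1 m, sum_comm]
  refine Eq.trans ?_ ((congrArg (· + _) h6).trans (zero_add _))
  rw [mul_sum, ← sum_add_distrib]
  refine sum_congr rfl fun h hh => ?_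
  rw [sum_comm, mul_sum, mul_sum, mul_sum, ← sum_add_distrib]
  refine sum_congr rfl fun e he => ?_
  by_cases a1 : lc S' h = 0
  · simp [a1]
  by_cases a2 : lc S e = 0
  · simp [a2]
  obtain ⟨r', hr', b1⟩ := lc_ne_zero a1
  obtain ⟨r, hr, b2⟩ := lc_ne_zero a2
  rw [← mul_sum, ← mul_sum, cnt_eq hQ (Nat.lcm_pos (mem_Icc.1 he).1 (mem_Icc.1 hh).1)
    (((((hS r hr).2.2.coprime_dvd_right b2).mul_right
      ((hS' r' hr').2.2.coprime_dvd_right b1)).coprime_dvd_right (Nat.lcm_dvd_mul e h)).symm)]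
  ring

theorem Diag_mult {g : ℕ} (hg : 0 < g) (E U : ℕ) (H : ℕ → ℝ) (h : ∀ e, ¬ g ∣ e → H e = 0) :
    ∑ e ∈ Ioc E U, H e = ∑ e ∈ Ioc (E / g) (U / g), H (g * e) := by
  rw [← sum_filter_of_ne (p := fun e => g ∣ e) fun e _ he => by_contra fun h' => he (h e h')]
  refine (sum_nbij (fun e => g * e) (fun e he => ?_)
    (fun a _ b _ h => Nat.eq_of_mul_eq_mul_left hg h) (fun e he => ?_) fun _ _ => rfl).symm
  · rw [mem_Ioc, Nat.div_lt_iff_lt_mul hg, Nat.le_div_iff_mul_le hg, mul_comm] at he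
    exact mem_filter.2 ⟨mem_Ioc.2 he, dvd_mul_right _ _⟩
  · obtain ⟨he, k, rfl⟩ := mem_filter.1 (mem_coe.1 he)
    refine ⟨k, mem_coe.2 ?_, rfl⟩
    rw [mem_Ioc, Nat.div_lt_iff_lt_mul hg, Nat.le_div_iff_mul_le hg, mul_comm]
    exact mem_Ioc.1 he

theorem split_gcd {f : ℕ} (hf : Squarefree f) (k E U : ℕ) (G : ℕ → ℝ) :
    ∑ e ∈ Ioc E U, (if e.Coprime k then muR e * (e / e.totient) else 0) * G (Nat.lcm e f) =
      ∑ g0 ∈ f.divisors, (if g0.Coprime k then muR g0 * (g0 / g0.totient) else 0) *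
        ∑ e ∈ Ioc (E / g0) (U / g0),
          (if e.Coprime (k * f) then muR e * (e / e.totient) else 0) * G (f * e) := by
  rw [← sum_fiberwise_of_maps_to (t := f.divisors) (g := fun e => Nat.gcd e f)
    fun e _ => Nat.mem_divisors.2 ⟨Nat.gcd_dvd_right _ _, hf.ne_zero⟩]
  refine sum_congr rfl fun g hg => ?_
  rw [sum_filter, Diag_mult (Nat.pos_of_mem_divisors hg) E U _ fun e he =>
    if_neg fun h : Nat.gcd e f = g => he (h ▸ Nat.gcd_dvd_left e f), mul_sum]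
  refine sum_congr rfl fun e _ => ?_
  by_cases hc : e.Coprime f
  · obtain ⟨c, rfl⟩ := Nat.dvd_of_mem_divisors hg
    obtain ⟨c1, c2⟩ := Nat.coprime_mul_iff_right.1 hc
    rw [if_pos (by rw [hc.gcd_mul_right_cancel, Nat.gcd_mul_right_right]), Nat.lcm_mul_left,
      c2.lcm_eq_mul, ← mul_assoc (ite _ _ _), ite_zero_mul_ite_zero, Lc_mul c1.symm,
      Nat.totient_mul c1.symm, show g * (e * c) = g * c * e by ring]
    refine congrArg (· * _) (if_congr ?_ ?_ rfl)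
    · rw [Nat.coprime_mul_iff_left, Nat.coprime_mul_iff_right (k := e) (m := k)]
      exact ⟨fun h => ⟨h.1, h.2, hc⟩, fun h => ⟨h.1, h.2.1⟩⟩
    · push_cast
      ring
  · rw [if_neg (c := e.Coprime (k * f)) fun h => hc (Nat.coprime_mul_iff_right.1 h).2, zero_mul,
      mul_zero]
    split_ifs with h1 h2
    · obtain ⟨p, hp, p1, p2⟩ := Nat.Prime.not_coprime_iff_dvd.1 hc
      have p3 : p ∣ g := h1 ▸ Nat.dvd_gcd (p1.mul_left g) p2
      have p4 : ¬ Squarefree (g * e) := fun h =>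
        hp.one_lt.ne' (Nat.isUnit_iff.1 (h p (mul_dvd_mul p3 p1)))
      simp [muR, moebius_eq_zero_of_not_squarefree p4]
    · exact zero_mul _
    · rfl

theorem W_er (a : ℕ → ℝ) {E U N L : ℕ} {ε Lg : ℝ} (hE : 0 < E) (hL : 0 < L) (hε : 0 ≤ ε)
    (h : ∀ y, E ≤ y → y ≤ U → |∑ n ∈ Icc 1 y, a n| ≤ ε * y) (hU : 1 + HH U ≤ Lg)
    (hN : 1 + HH N ≤ Lg) (hQ : 1 + HH Q ≤ Lg) :
    |∑ e ∈ Ioc E U, a e * er Q N (L * e)| ≤ 4 * ε * Lg ^ 2 * (N / L) := by
  have L0 : 0 ≤ Lg := by linarith [HH_nonneg U]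
  have h1 : ∑ e ∈ Ioc E U, a e * er Q N (L * e) = ∑ g ∈ Q.divisors, muR g *
      ∑ e ∈ Ioc E U, a e * (((N / (g * L) / e : ℕ) : ℝ) - (N : ℝ) / (g * L : ℕ) / e) := by
    simp only [er, mul_sum]
    rw [sum_comm]
    refine sum_congr rfl fun g _ => sum_congr rfl fun e _ => ?_
    rw [Nat.div_div_eq_div_mul, mul_assoc g]
    push_cast
    ring
  rw [h1]
  refine (abs_sum_le_sum_abs _ _).trans ((sum_le_sum
    (g := fun g : ℕ => 4 * ε * Lg * (N / L) * (1 / g)) fun g _ => ?_).trans ?_)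
  · rw [abs_mul]
    refine (mul_le_of_le_one_left (abs_nonneg _) (abs_muR_le _)).trans
      ((Wsum_le a hE hε Nat.cast_div_le h hU
        ((add_le_add_right (HH_mono (Nat.div_le_self _ _)) 1).trans hN)).trans_eq ?_)
    push_cast
    ring
  · have h2 : ∑ g ∈ Q.divisors, (1 : ℝ) / g ≤ Lg :=
      (sum_le_sum_of_subset_of_nonneg (Lc_sub le_rfl) fun _ _ _ => by positivity).trans
        (show HH Q ≤ Lg by linarith)
    rw [← mul_sum]
    calc _ ≤ 4 * ε * Lg * (N / L) * Lg := by gcongr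
      _ = _ := by ring

theorem Diag_tot (n : ℕ) : (n : ℝ) / n.totient ≤ 2 ^ n.primeFactors.card := by
  rcases n.eq_zero_or_pos with rfl | hn
  · simp
  rw [div_le_iff₀ (by exact_mod_cast Nat.totient_pos.2 hn)]
  have h1 : ∏ p ∈ n.primeFactors, p ≤ 2 ^ n.primeFactors.card * ∏ p ∈ n.primeFactors, (p - 1) := by
    rw [← prod_const, ← prod_mul_distrib]
    refine prod_le_prod' fun p hp => ?_
    have := (Nat.prime_of_mem_primeFactors hp).two_le
    omega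
  have h2 : 0 < ∏ p ∈ n.primeFactors, (p - 1) := prod_pos fun p hp => by
    have := (Nat.prime_of_mem_primeFactors hp).two_le
    omega
  have h3 : n ≤ 2 ^ n.primeFactors.card * n.totient := Nat.le_of_mul_le_mul_right (by
    rw [← Nat.totient_mul_prod_primeFactors, mul_comm _ n.totient, mul_assoc]
    exact Nat.mul_le_mul_left _ h1) h2
  exact_mod_cast h3

theorem Diag_tau {f : ℕ} (hf : Squarefree f) : f.divisors.card ≤ 2 ^ f.primeFactors.card := by
  rw [Nat.card_divisors hf.ne_zero, ← prod_const]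
  exact prod_le_prod' fun p _ => Nat.succ_le_succ (hf.natFactorization_le_one p)

theorem Diag_Q {X : ℝ} (G : GP X v Q) : 0 < Q ∧ Q ≤ v ^ 720000 := by
  have v0 : (0 : ℝ) < v := by exact_mod_cast lt_of_lt_of_le (by norm_num) G.hv
  refine ⟨Nat.pos_of_ne_zero fun h => ?_, by exact_mod_cast G.hQ1.trans G.hX1⟩
  have h1 := G.hX0.trans G.hQ0
  rw [h, Nat.cast_zero, mul_zero] at h1
  exact absurd (pow_pos v0 _) h1.not_gt

theorem Diag_eps {Lg ε : ℝ} (L : LP v Lg ε) : 0 ≤ ε := by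
  by_contra h
  have := mul_nonpos_of_nonpos_of_nonneg (not_le.1 h).le (pow_nonneg (Nat.cast_nonneg v) 100000)
  linarith [L.hε]

theorem inner_le {X Lg ε : ℝ} (G : GP X v Q) (L : LP v Lg ε) (hP : PW v Ps) {R1 R N f d : ℕ}
    (hR1 : R1 ≤ v ^ 359680) (hR : R ≤ v ^ 360000) (hN : N ≤ v ^ 720000) (hf : Squarefree f)
    (hfv : f ≤ v) (hd : d ∈ DD Ps 300) :
    |∑ e ∈ (Icc 1 R).filter (fun e => v ^ 359680 < e ∧ e.Coprime d),
      lc (RR Q R1 R) e * er Q N (Nat.lcm e (f * d))| ≤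
      8 * ε * Lg ^ 5 * 4 ^ f.primeFactors.card * (N / (d * f)) := by
  have v1 : 1 ≤ v := le_trans (by norm_num) G.hv
  have pw : ∀ {i j : ℕ}, i ≤ j → v ^ i ≤ v ^ j := fun h => Nat.pow_le_pow_right v1 h
  have hdA : d ∈ DA Ps := mem_DA.2 ⟨300, le_rfl, hd⟩
  obtain ⟨d0, d1⟩ := DA_bounds v1 hP hdA
  obtain ⟨Q0, Q1⟩ := Diag_Q G
  have f0 : 0 < f := Nat.pos_of_ne_zero hf.ne_zero
  have hfd : f.Coprime d := DA_coprime_of_le hP hdA f0 (hfv.trans (Nat.le_self_pow (by norm_num) v))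
  have ε0 := Diag_eps L
  have L0 : 0 ≤ Lg := zero_le_one.trans L.hL1
  have h1 : ∑ e ∈ (Icc 1 R).filter (fun e => v ^ 359680 < e ∧ e.Coprime d),
      lc (RR Q R1 R) e * er Q N (Nat.lcm e (f * d)) =
      ∑ r ∈ (Icc 1 R).filter (fun r => Squarefree r ∧ r.Coprime Q), (r.totient : ℝ)⁻¹ *
        ∑ e ∈ Ioc (v ^ 359680) (R / r),
          (if e.Coprime (r * Q * d) then muR e * (e / e.totient) else 0) *
            er Q N (d * Nat.lcm e f) := by
    rw [sum_congr rfl fun e he => by rw [lc_RR (hR1.trans_lt (mem_filter.1 he).2.1), sum_mul],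
      sum_comm]
    refine sum_congr rfl fun r _ => ?_
    simp only [ite_mul, zero_mul]
    rw [← sum_filter, ← sum_filter, mul_sum]
    refine sum_congr ?_ fun e he => ?_
    · ext e
      simp only [mem_filter, mem_Icc, mem_Ioc, Nat.coprime_mul_iff_right (k := e) (n := d)]
      exact ⟨fun h => ⟨⟨h.1.2.1, h.2.1⟩, h.2.2, h.1.2.2⟩, fun h => ⟨⟨⟨Nat.zero_lt_of_lt h.1.1,
        h.1.2.trans (Nat.div_le_self _ _)⟩, h.1.1, h.2.2⟩, h.1.2, h.2.1⟩⟩
    · have hc := (Nat.coprime_mul_iff_right.1 (mem_filter.1 he).2).2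
      rw [← hfd.lcm_eq_mul, ← Nat.lcm_assoc,
        ((hc.mul_left hfd).coprime_dvd_left (Nat.lcm_dvd_mul e f)).lcm_eq_mul, mul_comm _ d,
        mul_assoc]
  rw [h1]
  refine (abs_sum_le_sum_abs _ _).trans ((sum_le_sum (g := fun r : ℕ =>
    (8 : ℝ) ^ r.primeFactors.card / r *
      (8 * ε * Lg ^ 4 * 4 ^ f.primeFactors.card * (N / (d * f)))) fun r hr => ?_).trans ?_)
  · obtain ⟨hr, -⟩ := mem_filter.1 hr
    obtain ⟨r0, r1⟩ := mem_Icc.1 hr
    have r2 : (0 : ℝ) < r := by exact_mod_cast r0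
    rw [abs_mul, abs_inv, Nat.abs_cast]
    refine mul_le_mul ?_ ?_ (abs_nonneg _) (by positivity)
    · rw [le_div_iff₀ r2, mul_comm, ← div_eq_mul_inv]
      exact (Diag_tot r).trans (pow_le_pow_left₀ zero_le_two (by norm_num) _)
    rw [split_gcd hf _ _ _ fun x => er Q N (d * x)]
    refine (abs_sum_le_sum_abs _ _).trans ((sum_le_card_nsmul _ _
      ((2 : ℝ) ^ f.primeFactors.card * (4 * (2 * ε * Lg ^ 2) * Lg ^ 2 * (N / (d * f : ℕ))))
      fun g hg => ?_).trans ?_)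
    · have g0 := Nat.pos_of_mem_divisors hg
      have g1 : v ^ 359679 ≤ v ^ 359680 / g := by
        rw [Nat.le_div_iff_mul_le g0]
        exact (Nat.mul_le_mul_left _ ((Nat.divisor_le hg).trans hfv)).trans_eq (pow_succ v _).symm
      have g2 : R / r / g ≤ v ^ 720000 := (Nat.div_le_self _ _).trans
        ((Nat.div_le_self _ _).trans (hR.trans (pw (by norm_num))))
      have k1 : r * Q * d * f ≤ v ^ 2160000 := by
        refine (Nat.mul_le_mul (Nat.mul_le_mul (Nat.mul_le_mul (r1.trans hR) Q1) d1) hfv).trans ?_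
        rw [← pow_add, ← pow_add, ← pow_succ]
        exact pw (by norm_num)
      rw [abs_mul]
      refine mul_le_mul ?_ ?_ (abs_nonneg _) (by positivity)
      · split_ifs
        · rw [abs_mul, abs_of_nonneg (a := (g : ℝ) / _) (by positivity)]
          exact (mul_le_of_le_one_left (by positivity) (abs_muR_le _)).trans ((Diag_tot g).trans
            (pow_le_pow_right₀ one_le_two (card_le_card
              (Nat.primeFactors_mono (Nat.dvd_of_mem_divisors hg) hf.ne_zero))))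
        · rw [abs_zero]
          positivity
      · simp only [← mul_assoc d f]
        exact W_er _ ((pow_pos v1 _).trans_le g1) (Nat.mul_pos d0 f0) (by positivity)
          (fun y y1 y2 => Ms_le' L v1 (by positivity) k1 (G.hτ _ k1).1 (g1.trans y1) (y2.trans g2))
          (L.hH _ g2) (L.hH _ hN) (L.hH _ Q1)
    · have t1 : (f.divisors.card : ℝ) ≤ 2 ^ f.primeFactors.card := by exact_mod_cast Diag_tau hf
      rw [nsmul_eq_mul]
      refine (mul_le_mul_of_nonneg_right t1 (by positivity)).trans_eq ?_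
      rw [show (4 : ℝ) ^ f.primeFactors.card = 2 ^ f.primeFactors.card * 2 ^ f.primeFactors.card by
        rw [← mul_pow]; norm_num]
      push_cast
      ring
  · rw [← sum_mul]
    refine (mul_le_mul_of_nonneg_right ((sum_le_sum_of_subset_of_nonneg
      (fun r hr => mem_filter.2 ⟨(mem_filter.1 hr).1, (mem_filter.1 hr).2.1⟩)
      fun _ _ _ => by positivity).trans (L.hE R (hR.trans (pw (by norm_num)))))
      (by positivity)).trans_eq ?_
    ring

theorem card_bad_le (hv : 2 ≤ v) (hP : PW v Ps) {R d : ℕ} (hR : R ≤ v ^ 360000)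
    (hd : d ∈ DD Ps 300) :
    ((Icc 1 R).filter (fun e => ¬ (v ^ 359680 < e ∧ e.Coprime d))).card ≤ 2 * v ^ 359680 := by
  obtain ⟨d1, d2, d3⟩ := (mem_DD fun p hp => (hP p hp).1).1 hd
  have v0 : 0 < v := by omega
  have h1 : (Icc 1 R).filter (fun e => ¬ (v ^ 359680 < e ∧ e.Coprime d)) ⊆ Icc 1 (v ^ 359680) ∪
      d.primeFactors.biUnion fun p => (Ioc 0 R).filter (fun e => p ∣ e) := by
    intro e he
    obtain ⟨he, h⟩ := mem_filter.1 he
    rw [mem_union, mem_biUnion]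
    by_cases hc : e.Coprime d
    · exact Or.inl (mem_Icc.2 ⟨(mem_Icc.1 he).1, not_lt.1 fun h' => h ⟨h', hc⟩⟩)
    · obtain ⟨p, hp, p1, p2⟩ := Nat.Prime.not_coprime_iff_dvd.1 hc
      exact Or.inr ⟨p, Nat.mem_primeFactors.2 ⟨hp, p2, d1.ne_zero⟩,
        mem_filter.2 ⟨mem_Ioc.2 (mem_Icc.1 he), p1⟩⟩
  have h2 : (d.primeFactors.biUnion fun p => (Ioc 0 R).filter (fun e => p ∣ e)).card ≤
      d.primeFactors.card * v ^ 358800 := by
    refine card_biUnion_le_card_mul _ _ _ fun p hp => ?_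
    rw [Nat.Ioc_filter_dvd_card_eq_div]
    refine Nat.div_le_of_le_mul (hR.trans ?_)
    exact (pow_add v 1200 358800).trans_le (Nat.mul_le_mul_right _ (hP p (d2 hp)).2.1.le)
  have h3 : 300 * v ^ 358800 ≤ v ^ 359680 := by
    refine (Nat.mul_le_mul_right _ (le_trans (by norm_num) (Nat.pow_le_pow_left hv 9))).trans ?_
    rw [← pow_add]
    exact Nat.pow_le_pow_right v0 (by norm_num)
  rw [d3] at h2
  refine (card_le_card h1).trans ((card_union_le _ _).trans ?_)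
  rw [Nat.card_Icc, Nat.add_sub_cancel, two_mul]
  exact Nat.add_le_add_left (h2.trans h3) _

theorem diag_le {X Lg ε : ℝ} (G : GP X v Q) (L : LP v Lg ε) (hP : PW v Ps)
    (hPQ : ∀ p ∈ Ps, ¬ p ∣ Q) {R1 R N : ℕ} (hR1 : R1 ≤ v ^ 359680) (hR : R ≤ v ^ 360000)
    (hN : N ≤ v ^ 720000) :
    |∑ m ∈ (Ioc (0 : ℤ) N).filter (fun m => IsCoprime m (Q : ℤ)),
      lam (RR Q R1 R) m * lam (S2 v Q Ps) m| ≤ 16 * ε * Lg ^ 9 * N + (v : ℝ) ^ 719995 := by
  have v2 : 2 ≤ v := le_trans (by norm_num) G.hv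
  have v1 : 1 ≤ v := one_le_two.trans v2
  have pw : ∀ {i j : ℕ}, i ≤ j → v ^ i ≤ v ^ j := fun h => Nat.pow_le_pow_right v1 h
  obtain ⟨Q0, Q1⟩ := Diag_Q G
  have ε0 := Diag_eps L
  have L0 : 0 ≤ Lg := zero_le_one.trans L.hL1
  have hlc : ∀ {S : Finset ℕ} {T : ℕ}, T ≤ v ^ 720000 → (∀ r ∈ S, 0 < r ∧ r ≤ T) →
      ∀ e, |lc S e| ≤ Lg ^ 2 := by
    intro S T hT hS e
    refine (abs_lc_le L0 (fun r hr => ⟨(hS r hr).1, (hS r hr).2,
      L.hφ r ((hS r hr).2.trans (hT.trans (pw (by norm_num))))⟩) e).trans ?_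
    rw [sq]
    exact mul_le_mul_of_nonneg_left (by linarith [L.hH T hT]) L0
  have hv2 : Lg ^ 2 ≤ (v : ℝ) ^ 2 := pow_le_pow_left₀ L0 L.hLv 2
  have l1 := hlc (S := RR Q R1 R) (hR.trans (pw (by norm_num))) fun r hr => ⟨RR_pos hr, RR_le hr⟩
  have l2 := hlc (S := RR Q 0 v) (Nat.le_self_pow (by norm_num) v)
    fun r hr => ⟨RR_pos hr, RR_le hr⟩
  have l3 := hlc (S := DD Ps 300) (pw (by norm_num : 360300 ≤ 720000))
    fun r hr => DA_bounds v1 hP (mem_DA.2 ⟨300, le_rfl, hr⟩)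
  have hF : ∀ (s : Finset ℕ) (x : ℕ) (B : ℕ), s.card ≤ B →
      |∑ e ∈ s, lc (RR Q R1 R) e * er Q N (Nat.lcm e x)| ≤ B * (v : ℝ) ^ 3 := by
    intro s x B hB
    refine (abs_sum_le_sum_abs _ _).trans ((sum_le_card_nsmul _ _ ((v : ℝ) ^ 3)
      fun e _ => ?_).trans ?_)
    · rw [abs_mul, pow_succ]
      exact mul_le_mul ((l1 e).trans hv2) ((abs_er_le _ _ _).trans
        (G.hτ Q (Q1.trans (pw (by norm_num)))).1) (abs_nonneg _) (by positivity)
    · rw [nsmul_eq_mul]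
      exact mul_le_mul_of_nonneg_right (Nat.cast_le.2 hB) (by positivity)
  rw [diag_expand Q0 _ _ (fun r hr => ⟨RR_pos hr, RR_le hr, (mem_filter.1 hr).2.2⟩)
    (fun r hr => ⟨Nat.pos_of_ne_zero (mem_S2 v1 hP hr).1.ne_zero, (mem_S2 v1 hP hr).2.2.1,
      (mem_S2 v1 hP hr).2.2.2.2 hPQ⟩)
    fun r hr hr' => absurd ((RR_le hr).trans hR) (mem_S2 v1 hP hr').2.1.not_ge, sum_lc_S2 v1 hP]
  obtain ⟨c, hc⟩ : ∃ c : ℕ → ℝ, c = fun f : ℕ =>
      if Squarefree f then (8 : ℝ) ^ f.primeFactors.card / f else 0 := ⟨_, rfl⟩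
  have c0 : ∀ f, 0 ≤ c f := fun f => by
    rw [hc]
    dsimp only
    split_ifs <;> positivity
  have w1 : (1 : ℝ) ≤ v := Nat.one_le_cast.2 v1
  refine (abs_sum_le_sum_abs _ _).trans ((sum_le_sum (g := fun f =>
    16 * ε * Lg ^ 8 * N * c f + 5 * (v : ℝ) ^ 719985) fun f hf => ?_).trans ?_)
  · rw [← sum_filter_add_sum_filter_not _ (fun d => d ∈ DD Ps 300)]
    have a1 : |∑ d ∈ (DA Ps).filter (fun d => ¬ d ∈ DD Ps 300), lc (RR Q 0 v) f * lc (DD Ps 300) d *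
        ∑ e ∈ Icc 1 R, lc (RR Q R1 R) e * er Q N (Nat.lcm e (f * d))| ≤ (v : ℝ) ^ 719985 := by
      refine (abs_sum_le_sum_abs _ _).trans ((sum_le_card_nsmul _ _
        ((v : ℝ) ^ 2 * (v : ℝ) ^ 2 * ((v ^ 360000 : ℕ) * (v : ℝ) ^ 3)) fun d _ => ?_).trans ?_)
      · rw [abs_mul, abs_mul]
        exact mul_le_mul (mul_le_mul ((l2 f).trans hv2) ((l3 d).trans hv2) (abs_nonneg _)
          (by positivity)) (hF _ _ _ (by simpa using hR)) (abs_nonneg _) (by positivity)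
      · have b1 : ((DA Ps).filter (fun d => ¬ d ∈ DD Ps 300)).card ≤ v ^ 359099 := by
          refine (card_le_card (t := Icc 1 (v ^ 359099)) fun d hd => ?_).trans (by simp)
          obtain ⟨h1, h2⟩ := mem_filter.1 hd
          exact mem_Icc.2 ⟨(DA_bounds v1 hP h1).1, DA_proper v1 hP h1 h2⟩
        rw [nsmul_eq_mul]
        refine (mul_le_mul_of_nonneg_right (Nat.cast_le.2 b1) (by positivity)).trans ?_
        rw [Nat.cast_pow, Nat.cast_pow, ← pow_add, ← pow_add, ← pow_add, ← pow_add]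
        exact pow_le_pow_right₀ w1 (by norm_num)
    have sub : (DA Ps).filter (fun d => d ∈ DD Ps 300) ⊆ Icc 1 (v ^ 360300) := fun d hd =>
      mem_Icc.2 (DA_bounds v1 hP (mem_filter.1 hd).1)
    have a2 : |∑ d ∈ (DA Ps).filter (fun d => d ∈ DD Ps 300), lc (RR Q 0 v) f * lc (DD Ps 300) d *
        ∑ e ∈ Icc 1 R, lc (RR Q R1 R) e * er Q N (Nat.lcm e (f * d))| ≤
        16 * ε * Lg ^ 8 * N * c f + 4 * (v : ℝ) ^ 719985 := by
      refine (abs_sum_le_sum_abs _ _).trans ((sum_le_sum (g := fun d : ℕ =>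
        16 * ε * Lg ^ 7 * N * c f * (1 / d) +
          (v : ℝ) ^ 2 * 2 * ((2 * v ^ 359680 : ℕ) * (v : ℝ) ^ 3)) fun d hd => ?_).trans ?_)
      · have hd' := (mem_filter.1 hd).2
        by_cases z : lc (RR Q 0 v) f = 0
        · rw [z, zero_mul, zero_mul, abs_zero]
          have := c0 f
          positivity
        obtain ⟨r, hr, hfr⟩ := lc_ne_zero z
        have fs : Squarefree f := (mem_filter.1 hr).2.1.squarefree_of_dvd hfr
        rw [← sum_filter_add_sum_filter_not (Icc 1 R) (fun e => v ^ 359680 < e ∧ e.Coprime d),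
          mul_add]
        refine (abs_add_le _ _).trans (add_le_add ?_ ?_)
        · rw [abs_mul, abs_mul]
          refine (mul_le_mul (mul_le_mul (l2 f) (lc_top v2 hP hd') (abs_nonneg _) (by positivity))
            (inner_le G L hP hR1 hR hN fs (mem_Icc.1 hf).2 hd') (abs_nonneg _)
            (by positivity)).trans ?_
          have b2 : (4 : ℝ) ^ f.primeFactors.card / f ≤ c f := by
            rw [hc]
            dsimp only
            rw [if_pos fs]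
            gcongr
            norm_num
          calc _ = 16 * ε * Lg ^ 7 * N * (4 ^ f.primeFactors.card / f) * (1 / d) := by ring
            _ ≤ _ := by gcongr
        · rw [abs_mul, abs_mul]
          exact mul_le_mul (mul_le_mul ((l2 f).trans hv2) (lc_top v2 hP hd') (abs_nonneg _)
            (by positivity)) (hF _ _ _ (card_bad_le v2 hP hR hd')) (abs_nonneg _) (by positivity)
      · rw [sum_add_distrib, ← mul_sum, sum_const, nsmul_eq_mul]
        refine add_le_add ?_ ?_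
        · have b3 : ∑ d ∈ (DA Ps).filter (fun d => d ∈ DD Ps 300), (1 : ℝ) / d ≤ Lg :=
            (sum_le_sum_of_subset_of_nonneg sub fun _ _ _ => by positivity).trans
              (show HH (v ^ 360300) ≤ Lg by linarith [L.hH _ (pw (by norm_num : 360300 ≤ 720000))])
          have := c0 f
          refine (mul_le_mul_of_nonneg_left b3 (by positivity)).trans_eq ?_
          ring
        · have b4 : ((DA Ps).filter (fun d => d ∈ DD Ps 300)).card ≤ v ^ 360300 :=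
            (card_le_card sub).trans (by simp)
          refine (mul_le_mul_of_nonneg_right (Nat.cast_le.2 b4) (by positivity)).trans_eq ?_
          push_cast
          ring
    refine (abs_add_le _ _).trans ((add_le_add a2 a1).trans_eq ?_)
    ring
  · rw [sum_add_distrib, ← mul_sum, sum_const, nsmul_eq_mul, Nat.card_Icc, Nat.add_sub_cancel]
    refine add_le_add ?_ ?_
    · have b5 : ∑ f ∈ Icc 1 v, c f ≤ Lg := by
        rw [hc, ← sum_filter]
        exact L.hE v (Nat.le_self_pow (by norm_num) v)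
      refine (mul_le_mul_of_nonneg_left b5 (by positivity)).trans_eq ?_
      ring
    · have w5 : (5 : ℝ) ≤ v := by exact_mod_cast le_trans (by norm_num) G.hv
      refine (mul_le_mul_of_nonneg_left (mul_le_mul_of_nonneg_right w5 (by positivity))
        (by positivity)).trans ?_
      rw [← pow_succ', ← pow_succ']
      exact pow_le_pow_right₀ w1 (by norm_num)

end Pool.Agent.Work.MP_5d318d_nt.Zh
end
end

-- merged part: Pool.Agent.Work.MP_5d318d_nt.Z.Norm2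
section
/-!
# The four sums of the new test function

PLAN.
Write `N = ⌊X⌋₊`, `S2' = S2 v Q (PP v Q)`, `T2 = FF Q S2' (Ioc 0 N)`.  `GP.Q_bounds`, `PW_PP`, `PP_not_dvd`, `ZP_of_GP`.
* `abs_lam_le`: `lam_neg`, `lam_eq_div`, `abs_lc_le`.
* `abs_FF_le`: at most `N / Q + 1 ≤ 2 v` terms (`class_sum` or `abs_card_int_modEq`), `abs_lam_le`.
* `E2_ge`: `corr_split` with `g m = vonMangoldt m.natAbs`, `u = 0`, `L = N` (`phi_Lam`).  Replace `vonMangoldt` by `aa Q R` on both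
  sides: `sum_sub_aa_le` gives `∑ (Λ - aa) ≤ v ^ 360002`, `abs_FF_le`, `abs_lam_le`, `sum_red_fiber`.  If `aa Q R n ≠ 0` then
  `n` is a prime above `R ≥ v ^ 1201`, prime to `Q`, so `lam S2' n = Sg S2'` (`lam_coprime`, `mem_S2`).
* `M2_le`: `sum_red_fiber_int`, `pair_sum` with `r' = 1`, `k = 0` as in `abs_sum_lam_le`; `sig_le`, `inv_tot_le`.
* `P2_le`: `corr_split` with `g = lam S2'` (`phi_lam`); the diagonal is at most `CB ^ 2` times the sum in
  `pair_lam_le` with `R1 = 0`, `R = v`, `Z = v`, `k = 0` (`lam_S2`, `ram_zero`).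
* `C12_le`: `corr_split` with `g = lam (RR Q R1 R)`, `u = t - 2 H`, `L = N + 2 H`; `diag_le`.
-/

noncomputable section

open Finset Real ArithmeticFunction

namespace Pool.Agent.Work.MP_5d318d_nt.Zh

open Pool.Agent.Lib.LargeSieve Pool.Agent.Lib.ANT

variable {v Q : ℕ} {Ps : Finset ℕ} {a : ℤ}

theorem Norm2_v {X : ℝ} (G : GP X v Q) : 16 ≤ v ∧ (16 : ℝ) ≤ v := by
  have h : 16 ≤ v := le_trans (by norm_num) G.hv
  exact ⟨h, by exact_mod_cast h⟩

theorem Norm2_pn {X : ℝ} (G : GP X v Q) {i j : ℕ} (h : i ≤ j) : v ^ i ≤ v ^ j :=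
  Nat.pow_le_pow_right (by have := (Norm2_v G).1; omega) h

theorem Norm2_pr {X : ℝ} (G : GP X v Q) {i j : ℕ} (h : i < j) : 16 * (v : ℝ) ^ i ≤ (v : ℝ) ^ j := by
  have hv := (Norm2_v G).2
  refine le_trans ?_ (pow_le_pow_right₀ (by linarith) (Nat.succ_le_of_lt h))
  rw [pow_succ']
  exact mul_le_mul_of_nonneg_right hv (by positivity)

theorem Norm2_N {X : ℝ} (G : GP X v Q) : 1 < Q ∧ 1 ≤ ⌊X⌋₊ ∧ (⌊X⌋₊ : ℝ) ≤ X ∧ ⌊X⌋₊ ≤ v ^ 720000 ∧
    ⌊X⌋₊ ≤ v * Q := by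
  have hv := (Norm2_v G).2
  have h1 : (1 : ℝ) ≤ X := (one_le_pow₀ (by linarith)).trans G.hX0
  have h2 : (⌊X⌋₊ : ℝ) ≤ X := Nat.floor_le (by linarith)
  refine ⟨?_, (Nat.one_le_floor_iff X).2 h1, h2, by exact_mod_cast h2.trans G.hX1,
    by exact_mod_cast h2.trans G.hQ0⟩
  have h3 := (Norm2_pn G (show 1 ≤ 719998 by norm_num)).trans G.Q_bounds.1
  have := (Norm2_v G).1
  rw [pow_one] at h3
  omega

theorem Norm2_S {X : ℝ} (G : GP X v Q) {r : ℕ} (hr : r ∈ S2 v Q (PP v Q)) :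
    0 < r ∧ r ≤ v ^ 360301 := by
  have h := mem_S2 (by have := (Norm2_v G).1; omega) (PW_PP v Q) hr
  exact ⟨Nat.pos_of_ne_zero h.1.ne_zero, h.2.2.1⟩

theorem Norm2_cast (N : ℕ) (p : ℤ → Prop) (p' : ℕ → Prop) [DecidablePred p] [DecidablePred p']
    (h : ∀ n : ℕ, p' n ↔ p n) (f : ℤ → ℝ) :
    ∑ m ∈ (Ioc (0 : ℤ) N).filter p, f m = ∑ n ∈ (Icc 1 N).filter p', f n := by
  refine (sum_nbij (fun n : ℕ => (n : ℤ)) (fun n hn => ?_) (fun _ _ _ _ e => Int.natCast_inj.1 e)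
    (fun m hm => ?_) fun _ _ => rfl).symm
  · simp only [mem_filter, mem_Icc, mem_Ioc] at hn ⊢
    exact ⟨⟨by omega, by omega⟩, (h n).1 hn.2⟩
  · simp only [coe_filter, mem_Ioc, Set.mem_ofPred_eq] at hm
    obtain ⟨n, rfl⟩ := Int.eq_ofNat_of_zero_le hm.1.1.le
    refine ⟨n, ?_, rfl⟩
    simp only [coe_filter, mem_Icc, Set.mem_ofPred_eq]
    exact ⟨⟨by omega, by omega⟩, (h n).2 hm.2⟩

theorem abs_lam_le {X : ℝ} (G : GP X v Q) {S : Finset ℕ} (hS : ∀ r ∈ S, 0 < r ∧ r ≤ v ^ 720000)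
    {m : ℤ} (hm : m ≠ 0) (hm' : m.natAbs ≤ v ^ 720000) : |lam S m| ≤ (v : ℝ) ^ 3 := by
  have hv := (Norm2_v G).2
  have e : lam S m = lam S (m.natAbs : ℕ) := by
    rcases Int.natAbs_eq m with h | h
    · rw [← h]
    · rw [← lam_neg S (m.natAbs : ℕ), ← h]
  have hb : v ^ 720000 ≤ v ^ 2160000 := Norm2_pn G (by norm_num)
  have h1 : ∀ e, |lc S e| ≤ v * v := fun e =>
    (abs_lc_le (R := v ^ 720000) (Z := v) (by positivity) (fun r hr => ⟨(hS r hr).1, (hS r hr).2,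
      (div_totient_le_card_divisors r).trans (G.hτ r ((hS r hr).2.trans hb)).1⟩) e).trans
      (mul_le_mul_of_nonneg_left (by linarith [(G.hτ _ hb).2]) (by positivity))
  rw [e, lam_eq_div S (fun r hr => (hS r hr).1.ne') (Int.natAbs_pos.2 hm)]
  refine (abs_sum_le_sum_abs _ _).trans ((sum_le_card_nsmul _ _ _ fun e _ => h1 e).trans ?_)
  rw [nsmul_eq_mul]
  exact (mul_le_mul_of_nonneg_right (G.hτ _ (hm'.trans hb)).1 (by positivity)).trans
    (le_of_eq (by ring))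

theorem abs_FF_le {X : ℝ} (G : GP X v Q) (A : ℕ) :
    |FF Q (S2 v Q (PP v Q)) (Ioc (0 : ℤ) (⌊X⌋₊ : ℕ)) A| ≤ (v : ℝ) ^ 5 := by
  have hv := (Norm2_v G).2
  obtain ⟨hQ, -, -, hN, hNQ⟩ := Norm2_N G
  have hc := abs_card_int_modEq 0 A ⌊X⌋₊ Q (by omega)
  rw [zero_add, abs_le] at hc
  have hq : (0 : ℝ) < Q := by exact_mod_cast (by omega : 0 < Q)
  have h1 : (⌊X⌋₊ : ℝ) / Q ≤ v := by
    rw [div_le_iff₀ hq]
    exact_mod_cast hNQ
  have h2 : (((Ioc (0 : ℤ) (⌊X⌋₊ : ℕ)).filter (fun m : ℤ => m % Q = A)).card : ℝ) ≤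
      ((Ioc (0 : ℤ) (⌊X⌋₊ : ℕ)).filter (fun x => x ≡ A [ZMOD Q])).card := by
    refine Nat.cast_le.2 (card_le_card (monotone_filter_right _ fun m _ h => ?_))
    show m % Q = A % Q
    rw [← h, Int.emod_emod_of_dvd _ dvd_rfl]
  unfold FF
  refine (abs_sum_le_sum_abs _ _).trans ((sum_le_card_nsmul _ _ ((v : ℝ) ^ 3) fun m hm => ?_).trans ?_)
  · have := mem_Ioc.1 (mem_filter.1 hm).1
    exact abs_lam_le G (fun r hr => ⟨(Norm2_S G hr).1,
      (Norm2_S G hr).2.trans (Norm2_pn G (by norm_num))⟩) this.1.ne' (by omega)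
  · rw [nsmul_eq_mul, show (v : ℝ) ^ 5 = v * v * v ^ 3 by ring]
    exact mul_le_mul_of_nonneg_right (by nlinarith) (by positivity)

theorem E2_ge {X : ℝ} (G : GP X v Q) {R : ℕ} (hR0 : v ^ 1201 ≤ R) (hR : R ≤ v ^ 360000) :
    Sg (S2 v Q (PP v Q)) * ∑ n ∈ Icc 1 ⌊X⌋₊, aa Q R n - (v : ℝ) ^ 719995 ≤
      ∑ A ∈ red Q, FF Q (S2 v Q (PP v Q)) (Ioc (0 : ℤ) (⌊X⌋₊ : ℕ)) A *
        ∑ n ∈ (Icc 1 ⌊X⌋₊).filter (fun n => n % Q = A), aa Q R n := by
  obtain ⟨hv', hv⟩ := Norm2_v G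
  obtain ⟨hQ, hN1, -, hN, hNQ⟩ := Norm2_N G
  have hF := abs_FF_le G
  generalize ⌊X⌋₊ = N at *
  have hc := corr_split (Ps := PP v Q) hv' hQ (fun m => vonMangoldt m.natAbs)
    (fun m => by rw [Int.natAbs_neg]) (fun j hj hj' y hy => phi_Lam (ZP_of_GP G hj hj') hy)
    (u := 0) (L := N) (N := N) le_rfl (by omega) (by nlinarith)
    (hN.trans (Norm2_pn G (by norm_num)))
  rw [zero_add, Norm2_cast N _ (fun n => n.Coprime Q)
    (fun n => Nat.isCoprime_iff_coprime.symm)] at hc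
  have e1 : ∀ A : ℕ, ∑ m ∈ (Ioc (0 : ℤ) N).filter (fun m : ℤ => m % Q = A), vonMangoldt m.natAbs =
      ∑ n ∈ (Icc 1 N).filter (fun n => n % Q = A), vonMangoldt n := fun A =>
    Norm2_cast N _ _ (fun n => by exact_mod_cast Iff.rfl) _
  simp only [e1, Int.natAbs_natCast] at hc
  have d0 : ∀ n, 0 ≤ vonMangoldt n - aa Q R n := fun n => by
    unfold aa
    split_ifs
    · simp
    · simp
  have hB : ∑ n ∈ (Icc 1 N).filter (fun n => n.Coprime Q), (vonMangoldt n - aa Q R n) ≤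
      (v : ℝ) ^ 360002 := by
    refine (sum_le_sum_of_subset_of_nonneg (filter_subset _ _) fun n _ _ => d0 n).trans
      ((sum_sub_aa_le R hN1 (by omega)).trans ?_)
    have a1 : √N ≤ (v : ℝ) ^ 360000 := by
      rw [Real.sqrt_le_left (by positivity), ← pow_mul]
      exact_mod_cast hN
    have a2 : Real.log N ≤ v := by
      linarith [log_le_HH N, (G.hτ N (hN.trans (Norm2_pn G (by norm_num)))).2]
    have a3 : Real.log Q ≤ (v : ℝ) ^ 1 := by
      linarith [log_le_HH Q, (G.hτ Q (G.Q_bounds.2.trans (Norm2_pn G (by norm_num)))).2]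
    have a4 : (R : ℝ) ≤ (v : ℝ) ^ 360000 := by exact_mod_cast hR
    have a5 : √N * Real.log N ≤ (v : ℝ) ^ 360001 := by
      rw [pow_succ]
      exact mul_le_mul a1 a2 (Real.log_natCast_nonneg N) (by positivity)
    have a6 := Norm2_pr G (show 1 < 360002 by norm_num)
    have a7 := Norm2_pr G (show 360000 < 360002 by norm_num)
    have a8 := Norm2_pr G (show 360001 < 360002 by norm_num)
    have a9 : (0 : ℝ) ≤ (v : ℝ) ^ 360002 := by positivity
    linarith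
  have h1 : ∑ A ∈ red Q, (∑ n ∈ (Icc 1 N).filter (fun n => n % Q = A), vonMangoldt n) *
      FF Q (S2 v Q (PP v Q)) (Ioc (0 : ℤ) N) A -
      ∑ A ∈ red Q, FF Q (S2 v Q (PP v Q)) (Ioc (0 : ℤ) N) A *
        ∑ n ∈ (Icc 1 N).filter (fun n => n % Q = A), aa Q R n ≤ (v : ℝ) ^ 360007 := by
    rw [← sum_sub_distrib, show (v : ℝ) ^ 360007 = v ^ 5 * v ^ 360002 by ring]
    refine le_trans ?_ (mul_le_mul_of_nonneg_left hB (by positivity))
    rw [← sum_red_fiber N Q (by omega), mul_sum]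
    refine sum_le_sum fun A _ => ?_
    rw [mul_comm, ← mul_sub, ← sum_sub_distrib]
    exact mul_le_mul_of_nonneg_right ((le_abs_self _).trans (hF A)) (sum_nonneg fun n _ => d0 n)
  have h2 : Sg (S2 v Q (PP v Q)) * ∑ n ∈ Icc 1 N, aa Q R n =
      ∑ n ∈ (Icc 1 N).filter (fun n => n.Coprime Q), aa Q R n * lam (S2 v Q (PP v Q)) n := by
    rw [mul_sum, sum_filter]
    refine sum_congr rfl fun n _ => ?_
    unfold aa
    by_cases h : n.Prime ∧ R < n ∧ n.Coprime Q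
    · have hm := fun r hr => mem_S2 (Q := Q) (r := r) (by omega) (PW_PP v Q) hr
      rw [if_pos h.2.2, lam_coprime (fun r hr => (hm r hr).1) fun r hr => ?_, mul_comm]
      refine Nat.isCoprime_iff_coprime.2 (h.1.coprime_iff_not_dvd.2 fun hd => ?_)
      have := (hm r hr).2.2.2.1 n (Nat.mem_primeFactors.2 ⟨h.1, hd, (hm r hr).1.ne_zero⟩)
      omega
    · simp [h]
  have h3 : ∑ n ∈ (Icc 1 N).filter (fun n => n.Coprime Q), aa Q R n * lam (S2 v Q (PP v Q)) n -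
      ∑ n ∈ (Icc 1 N).filter (fun n => n.Coprime Q), vonMangoldt n * lam (S2 v Q (PP v Q)) n ≤
      (v : ℝ) ^ 360005 := by
    rw [← sum_sub_distrib, show (v : ℝ) ^ 360005 = v ^ 3 * v ^ 360002 by ring]
    refine le_trans ?_ (mul_le_mul_of_nonneg_left hB (by positivity))
    rw [mul_sum]
    refine sum_le_sum fun n hn => ?_
    have h := mem_Icc.1 (mem_filter.1 hn).1
    have := abs_le.1 (abs_lam_le G (S := S2 v Q (PP v Q)) (m := n) (fun r hr => ⟨(Norm2_S G hr).1,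
      (Norm2_S G hr).2.trans (Norm2_pn G (by norm_num))⟩) (by omega) (by omega))
    nlinarith [d0 n]
  have a1 := Norm2_pr G (show 360005 < 719995 by norm_num)
  have a2 := Norm2_pr G (show 360007 < 719995 by norm_num)
  have a3 := Norm2_pr G (show 719992 < 719995 by norm_num)
  have a4 : (0 : ℝ) ≤ (v : ℝ) ^ 719995 := by positivity
  linarith [(abs_le.1 hc).1]

theorem M2_le {X : ℝ} (G : GP X v Q) :
    ∑ A ∈ red Q, FF Q (S2 v Q (PP v Q)) (Ioc (0 : ℤ) (⌊X⌋₊ : ℕ)) A ≤ (v : ℝ) ^ 360310 := by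
  obtain ⟨hv', hv⟩ := Norm2_v G
  have hQ := (Norm2_N G).1
  have hτQ := (G.hτ Q (G.Q_bounds.2.trans (Norm2_pn G (by norm_num)))).1
  unfold FF
  rw [sum_red_fiber_int (by omega)]
  unfold lam
  rw [sum_comm]
  refine (sum_le_card_nsmul _ _ ((v : ℝ) ^ 3) fun r hr => ?_).trans ?_
  · have hm := mem_S2 (by omega) (PW_PP v Q) hr
    have h0 := (Norm2_S G hr).1
    have hτ := (G.hτ r (hm.2.2.1.trans (Norm2_pn G (by norm_num)))).1
    have h := pair_sum (by omega) h0.ne' one_ne_zero (hm.2.2.2.2 (PP_not_dvd v Q))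
      (Nat.coprime_one_right Q) 0 ⌊X⌋₊ 0
    have h1 : r ≠ 1 := by
      have := (Nat.one_le_pow 360000 v (by omega)).trans_lt hm.2.1
      omega
    have h2 : ∀ m : ℤ, ram 1 m = 1 := fun m => by simp [ram, muR]
    simp only [if_neg h1, h2, mul_one, mul_zero, sub_zero, zero_add, show sig 1 = 1 by simp [sig]] at h
    have r0 : (0 : ℝ) < r := by exact_mod_cast h0
    have h3 : |muR r / r.totient| ≤ v / r := by
      rw [abs_div, Nat.abs_cast, div_eq_mul_inv]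
      exact (mul_le_of_le_one_left (by positivity) (abs_muR_le r)).trans (inv_tot_le h0 hτ)
    rw [← mul_sum]
    refine (le_abs_self _).trans ?_
    rw [abs_mul]
    refine (mul_le_mul h3 (h.trans (mul_le_mul hτQ ((sig_le r).trans
      (mul_le_mul_of_nonneg_left hτ r0.le)) (sig_nonneg r) (by positivity))) (abs_nonneg _)
      (by positivity)).trans (le_of_eq ?_)
    field_simp
  · have h : (S2 v Q (PP v Q)).card ≤ v ^ 360301 :=
      (card_le_card (t := Ioc 0 (v ^ 360301)) fun r hr => mem_Ioc.2 (Norm2_S G hr)).trans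
        (by rw [Nat.card_Ioc, Nat.sub_zero])
    rw [nsmul_eq_mul]
    refine (mul_le_mul_of_nonneg_right (Nat.cast_le.2 h) (by positivity)).trans ?_
    rw [Nat.cast_pow, ← pow_add]
    exact pow_le_pow_right₀ (by linarith) (by norm_num)

theorem P2_le {X CB : ℝ} (G : GP X v Q)
    (hCB : ∀ m : ℤ, 0 < m → m ≤ (v : ℤ) ^ 720000 → |lam (DD (PP v Q) 300) m| ≤ CB) :
    ∑ A ∈ red Q, FF Q (S2 v Q (PP v Q)) (Ioc (0 : ℤ) (⌊X⌋₊ : ℕ)) A ^ 2 ≤
      CB ^ 2 * (X * (Q.totient / Q) * Sg (RR Q 0 v) + (v : ℝ) ^ 7) + (v : ℝ) ^ 719995 := by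
  obtain ⟨hv', hv⟩ := Norm2_v G
  obtain ⟨hQ, -, hX, hN, hNQ⟩ := Norm2_N G
  generalize ⌊X⌋₊ = N at *
  have hc := corr_split (Ps := PP v Q) hv' hQ (lam (S2 v Q (PP v Q))) (lam_neg _)
    (fun j hj hj' y hy => phi_lam (ZP_of_GP G hj hj') hy _ fun r hr => ⟨(Norm2_S G hr).1,
      (Norm2_S G hr).2.trans (Norm2_pn G (by norm_num))⟩)
    (u := 0) (L := N) (N := N) le_rfl (by omega) (by nlinarith)
    (hN.trans (Norm2_pn G (by norm_num)))
  have hp := pair_lam_le (R1 := 0) (R := v) (Z := v) (by omega)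
    (G.hτ Q (G.Q_bounds.2.trans (Norm2_pn G (by norm_num)))).1
    (fun r hr => (G.hτ r (hr.trans (Nat.le_self_pow (by norm_num) v))).1) 0 N 0
  have e : ∑ r ∈ RR Q 0 v, (r.totient : ℝ)⁻¹ ^ 2 * |ram r 0| = Sg (RR Q 0 v) := by
    refine sum_congr rfl fun r hr => ?_
    have : (r.totient : ℝ) ≠ 0 := by exact_mod_cast (Nat.totient_pos.2 (RR_pos hr)).ne'
    rw [ram_zero (RR_pos hr).ne', Nat.abs_cast]
    field_simp
  rw [zero_add] at hc
  simp only [zero_add, zero_mul, add_zero, e] at hp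
  have h1 : ∑ m ∈ (Ioc (0 : ℤ) N).filter (fun m => IsCoprime m (Q : ℤ)),
      lam (S2 v Q (PP v Q)) m * lam (S2 v Q (PP v Q)) m ≤
      CB ^ 2 * ∑ m ∈ (Ioc (0 : ℤ) N).filter (fun m => IsCoprime m (Q : ℤ)),
        lam (RR Q 0 v) m * lam (RR Q 0 v) m := by
    rw [mul_sum]
    refine sum_le_sum fun m hm => ?_
    have h := mem_Ioc.1 (mem_filter.1 hm).1
    have h' := sq_le_sq' (abs_le.1 (hCB m h.1 (h.2.trans (by exact_mod_cast hN)))).1
      (abs_le.1 (hCB m h.1 (h.2.trans (by exact_mod_cast hN)))).2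
    rw [lam_S2 (by omega) (PW_PP v Q), mul_mul_mul_comm, mul_comm, ← sq]
    exact mul_le_mul_of_nonneg_right h' (mul_self_nonneg _)
  have h2 : N * (Q.totient / Q) * Sg (RR Q 0 v) + (v : ℝ) ^ 2 * v ^ 5 ≤
      X * (Q.totient / Q) * Sg (RR Q 0 v) + (v : ℝ) ^ 7 :=
    add_le_add (mul_le_mul_of_nonneg_right (mul_le_mul_of_nonneg_right hX (by positivity))
      (Sg_nonneg _)) (le_of_eq (by ring))
  have h3 := mul_le_mul_of_nonneg_left (hp.trans h2) (sq_nonneg CB)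
  have h4 : (v : ℝ) ^ 719992 ≤ (v : ℝ) ^ 719995 := pow_le_pow_right₀ (by linarith) (by norm_num)
  have h5 := (abs_le.1 hc).2
  simp only [sq]
  simp only [sq] at h1 h3
  unfold FF at h5 ⊢
  linarith

theorem C12_le {X Lg ε : ℝ} (G : GP X v Q) (L : LP v Lg ε) {R1 R H t : ℕ}
    (hR1 : R1 ≤ v ^ 359680) (hR : R ≤ v ^ 360000) (hH : ((⌊X⌋₊ + 2 * H : ℕ) : ℝ) ≤ 2 * X)
    (ht : t ∈ range (2 * H)) :
    ∑ A ∈ red Q, FF Q (RR Q R1 R) (II ⌊X⌋₊ H t) A *
        FF Q (S2 v Q (PP v Q)) (Ioc (0 : ℤ) (⌊X⌋₊ : ℕ)) A ≤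
      16 * ε * Lg ^ 9 * X + 2 * (v : ℝ) ^ 719995 := by
  obtain ⟨hv', hv⟩ := Norm2_v G
  obtain ⟨hQ, -, hX, hN, hNQ⟩ := Norm2_N G
  generalize ⌊X⌋₊ = N at *
  have ht' := mem_range.1 ht
  have hc := corr_split (Ps := PP v Q) hv' hQ (lam (RR Q R1 R)) (lam_neg _)
    (fun j hj hj' y hy => phi_lam (ZP_of_GP G hj hj') hy _ fun r hr => ⟨RR_pos hr,
      (RR_le hr).trans (hR.trans (Norm2_pn G (by norm_num)))⟩)
    (u := t - 2 * H) (L := N + 2 * H) (N := N) (by omega) (by omega)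
    (by exact_mod_cast (show ((N + 2 * H : ℕ) : ℝ) ≤ 2 * v * Q by linarith [G.hQ0]))
    (by
      have a1 := Norm2_pr G (show 720000 < 720001 by norm_num)
      have a2 : (0 : ℝ) ≤ (v : ℝ) ^ 720000 := by positivity
      exact_mod_cast (show ((N + 2 * H : ℕ) : ℝ) ≤ (v : ℝ) ^ 720001 by linarith [G.hX1]))
  have hd := diag_le G L (PW_PP v Q) (PP_not_dvd v Q) hR1 hR hN
  have hε : 0 ≤ ε := by
    by_contra h
    have := mul_nonpos_of_nonpos_of_nonneg (not_le.1 h).le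
      (show (0 : ℝ) ≤ (v : ℝ) ^ 100000 by positivity)
    linarith [L.hε]
  have hL : 0 ≤ Lg := by linarith [L.hL1]
  have h1 : 16 * ε * Lg ^ 9 * N ≤ 16 * ε * Lg ^ 9 * X :=
    mul_le_mul_of_nonneg_left hX (by positivity)
  have h4 : (v : ℝ) ^ 719992 ≤ (v : ℝ) ^ 719995 := pow_le_pow_right₀ (by linarith) (by norm_num)
  have h5 := (abs_le.1 hc).2
  have h6 := (abs_le.1 hd).2
  unfold II
  unfold FF at h5 ⊢
  linarith

end Pool.Agent.Work.MP_5d318d_nt.Zh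
end
end
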